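import Pool.Agent.GP.Defs

/-!
Module A1: a nonscalar ideal of an irreducible Lie algebra on a space of prime dimension.

Proof. Let `S ≠ ⊥` be a `c`-stable subspace of minimal dimension (so `S` is simple). Define an
inductive predicate `Filt W r`: `Filt ⊥ 0`; if `Filt W r`, `f : S →ₗ V` is injective modulo `W`
(`f s ∈ W → s = 0`) and `c`-linear modulo `W` (`Y f(s) - f(Y s) ∈ W` for `Y ∈ c`), then
`Filt (W ⊔ f(S)) (r+1)`. Then `W` is `c`-stable and `dim W = r * dim S`. Claim: if `Filt W r` and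
`W ≠ ⊤`, `W ≠ ⊥`, then there is a bigger one: by irreducibility of `g` there is `X ∈ g` with
`X W ⊄ W`; for the first step `W_i → W_i ⊔ f(S)` in the construction of `W` (a second induction)
with `X (W_i ⊔ f(S)) ⊄ W`, the map `X ∘ f : S → V` is `c`-linear modulo `W`
(`Y X f(s) = X Y f(s) + ⁅Y, X⁆ f(s)` with `⁅Y, X⁆ ∈ c`, and `X W_i ⊆ W`), it is not `0` modulo `W`,
and its kernel modulo `W` is `c`-stable, so `0` by simplicity. Hence `Filt ⊤ r` for some `r`, and
`dim S ∣ p`. If `dim S = p`, `c` is irreducible. If `dim S = 1`: all quotients are the same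
character `χ : c → ℂ`, so every `Y ∈ c` is `χ(Y) + nilpotent` and `trace Y = p χ(Y)`; for
`X ∈ g`, `Y ∈ c`, `trace ⁅X, Y⁆ = 0` so `χ(⁅X, Y⁆) = 0`; so `N = {v | ∀ Y ∈ c, Y v = χ(Y) v}`,
which contains `S`, is `g`-stable, `N = ⊤`, and `c` is scalar, a contradiction.
-/

namespace Pool.Agent.GP

open Module

section A1

variable {p : ℕ}

/-- iterated extensions by copies of `S` -/
inductive A1Filt (c : Submodule ℂ (Matrix (Fin p) (Fin p) ℂ)) (S : Submodule ℂ (Fin p → ℂ)) :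
    Submodule ℂ (Fin p → ℂ) → ℕ → Prop
  | bot : A1Filt c S ⊥ 0
  | step {W : Submodule ℂ (Fin p → ℂ)} {r : ℕ} (h : A1Filt c S W r)
      (f : (Fin p → ℂ) →ₗ[ℂ] (Fin p → ℂ)) (hinj : ∀ s ∈ S, f s ∈ W → s = 0)
      (hlin : ∀ Y ∈ c, ∀ s ∈ S, Y.mulVec (f s) - f (Y.mulVec s) ∈ W) :
      A1Filt c S (W ⊔ S.map f) (r + 1)

variable {g c : Submodule ℂ (Matrix (Fin p) (Fin p) ℂ)} {S : Submodule ℂ (Fin p → ℂ)}

theorem A1Filt.stable (hS : ∀ Y ∈ c, ∀ s ∈ S, Y.mulVec s ∈ S) {W : Submodule ℂ (Fin p → ℂ)}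
    {r : ℕ} (h : A1Filt c S W r) : ∀ Y ∈ c, ∀ w ∈ W, Y.mulVec w ∈ W := by
  induction h with
  | bot =>
    intro Y _ w hw
    rw [Submodule.mem_bot] at hw
    subst hw
    rw [Matrix.mulVec_zero]
    exact Submodule.zero_mem _
  | @step W r h f hinj hlin ih =>
    intro Y hY w hw
    obtain ⟨u, hu, v, hv, rfl⟩ := Submodule.mem_sup.1 hw
    obtain ⟨s, hs, rfl⟩ := Submodule.mem_map.1 hv
    have h1 : Y.mulVec (u + f s) =
        (Y.mulVec u + (Y.mulVec (f s) - f (Y.mulVec s))) + f (Y.mulVec s) := by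
      rw [Matrix.mulVec_add]
      abel
    rw [h1]
    exact Submodule.add_mem_sup (Submodule.add_mem _ (ih Y hY u hu) (hlin Y hY s hs))
      (Submodule.mem_map_of_mem (hS Y hY s hs))

theorem A1Filt.finrank_eq {W : Submodule ℂ (Fin p → ℂ)} {r : ℕ} (h : A1Filt c S W r) :
    finrank ℂ W = r * finrank ℂ S := by
  induction h with
  | bot => simp
  | @step W r h f hinj hlin ih =>
    have hdis : W ⊓ S.map f = ⊥ := by
      rw [eq_bot_iff]
      rintro x ⟨hx1, hx2⟩
      obtain ⟨s, hs, rfl⟩ := Submodule.mem_map.1 hx2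
      have := hinj s hs hx1
      subst this
      simp
    have h1 := Submodule.finrank_sup_add_finrank_inf_eq W (S.map f)
    rw [hdis, finrank_bot, add_zero] at h1
    have h2 : finrank ℂ (S.map f) = finrank ℂ S := by
      have hker : LinearMap.ker (f.domRestrict S) = ⊥ := by
        rw [LinearMap.ker_eq_bot']
        intro s hs
        have hs' : f (s : Fin p → ℂ) = 0 := hs
        have := hinj s s.2 (by rw [hs']; exact Submodule.zero_mem _)
        exact Subtype.ext this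
      have hr : LinearMap.range (f.domRestrict S) = S.map f := LinearMap.range_domRestrict S f
      rw [← hr]
      exact LinearMap.finrank_range_of_inj (LinearMap.ker_eq_bot.1 hker)
    rw [h1, h2, ih]
    ring

theorem A1Filt.exists_map (hid : ∀ X ∈ g, ∀ Y ∈ c, X * Y - Y * X ∈ c)
    (hS : ∀ Y ∈ c, ∀ s ∈ S, Y.mulVec s ∈ S)
    (hmin : ∀ K : Submodule ℂ (Fin p → ℂ), K ≤ S → (∀ Y ∈ c, ∀ w ∈ K, Y.mulVec w ∈ K) →
      K = ⊥ ∨ K = S)
    (T : Submodule ℂ (Fin p → ℂ)) (hT : ∀ Y ∈ c, ∀ w ∈ T, Y.mulVec w ∈ T)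
    {X : Matrix (Fin p) (Fin p) ℂ} (hX : X ∈ g)
    {W : Submodule ℂ (Fin p → ℂ)} {r : ℕ} (h : A1Filt c S W r) :
    W ≤ T → (¬ ∀ w ∈ W, X.mulVec w ∈ T) → ∃ f : (Fin p → ℂ) →ₗ[ℂ] (Fin p → ℂ),
      (∀ s ∈ S, f s ∈ T → s = 0) ∧
      (∀ Y ∈ c, ∀ s ∈ S, Y.mulVec (f s) - f (Y.mulVec s) ∈ T) := by
  induction h with
  | bot =>
    intro _ hn
    exfalso
    apply hn
    intro w hw
    rw [Submodule.mem_bot] at hw
    subst hw
    rw [Matrix.mulVec_zero]
    exact Submodule.zero_mem _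
  | @step W r h f hinj hlin ih =>
    intro hWT hn
    by_cases hW : ∀ w ∈ W, X.mulVec w ∈ T
    · have hfT : ∀ s ∈ S, f s ∈ T := fun s hs =>
        hWT (Submodule.mem_sup_right (Submodule.mem_map_of_mem hs))
      have hex : ∃ s ∈ S, X.mulVec (f s) ∉ T := by
        by_contra hcon
        push Not at hcon
        apply hn
        intro w hw
        obtain ⟨u, hu, v, hv, rfl⟩ := Submodule.mem_sup.1 hw
        obtain ⟨s, hs, rfl⟩ := Submodule.mem_map.1 hv
        rw [Matrix.mulVec_add]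
        exact Submodule.add_mem _ (hW u hu) (hcon s hs)
      set F : (Fin p → ℂ) →ₗ[ℂ] (Fin p → ℂ) := X.mulVecLin ∘ₗ f with hF
      have hFapp : ∀ s, F s = X.mulVec (f s) := fun s => rfl
      have hlinF : ∀ Y ∈ c, ∀ s ∈ S, Y.mulVec (F s) - F (Y.mulVec s) ∈ T := by
        intro Y hY s hs
        have h1 : Y.mulVec (F s) - F (Y.mulVec s) =
            X.mulVec (Y.mulVec (f s) - f (Y.mulVec s)) - (X * Y - Y * X).mulVec (f s) := by
          rw [hFapp, hFapp, Matrix.mulVec_sub, Matrix.sub_mulVec, ← Matrix.mulVec_mulVec,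
            ← Matrix.mulVec_mulVec]
          abel
        rw [h1]
        exact Submodule.sub_mem _ (hW _ (hlin Y hY s hs)) (hT _ (hid X hX Y hY) _ (hfT s hs))
      refine ⟨F, ?_, hlinF⟩
      have hK := hmin (S ⊓ T.comap F) inf_le_left (by
        rintro Y hY w ⟨hw1, hw2⟩
        refine ⟨hS Y hY w hw1, ?_⟩
        show F (Y.mulVec w) ∈ T
        have h2 : F (Y.mulVec w) = Y.mulVec (F w) - (Y.mulVec (F w) - F (Y.mulVec w)) := by abel
        rw [h2]
        exact Submodule.sub_mem _ (hT Y hY _ hw2) (hlinF Y hY w hw1))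
      rcases hK with hK | hK
      · intro s hs hs2
        have : s ∈ S ⊓ T.comap F := ⟨hs, hs2⟩
        rw [hK] at this
        exact (Submodule.mem_bot ℂ).1 this
      · exfalso
        obtain ⟨s, hs, hs2⟩ := hex
        have : s ∈ S ⊓ T.comap F := by rw [hK]; exact hs
        exact hs2 this.2
    · exact ih (le_sup_left.trans hWT) hW

end A1

theorem ideal_irr {p : ℕ} (hp : p.Prime) (g c : Submodule ℂ (Matrix (Fin p) (Fin p) ℂ))
    (hbr : ∀ X ∈ g, ∀ Y ∈ g, X * Y - Y * X ∈ g)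
    (hirr : ∀ W : Submodule ℂ (Fin p → ℂ), (∀ X ∈ g, ∀ w ∈ W, X.mulVec w ∈ W) → W = ⊥ ∨ W = ⊤)
    (hcg : c ≤ g) (hid : ∀ X ∈ g, ∀ Y ∈ c, X * Y - Y * X ∈ c)
    (hns : ∃ X ∈ c, ∀ a : ℂ, X ≠ a • 1)
    (W : Submodule ℂ (Fin p → ℂ)) (hW : ∀ X ∈ c, ∀ w ∈ W, X.mulVec w ∈ W) :
    W = ⊥ ∨ W = ⊤ := by
  classical
  have : NeZero p := ⟨hp.ne_zero⟩
  have htop : (⊤ : Submodule ℂ (Fin p → ℂ)) ≠ ⊥ := top_ne_bot
  -- a stable subspace of minimal dimension
  obtain ⟨S, ⟨hS0, hS⟩, hSmin⟩ : ∃ S : Submodule ℂ (Fin p → ℂ),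
      (S ≠ ⊥ ∧ ∀ Y ∈ c, ∀ s ∈ S, Y.mulVec s ∈ S) ∧
      ∀ K : Submodule ℂ (Fin p → ℂ), (K ≠ ⊥ ∧ ∀ Y ∈ c, ∀ s ∈ K, Y.mulVec s ∈ K) →
        finrank ℂ S ≤ finrank ℂ K := by
    have hex : ∃ n : ℕ, ∃ S : Submodule ℂ (Fin p → ℂ),
        (S ≠ ⊥ ∧ ∀ Y ∈ c, ∀ s ∈ S, Y.mulVec s ∈ S) ∧ finrank ℂ S = n :=
      ⟨_, ⊤, ⟨htop, fun _ _ _ _ => Submodule.mem_top⟩, rfl⟩
    obtain ⟨S, hS, hSn⟩ := Nat.find_spec hex
    refine ⟨S, hS, fun K hK => ?_⟩
    rw [hSn]
    exact Nat.find_min' hex ⟨K, hK, rfl⟩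
  have hmin : ∀ K : Submodule ℂ (Fin p → ℂ), K ≤ S → (∀ Y ∈ c, ∀ w ∈ K, Y.mulVec w ∈ K) →
      K = ⊥ ∨ K = S := by
    intro K hKS hK
    by_cases h0 : K = ⊥
    · exact Or.inl h0
    · exact Or.inr (Submodule.eq_of_le_of_finrank_le hKS (hSmin K ⟨h0, hK⟩))
  -- the next step of the filtration
  have hnext : ∀ (T : Submodule ℂ (Fin p → ℂ)) (r : ℕ), A1Filt c S T r → T ≠ ⊤ →
      ∃ T', A1Filt c S T' (r + 1) := by
    intro T r hT hTt
    by_cases hTb : T = ⊥
    · subst hTb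
      refine ⟨_, A1Filt.step hT LinearMap.id (fun s _ hs => (Submodule.mem_bot ℂ).1 hs) ?_⟩
      intro Y _ s _
      simp
    · have hst := hT.stable hS
      have hex : ∃ X ∈ g, ¬ ∀ w ∈ T, X.mulVec w ∈ T := by
        by_contra hcon
        push Not at hcon
        rcases hirr T hcon with h | h
        · exact hTb h
        · exact hTt h
      obtain ⟨X, hX, hXn⟩ := hex
      obtain ⟨f, hf1, hf2⟩ := hT.exists_map hid hS hmin T hst hX le_rfl hXn
      exact ⟨_, A1Filt.step hT f hf1 hf2⟩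
  have hSpos : 0 < finrank ℂ S := by
    have := Submodule.nontrivial_iff_ne_bot.2 hS0
    exact Module.finrank_pos
  have hfill : ∃ r, A1Filt c S ⊤ r := by
    by_contra hcon
    push Not at hcon
    have hall : ∀ r, ∃ T, A1Filt c S T r := by
      intro r
      induction r with
      | zero => exact ⟨_, A1Filt.bot⟩
      | succ r ih =>
        obtain ⟨T, hT⟩ := ih
        exact hnext T r hT (fun h => hcon r (h ▸ hT))
    obtain ⟨T, hT⟩ := hall (p + 1)
    have h1 := hT.finrank_eq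
    have h2 : finrank ℂ T ≤ p := by
      simpa using Submodule.finrank_le T
    nlinarith
  obtain ⟨r, hr⟩ := hfill
  have hpr : p = r * finrank ℂ S := by
    have := hr.finrank_eq
    rwa [finrank_top, Module.finrank_fin_fun] at this
  have hdvd : finrank ℂ S ∣ p := ⟨r, by rw [mul_comm]; exact hpr⟩
  rcases (Nat.dvd_prime hp).1 hdvd with h1 | h1
  · -- the one-dimensional case
    exfalso
    obtain ⟨s0, hs0, hs0n⟩ := Submodule.exists_mem_ne_zero_of_ne_bot hS0
    have hspan : ∀ s ∈ S, ∃ a : ℂ, s = a • s0 := by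
      intro s hs
      have hSeq : Submodule.span ℂ {s0} = S := by
        apply Submodule.eq_of_le_of_finrank_le
        · rw [Submodule.span_singleton_le_iff_mem]
          exact hs0
        · rw [h1, finrank_span_singleton hs0n]
      rw [← hSeq, Submodule.mem_span_singleton] at hs
      obtain ⟨a, ha⟩ := hs
      exact ⟨a, ha.symm⟩
    have hchi : ∀ Y : Matrix (Fin p) (Fin p) ℂ, ∃ a : ℂ, Y ∈ c → Y.mulVec s0 = a • s0 := by
      intro Y
      by_cases hY : Y ∈ c
      · obtain ⟨a, ha⟩ := hspan _ (hS Y hY s0 hs0)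
        exact ⟨a, fun _ => ha⟩
      · exact ⟨0, fun h => absurd h hY⟩
    choose χ hχ using hchi
    have hχS : ∀ Y ∈ c, ∀ s ∈ S, Y.mulVec s = χ Y • s := by
      intro Y hY s hs
      obtain ⟨a, rfl⟩ := hspan s hs
      rw [Matrix.mulVec_smul, hχ Y hY, smul_comm]
    have hnil : ∀ Y ∈ c, ∀ (T : Submodule ℂ (Fin p → ℂ)) (r : ℕ), A1Filt c S T r →
        ∀ w ∈ T, ((Y - χ Y • (1 : Matrix (Fin p) (Fin p) ℂ)) ^ r).mulVec w = 0 := by
      intro Y hY T r hT
      induction hT with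
      | bot =>
        intro w hw
        rw [Submodule.mem_bot] at hw
        subst hw
        rw [Matrix.mulVec_zero]
      | @step T r hT f hinj hlin ih =>
        intro w hw
        rw [pow_succ, ← Matrix.mulVec_mulVec]
        apply ih
        obtain ⟨u, hu, v, hv, rfl⟩ := Submodule.mem_sup.1 hw
        obtain ⟨s, hs, rfl⟩ := Submodule.mem_map.1 hv
        have h2 : (Y - χ Y • (1 : Matrix (Fin p) (Fin p) ℂ)).mulVec (u + f s) =
            (Y.mulVec u - χ Y • u) + (Y.mulVec (f s) - f (Y.mulVec s)) := by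
          rw [hχS Y hY s hs, map_smul, Matrix.sub_mulVec, Matrix.mulVec_add, Matrix.smul_mulVec,
            Matrix.one_mulVec, smul_add]
          abel
        rw [h2]
        exact Submodule.add_mem _ (Submodule.sub_mem _ (hT.stable hS Y hY u hu)
          (Submodule.smul_mem _ _ hu)) (hlin Y hY s hs)
    have htrace : ∀ Y ∈ c, Y.trace = p * χ Y := by
      intro Y hY
      have h2 : (Y - χ Y • (1 : Matrix (Fin p) (Fin p) ℂ)) ^ r = 0 := by
        apply Matrix.mulVec_injective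
        ext1 w
        rw [hnil Y hY ⊤ r hr w Submodule.mem_top, Matrix.zero_mulVec]
      have h3 : IsNilpotent (Y - χ Y • (1 : Matrix (Fin p) (Fin p) ℂ)) := ⟨r, h2⟩
      have h4 := (Matrix.isNilpotent_trace_of_isNilpotent h3).eq_zero
      rw [Matrix.trace_sub, Matrix.trace_smul, Matrix.trace_one, Fintype.card_fin,
        smul_eq_mul, sub_eq_zero] at h4
      rw [h4, mul_comm]
    have hchi0 : ∀ X ∈ g, ∀ Y ∈ c, χ (X * Y - Y * X) = 0 := by
      intro X hX Y hY
      have h2 := htrace _ (hid X hX Y hY)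
      rw [Matrix.trace_sub, Matrix.trace_mul_comm, sub_self] at h2
      have hp0 : (p : ℂ) ≠ 0 := Nat.cast_ne_zero.2 hp.ne_zero
      rcases mul_eq_zero.1 h2.symm with h3 | h3
      · exact absurd h3 hp0
      · exact h3
    let N : Submodule ℂ (Fin p → ℂ) :=
      { carrier := {v | ∀ Y ∈ c, Y.mulVec v = χ Y • v}
        zero_mem' := by
          intro Y _
          rw [Matrix.mulVec_zero, smul_zero]
        add_mem' := by
          intro a b ha hb Y hY
          rw [Matrix.mulVec_add, ha Y hY, hb Y hY, smul_add]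
        smul_mem' := by
          intro a v hv Y hY
          rw [Matrix.mulVec_smul, hv Y hY, smul_comm] }
    have hNstab : ∀ X ∈ g, ∀ w ∈ N, X.mulVec w ∈ N := by
      intro X hX w hw Y hY
      have hw' : ∀ Z ∈ c, Z.mulVec w = χ Z • w := hw
      have h2 : (X * Y - Y * X).mulVec w = 0 := by
        rw [hw' _ (hid X hX Y hY), hchi0 X hX Y hY, zero_smul]
      rw [Matrix.sub_mulVec, ← Matrix.mulVec_mulVec, ← Matrix.mulVec_mulVec, hw' Y hY,
        sub_eq_zero, Matrix.mulVec_smul] at h2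
      exact h2.symm
    rcases hirr N hNstab with hN | hN
    · have : s0 ∈ N := fun Y hY => hχ Y hY
      rw [hN, Submodule.mem_bot] at this
      exact hs0n this
    · obtain ⟨X, hX, hXa⟩ := hns
      apply hXa (χ X)
      apply Matrix.mulVec_injective
      ext1 w
      have hw : w ∈ N := by rw [hN]; exact Submodule.mem_top
      have hw' : ∀ Z ∈ c, Z.mulVec w = χ Z • w := hw
      rw [hw' X hX, Matrix.smul_mulVec, Matrix.one_mulVec]
  · have hSt : S = ⊤ := by
      apply Submodule.eq_top_of_finrank_eq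
      rw [h1, Module.finrank_fin_fun]
    rcases hmin W (by rw [hSt]; exact le_top) hW with h | h
    · exact Or.inl h
    · exact Or.inr (h.trans hSt)

end Pool.Agent.GP
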