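import Pool.Agent.GP.Defs

/-!
Module A2: an irreducible Lie algebra of traceless operators has nondegenerate Killing form.
-/

namespace Pool.Agent.GP

open Module

attribute [local instance 100] LieRing.ofAssociativeRing in
theorem isKilling_of_irr {V : Type*} [AddCommGroup V] [Module ℂ V] [FiniteDimensional ℂ V]
    (L : LieSubalgebra ℂ (Module.End ℂ V)) [LieModule.IsIrreducible ℂ L V]
    (htr : ∀ x ∈ L, LinearMap.trace ℂ V x = 0) : LieAlgebra.IsKilling ℂ L := by
  have hfd : Module.Finite ℂ L := inferInstance
  have hf : LieModule.IsFaithful ℂ L V := by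
    rw [LieModule.isFaithful_iff]
    intro x y hxy
    apply Subtype.ext
    exact hxy
  have ht : LieAlgebra.HasTrivialRadical ℂ L :=
    LieAlgebra.hasTrivialRadical_of_isIrreducible_of_isFaithful ℂ L V fun x => htr x.1 x.2
  exact LieAlgebra.HasTrivialRadical.instIsKilling ℂ L

end Pool.Agent.GP
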