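import Pool.Agent.GP.Defs

/-!
Module A3: a Cartan subalgebra through a semisimple element.

Let `C = {x | ⁅B, x⁆ = 0}` and `H'` a Cartan
subalgebra of `C` (`LieAlgebra.exists_isCartanSubalgebra_engel`), `H` its image in `L`. `B` is
central in `C`, so it normalises `H'` and `B ∈ H'`. `H` is nilpotent. If `⁅x, h⁆ ∈ H` for all
`h ∈ H`, then `⁅x, B⁆ ∈ H ≤ C`, so `ad B (ad B x) = 0`, so `ad B x = 0` as `ad B` is semisimple,
so `x ∈ C` and `x` normalises `H'` in `C`, so `x ∈ H`.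
-/

namespace Pool.Agent.GP

open Module

/-- the centraliser of an element -/
def A3.cent {L : Type*} [LieRing L] [LieAlgebra ℂ L] (B : L) : LieSubalgebra ℂ L where
  carrier := {x | ⁅B, x⁆ = 0}
  zero_mem' := by simp
  add_mem' {x y} hx hy := by
    simp only [Set.mem_setOf_eq] at hx hy ⊢
    rw [lie_add, hx, hy, add_zero]
  smul_mem' c x hx := by
    simp only [Set.mem_setOf_eq] at hx ⊢
    rw [lie_smul, hx, smul_zero]
  lie_mem' {x y} hx hy := by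
    simp only [Set.mem_setOf_eq] at hx hy ⊢
    change ⁅B, x⁆ = 0 at hx
    change ⁅B, y⁆ = 0 at hy
    rw [leibniz_lie, hx, hy]
    simp

theorem exists_cartan {L : Type*} [LieRing L] [LieAlgebra ℂ L] [FiniteDimensional ℂ L]
    (B : L) (hB : (LieAlgebra.ad ℂ L B).IsSemisimple) :
    ∃ H : LieSubalgebra ℂ L, H.IsCartanSubalgebra ∧ B ∈ H := by
  have hss : ∀ x : L, ⁅B, ⁅B, x⁆⁆ = 0 → ⁅B, x⁆ = 0 := by
    intro x hx
    have h1 := (hB.isFinitelySemisimple).genEigenspace_eq_eigenspace (0 : ℂ)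
      (k := 2) (by norm_num)
    have h2 : x ∈ (LieAlgebra.ad ℂ L B).genEigenspace 0 2 := by
      have : ((LieAlgebra.ad ℂ L B).genEigenspace 0 ((2 : ℕ) : ℕ∞)) =
        LinearMap.ker ((LieAlgebra.ad ℂ L B - (0 : ℂ) • 1) ^ 2) :=
        Module.End.genEigenspace_nat
      rw [show (2 : ℕ∞) = ((2 : ℕ) : ℕ∞) from rfl, this, LinearMap.mem_ker]
      simp [pow_two, hx]
    rw [h1, Module.End.mem_eigenspace_iff] at h2
    simpa using h2
  set C := A3.cent B with hC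
  have memC : ∀ x : L, x ∈ C ↔ ⁅B, x⁆ = 0 := fun x => Iff.rfl
  have hBC : B ∈ C := by rw [memC]; simp
  obtain ⟨x0, hx0⟩ := LieAlgebra.exists_isCartanSubalgebra_engel ℂ C
  set H' := LieSubalgebra.engel ℂ x0
  have hBH : (⟨B, hBC⟩ : C) ∈ H' := by
    rw [← hx0.self_normalizing, LieSubalgebra.mem_normalizer_iff]
    rintro ⟨y, hy⟩ -
    have : ⁅(⟨B, hBC⟩ : C), (⟨y, hy⟩ : C)⁆ = 0 := by
      apply Subtype.ext
      rw [LieSubalgebra.coe_bracket]
      exact (memC y).1 hy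
    rw [this]
    exact H'.zero_mem
  have hnil : LieRing.IsNilpotent H' := hx0.nilpotent
  let g : H' →ₗ⁅ℂ⁆ L := C.incl.comp H'.incl
  have hmem : ∀ x : L, x ∈ g.range ↔ ∃ h : x ∈ C, (⟨x, h⟩ : C) ∈ H' := by
    intro x
    rw [LieHom.mem_range]
    constructor
    · rintro ⟨⟨⟨y, hy⟩, hy'⟩, rfl⟩
      exact ⟨hy, hy'⟩
    · rintro ⟨h, h'⟩
      exact ⟨⟨⟨x, h⟩, h'⟩, rfl⟩
  refine ⟨g.range, ⟨LieHom.isNilpotent_range g, ?_⟩, (hmem B).2 ⟨hBC, hBH⟩⟩
  apply le_antisymm _ (LieSubalgebra.le_normalizer _)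
  intro x hx
  rw [LieSubalgebra.mem_normalizer_iff'] at hx
  have hBx : ⁅B, x⁆ = 0 := by
    apply hss
    have := hx B ((hmem B).2 ⟨hBC, hBH⟩)
    obtain ⟨h, -⟩ := (hmem _).1 this
    exact (memC _).1 h
  have hxC : x ∈ C := (memC x).2 hBx
  refine (hmem x).2 ⟨hxC, ?_⟩
  rw [← hx0.self_normalizing, LieSubalgebra.mem_normalizer_iff']
  rintro ⟨y, hy⟩ hy'
  have := hx y ((hmem y).2 ⟨hy, hy'⟩)
  obtain ⟨h, h'⟩ := (hmem _).1 this
  exact h'

end Pool.Agent.GP
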