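import Pool.Agent.GP.A1
import Pool.Agent.GP.A2

/-!
Module A4: every nonscalar ideal contains the given semisimple element.

Hints. `B` is diagonalisable (`hBd`), so `ad B` on matrices is diagonalisable. If
`B * (B * Z - Z * B) - (B * Z - Z * B) * B = a • 1`, then `a = 0` (trace), so `(ad B)^2 Z = 0`,
so `ad B Z = 0`; if this holds for all `Z ∈ g`, then `B` commutes with `g`, so it is a scalar (its
eigenspaces are `g`-stable) and traceless, so `0`: contradiction. This proves the first claim.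
Second claim: let `c' = {X ∈ c | trace X = 0}`; it is an ideal of `g`, it contains `⁅g, c⁆`, and it
is not scalar (if `⁅X, Y⁆ = 0` for all `X ∈ g`, `Y ∈ c` then `Y` is a scalar), so by `ideal_irr`
it is irreducible, so by `isKilling_of_irr` the Lie algebra `c'` is Killing. `ad B` is a derivation
of `c'`; derivations of a Killing Lie algebra are inner (`LieDerivation.IsKilling`, file
`Mathlib/Algebra/Lie/Derivation/Killing.lean`: `range_ad_eq_top`), so there is `b ∈ c'` such that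
`B - b` commutes with `c'`; by Schur `B - b` is a scalar, traceless, so `B = b ∈ c`.
-/

namespace Pool.Agent.GP

open Module

/-- Schur: a matrix commuting with an irreducible set of matrices is a scalar. -/
theorem A4_schur {p : ℕ} (hp : 0 < p) (s : Set (Matrix (Fin p) (Fin p) ℂ))
    (hirr : ∀ W : Submodule ℂ (Fin p → ℂ), (∀ X ∈ s, ∀ w ∈ W, X.mulVec w ∈ W) → W = ⊥ ∨ W = ⊤)
    (B : Matrix (Fin p) (Fin p) ℂ) (hB : ∀ X ∈ s, B * X = X * B) : ∃ r : ℂ, B = r • 1 := by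
  have : Nonempty (Fin p) := ⟨⟨0, hp⟩⟩
  have : Nontrivial (Fin p → ℂ) := inferInstance
  obtain ⟨r, hr⟩ := Module.End.exists_eigenvalue (Matrix.toLin' B : Module.End ℂ (Fin p → ℂ))
  refine ⟨r, ?_⟩
  have hmem : ∀ w, w ∈ Module.End.eigenspace (Matrix.toLin' B : Module.End ℂ (Fin p → ℂ)) r ↔
      B.mulVec w = r • w := by
    intro w
    rw [Module.End.mem_eigenspace_iff, Matrix.toLin'_apply]
  have hst : ∀ X ∈ s, ∀ w ∈ Module.End.eigenspace (Matrix.toLin' B : Module.End ℂ (Fin p → ℂ)) r,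
      X.mulVec w ∈ Module.End.eigenspace (Matrix.toLin' B : Module.End ℂ (Fin p → ℂ)) r := by
    intro X hX w hw
    rw [hmem] at hw ⊢
    rw [Matrix.mulVec_mulVec, hB X hX, ← Matrix.mulVec_mulVec, hw, Matrix.mulVec_smul]
  rcases hirr _ hst with h | h
  · exact absurd h hr
  · have h2 : ∀ w, B.mulVec w = r • w := by
      intro w
      rw [← hmem, h]
      trivial
    apply Matrix.toLin'.injective
    apply LinearMap.ext
    intro w
    rw [Matrix.toLin'_apply, Matrix.toLin'_apply, h2, Matrix.smul_mulVec, Matrix.one_mulVec]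

theorem A4_trace_scalar {p : ℕ} (hp : 0 < p) (a : ℂ)
    (h : (a • (1 : Matrix (Fin p) (Fin p) ℂ)).trace = 0) : a = 0 := by
  rw [Matrix.trace_smul, Matrix.trace_one, Fintype.card_fin, smul_eq_mul] at h
  rcases mul_eq_zero.1 h with h | h
  · exact h
  · exact absurd (Nat.cast_eq_zero.1 h) (by omega)

theorem A4_trace_comm {p : ℕ} (X Y : Matrix (Fin p) (Fin p) ℂ) : (X * Y - Y * X).trace = 0 := by
  rw [Matrix.trace_sub, Matrix.trace_mul_comm, sub_self]

/-- for a diagonalisable `B`, `ad B` has no nilpotent part -/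
theorem A4_diag {p : ℕ} (B Z : Matrix (Fin p) (Fin p) ℂ)
    (hBd : ∀ v : Fin p → ℂ, v ∈ Submodule.span ℂ {w | ∃ r : ℂ, B.mulVec w = r • w})
    (h : B * (B * Z - Z * B) - (B * Z - Z * B) * B = 0) : B * Z - Z * B = 0 := by
  classical
  let s : Set (Fin p → ℂ) := {w | ∃ r : ℂ, B.mulVec w = r • w}
  have hs : ⊤ ≤ Submodule.span ℂ s := fun v _ => hBd v
  let b := Module.Basis.ofSpan hs
  have hb : ∀ i, ∃ r : ℂ, B.mulVec (b i) = r • b i := fun i =>
    Module.Basis.ofSpan_subset hs ⟨i, rfl⟩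
  choose r hr using hb
  -- coordinates of `B x`
  have hco : ∀ x i, b.repr (B.mulVec x) i = r i * b.repr x i := by
    intro x i
    have h1 : (b.coord i) ∘ₗ (Matrix.toLin' B) = r i • b.coord i := by
      refine b.ext fun j => ?_
      rw [LinearMap.comp_apply, Matrix.toLin'_apply, hr j, map_smul, LinearMap.smul_apply,
        Module.Basis.coord_apply, Module.Basis.repr_self, smul_eq_mul, smul_eq_mul]
      by_cases hij : j = i
      · rw [hij]
      · rw [Finsupp.single_apply, if_neg hij, mul_zero, mul_zero]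
    have h2 := LinearMap.congr_fun h1 x
    rw [LinearMap.comp_apply, Matrix.toLin'_apply, LinearMap.smul_apply, Module.Basis.coord_apply,
      Module.Basis.coord_apply, smul_eq_mul] at h2
    exact h2
  apply Matrix.toLin'.injective
  refine b.ext fun j => ?_
  rw [map_zero, LinearMap.zero_apply, Matrix.toLin'_apply]
  apply b.repr.injective
  rw [map_zero]
  ext i
  rw [Finsupp.zero_apply]
  have key : ∀ Y : Matrix (Fin p) (Fin p) ℂ, b.repr ((B * Y - Y * B).mulVec (b j)) i =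
      (r i - r j) * b.repr (Y.mulVec (b j)) i := by
    intro Y
    rw [Matrix.sub_mulVec, ← Matrix.mulVec_mulVec, ← Matrix.mulVec_mulVec, hr j,
      Matrix.mulVec_smul, map_sub, map_smul, Finsupp.sub_apply, Finsupp.smul_apply, hco,
      smul_eq_mul]
    ring
  have h1 := key (B * Z - Z * B)
  rw [h, key Z, Matrix.zero_mulVec, map_zero, Finsupp.zero_apply] at h1
  rw [key Z]
  rcases mul_eq_zero.1 h1.symm with h2 | h2
  · rw [h2, zero_mul]
  · exact h2

theorem A4_first {p : ℕ} (hp : 0 < p) (g : Submodule ℂ (Matrix (Fin p) (Fin p) ℂ))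
    (hirr : ∀ W : Submodule ℂ (Fin p → ℂ), (∀ X ∈ g, ∀ w ∈ W, X.mulVec w ∈ W) → W = ⊥ ∨ W = ⊤)
    (B : Matrix (Fin p) (Fin p) ℂ) (hBtr : B.trace = 0) (hB0 : B ≠ 0)
    (hBd : ∀ v : Fin p → ℂ, v ∈ Submodule.span ℂ {w | ∃ r : ℂ, B.mulVec w = r • w}) :
    ∃ Z ∈ g, ∀ a : ℂ, B * (B * Z - Z * B) - (B * Z - Z * B) * B ≠ a • 1 := by
  by_contra hcon
  push Not at hcon
  have hcomm : ∀ Z ∈ g, B * Z = Z * B := by
    intro Z hZ
    obtain ⟨a, ha⟩ := hcon Z hZ
    have h1 : a = 0 := by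
      apply A4_trace_scalar hp
      rw [← ha]
      exact A4_trace_comm _ _
    rw [h1, zero_smul] at ha
    exact sub_eq_zero.1 (A4_diag B Z hBd ha)
  obtain ⟨r, hr⟩ := A4_schur hp (g : Set (Matrix (Fin p) (Fin p) ℂ)) hirr B hcomm
  have h1 : r = 0 := by
    apply A4_trace_scalar hp
    rw [← hr]
    exact hBtr
  rw [h1, zero_smul] at hr
  exact hB0 hr

section lie

attribute [local instance 100] LieRing.ofAssociativeRing

/-- the Lie algebra of operators attached to a space of matrices closed under commutators -/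
noncomputable def A4_L {p : ℕ} (c : Submodule ℂ (Matrix (Fin p) (Fin p) ℂ))
    (hc : ∀ X ∈ c, ∀ Y ∈ c, X * Y - Y * X ∈ c) :
    LieSubalgebra ℂ (Module.End ℂ (Fin p → ℂ)) where
  toSubmodule := c.map (Matrix.toLin' : Matrix (Fin p) (Fin p) ℂ ≃ₗ[ℂ]
    ((Fin p → ℂ) →ₗ[ℂ] (Fin p → ℂ))).toLinearMap
  lie_mem' := by
    rintro x y ⟨X, hX, rfl⟩ ⟨Y, hY, rfl⟩
    refine ⟨X * Y - Y * X, hc X hX Y hY, ?_⟩
    rw [LieRing.of_associative_ring_bracket]
    show Matrix.toLin' (X * Y - Y * X) = _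
    rw [map_sub, Matrix.toLin'_mul, Matrix.toLin'_mul]
    rfl

theorem A4_mem' {p : ℕ} (c : Submodule ℂ (Matrix (Fin p) (Fin p) ℂ))
    (hc : ∀ X ∈ c, ∀ Y ∈ c, X * Y - Y * X ∈ c) (x : Module.End ℂ (Fin p → ℂ)) :
    x ∈ A4_L c hc ↔ ∃ X ∈ c, Matrix.toLin' X = x := Iff.rfl

theorem A4_mem {p : ℕ} (c : Submodule ℂ (Matrix (Fin p) (Fin p) ℂ))
    (hc : ∀ X ∈ c, ∀ Y ∈ c, X * Y - Y * X ∈ c) (X : Matrix (Fin p) (Fin p) ℂ) :
    Matrix.toLin' X ∈ A4_L c hc ↔ X ∈ c := by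
  rw [A4_mem']
  constructor
  · rintro ⟨Y, hY, h⟩
    rwa [← Matrix.toLin'.injective h]
  · intro h
    exact ⟨X, h, rfl⟩

theorem A4_second {p : ℕ} (hp : 0 < p) (c : Submodule ℂ (Matrix (Fin p) (Fin p) ℂ))
    (hc : ∀ X ∈ c, ∀ Y ∈ c, X * Y - Y * X ∈ c)
    (hirr : ∀ W : Submodule ℂ (Fin p → ℂ), (∀ X ∈ c, ∀ w ∈ W, X.mulVec w ∈ W) → W = ⊥ ∨ W = ⊤)
    (htr : ∀ X ∈ c, X.trace = 0) (B : Matrix (Fin p) (Fin p) ℂ) (hBtr : B.trace = 0)
    (hB : ∀ X ∈ c, B * X - X * B ∈ c) : B ∈ c := by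
  classical
  have : Nonempty (Fin p) := ⟨⟨0, hp⟩⟩
  have : Nontrivial (Fin p → ℂ) := inferInstance
  let L := A4_L c hc
  have hirrL : LieModule.IsIrreducible ℂ L (Fin p → ℂ) := by
    refine LieModule.IsIrreducible.mk fun N hN => ?_
    have hst : ∀ X ∈ c, ∀ w ∈ (N : Submodule ℂ (Fin p → ℂ)),
        X.mulVec w ∈ (N : Submodule ℂ (Fin p → ℂ)) := by
      intro X hX w hw
      have h1 := N.lie_mem (x := (⟨Matrix.toLin' X, (A4_mem c hc X).2 hX⟩ : L)) hw
      have h2 : ⁅(⟨Matrix.toLin' X, (A4_mem c hc X).2 hX⟩ : L), w⁆ = X.mulVec w := by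
        show (Matrix.toLin' X) w = _
        rw [Matrix.toLin'_apply]
      rw [h2] at h1
      exact h1
    rcases hirr _ hst with h | h
    · exact absurd ((LieSubmodule.toSubmodule_eq_bot _).1 h) hN
    · exact (LieSubmodule.toSubmodule_eq_top _).1 h
  have hK : LieAlgebra.IsKilling ℂ L := by
    apply isKilling_of_irr
    intro x hx
    obtain ⟨X, hX, rfl⟩ := (A4_mem' c hc x).1 hx
    rw [Matrix.trace_toLin'_eq]
    exact htr X hX
  let B' : Module.End ℂ (Fin p → ℂ) := Matrix.toLin' B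
  have hmem : ∀ x ∈ L, B' * x - x * B' ∈ L := by
    intro x hx
    obtain ⟨X, hX, rfl⟩ := (A4_mem' c hc x).1 hx
    refine (A4_mem' c hc _).2 ⟨B * X - X * B, hB X hX, ?_⟩
    rw [map_sub, Matrix.toLin'_mul, Matrix.toLin'_mul]
    rfl
  let Dl : L →ₗ[ℂ] L :=
    { toFun := fun x => ⟨B' * x.1 - x.1 * B', hmem x.1 x.2⟩
      map_add' := by
        intro x y
        apply Subtype.ext
        show B' * (x.1 + y.1) - (x.1 + y.1) * B' = (B' * x.1 - x.1 * B') + (B' * y.1 - y.1 * B')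
        noncomm_ring
      map_smul' := by
        intro a x
        apply Subtype.ext
        show B' * (a • x.1) - (a • x.1) * B' = a • (B' * x.1 - x.1 * B')
        rw [mul_smul_comm, smul_mul_assoc, smul_sub] }
  let D : LieDerivation ℂ L L :=
    { Dl with
      leibniz' := by
        intro x y
        apply Subtype.ext
        show B' * (x.1 * y.1 - y.1 * x.1) - (x.1 * y.1 - y.1 * x.1) * B' =
          (x.1 * (B' * y.1 - y.1 * B') - (B' * y.1 - y.1 * B') * x.1) -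
            (y.1 * (B' * x.1 - x.1 * B') - (B' * x.1 - x.1 * B') * y.1)
        simp only [mul_sub, sub_mul, mul_assoc]
        abel }
  obtain ⟨x, hx⟩ := LieDerivation.IsKilling.exists_eq_ad D
  obtain ⟨b, hb, hxb⟩ := (A4_mem' c hc x.1).1 x.2
  have hcomm : ∀ Y ∈ c, (B - b) * Y = Y * (B - b) := by
    intro Y hY
    have h1 : ⁅x, (⟨Matrix.toLin' Y, (A4_mem c hc Y).2 hY⟩ : L)⁆ =
        D (⟨Matrix.toLin' Y, (A4_mem c hc Y).2 hY⟩ : L) := by
      rw [← hx]
      simp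
    have h2 := congrArg Subtype.val h1
    have h3 : x.1 * Matrix.toLin' Y - Matrix.toLin' Y * x.1 =
        B' * Matrix.toLin' Y - Matrix.toLin' Y * B' := h2
    rw [← hxb] at h3
    have h4 : Matrix.toLin' (b * Y - Y * b) = Matrix.toLin' (B * Y - Y * B) := by
      rw [map_sub, map_sub, Matrix.toLin'_mul, Matrix.toLin'_mul, Matrix.toLin'_mul,
        Matrix.toLin'_mul]
      exact h3
    have h5 := Matrix.toLin'.injective h4
    rw [sub_mul, mul_sub]
    have h6 : B * Y - b * Y - (Y * B - Y * b) = (B * Y - Y * B) - (b * Y - Y * b) := by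
      noncomm_ring
    rw [← sub_eq_zero, h6, h5, sub_self]
  obtain ⟨r, hr⟩ := A4_schur hp (c : Set (Matrix (Fin p) (Fin p) ℂ)) hirr (B - b) hcomm
  have h1 : r = 0 := by
    apply A4_trace_scalar hp
    rw [← hr, Matrix.trace_sub, hBtr, htr b hb, sub_self]
  rw [h1, zero_smul, sub_eq_zero] at hr
  rw [hr]
  exact hb

end lie

theorem prime_ideal {p : ℕ} (hp : p.Prime) (g : Submodule ℂ (Matrix (Fin p) (Fin p) ℂ))
    (hbr : ∀ X ∈ g, ∀ Y ∈ g, X * Y - Y * X ∈ g)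
    (hirr : ∀ W : Submodule ℂ (Fin p → ℂ), (∀ X ∈ g, ∀ w ∈ W, X.mulVec w ∈ W) → W = ⊥ ∨ W = ⊤)
    (B : Matrix (Fin p) (Fin p) ℂ) (hB : B ∈ g) (hBtr : B.trace = 0) (hB0 : B ≠ 0)
    (hBd : ∀ v : Fin p → ℂ, v ∈ Submodule.span ℂ {w | ∃ r : ℂ, B.mulVec w = r • w}) :
    (∃ Z ∈ g, ∀ a : ℂ, B * (B * Z - Z * B) - (B * Z - Z * B) * B ≠ a • 1) ∧
    ∀ c : Submodule ℂ (Matrix (Fin p) (Fin p) ℂ), c ≤ g →
      (∀ X ∈ g, ∀ Y ∈ c, X * Y - Y * X ∈ c) → (∃ X ∈ c, ∀ a : ℂ, X ≠ a • 1) → B ∈ c := by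
  have hp0 : 0 < p := hp.pos
  refine ⟨A4_first hp0 g hirr B hBtr hB0 hBd, ?_⟩
  intro c hcg hid hns
  -- the traceless part
  let c' : Submodule ℂ (Matrix (Fin p) (Fin p) ℂ) :=
    c ⊓ LinearMap.ker (Matrix.traceLinearMap (Fin p) ℂ ℂ)
  have hc' : ∀ X, X ∈ c' ↔ X ∈ c ∧ X.trace = 0 := by
    intro X
    rw [Submodule.mem_inf, LinearMap.mem_ker, Matrix.traceLinearMap_apply]
  have hid' : ∀ X ∈ g, ∀ Y ∈ c, X * Y - Y * X ∈ c' := fun X hX Y hY =>
    (hc' _).2 ⟨hid X hX Y hY, A4_trace_comm X Y⟩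
  have hns' : ∃ X ∈ c', ∀ a : ℂ, X ≠ a • 1 := by
    by_contra hcon
    push Not at hcon
    obtain ⟨Y, hY, hYn⟩ := hns
    have hcomm : ∀ X ∈ g, Y * X = X * Y := by
      intro X hX
      obtain ⟨a, ha⟩ := hcon _ (hid' X hX Y hY)
      have h1 : a = 0 := by
        apply A4_trace_scalar hp0
        rw [← ha]
        exact A4_trace_comm _ _
      rw [h1, zero_smul, sub_eq_zero] at ha
      exact ha.symm
    obtain ⟨r, hr⟩ := A4_schur hp0 (g : Set (Matrix (Fin p) (Fin p) ℂ)) hirr Y hcomm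
    exact hYn r hr
  have hc'g : c' ≤ g := inf_le_left.trans hcg
  have hc'c : ∀ X ∈ c', X ∈ c := fun X hX => ((hc' X).1 hX).1
  have hirr' : ∀ W : Submodule ℂ (Fin p → ℂ), (∀ X ∈ c', ∀ w ∈ W, X.mulVec w ∈ W) →
      W = ⊥ ∨ W = ⊤ := fun W hW =>
    ideal_irr hp g c' hbr hirr hc'g (fun X hX Y hY => hid' X hX Y (hc'c Y hY)) hns' W hW
  exact hc'c B (A4_second hp0 c' (fun X hX Y hY => hid' X (hc'g hX) Y (hc'c Y hY)) hirr'
    (fun X hX => ((hc' X).1 hX).2) B hBtr (fun X hX => hid' B hB X (hc'c X hX)))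

end Pool.Agent.GP
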