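import Pool.Agent.GP.Defs

/-!
Module B1: finite-dimensional representations of `sl₂`.

Hints. Mathlib: `IsSl2Triple.HasPrimitiveVectorWith.exists_nat`, `pow_toEnd_f_ne_zero_of_eq_nat`,
`IsSl2Triple.symm`, `lie_h_pow_toEnd_e`. `sl2_int`: `e ^ k v` is eventually `0` (distinct
eigenvalues); the last nonzero one is primitive, so `μ + 2 k` is a natural number. `sl2_f_inj`:
induction on `k` with `e ^ k v = 0`, for all `n`: `k = 0` is trivial; for `k + 1` put `w = ⁅e, v⁆`,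
of eigenvalue `n + 2`; from `[e, f^m] v = m (n - m + 1) f^(m-1) v` and `f^n v = 0` one gets
`f^(n+2) w = e f^(n+2) v - 0 = 0`, so `w = 0` by induction; so `v` is primitive or `0` and
`f^n v ≠ 0` unless `v = 0`. `sl2_e_inj`: the symmetric triple. `sl2_fe`: let `u = ⁅e, v⁆ ≠ 0`,
`⁅f, u⁆ = 0`; then `u` is primitive for the symmetric triple, so `-(μ + 2) = m : ℕ`, and
`e^(m+1) u = 0`, so `e^(m+2) v = 0` with `v` of eigenvalue `-(m+2)`, against `sl2_e_inj`.
-/

namespace Pool.Agent.GP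

open Module

section sl2

variable {L V : Type*} [LieRing L] [LieAlgebra ℂ L] [AddCommGroup V] [Module ℂ V]
  [FiniteDimensional ℂ V] [LieRingModule L V] [LieModule ℂ L V] {h e f : L}

theorem B1_nil (t : IsSl2Triple h e f) (μ : ℂ) (v : V) (hv : ⁅h, v⁆ = μ • v) :
    ∃ k : ℕ, ((LieModule.toEnd ℂ L V e) ^ k) v = 0 := by
  by_contra! contra
  have h_inj : Function.Injective (fun n : ℕ => μ + 2 * (n : ℂ)) := fun a b hab => by
    simpa using hab
  have aux (ν : Set.range (fun n : ℕ => μ + 2 * (n : ℂ))) :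
      (LieModule.toEnd ℂ L V h).HasEigenvector ν
        (((LieModule.toEnd ℂ L V e) ^ (ν.property.choose)) v) := by
    set n := ν.property.choose
    refine ⟨?_, contra n⟩
    rw [Module.End.mem_eigenspace_iff, LieModule.toEnd_apply_apply, ← ν.property.choose_spec]
    exact t.lie_h_pow_toEnd_e hv n
  have _i := ((LieModule.toEnd ℂ L V h).eigenvectors_linearIndependent
    (Set.range (fun n : ℕ => μ + 2 * (n : ℂ))) _ aux).finite
  exact (Set.infinite_range_of_injective h_inj) (Set.toFinite _)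

theorem B1_h_f (t : IsSl2Triple h e f) (μ : ℂ) (v : V) (hv : ⁅h, v⁆ = μ • v) (n : ℕ) :
    ⁅h, ((LieModule.toEnd ℂ L V f) ^ n) v⁆ =
      (μ - 2 * n) • ((LieModule.toEnd ℂ L V f) ^ n) v := by
  induction n with
  | zero => simpa using hv
  | succ n ih =>
    rw [pow_succ', Module.End.mul_apply, LieModule.toEnd_apply_apply, Nat.cast_add, Nat.cast_one,
      leibniz_lie h, t.lie_lie_smul_f ℂ, ← neg_smul, ih, lie_smul, smul_lie, ← add_smul]
    congr
    ring

theorem B1_e_f (t : IsSl2Triple h e f) (μ : ℂ) (v : V) (hv : ⁅h, v⁆ = μ • v) (n : ℕ) :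
    ⁅e, ((LieModule.toEnd ℂ L V f) ^ (n + 1)) v⁆ =
      ((LieModule.toEnd ℂ L V f) ^ (n + 1)) ⁅e, v⁆ +
        ((n + 1) * (μ - n)) • ((LieModule.toEnd ℂ L V f) ^ n) v := by
  induction n with
  | zero =>
    simp only [zero_add, pow_one, LieModule.toEnd_apply_apply, Nat.cast_zero, sub_zero, one_mul,
      pow_zero, Module.End.one_apply, leibniz_lie e, t.lie_e_f, hv]
    abel
  | succ n ih =>
    rw [pow_succ', Module.End.mul_apply, LieModule.toEnd_apply_apply, leibniz_lie e, t.lie_e_f,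
      B1_h_f t μ v hv, ih, lie_add, lie_smul]
    have h1 : ⁅f, ((LieModule.toEnd ℂ L V f) ^ n) v⁆ = ((LieModule.toEnd ℂ L V f) ^ (n + 1)) v := by
      simp [pow_succ']
    have h2 : ⁅f, ((LieModule.toEnd ℂ L V f) ^ (n + 1)) ⁅e, v⁆⁆ =
        (LieModule.toEnd ℂ L V f * (LieModule.toEnd ℂ L V f) ^ (n + 1)) ⁅e, v⁆ := by
      simp
    rw [h1, h2]
    rw [add_left_comm, ← add_smul]
    congr 2
    push_cast
    ring

theorem sl2_int (t : IsSl2Triple h e f) (μ : ℂ) (v : V) (hv0 : v ≠ 0) (hv : ⁅h, v⁆ = μ • v) :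
    ∃ z : ℤ, μ = z := by
  obtain ⟨n, hn1, hn2⟩ := Nat.exists_not_and_succ_of_not_zero_of_exists
    (p := fun k => ((LieModule.toEnd ℂ L V e) ^ k) v = 0) (by simpa using hv0) (B1_nil t μ v hv)
  have P : t.HasPrimitiveVectorWith (((LieModule.toEnd ℂ L V e) ^ n) v) (μ + 2 * n) :=
    { ne_zero := hn1
      lie_h := t.lie_h_pow_toEnd_e hv n
      lie_e := by rwa [IsSl2Triple.lie_e_pow_toEnd_e n] }
  obtain ⟨m, hm⟩ := P.exists_nat
  refine ⟨m - 2 * n, ?_⟩
  push_cast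
  linear_combination hm

theorem B1_aux (t : IsSl2Triple h e f) (k : ℕ) : ∀ (n : ℕ) (v : V), ⁅h, v⁆ = (n : ℂ) • v →
    ((LieModule.toEnd ℂ L V f) ^ n) v = 0 → ((LieModule.toEnd ℂ L V e) ^ k) v = 0 → v = 0 := by
  induction k with
  | zero =>
    intro n v _ _ h3
    simpa using h3
  | succ k ih =>
    intro n v h1 h2 h3
    have hw : ⁅e, v⁆ = 0 := by
      refine ih (n + 2) ⁅e, v⁆ ?_ ?_ ?_
      · have := t.lie_h_pow_toEnd_e h1 1
        simp only [pow_one, LieModule.toEnd_apply_apply] at this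
        rw [this]
        push_cast
        ring_nf
      · have h4 := B1_e_f t n v h1 (n + 1)
        have h5 : ((LieModule.toEnd ℂ L V f) ^ (n + 1)) v = 0 := by
          rw [pow_succ', Module.End.mul_apply, h2, map_zero]
        have h6 : ((LieModule.toEnd ℂ L V f) ^ (n + 1 + 1)) v = 0 := by
          rw [pow_succ', Module.End.mul_apply, h5, map_zero]
        rw [h5, h6, lie_zero, smul_zero, add_zero] at h4
        exact h4.symm
      · rw [pow_succ, Module.End.mul_apply, LieModule.toEnd_apply_apply] at h3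
        exact h3
    by_contra h0
    have P : t.HasPrimitiveVectorWith v (n : ℂ) := { ne_zero := h0, lie_h := h1, lie_e := hw }
    exact P.pow_toEnd_f_ne_zero_of_eq_nat rfl le_rfl h2

theorem sl2_f_inj (t : IsSl2Triple h e f) (n : ℕ) (v : V) (hv : ⁅h, v⁆ = (n : ℂ) • v)
    (hf : ((LieModule.toEnd ℂ L V f) ^ n) v = 0) : v = 0 := by
  obtain ⟨k, hk⟩ := B1_nil t n v hv
  exact B1_aux t k n v hv hf hk

theorem sl2_e_inj (t : IsSl2Triple h e f) (n : ℕ) (v : V) (hv : ⁅h, v⁆ = (-n : ℂ) • v)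
    (he : ((LieModule.toEnd ℂ L V e) ^ n) v = 0) : v = 0 := by
  refine sl2_f_inj t.symm n v ?_ he
  rw [neg_lie, hv, neg_smul, neg_neg]

theorem sl2_fe (t : IsSl2Triple h e f) (μ : ℂ) (v : V) (hv : ⁅h, v⁆ = μ • v)
    (he : ⁅e, v⁆ ≠ 0) : ⁅f, ⁅e, v⁆⁆ ≠ 0 := by
  intro hfe
  have h1 : ⁅h, ⁅e, v⁆⁆ = (μ + 2) • ⁅e, v⁆ := by
    have := t.lie_h_pow_toEnd_e hv 1
    simpa using this
  have P : t.symm.HasPrimitiveVectorWith ⁅e, v⁆ (-(μ + 2)) :=
    { ne_zero := he
      lie_h := by rw [neg_lie, h1, neg_smul]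
      lie_e := hfe }
  obtain ⟨m, hm⟩ := P.exists_nat
  have h2 := P.pow_toEnd_f_eq_zero_of_eq_nat hm
  have hv0 : v = 0 := by
    refine sl2_e_inj t (m + 2) v ?_ ?_
    · rw [hv]
      congr 1
      push_cast
      linear_combination -hm
    · rw [pow_succ, Module.End.mul_apply, LieModule.toEnd_apply_apply]
      exact h2
  exact he (by rw [hv0, lie_zero])

theorem sl2_ef (t : IsSl2Triple h e f) (μ : ℂ) (v : V) (hv : ⁅h, v⁆ = μ • v)
    (hf : ⁅f, v⁆ ≠ 0) : ⁅e, ⁅f, v⁆⁆ ≠ 0 := by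
  refine sl2_fe t.symm (-μ) v ?_ hf
  rw [neg_lie, hv, neg_smul]

end sl2

end Pool.Agent.GP
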