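import Pool.Agent.GP.B3

/-!
Module B2: a basis of weight vectors.
-/

namespace Pool.Agent.GP

open Module

section lie

open LieAlgebra LieAlgebra.IsKilling

variable {L : Type*} [LieRing L] [LieAlgebra ℂ L] [FiniteDimensional ℂ L] [IsKilling ℂ L]
  (H : LieSubalgebra ℂ L) [H.IsCartanSubalgebra]
  (V : Type*) [AddCommGroup V] [Module ℂ V] [FiniteDimensional ℂ V]
  [LieRingModule L V] [LieModule ℂ L V]

theorem WS_indep : iSupIndep (fun μ : Dual ℂ H => WS H V μ) := by
  have hcomm : ∀ h h' : H, Commute (LieModule.toEnd ℂ H V h) (LieModule.toEnd ℂ H V h') := by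
    intro h h'
    apply LinearMap.ext
    intro v
    show ⁅h, ⁅h', v⁆⁆ = ⁅h', ⁅h, v⁆⁆
    rw [leibniz_lie, trivial_lie_zero H H h h', zero_lie, zero_add]
  have h1 := Module.End.independent_iInf_maxGenEigenspace_of_forall_mapsTo
    (fun h : H => LieModule.toEnd ℂ H V h)
    (fun i j φ => Module.End.mapsTo_maxGenEigenspace_of_comm (hcomm j i) φ)
  have hinj : Function.Injective (fun μ : Dual ℂ H => (fun h : H => μ h)) := by
    intro μ ν h
    ext x
    exact congrFun h x
  refine (h1.comp hinj).mono fun μ v hv => ?_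
  rw [Function.comp_apply, Submodule.mem_iInf]
  intro h
  apply Module.End.mem_maxGenEigenspace _ _ _ |>.mpr
  refine ⟨1, ?_⟩
  rw [pow_one, LinearMap.sub_apply, LinearMap.smul_apply, sub_eq_zero]
  exact hv h

theorem WS_iSup [LieModule.IsIrreducible ℂ L V] : ⨆ μ : Dual ℂ H, WS H V μ = ⊤ := by
  obtain ⟨T⟩ := nonempty_trip H
  obtain ⟨b⟩ := (rootSystem H).nonempty_base
  have hstab : ∀ (x : L) (v : V), v ∈ ⨆ μ : Dual ℂ H, WS H V μ →
      ⁅x, v⁆ ∈ ⨆ μ : Dual ℂ H, WS H V μ := by
    intro x v hv
    refine Submodule.span_induction (p := fun x _ => ⁅x, v⁆ ∈ ⨆ μ : Dual ℂ H, WS H V μ)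
      ?_ ?_ ?_ ?_ (T.mem_span b x)
    · intro x hx
      refine Submodule.iSup_induction (fun μ : Dual ℂ H => WS H V μ)
        (motive := fun v => ⁅x, v⁆ ∈ ⨆ μ : Dual ℂ H, WS H V μ) hv ?_ ?_ ?_
      · intro μ v hv
        rcases hx with (hx | ⟨i, _, rfl⟩) | ⟨i, _, rfl⟩
        · have h1 : ⁅x, v⁆ = μ ⟨x, hx⟩ • v := hv ⟨x, hx⟩
          rw [h1]
          exact Submodule.smul_mem _ _ (Submodule.mem_iSup_of_mem μ hv)
        · exact Submodule.mem_iSup_of_mem _ (T.e_mem i μ v hv)
        · exact Submodule.mem_iSup_of_mem _ (T.f_mem i μ v hv)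
      · rw [lie_zero]
        exact Submodule.zero_mem _
      · intro v w hv hw
        rw [lie_add]
        exact Submodule.add_mem _ hv hw
    · rw [zero_lie]
      exact Submodule.zero_mem _
    · intro x y _ _ hx hy
      rw [add_lie]
      exact Submodule.add_mem _ hx hy
    · intro c x _ hx
      rw [smul_lie]
      exact Submodule.smul_mem _ _ hx
  let S : LieSubmodule ℂ L V :=
    { (⨆ μ : Dual ℂ H, WS H V μ) with lie_mem := fun {x v} hv => hstab x v hv }
  have hnt : Nontrivial V := by
    rcases subsingleton_or_nontrivial V with h | h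
    · have h1 : Subsingleton (LieSubmodule ℂ L V) := by
        constructor
        intro N N'
        ext v
        rw [Subsingleton.elim v 0]
        exact ⟨fun _ => N'.zero_mem, fun _ => N.zero_mem⟩
      exact (not_subsingleton (LieSubmodule ℂ L V) h1).elim
    · exact h
  have hne : S ≠ ⊥ := by
    obtain ⟨χ, hχ⟩ := LieModule.exists_nontrivial_weightSpace_of_isNilpotent ℂ H V
    obtain ⟨⟨v, hv⟩, hv0⟩ := exists_ne (0 : LieModule.weightSpace V χ)
    rw [LieModule.mem_weightSpace] at hv
    intro hS
    have h1 : v ∈ S := Submodule.mem_iSup_of_mem χ (fun h => hv h)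
    rw [hS, LieSubmodule.mem_bot] at h1
    exact hv0 (Subtype.ext h1)
  have htop : S = ⊤ := (IsSimpleOrder.eq_bot_or_eq_top S).resolve_left hne
  have h2 : S.toSubmodule = ⊤ := by rw [htop]; rfl
  exact h2

theorem exists_weight_basis [LieModule.IsIrreducible ℂ L V] (n : ℕ) (hn : finrank ℂ V = n) :
    ∃ (v : Basis (Fin n) ℂ V) (wt : Fin n → Dual ℂ H), ∀ a, v a ∈ WS H V (wt a) := by
  classical
  obtain ⟨s, hs, hspan, hli⟩ := exists_linearIndependent ℂ
    (⋃ μ : Dual ℂ H, (WS H V μ : Set V))
  have htop : ⊤ ≤ Submodule.span ℂ (Set.range ((↑) : s → V)) := by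
    rw [Subtype.range_coe, hspan, Submodule.span_iUnion]
    simp only [Submodule.span_eq]
    rw [WS_iSup H V]
  let B : Basis s ℂ V := Basis.mk hli htop
  have : Fintype s := FiniteDimensional.fintypeBasisIndex B
  have hcard : Fintype.card s = n := by
    rw [← hn, finrank_eq_card_basis B]
  let e : s ≃ Fin n := Fintype.equivFinOfCardEq hcard
  have hw : ∀ a : Fin n, ∃ μ : Dual ℂ H, (B.reindex e) a ∈ WS H V μ := by
    intro a
    rw [Basis.reindex_apply, Basis.mk_apply]
    have := hs (e.symm a).2
    rw [Set.mem_iUnion] at this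
    exact this
  choose wt hwt using hw
  exact ⟨B.reindex e, wt, hwt⟩

variable {H V} in
/-- the dimension of a weight space, read off from a basis of weight vectors -/
theorem finrank_WS {n : ℕ} (v : Basis (Fin n) ℂ V) (wt : Fin n → Dual ℂ H)
    (hv : ∀ a, v a ∈ WS H V (wt a)) (μ : Dual ℂ H) :
    finrank ℂ (WS H V μ) = Nat.card {a // wt a = μ} := by
  classical
  have hli : LinearIndependent ℂ (fun a : {a // wt a = μ} => v a) :=
    v.linearIndependent.comp _ Subtype.val_injective
  have heq : WS H V μ = Submodule.span ℂ (Set.range fun a : {a // wt a = μ} => v a) := by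
    apply le_antisymm
    · intro x hx
      have hc : ∀ a, wt a ≠ μ → v.repr x a = 0 := by
        intro a ha
        obtain ⟨h, hh⟩ : ∃ h, wt a h ≠ μ h := by
          by_contra hcon
          push Not at hcon
          exact ha (LinearMap.ext hcon)
        have h1 : ⁅(h : L), x⁆ = ∑ a, (v.repr x a * wt a h) • v a := by
          conv_lhs => rw [← v.sum_repr x]
          rw [lie_sum]
          apply Finset.sum_congr rfl
          intro a _
          rw [lie_smul, hv a h, smul_smul]
        have h2 : v.repr ⁅(h : L), x⁆ a = v.repr x a * wt a h := by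
          rw [h1, map_sum, Finsupp.finsetSum_apply, Finset.sum_eq_single a]
          · simp
          · intro c _ hc
            simp [hc]
          · intro h; exact (h (Finset.mem_univ a)).elim
        have h3 : v.repr ⁅(h : L), x⁆ a = μ h * v.repr x a := by
          rw [hx h, map_smul]
          rfl
        have h4 : v.repr x a * (wt a h - μ h) = 0 := by
          linear_combination h3 - h2
        exact (mul_eq_zero.mp h4).resolve_right (sub_ne_zero.mpr hh)
      rw [← v.sum_repr x]
      apply Submodule.sum_mem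
      intro a _
      by_cases ha : wt a = μ
      · exact Submodule.smul_mem _ _ (Submodule.subset_span ⟨⟨a, ha⟩, rfl⟩)
      · rw [hc a ha, zero_smul]
        exact Submodule.zero_mem _
    · rw [Submodule.span_le]
      rintro _ ⟨⟨a, rfl⟩, rfl⟩
      exact hv a
  rw [heq, finrank_span_eq_card hli, Nat.card_eq_fintype_card]

end lie

end Pool.Agent.GP
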