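import Pool.Agent.GP.Defs

/-!
Module B3: standard triples.

Hints. `LieAlgebra.IsKilling.exists_isSl2Triple_of_weight_isNonZero`, `IsSl2Triple.h_eq_coroot`,
`lie_eq_smul_of_mem_rootSpace`. `ef_zero`: `⁅T.e i, T.f j⁆` is in the root space of
`root i - root j`, which is not `0` and not a root (`RootPairing.Base.sub_notMem_range_root`), so
this root space is `⊥`.
-/

namespace Pool.Agent.GP

open Module

section lie

open LieAlgebra LieAlgebra.IsKilling LieModule

variable {L : Type*} [LieRing L] [LieAlgebra ℂ L] [FiniteDimensional ℂ L] [IsKilling ℂ L]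
  (H : LieSubalgebra ℂ L) [H.IsCartanSubalgebra]
  (V : Type*) [AddCommGroup V] [Module ℂ V] [FiniteDimensional ℂ V]
  [LieRingModule L V] [LieModule ℂ L V]

theorem nonempty_trip : Nonempty (Trip H) := by
  have h : ∀ i : H.root, ∃ e f : L, e ∈ rootSpace H (i.1 : H → ℂ) ∧
      f ∈ rootSpace H (-(i.1 : H → ℂ)) ∧ ⁅e, f⁆ = (coroot i.1 : L) := by
    intro i
    have hnz : i.1.IsNonZero := LieSubalgebra.isNonZero_coe_root i
    obtain ⟨h, e, f, ht, he, hf⟩ := exists_isSl2Triple_of_weight_isNonZero hnz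
    exact ⟨e, f, he, hf, by rw [ht.lie_e_f, ht.h_eq_coroot hnz he hf]⟩
  choose e f h1 h2 h3 using h
  exact ⟨⟨e, f, h1, h2, h3⟩⟩

variable {H} in
lemma B3_lie_e (T : Trip H) (i : H.root) (h : H) : ⁅(h : L), T.e i⁆ = i.1 h • T.e i := by
  have := lie_eq_smul_of_mem_rootSpace (T.he i) h
  exact this

variable {H} in
lemma B3_lie_f (T : Trip H) (i : H.root) (h : H) : ⁅(h : L), T.f i⁆ = -(i.1 h) • T.f i := by
  have := lie_eq_smul_of_mem_rootSpace (T.hf i) h
  exact this

variable {H} in
theorem Trip.isSl2 (T : Trip H) (i : H.root) :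
    IsSl2Triple (coroot i.1 : L) (T.e i) (T.f i) := by
  have hnz : i.1.IsNonZero := LieSubalgebra.isNonZero_coe_root i
  refine ⟨?_, T.hef i, ?_, ?_⟩
  · intro h
    have h3 : coroot i.1 = 0 := by
      apply Subtype.ext
      exact h
    rw [coroot_eq_zero_iff] at h3
    exact hnz h3
  · rw [B3_lie_e, root_apply_coroot hnz, ← Nat.cast_smul_eq_nsmul ℂ]
    norm_num
  · rw [B3_lie_f, root_apply_coroot hnz, ← Nat.cast_smul_eq_nsmul ℂ]
    norm_num

variable {H V} in
omit [FiniteDimensional ℂ V] in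
lemma B3_weight {x : L} {c : H → ℂ} (hx : ∀ h : H, ⁅(h : L), x⁆ = c h • x)
    (μ ν : Dual ℂ H) (hν : ∀ h, ν h = μ h + c h) (v : V) (hv : v ∈ WS H V μ) :
    ⁅x, v⁆ ∈ WS H V ν := by
  rw [mem_WS] at hv ⊢
  intro h
  rw [leibniz_lie, hx h, hv h, smul_lie, lie_smul, ← add_smul, hν h, add_comm]

variable {H V} in
omit [FiniteDimensional ℂ V] in
theorem Trip.e_mem' (T : Trip H) (i : H.root) (μ : Dual ℂ H) (v : V) (hv : v ∈ WS H V μ) :
    ⁅T.e i, v⁆ ∈ WS H V (μ + (rootSystem H).root i) :=
  B3_weight (c := fun h => i.1 h) (B3_lie_e T i) μ _ (fun h => rfl) v hv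

variable {H V} in
theorem Trip.e_mem (T : Trip H) (i : H.root) (μ : Dual ℂ H) (v : V) (hv : v ∈ WS H V μ) :
    ⁅T.e i, v⁆ ∈ WS H V (μ + (rootSystem H).root i) := T.e_mem' i μ v hv

variable {H V} in
theorem Trip.f_mem (T : Trip H) (i : H.root) (μ : Dual ℂ H) (v : V) (hv : v ∈ WS H V μ) :
    ⁅T.f i, v⁆ ∈ WS H V (μ - (rootSystem H).root i) :=
  B3_weight (c := fun h => -(i.1 h)) (B3_lie_f T i) μ _ (fun h => by
    rw [LinearMap.sub_apply, sub_eq_add_neg]
    rfl) v hv

variable {H} in
theorem Trip.ef_zero (T : Trip H) (b : (rootSystem H).Base) (i j : H.root) (hi : i ∈ b.support)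
    (hj : j ∈ b.support) (hij : i ≠ j) : ⁅T.e i, T.f j⁆ = 0 := by
  have h1 : ⁅T.e i, T.f j⁆ ∈ rootSpace H ((i.1 : H → ℂ) + (-(j.1 : H → ℂ))) :=
    lie_mem_genWeightSpace_of_mem_genWeightSpace (T.he i) (T.hf j)
  have h2 : rootSpace H ((i.1 : H → ℂ) + (-(j.1 : H → ℂ))) = ⊥ := by
    by_contra hne
    set χ : Weight ℂ H L := ⟨(i.1 : H → ℂ) + (-(j.1 : H → ℂ)), hne⟩ with hχ
    by_cases hz : χ.IsZero
    · apply hij
      have h3 : (i.1 : H → ℂ) + (-(j.1 : H → ℂ)) = 0 := hz
      have h4 : (i.1 : H → ℂ) = (j.1 : H → ℂ) := by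
        rwa [← sub_eq_add_neg, sub_eq_zero] at h3
      apply Subtype.ext
      apply DFunLike.coe_injective
      exact h4
    · apply b.sub_notMem_range_root hi hj
      refine ⟨⟨χ, by simpa using hz⟩, ?_⟩
      apply LinearMap.ext
      intro h
      rw [LinearMap.sub_apply]
      change (i.1 : H → ℂ) h + (-(j.1 : H → ℂ)) h = _
      rw [Pi.neg_apply, ← sub_eq_add_neg]
      rfl
  rw [h2] at h1
  simpa using h1

variable {H} in
lemma B3_root_span (i : H.root) {e : L} (he : e ∈ rootSpace H (i.1 : H → ℂ)) (he0 : e ≠ 0)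
    {x : L} (hx : x ∈ rootSpace H (i.1 : H → ℂ)) : ∃ c : ℂ, x = c • e := by
  have hnz : i.1.IsNonZero := LieSubalgebra.isNonZero_coe_root i
  obtain ⟨c, hc⟩ := (finrank_eq_one_iff_of_nonzero' ⟨e, he⟩
    (by rwa [ne_eq, LieSubmodule.mk_eq_zero])).mp (finrank_rootSpace_eq_one i.1 hnz) ⟨x, hx⟩
  exact ⟨c, by simpa using hc.symm⟩

variable {H} in
/-- the Lie algebra is spanned by the Cartan subalgebra and the root vectors -/
theorem Trip.mem_span (T : Trip H) (b : (rootSystem H).Base) (x : L) :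
    x ∈ Submodule.span ℂ ((H : Set L) ∪ (T.e '' (posF b : Set H.root)) ∪
      (T.f '' (posF b : Set H.root))) := by
  set S := Submodule.span ℂ ((H : Set L) ∪ (T.e '' (posF b : Set H.root)) ∪
      (T.f '' (posF b : Set H.root))) with hS
  have key : ∀ χ : Weight ℂ H L, (genWeightSpace L χ : LieSubmodule ℂ H L).toSubmodule ≤ S := by
    intro χ y hy
    by_cases hz : χ.IsZero
    · have h0 : (χ : H → ℂ) = 0 := hz
      have hy' : y ∈ (genWeightSpace L (χ : H → ℂ) : LieSubmodule ℂ H L) := hy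
      rw [h0] at hy'
      have hy2 : y ∈ rootSpace H 0 := hy'
      rw [rootSpace_zero_eq ℂ L H] at hy2
      apply Submodule.subset_span
      left; left
      exact hy2
    · have hnz : χ.IsNonZero := hz
      set i : H.root := ⟨χ, by simpa using hz⟩ with hi
      rcases RootPairing.Base.IsPos.or_neg b i with hp | hp
      · obtain ⟨c, hc⟩ := B3_root_span i (T.he i) (T.isSl2 i).e_ne_zero (x := y) hy
        rw [hc]
        apply Submodule.smul_mem
        apply Submodule.subset_span
        left; right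
        exact ⟨i, (mem_posF b i).mpr hp, rfl⟩
      · letI := (rootSystem H).indexNeg
        set j : H.root := -i with hj
        have hroot : (rootSystem H).root j = -(rootSystem H).root i := by
          rw [hj, RootPairing.indexNeg_neg, RootPairing.root_reflectionPerm,
            RootPairing.reflection_apply_self]
        have hfun : -(j.1 : H → ℂ) = (i.1 : H → ℂ) := by
          funext h
          have := congrArg (fun (l : Dual ℂ H) => l h) hroot
          have h5 : j.1 h = -(i.1 h) := this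
          rw [Pi.neg_apply, h5, neg_neg]
        have hfm : T.f j ∈ rootSpace H (i.1 : H → ℂ) := by
          have := T.hf j
          rwa [hfun] at this
        obtain ⟨c, hc⟩ := B3_root_span i hfm (T.isSl2 j).f_ne_zero (x := y) hy
        rw [hc]
        apply Submodule.smul_mem
        apply Submodule.subset_span
        right
        exact ⟨j, (mem_posF b j).mpr hp, rfl⟩
  have htop : (⊤ : Submodule ℂ L) ≤ S := by
    have h1 := iSup_genWeightSpace_eq_top' ℂ H L
    have h2 : (⨆ χ : Weight ℂ H L, (genWeightSpace L χ : LieSubmodule ℂ H L)).toSubmodule =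
        (⊤ : Submodule ℂ L) := by
      rw [h1]
      rfl
    rw [← h2, LieSubmodule.iSup_toSubmodule]
    exact iSup_le key
  exact htop Submodule.mem_top

end lie

end Pool.Agent.GP
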