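import Pool.Agent.GP.Defs

/-!
Module W1: the half sum of the positive roots.
-/

namespace Pool.Agent.GP

open Module

section rootsystem

variable {ι M N : Type*} [Fintype ι] [AddCommGroup M] [Module ℂ M] [AddCommGroup N] [Module ℂ N]
  {P : RootPairing ι ℂ M N} [P.IsRootSystem] [P.IsCrystallographic] [P.IsReduced] (b : P.Base)

omit [Fintype ι] [P.IsRootSystem] [P.IsCrystallographic] [P.IsReduced] in
theorem W1_neg_iff (i : ι) : b.IsPos (P.reflectionPerm i i) ↔ ¬ b.IsPos i :=
  RootPairing.Base.IsPos.neg_iff_not b i

omit [Fintype ι] [P.IsRootSystem] [P.IsCrystallographic] [P.IsReduced] in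
theorem W1_neg_neg (i : ι) :
    P.reflectionPerm (P.reflectionPerm i i) (P.reflectionPerm i i) = i := by
  apply P.root.injective
  rw [P.root_reflectionPerm, P.reflection_apply_self, P.root_reflectionPerm,
    P.reflection_apply_self, neg_neg]

omit [Fintype ι] [P.IsRootSystem] [P.IsCrystallographic] [P.IsReduced] in
theorem W1_refl_neg (i j : ι) :
    P.reflectionPerm j (P.reflectionPerm i i) =
      P.reflectionPerm (P.reflectionPerm j i) (P.reflectionPerm j i) := by
  apply P.root.injective
  rw [P.root_reflectionPerm, P.root_reflectionPerm i i, P.reflection_apply_self,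
    P.root_reflectionPerm (P.reflectionPerm j i) (P.reflectionPerm j i),
    P.reflection_apply_self, P.root_reflectionPerm, map_neg]

omit [P.IsRootSystem] in
/-- the reflection in a simple root permutes the other positive roots -/
theorem W1_refl_iff (i j : ι) (hj : j ∈ b.support) (h1 : i ≠ j)
    (h2 : i ≠ P.reflectionPerm j j) : b.IsPos (P.reflectionPerm j i) ↔ b.IsPos i := by
  by_cases h : b.IsPos i
  · exact ⟨fun _ => h, fun _ => h.reflectionPerm hj h1⟩
  · have h3 : b.IsPos (P.reflectionPerm i i) := (W1_neg_iff b i).mpr h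
    have h4 : P.reflectionPerm i i ≠ j := by
      intro h5
      apply h2
      rw [← h5, W1_neg_neg]
    have h5 := h3.reflectionPerm hj h4
    rw [W1_refl_neg, W1_neg_iff] at h5
    exact ⟨fun h6 => (h5 h6).elim, fun h6 => (h h6).elim⟩

omit [P.IsRootSystem] in
theorem W1_flip_of_pos (i : ι) (hi : b.IsPos i) : b.flip.IsPos i ↔ b.IsPos i := by
  have : P.flip.IsReduced := inferInstance
  refine hi.induction_on_reflect (p := fun i => b.flip.IsPos i ↔ b.IsPos i) ?_ ?_
  · intro i hi
    exact ⟨fun _ => RootPairing.Base.isPos_of_mem_support hi,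
      fun _ => RootPairing.Base.isPos_of_mem_support (b := b.flip) hi⟩
  · intro i j hp hj
    by_cases h1 : i = j
    · subst h1
      have e1 := W1_neg_iff b i
      have e2 := W1_neg_iff b.flip i
      have e3 : P.flip.reflectionPerm i i = P.reflectionPerm i i := rfl
      rw [e3] at e2
      rw [e1, e2, hp]
    · by_cases h2 : i = P.reflectionPerm j j
      · have e0 : P.reflectionPerm j i = j := by
          rw [h2, P.reflectionPerm_self]
        rw [e0]
        exact ⟨fun _ => RootPairing.Base.isPos_of_mem_support hj,
          fun _ => RootPairing.Base.isPos_of_mem_support (b := b.flip) hj⟩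
      · have e1 := W1_refl_iff b i j hj h1 h2
        have e2 := W1_refl_iff b.flip i j hj h1 h2
        have e3 : P.flip.reflectionPerm j i = P.reflectionPerm j i := rfl
        rw [e3] at e2
        rw [e1, e2, hp]

theorem flip_isPos (i : ι) : b.flip.IsPos i ↔ b.IsPos i := by
  by_cases h : b.IsPos i
  · exact W1_flip_of_pos b i h
  · have h1 : b.IsPos (P.reflectionPerm i i) := (W1_neg_iff b i).mpr h
    have h2 := W1_flip_of_pos b _ h1
    have e2 := W1_neg_iff b.flip i
    have e3 : P.flip.reflectionPerm i i = P.reflectionPerm i i := rfl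
    rw [e3] at e2
    have h3 := (e2.mp (h2.mpr h1))
    exact ⟨fun h4 => (h3 h4).elim, fun h4 => (h h4).elim⟩

theorem posF_flip : posF b.flip = posF b := by
  ext i
  rw [mem_posF, mem_posF, flip_isPos]

theorem rho_coroot (j : ι) (hj : j ∈ b.support) : P.toLinearMap (rho b) (P.coroot j) = 1 := by
  classical
  have hpos : b.IsPos j := RootPairing.Base.isPos_of_mem_support hj
  have hS : ∑ i ∈ (posF b).erase j, P.pairing i j = 0 := by
    have h1 : ∑ i ∈ (posF b).erase j, P.pairing i j =
        ∑ i ∈ (posF b).erase j, P.pairing (P.reflectionPerm j i) j := by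
      apply Finset.sum_bij' (fun i _ => P.reflectionPerm j i) (fun i _ => P.reflectionPerm j i)
      · intro i hi
        rw [Finset.mem_erase, mem_posF] at hi ⊢
        refine ⟨?_, hi.2.reflectionPerm hj hi.1⟩
        intro h2
        have h3 : P.reflectionPerm j j = i := by
          have h5 := congrArg (P.reflectionPerm j) h2
          rw [P.reflectionPerm_self] at h5
          exact h5.symm
        have h4 : ¬ b.IsPos i := by
          rw [← h3, W1_neg_iff]
          exact fun h => h hpos
        exact h4 hi.2
      · intro i hi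
        rw [Finset.mem_erase, mem_posF] at hi ⊢
        refine ⟨?_, hi.2.reflectionPerm hj hi.1⟩
        intro h2
        have h3 : P.reflectionPerm j j = i := by
          have h5 := congrArg (P.reflectionPerm j) h2
          rw [P.reflectionPerm_self] at h5
          exact h5.symm
        have h4 : ¬ b.IsPos i := by
          rw [← h3, W1_neg_iff]
          exact fun h => h hpos
        exact h4 hi.2
      · intro i hi
        exact P.reflectionPerm_self j i
      · intro i hi
        exact P.reflectionPerm_self j i
      · intro i hi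
        rw [P.reflectionPerm_self]
    have h2 : ∀ i, P.pairing (P.reflectionPerm j i) j = - P.pairing i j := by
      intro i
      rw [← P.pairing_reflectionPerm, P.pairing_reflectionPerm_self_right]
    simp only [h2, Finset.sum_neg_distrib] at h1
    have h3 : (2 : ℂ) * ∑ i ∈ (posF b).erase j, P.pairing i j = 0 := by
      linear_combination h1
    exact (mul_eq_zero.mp h3).resolve_left two_ne_zero
  have hsum : P.toLinearMap (∑ i ∈ posF b, P.root i) (P.coroot j) = 2 := by
    rw [map_sum, LinearMap.sum_apply, ← Finset.add_sum_erase _ _ ((mem_posF b j).mpr hpos)]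
    have h1 : ∀ i, P.toLinearMap (P.root i) (P.coroot j) = P.pairing i j := fun i => rfl
    simp only [h1, hS, add_zero]
    exact P.pairing_same j
  rw [rho, map_smul, LinearMap.smul_apply, hsum]
  norm_num

theorem rho_reflection (j : ι) (hj : j ∈ b.support) :
    P.reflection j (rho b) = rho b - P.root j := by
  rw [P.reflection_apply]
  have : P.coroot' j (rho b) = 1 := rho_coroot b j hj
  rw [this, one_smul]

theorem root_rho (i : ι) : P.toLinearMap (P.root i) (rho b.flip) = b.height i := by
  have hfr : P.flip.IsReduced := inferInstance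
  have hj : ∀ j ∈ b.support, P.toLinearMap (P.root j) (rho b.flip) = 1 :=
    fun j hj => rho_coroot b.flip j hj
  obtain ⟨f, -, -, hf⟩ := b.exists_root_eq_sum_int i
  rw [RootPairing.Base.height_eq_sum hf, hf, map_sum, LinearMap.sum_apply, Int.cast_sum]
  apply Finset.sum_congr rfl
  intro j hj'
  rw [map_zsmul, LinearMap.smul_apply, hj j hj', zsmul_eq_mul, mul_one]

theorem isPos_pairing (i : ι) (hi : b.IsPos i) (x : M)
    (hx : ∀ j ∈ b.support, ∃ k : ℕ, P.toLinearMap x (P.coroot j) = k + 1) :
    ∃ k : ℕ, P.toLinearMap x (P.coroot i) = k + 1 := by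
  have hi' : b.flip.IsPos i := (flip_isPos b i).mpr hi
  obtain ⟨f, -, hf⟩ := b.flip.exists_root_eq_sum_nat_or_neg i
  choose! g hg using hx
  rcases hf with hf | hf
  · have hf' : P.coroot i = ∑ j ∈ b.support, f j • P.coroot j := hf
    have hht : 0 < ∑ j ∈ b.support, f j := by
      have h1 : P.flip.root i = ∑ j ∈ b.flip.support, (fun k => (f k : ℤ)) j • P.flip.root j := by
        rw [hf]
        apply Finset.sum_congr rfl
        intro j _
        rw [natCast_zsmul]
      have h2 := RootPairing.Base.height_eq_sum h1
      rw [RootPairing.Base.isPos_iff, h2] at hi'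
      have h3 : ((∑ j ∈ b.support, f j : ℕ) : ℤ) = ∑ j ∈ b.flip.support, (f j : ℤ) := by
        push_cast
        rfl
      rw [← h3] at hi'
      exact_mod_cast hi'
    have hval : P.toLinearMap x (P.coroot i) = ((∑ j ∈ b.support, f j * (g j + 1) : ℕ) : ℂ) := by
      rw [hf', map_sum]
      push_cast
      apply Finset.sum_congr rfl
      intro j hj
      rw [map_nsmul, hg j hj, nsmul_eq_mul]
    have hpos : 0 < ∑ j ∈ b.support, f j * (g j + 1) := by
      apply lt_of_lt_of_le hht
      apply Finset.sum_le_sum
      intro j _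
      exact Nat.le_mul_of_pos_right _ (Nat.succ_pos _)
    refine ⟨(∑ j ∈ b.support, f j * (g j + 1)) - 1, ?_⟩
    rw [hval]
    have : (∑ j ∈ b.support, f j * (g j + 1)) =
      ((∑ j ∈ b.support, f j * (g j + 1)) - 1) + 1 := by omega
    conv_lhs => rw [this]
    push_cast
    ring
  · exfalso
    have h1 : P.flip.root i = ∑ j ∈ b.flip.support, (fun k => (-(f k : ℤ))) j • P.flip.root j := by
      rw [hf, ← Finset.sum_neg_distrib]
      apply Finset.sum_congr rfl
      intro j _
      rw [neg_smul, natCast_zsmul]
    have h2 := RootPairing.Base.height_eq_sum h1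
    rw [RootPairing.Base.isPos_iff, h2, Finset.sum_neg_distrib] at hi'
    have h3 : (0 : ℤ) ≤ ∑ j ∈ b.flip.support, (f j : ℤ) :=
      Finset.sum_nonneg fun j _ => Int.natCast_nonneg _
    omega

end rootsystem

end Pool.Agent.GP
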