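import Pool.Agent.GP.B2
import Pool.Agent.GP.W1

/-!
Module B4: the highest weight.
-/

namespace Pool.Agent.GP

open Module

section lie

open LieAlgebra LieAlgebra.IsKilling

variable {L : Type*} [LieRing L] [LieAlgebra ℂ L] [FiniteDimensional ℂ L] [IsKilling ℂ L]
  {H : LieSubalgebra ℂ L} [H.IsCartanSubalgebra]
  {V : Type*} [AddCommGroup V] [Module ℂ V] [FiniteDimensional ℂ V]
  [LieRingModule L V] [LieModule ℂ L V]

/-- the vectors obtained from `v` by lowering operators -/
noncomputable def B4_W (T : Trip H) (v : V) : List H.root → V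
  | [] => v
  | i :: l => ⁅T.f i, B4_W T v l⁆

/-- the sum of the roots of a list -/
noncomputable def B4_sum : List H.root → Dual ℂ H
  | [] => 0
  | i :: l => (rootSystem H).root i + B4_sum l

/-- the span of these vectors -/
noncomputable def B4_S (T : Trip H) (b : (rootSystem H).Base) (v : V) : Submodule ℂ V :=
  Submodule.span ℂ {w | ∃ l : List H.root, (∀ i ∈ l, b.IsPos i) ∧ w = B4_W T v l}

theorem B4_W_mem (T : Trip H) {v : V} {μ : Dual ℂ H} (hv : v ∈ WS H V μ) :
    ∀ l : List H.root, B4_W T v l ∈ WS H V (μ - B4_sum l)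
  | [] => by simpa [B4_W, B4_sum] using hv
  | i :: l => by
    have h := T.f_mem i _ _ (B4_W_mem T hv l)
    have e : μ - B4_sum (i :: l) = μ - B4_sum l - (rootSystem H).root i := by
      simp only [B4_sum]
      abel
    rw [e]
    exact h

omit [FiniteDimensional ℂ V] [LieModule ℂ L V] in
theorem B4_mem_S (T : Trip H) (b : (rootSystem H).Base) (v : V) {l : List H.root}
    (hl : ∀ i ∈ l, b.IsPos i) : B4_W T v l ∈ B4_S T b v :=
  Submodule.subset_span ⟨l, hl, rfl⟩

omit [FiniteDimensional ℂ V] in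
theorem B4_f_mem (T : Trip H) (b : (rootSystem H).Base) (v : V) {j : H.root} (hj : b.IsPos j)
    {u : V} (hu : u ∈ B4_S T b v) : ⁅T.f j, u⁆ ∈ B4_S T b v := by
  induction hu using Submodule.span_induction with
  | mem w hw =>
    obtain ⟨l, hl, rfl⟩ := hw
    exact B4_mem_S T b v (l := j :: l) (by
      intro i hi
      rcases List.mem_cons.1 hi with rfl | hi
      · exact hj
      · exact hl i hi)
  | zero => simp
  | add x y _ _ hx hy => rw [lie_add]; exact add_mem hx hy
  | smul c x _ hx => rw [lie_smul]; exact Submodule.smul_mem _ _ hx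

theorem B4_lie_mem (T : Trip H) (b : (rootSystem H).Base) {v : V} {μ : Dual ℂ H}
    (hv : v ∈ WS H V μ) (he : ∀ i, b.IsPos i → ⁅T.e i, v⁆ = 0) :
    ∀ l : List H.root, (∀ i ∈ l, b.IsPos i) → ∀ x : L, ⁅x, B4_W T v l⁆ ∈ B4_S T b v := by
  have key : ∀ l : List H.root, (∀ i ∈ l, b.IsPos i) →
      (∀ i, b.IsPos i → ⁅T.e i, B4_W T v l⁆ ∈ B4_S T b v) →
      ∀ x : L, ⁅x, B4_W T v l⁆ ∈ B4_S T b v := by
    intro l hl hE x
    induction T.mem_span b x using Submodule.span_induction with
    | mem y hy =>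
      rcases hy with (hy | ⟨i, hi, rfl⟩) | ⟨i, hi, rfl⟩
      · have h := B4_W_mem T hv l
        rw [mem_WS] at h
        have h1 := h ⟨y, hy⟩
        have h2 : ⁅y, B4_W T v l⁆ = (μ - B4_sum l) ⟨y, hy⟩ • B4_W T v l := h1
        rw [h2]
        exact Submodule.smul_mem _ _ (B4_mem_S T b v hl)
      · exact hE i ((mem_posF b i).1 hi)
      · exact B4_f_mem T b v ((mem_posF b i).1 hi) (B4_mem_S T b v hl)
    | zero => simp
    | add x y _ _ hx hy => rw [add_lie]; exact add_mem hx hy
    | smul c x _ hx => rw [smul_lie]; exact Submodule.smul_mem _ _ hx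
  intro l
  induction l with
  | nil =>
    intro hl
    refine key [] hl fun i hi => ?_
    have : ⁅T.e i, B4_W T v []⁆ = 0 := he i hi
    rw [this]
    exact zero_mem _
  | cons j l ih =>
    intro hl
    have hl' : ∀ i ∈ l, b.IsPos i := fun i hi => hl i (List.mem_cons_of_mem _ hi)
    refine key (j :: l) hl fun i _ => ?_
    have e : ⁅T.e i, B4_W T v (j :: l)⁆ =
        ⁅⁅T.e i, T.f j⁆, B4_W T v l⁆ + ⁅T.f j, ⁅T.e i, B4_W T v l⁆⁆ := by
      show ⁅T.e i, ⁅T.f j, B4_W T v l⁆⁆ = _
      rw [leibniz_lie]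
    rw [e]
    exact add_mem (ih hl' _) (B4_f_mem T b v (hl j List.mem_cons_self) (ih hl' _))

theorem B4_top (T : Trip H) (b : (rootSystem H).Base) [LieModule.IsIrreducible ℂ L V] {v : V}
    (hv0 : v ≠ 0) {μ : Dual ℂ H} (hv : v ∈ WS H V μ) (he : ∀ i, b.IsPos i → ⁅T.e i, v⁆ = 0) :
    B4_S T b v = ⊤ := by
  let N : LieSubmodule ℂ L V :=
    { B4_S T b v with
      lie_mem := by
        intro x u hu
        change u ∈ B4_S T b v at hu
        change ⁅x, u⁆ ∈ B4_S T b v
        induction hu using Submodule.span_induction with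
        | mem w hw =>
          obtain ⟨l, hl, rfl⟩ := hw
          exact B4_lie_mem T b hv he l hl x
        | zero => simp
        | add y z _ _ hy hz => rw [lie_add]; exact add_mem hy hz
        | smul c y _ hy => rw [lie_smul]; exact Submodule.smul_mem _ _ hy }
  have hvN : v ∈ N := B4_mem_S T b v (l := []) (by simp)
  have hN : N = ⊤ := by
    rcases eq_bot_or_eq_top N with h | h
    · rw [h] at hvN
      exact absurd (by simpa using hvN) hv0
    · exact h
  rw [eq_top_iff]
  intro u _
  have : u ∈ N := by rw [hN]; trivial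
  exact this

/-- a positive root is a combination of simple roots with natural coefficients -/
theorem B4_pos (b : (rootSystem H).Base) {i : H.root} (hi : b.IsPos i) :
    ∃ n : H.root → ℕ, (rootSystem H).root i = ∑ j ∈ b.support, n j • (rootSystem H).root j := by
  obtain ⟨f, -, h | h⟩ := b.exists_root_eq_sum_nat_or_neg i
  · exact ⟨f, h⟩
  · exfalso
    have h1 : (rootSystem H).root i = ∑ j ∈ b.support, (fun j => -(f j : ℤ)) j •
        (rootSystem H).root j := by
      rw [h, ← Finset.sum_neg_distrib]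
      refine Finset.sum_congr rfl fun j _ => ?_
      simp
    have h2 := RootPairing.Base.height_eq_sum h1
    have h3 : 0 < b.height i := hi
    rw [h2, Finset.sum_neg_distrib] at h3
    have h4 : (0 : ℤ) ≤ ∑ j ∈ b.support, (f j : ℤ) := Finset.sum_nonneg fun _ _ => by positivity
    linarith

theorem B4_sum_below (b : (rootSystem H).Base) : ∀ l : List H.root, (∀ i ∈ l, b.IsPos i) →
    ∃ n : H.root → ℕ, B4_sum l = ∑ j ∈ b.support, n j • (rootSystem H).root j
  | [], _ => ⟨0, by simp [B4_sum]⟩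
  | i :: l, h => by
    obtain ⟨n, hn⟩ := B4_sum_below b l fun j hj => h j (List.mem_cons_of_mem _ hj)
    obtain ⟨m, hm⟩ := B4_pos b (h i List.mem_cons_self)
    refine ⟨m + n, ?_⟩
    simp only [B4_sum, Pi.add_apply, add_smul, Finset.sum_add_distrib]
    rw [hn, hm]

theorem B4_sum_rho (b : (rootSystem H).Base) : ∀ l : List H.root, (∀ i ∈ l, b.IsPos i) →
    ∃ N : ℤ, (B4_sum l) (rho b.flip) = N ∧ 0 ≤ N ∧ (l ≠ [] → 0 < N)
  | [], _ => ⟨0, by simp [B4_sum], le_rfl, by simp⟩
  | i :: l, h => by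
    obtain ⟨N, h1, h2, -⟩ := B4_sum_rho b l fun j hj => h j (List.mem_cons_of_mem _ hj)
    have h3 : 0 < b.height i := h i List.mem_cons_self
    have h4 := root_rho b i
    rw [rootSystem_toLinearMap_apply] at h4
    refine ⟨b.height i + N, ?_, by omega, fun _ => by omega⟩
    simp only [B4_sum, LinearMap.add_apply]
    rw [h1, h4]
    push_cast
    ring

theorem B4_sum_ne (b : (rootSystem H).Base) {l : List H.root} (hl : ∀ i ∈ l, b.IsPos i)
    (h : l ≠ []) : B4_sum l ≠ 0 := by
  obtain ⟨N, h1, -, h2⟩ := B4_sum_rho b l hl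
  intro h0
  rw [h0] at h1
  have h3 := h2 h
  have h4 : ((N : ℤ) : ℂ) = 0 := by rw [← h1]; simp
  have h5 : N = 0 := by exact_mod_cast h4
  omega

variable (H V) in
/-- a highest weight vector -/
theorem B4_exists_primitive [LieModule.IsIrreducible ℂ L V] (T : Trip H)
    (b : (rootSystem H).Base) : ∃ (l : Dual ℂ H) (v : V), v ≠ 0 ∧ v ∈ WS H V l ∧
      ∀ i, b.IsPos i → ⁅T.e i, v⁆ = 0 := by
  have hnt : Nontrivial V := LieModule.nontrivial_of_isIrreducible ℂ L V
  obtain ⟨v, wt, hwt⟩ := exists_weight_basis H V (finrank ℂ V) rfl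
  have hne : Nonempty (Fin (finrank ℂ V)) := ⟨⟨0, finrank_pos⟩⟩
  obtain ⟨a₀, ha₀⟩ := Finite.exists_max fun a => (wt a (rho b.flip)).re
  refine ⟨wt a₀, v a₀, v.ne_zero a₀, hwt a₀, fun i hi => ?_⟩
  by_contra hcon
  have h1 := T.e_mem i _ _ (hwt a₀)
  have h2 : 0 < finrank ℂ (WS H V (wt a₀ + (rootSystem H).root i)) := by
    rw [finrank_pos_iff_exists_ne_zero]
    exact ⟨⟨_, h1⟩, fun h => hcon (congrArg Subtype.val h)⟩
  rw [finrank_WS v wt hwt] at h2
  obtain ⟨⟨a, ha⟩⟩ := (Nat.card_pos_iff.1 h2).1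
  have h3 := ha₀ a
  have h4 := root_rho b i
  rw [rootSystem_toLinearMap_apply] at h4
  have h5 : 0 < b.height i := hi
  rw [ha, LinearMap.add_apply, h4, Complex.add_re] at h3
  have h6 : ((b.height i : ℤ) : ℂ).re = b.height i := by simp
  rw [h6] at h3
  have h7 : (0 : ℝ) < b.height i := by exact_mod_cast h5
  linarith

variable (H V)

theorem exists_top [LieModule.IsIrreducible ℂ L V] (b : (rootSystem H).Base) :
    ∃ l : Dual ℂ H, finrank ℂ (WS H V l) = 1 ∧ (∀ μ, WS H V μ ≠ ⊥ → Below b l μ) ∧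
      ∀ j ∈ b.support, ∃ k : ℕ, l (coroot j.1) = k := by
  obtain ⟨T⟩ := nonempty_trip H
  obtain ⟨l, v, hv0, hv, he⟩ := B4_exists_primitive H V T b
  have htop := B4_top T b hv0 hv he
  have hind := WS_indep H V
  refine ⟨l, ?_, ?_, ?_⟩
  · -- multiplicity one
    have hle : (⊤ : Submodule ℂ V) ≤ Submodule.span ℂ {v} ⊔ ⨆ (ν) (_ : ν ≠ l), WS H V ν := by
      rw [← htop]
      refine Submodule.span_le.2 ?_
      rintro _ ⟨r, hr, rfl⟩
      rcases eq_or_ne r [] with rfl | hne
      · exact Submodule.mem_sup_left (Submodule.mem_span_singleton_self v)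
      · refine Submodule.mem_sup_right ?_
        have h1 : l - B4_sum r ≠ l := by
          intro h
          exact B4_sum_ne b hr hne (by simpa using h)
        exact Submodule.mem_iSup_of_mem _ (Submodule.mem_iSup_of_mem h1 (B4_W_mem T hv r))
    have hspan : WS H V l = Submodule.span ℂ {v} := by
      refine le_antisymm (fun u hu => ?_) ((Submodule.span_singleton_le_iff_mem _ _).2 hv)
      obtain ⟨x, hx, y, hy, hxy⟩ := Submodule.mem_sup.1 (hle (Submodule.mem_top (x := u)))
      have hx' : x ∈ WS H V l := (Submodule.span_singleton_le_iff_mem _ _).2 hv hx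
      have hy' : y ∈ WS H V l := by
        have : y = u - x := by rw [← hxy]; abel
        rw [this]
        exact sub_mem hu hx'
      have hy0 : y = 0 := Submodule.disjoint_def.1 (hind l) y hy' hy
      rw [hy0, add_zero] at hxy
      rwa [← hxy]
    rw [hspan]
    exact finrank_span_singleton hv0
  · intro μ hμ
    by_contra hcon
    apply hμ
    have hle : (⊤ : Submodule ℂ V) ≤ ⨆ (ν) (_ : ν ≠ μ), WS H V ν := by
      rw [← htop]
      refine Submodule.span_le.2 ?_
      rintro _ ⟨r, hr, rfl⟩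
      have h1 : l - B4_sum r ≠ μ := by
        intro h
        apply hcon
        obtain ⟨n, hn⟩ := B4_sum_below b r hr
        refine ⟨n, ?_⟩
        rw [← h, ← hn]
        abel
      exact Submodule.mem_iSup_of_mem _ (Submodule.mem_iSup_of_mem h1 (B4_W_mem T hv r))
    have h2 := (hind μ).mono_right hle
    exact disjoint_top.1 h2
  · intro j hj
    have h1 : ⁅(coroot j.1 : L), v⁆ = l (coroot j.1) • v := hv (coroot j.1)
    have hP : (T.isSl2 j).HasPrimitiveVectorWith v (l (coroot j.1)) :=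
      { ne_zero := hv0
        lie_h := h1
        lie_e := he j (b.isPos_of_mem_support hj) }
    exact hP.exists_nat

end lie

end Pool.Agent.GP
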