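import Pool.Agent.GP.B1
import Pool.Agent.GP.B2
import Pool.Agent.GP.B3

/-!
Module B5: the weights are invariant under reflections.
-/

namespace Pool.Agent.GP

open Module

section lie

open LieAlgebra LieAlgebra.IsKilling

variable {L : Type*} [LieRing L] [LieAlgebra ℂ L] [FiniteDimensional ℂ L] [IsKilling ℂ L]
  (H : LieSubalgebra ℂ L) [H.IsCartanSubalgebra]
  (V : Type*) [AddCommGroup V] [Module ℂ V] [FiniteDimensional ℂ V]
  [LieRingModule L V] [LieModule ℂ L V]

private theorem B5_refl (i : H.root) (μ : Dual ℂ H) :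
    (rootSystem H).reflection i μ = μ - μ (coroot i.1) • (rootSystem H).root i := by
  rw [RootPairing.reflection_apply]
  rfl

private theorem B5_refl_coroot (i : H.root) (μ : Dual ℂ H) :
    ((rootSystem H).reflection i μ) (coroot i.1) = - μ (coroot i.1) := by
  rw [B5_refl]
  have h2 : ((rootSystem H).root i) (coroot i.1) = 2 :=
    (rootSystem H).root_coroot_two i
  rw [LinearMap.sub_apply, LinearMap.smul_apply, h2, smul_eq_mul]
  ring

variable {H V} in
private theorem B5_f_pow (T : Trip H) (i : H.root) (μ : Dual ℂ H) (n : ℕ) (v : V)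
    (hv : v ∈ WS H V μ) :
    ((LieModule.toEnd ℂ L V (T.f i)) ^ n) v ∈ WS H V (μ - (n : ℂ) • (rootSystem H).root i) := by
  induction n with
  | zero => simpa using hv
  | succ n ih =>
    rw [pow_succ']
    have h := T.f_mem i _ _ ih
    have e : μ - ((n + 1 : ℕ) : ℂ) • (rootSystem H).root i =
        μ - (n : ℂ) • (rootSystem H).root i - (rootSystem H).root i := by
      push_cast
      rw [add_smul, one_smul]
      abel
    rw [e]
    exact h

variable {H V} in
private theorem B5_e_pow (T : Trip H) (i : H.root) (μ : Dual ℂ H) (n : ℕ) (v : V)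
    (hv : v ∈ WS H V μ) :
    ((LieModule.toEnd ℂ L V (T.e i)) ^ n) v ∈ WS H V (μ + (n : ℂ) • (rootSystem H).root i) := by
  induction n with
  | zero => simpa using hv
  | succ n ih =>
    rw [pow_succ']
    have h := T.e_mem i _ _ ih
    have e : μ + ((n + 1 : ℕ) : ℂ) • (rootSystem H).root i =
        μ + (n : ℂ) • (rootSystem H).root i + (rootSystem H).root i := by
      push_cast
      rw [add_smul, one_smul]
      abel
    rw [e]
    exact h

private theorem B5_nat (T : Trip H) (i : H.root) (μ : Dual ℂ H) (n : ℕ)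
    (hn : μ (coroot i.1) = n) :
    finrank ℂ (WS H V ((rootSystem H).reflection i μ)) = finrank ℂ (WS H V μ) := by
  have hs : (rootSystem H).reflection i μ = μ - (n : ℂ) • (rootSystem H).root i := by
    rw [B5_refl, hn]
  apply le_antisymm
  · have hmap : ∀ v ∈ WS H V ((rootSystem H).reflection i μ),
        ((LieModule.toEnd ℂ L V (T.e i)) ^ n) v ∈ WS H V μ := by
      intro v hv
      have h := B5_e_pow T i _ n v hv
      rw [hs, sub_add_cancel] at h
      exact h
    refine LinearMap.finrank_le_finrank_of_injective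
      (f := LinearMap.restrict ((LieModule.toEnd ℂ L V (T.e i)) ^ n) hmap) ?_
    rw [← LinearMap.ker_eq_bot, LinearMap.ker_eq_bot']
    intro v hv
    apply Subtype.ext
    refine sl2_e_inj (T.isSl2 i) n v.1 ?_ ?_
    · have h := (mem_WS H _ _).1 v.2 (coroot i.1)
      rw [B5_refl_coroot, hn] at h
      exact h
    · exact congrArg Subtype.val hv
  · have hmap : ∀ v ∈ WS H V μ,
        ((LieModule.toEnd ℂ L V (T.f i)) ^ n) v ∈ WS H V ((rootSystem H).reflection i μ) := by
      intro v hv
      have h := B5_f_pow T i _ n v hv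
      rw [← hs] at h
      exact h
    refine LinearMap.finrank_le_finrank_of_injective
      (f := LinearMap.restrict ((LieModule.toEnd ℂ L V (T.f i)) ^ n) hmap) ?_
    rw [← LinearMap.ker_eq_bot, LinearMap.ker_eq_bot']
    intro v hv
    apply Subtype.ext
    refine sl2_f_inj (T.isSl2 i) n v.1 ?_ ?_
    · have h := (mem_WS H _ _).1 v.2 (coroot i.1)
      rw [hn] at h
      exact h
    · exact congrArg Subtype.val hv

private theorem B5_int (T : Trip H) (i : H.root) (μ : Dual ℂ H) (h : WS H V μ ≠ ⊥) :
    ∃ z : ℤ, μ (coroot i.1) = z := by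
  obtain ⟨v, hv, hv0⟩ := Submodule.exists_mem_ne_zero_of_ne_bot h
  exact sl2_int (T.isSl2 i) _ v hv0 ((mem_WS H _ _).1 hv (coroot i.1))

theorem finrank_reflection (i : H.root) (μ : Dual ℂ H) :
    finrank ℂ (WS H V ((rootSystem H).reflection i μ)) = finrank ℂ (WS H V μ) := by
  obtain ⟨T⟩ := nonempty_trip H
  have key : ∀ ν : Dual ℂ H, WS H V ν ≠ ⊥ →
      finrank ℂ (WS H V ((rootSystem H).reflection i ν)) = finrank ℂ (WS H V ν) := by
    intro ν hν
    obtain ⟨z, hz⟩ := B5_int H V T i ν hν
    rcases le_total 0 z with h0 | h0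
    · obtain ⟨n, rfl⟩ := Int.eq_ofNat_of_zero_le h0
      exact B5_nat H V T i ν n (by rw [hz]; push_cast; rfl)
    · obtain ⟨n, hn⟩ := Int.eq_ofNat_of_zero_le (neg_nonneg.mpr h0)
      have h := B5_nat H V T i ((rootSystem H).reflection i ν) n (by
        rw [B5_refl_coroot, hz, ← Int.cast_neg, hn]; push_cast; rfl)
      rw [RootPairing.reflection_same] at h
      exact h.symm
  by_cases h1 : WS H V μ = ⊥
  · by_cases h2 : WS H V ((rootSystem H).reflection i μ) = ⊥
    · rw [h1, h2]
    · have h := key _ h2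
      rw [RootPairing.reflection_same] at h
      exact h.symm
  · exact key _ h1

end lie

end Pool.Agent.GP
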