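import Pool.Agent.GP.Defs

/-!
Module B6: the bilinear form on the dual of the Cartan subalgebra.

Hints. `dform H x y = x ((cartanEquivDual H).symm y)`. With `t = (cartanEquivDual H).symm α`:
`killingForm (t) (h) = α h`; `coroot α = (2 / α t) • t`; `killingForm (coroot α) (coroot α) =
∑ β, β (coroot α) ^ 2` (`traceForm_eq_sum_finrank_nsmul`, `restrict_killingForm_eq_sum`) is a
positive integer as the `β (coroot α)` are integers and one of them is `2`; it equals `4 / α t`;
so `α t` is a positive real number and `con H i = α t / 2`. Also `t = con i • coroot i`.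
-/

namespace Pool.Agent.GP

open Module

section lie

open LieAlgebra LieAlgebra.IsKilling LieModule

variable {L : Type*} [LieRing L] [LieAlgebra ℂ L] [FiniteDimensional ℂ L] [IsKilling ℂ L]
  (H : LieSubalgebra ℂ L) [H.IsCartanSubalgebra]
  (V : Type*) [AddCommGroup V] [Module ℂ V] [FiniteDimensional ℂ V]
  [LieRingModule L V] [LieModule ℂ L V]

lemma dform_apply (x y : Dual ℂ H) : dform H x y = x ((cartanEquivDual H).symm y) := rfl

lemma B6_trace_symm (x : Dual ℂ H) (h : H) :
    traceForm ℂ H L ((cartanEquivDual H).symm x) h = x h := by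
  have := LinearMap.BilinForm.apply_toDual_symm_apply
    (hB := traceForm_cartan_nondegenerate ℂ L H) x h
  exact this

theorem dform_symm (x y : Dual ℂ H) : dform H x y = dform H y x := by
  rw [dform_apply, dform_apply, ← B6_trace_symm, ← B6_trace_symm H y, traceForm_comm]

/-- the value of a root at its dual vector is the inverse of a positive rational number -/
lemma B6_exists_pos (i : H.root) : ∃ r : ℝ, 0 < r ∧
    (i.1 ((cartanEquivDual H).symm i.1.toLinear) : ℂ) = (r : ℂ) := by
  set α := i.1 with hα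
  have hnz : α.IsNonZero := LieSubalgebra.isNonZero_coe_root i
  have h1 := traceForm_coroot α (coroot α)
  rw [root_apply_coroot hnz] at h1
  have h2 := traceForm_eq_sum_finrank_nsmul_mul ℂ H L (coroot α) (coroot α)
  have h3 : ∀ χ : Weight ℂ H L, finrank ℂ (genWeightSpace L χ) • (χ (coroot α) * χ (coroot α)) =
      (((finrank ℂ (genWeightSpace L χ) : ℝ) *
        ((chainBotCoeff α χ - chainTopCoeff α χ : ℤ) : ℝ) ^ 2 : ℝ) : ℂ) := by
    intro χ
    rw [apply_coroot_eq_cast α χ]
    push_cast
    rw [nsmul_eq_mul]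
    ring
  rw [Finset.sum_congr rfl fun χ _ => h3 χ, ← Complex.ofReal_sum] at h2
  set S : ℝ := ∑ χ : Weight ℂ H L, ((finrank ℂ (genWeightSpace L χ) : ℝ) *
        ((chainBotCoeff α χ - chainTopCoeff α χ : ℤ) : ℝ) ^ 2) with hS
  have hSpos : 0 < S := by
    apply Finset.sum_pos'
    · intro χ _
      positivity
    · refine ⟨α, Finset.mem_univ _, ?_⟩
      have h4 : ((chainBotCoeff α α - chainTopCoeff α α : ℤ) : ℂ) = 2 := by
        rw [← apply_coroot_eq_cast α α, root_apply_coroot hnz]
      have h5 : (chainBotCoeff α α - chainTopCoeff α α : ℤ) = 2 := by exact_mod_cast h4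
      rw [h5]
      have h6 : 0 < finrank ℂ (genWeightSpace L α) := by
        have := finrank_rootSpace_eq_one α hnz
        have h7 : finrank ℂ (genWeightSpace L α) = 1 := this
        omega
      have h8 : (0 : ℝ) < finrank ℂ (genWeightSpace L α) := by exact_mod_cast h6
      positivity
  refine ⟨4 / S, by positivity, ?_⟩
  have ht : (α ((cartanEquivDual H).symm α.toLinear) : ℂ) ≠ 0 :=
    root_apply_cartanEquivDual_symm_ne_zero hnz
  rw [h2] at h1
  have hS0 : (S : ℂ) ≠ 0 := by exact_mod_cast hSpos.ne'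
  push_cast
  rw [eq_div_iff hS0, h1]
  rw [nsmul_eq_mul, smul_eq_mul]
  field_simp
  norm_num

lemma B6_con_eq (i : H.root) :
    (i.1 ((cartanEquivDual H).symm i.1.toLinear) : ℂ) = 2 * (con H i : ℂ) := by
  obtain ⟨r, hr, h⟩ := B6_exists_pos H i
  have : con H i = r / 2 := by
    unfold con
    rw [dform_apply]
    have : (i.1.toLinear : Dual ℂ H) ((cartanEquivDual H).symm i.1.toLinear) = (r : ℂ) := h
    rw [this, Complex.ofReal_re]
  rw [this, h]
  push_cast
  ring

theorem con_pos (i : H.root) : 0 < con H i := by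
  obtain ⟨r, hr, h⟩ := B6_exists_pos H i
  unfold con
  rw [dform_apply]
  have : (i.1.toLinear : Dual ℂ H) ((cartanEquivDual H).symm i.1.toLinear) = (r : ℂ) := h
  rw [this, Complex.ofReal_re]
  positivity

lemma B6_symm_eq (i : H.root) :
    (cartanEquivDual H).symm i.1.toLinear = (con H i : ℂ) • coroot i.1 := by
  have hc : (con H i : ℂ) ≠ 0 := by exact_mod_cast (con_pos H i).ne'
  rw [coroot, B6_con_eq H i, ← Nat.cast_smul_eq_nsmul ℂ, smul_smul, smul_smul]
  have : (con H i : ℂ) * ((2 : ℕ) : ℂ) * (2 * (con H i : ℂ))⁻¹ = 1 := by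
    push_cast
    field_simp
  rw [this, one_smul]

theorem dform_root (i : H.root) (x : Dual ℂ H) :
    dform H ((rootSystem H).root i) x = con H i * x (coroot i.1) := by
  rw [dform_symm, dform_apply]
  have : (cartanEquivDual H).symm ((rootSystem H).root i) = (con H i : ℂ) • coroot i.1 :=
    B6_symm_eq H i
  rw [this, map_smul, smul_eq_mul]

variable {H} in
theorem Trip.killing_ef (T : Trip H) (i : H.root) :
    (con H i : ℂ) * killingForm ℂ L (T.e i) (T.f i) = 1 := by
  have h1 := lie_eq_killingForm_smul_of_mem_rootSpace_of_mem_rootSpace_neg (T.he i) (T.hf i)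
  rw [T.hef i] at h1
  have h2 : ((cartanEquivDual H).symm i.1.toLinear : L) = (con H i : ℂ) • (coroot i.1 : L) := by
    rw [B6_symm_eq H i]
    rfl
  rw [h2, smul_smul] at h1
  have hne : (coroot i.1 : L) ≠ 0 := by
    intro h
    have h3 : coroot i.1 = 0 := by
      apply Subtype.ext
      exact h
    rw [coroot_eq_zero_iff] at h3
    exact (LieSubalgebra.isNonZero_coe_root i) h3
  have h4 : ((killingForm ℂ L (T.e i) (T.f i) * (con H i : ℂ)) - 1) • (coroot i.1 : L) = 0 := by
    rw [sub_smul, one_smul, ← h1, sub_self]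
  rcases smul_eq_zero.mp h4 with h5 | h5
  · rw [mul_comm]
    exact sub_eq_zero.mp h5
  · exact absurd h5 hne

end lie

end Pool.Agent.GP
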