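import Pool.Agent.GP.B6
import Pool.Agent.GP.B3

/-!
Module B6b: the Casimir operator.

(1) Let `(a_s), (c_s)` be finite families in `L` such that `x = ∑ κ(x, c_s) a_s` for all
`x` (`κ` the Killing form); then also `x = ∑ κ(x, a_s) c_s` (nondegeneracy, symmetry), and
`∑ ⁅y, a_s⁆ ⊗ c_s + a_s ⊗ ⁅y, c_s⁆ = 0`, so `Ω = ∑ ρ(a_s) ρ(c_s)` commutes with `ρ(y)`; it is a
scalar by Schur's lemma (an eigenspace of `Ω` is a Lie submodule).
(2) Such families: a basis `h_k` of `H` with its dual basis `h^k` for the restriction of `κ`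
(nondegenerate), the pairs `(T.e i, con i • T.f i)` and `(T.f i, con i • T.e i)` for `i ∈ posF b`.
(3) On a vector of weight `μ`, `∑ ρ(h_k) ρ(h^k)` is `∑ μ(h_k) μ(h^k) = dform H μ μ`.
-/

namespace Pool.Agent.GP

open Module

section lie

open LieAlgebra LieAlgebra.IsKilling

variable {L : Type*} [LieRing L] [LieAlgebra ℂ L] [FiniteDimensional ℂ L] [IsKilling ℂ L]
  (H : LieSubalgebra ℂ L) [H.IsCartanSubalgebra]
  (V : Type*) [AddCommGroup V] [Module ℂ V] [FiniteDimensional ℂ V]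
  [LieRingModule L V] [LieModule ℂ L V]

lemma B6b_symm (x y : L) : killingForm ℂ L x y = killingForm ℂ L y x :=
  LieModule.traceForm_comm ℂ L L x y

lemma B6b_inv (x y z : L) : killingForm ℂ L ⁅y, x⁆ z + killingForm ℂ L ⁅y, z⁆ x = 0 := by
  have h1 : killingForm ℂ L ⁅x, y⁆ z = killingForm ℂ L x ⁅y, z⁆ :=
    LieModule.traceForm_apply_lie_apply ℂ L L x y z
  have h2 : ⁅y, x⁆ = -⁅x, y⁆ := (lie_skew y x).symm
  rw [h2, map_neg, LinearMap.neg_apply, h1, B6b_symm x ⁅y, z⁆]
  ring

lemma B6b_eq_zero (x : L) (h : ∀ z, killingForm ℂ L x z = 0) : x = 0 := by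
  have h1 : x ∈ LinearMap.ker (killingForm ℂ L) := by
    rw [LinearMap.mem_ker]
    ext z
    simpa using h z
  rwa [LieAlgebra.IsKilling.ker_killingForm_eq_bot, Submodule.mem_bot] at h1

/-- dual completeness -/
theorem B6b_dual {S : Type*} [Fintype S] (a c : S → L)
    (hc : ∀ x : L, ∑ s, killingForm ℂ L x (c s) • a s = x) (x : L) :
    ∑ s, killingForm ℂ L x (a s) • c s = x := by
  rw [← sub_eq_zero]
  apply B6b_eq_zero
  intro z
  have h1 : killingForm ℂ L x z = ∑ s, killingForm ℂ L z (c s) * killingForm ℂ L x (a s) := by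
    conv_lhs => rw [← hc z]
    simp [map_sum]
  rw [map_sub, LinearMap.sub_apply, h1, map_sum, LinearMap.sum_apply, sub_eq_zero]
  refine Finset.sum_congr rfl fun s _ => ?_
  rw [map_smul, LinearMap.smul_apply, smul_eq_mul, B6b_symm z (c s)]
  ring

theorem B6b_comm {S : Type*} [Fintype S] (a c : S → L)
    (hc : ∀ x : L, ∑ s, killingForm ℂ L x (c s) • a s = x) (y : L) (v : V) :
    ⁅y, ∑ s, ⁅a s, ⁅c s, v⁆⁆⁆ = ∑ s, ⁅a s, ⁅c s, ⁅y, v⁆⁆⁆ := by
  have hd := B6b_dual a c hc
  have h1 : ∀ s, ⁅y, ⁅a s, ⁅c s, v⁆⁆⁆ = ⁅⁅y, a s⁆, ⁅c s, v⁆⁆ + ⁅a s, ⁅⁅y, c s⁆, v⁆⁆ +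
      ⁅a s, ⁅c s, ⁅y, v⁆⁆⁆ := by
    intro s
    rw [leibniz_lie y (a s), leibniz_lie y (c s), lie_add]
    abel
  have h2 : ∑ s, ⁅⁅y, a s⁆, ⁅c s, v⁆⁆ =
      ∑ s, ∑ t, killingForm ℂ L ⁅y, a s⁆ (c t) • ⁅a t, ⁅c s, v⁆⁆ := by
    refine Finset.sum_congr rfl fun s _ => ?_
    conv_lhs => rw [← hc ⁅y, a s⁆]
    rw [sum_lie]
    simp only [smul_lie]
  have h3 : ∑ t, ⁅a t, ⁅⁅y, c t⁆, v⁆⁆ =
      ∑ t, ∑ s, killingForm ℂ L ⁅y, c t⁆ (a s) • ⁅a t, ⁅c s, v⁆⁆ := by
    refine Finset.sum_congr rfl fun t _ => ?_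
    conv_lhs => rw [← hd ⁅y, c t⁆]
    rw [sum_lie, lie_sum]
    simp only [smul_lie, lie_smul]
  have h4 : ∑ s, ⁅⁅y, a s⁆, ⁅c s, v⁆⁆ + ∑ t, ⁅a t, ⁅⁅y, c t⁆, v⁆⁆ = 0 := by
    rw [h2, h3, Finset.sum_comm, ← Finset.sum_add_distrib]
    refine Finset.sum_eq_zero fun t _ => ?_
    rw [← Finset.sum_add_distrib]
    refine Finset.sum_eq_zero fun s _ => ?_
    rw [← add_smul, B6b_inv, zero_smul]
  rw [lie_sum, Finset.sum_congr rfl fun s _ => h1 s, Finset.sum_add_distrib,
    Finset.sum_add_distrib, h4, zero_add]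

theorem B6b_scalar [LieModule.IsIrreducible ℂ L V] {S : Type*} [Fintype S] (a c : S → L)
    (hc : ∀ x : L, ∑ s, killingForm ℂ L x (c s) • a s = x) :
    ∃ r : ℂ, ∀ v : V, ∑ s, ⁅a s, ⁅c s, v⁆⁆ = r • v := by
  let Ω : V →ₗ[ℂ] V := ∑ s, (LieModule.toEnd ℂ L V (a s)) ∘ₗ (LieModule.toEnd ℂ L V (c s))
  have hΩ : ∀ v, Ω v = ∑ s, ⁅a s, ⁅c s, v⁆⁆ := by
    intro v
    simp [Ω, LinearMap.sum_apply]
  have hnt : Nontrivial V := LieModule.nontrivial_of_isIrreducible ℂ L V
  obtain ⟨r, hr⟩ := Module.End.exists_eigenvalue Ω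
  refine ⟨r, ?_⟩
  let W : LieSubmodule ℂ L V :=
    { Module.End.eigenspace Ω r with
      lie_mem := by
        intro y v hv
        have hv' : Ω v = r • v := Module.End.mem_eigenspace_iff.mp hv
        refine Module.End.mem_eigenspace_iff.mpr ?_
        rw [hΩ, ← B6b_comm V a c hc, ← hΩ, hv', lie_smul] }
  have hW : W ≠ ⊥ := by
    intro h
    apply hr
    have : (W : Submodule ℂ V) = ⊥ := by rw [h]; simp
    exact this
  have hW2 : W = ⊤ := by
    rcases eq_bot_or_eq_top W with h | h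
    · exact absurd h hW
    · exact h
  intro v
  have hv : v ∈ W := by rw [hW2]; exact LieSubmodule.mem_top v
  rw [← hΩ]
  exact Module.End.mem_eigenspace_iff.mp hv

lemma B6b_zero_mem (x : H) : (x : L) ∈ rootSpace H (0 : H → ℂ) :=
  LieAlgebra.toLieSubmodule_le_rootSpace_zero ℂ L H x.2

lemma B6b_orth {α β : H → ℂ} {x y : L} (hx : x ∈ rootSpace H α) (hy : y ∈ rootSpace H β)
    (hαβ : α + β ≠ 0) : killingForm ℂ L x y = 0 :=
  killingForm_apply_eq_zero_of_mem_rootSpace_of_add_ne_zero ℂ L H hx hy hαβ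

lemma B6b_root_ne (i : H.root) : (i.1 : H → ℂ) ≠ 0 := by
  have h := i.2
  simp only [LieSubalgebra.root, Finset.mem_filter, Finset.mem_univ, true_and] at h
  exact h

lemma B6b_he (T : Trip H) (x : H) (i : H.root) : killingForm ℂ L (x : L) (T.e i) = 0 := by
  apply B6b_orth H (B6b_zero_mem H x) (T.he i)
  rw [zero_add]
  exact B6b_root_ne H i

lemma B6b_hf (T : Trip H) (x : H) (i : H.root) : killingForm ℂ L (x : L) (T.f i) = 0 := by
  apply B6b_orth H (B6b_zero_mem H x) (T.hf i)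
  rw [zero_add, neg_ne_zero]
  exact B6b_root_ne H i

lemma B6b_ef (T : Trip H) (i j : H.root) (hij : i ≠ j) :
    killingForm ℂ L (T.e i) (T.f j) = 0 := by
  apply B6b_orth H (T.he i) (T.hf j)
  intro h
  apply hij
  apply Subtype.ext
  apply DFunLike.coe_injective
  rwa [← sub_eq_add_neg, sub_eq_zero] at h

lemma B6b_pos (b : (rootSystem H).Base) (i j : H.root) (hi : b.IsPos i) (hj : b.IsPos j) :
    (i.1 : H → ℂ) + (j.1 : H → ℂ) ≠ 0 := by
  intro h
  let _ := (rootSystem H).indexNeg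
  have h1 : (rootSystem H).root i = (rootSystem H).root (-j) := by
    rw [RootPairing.indexNeg_neg, RootPairing.root_reflectionPerm,
      RootPairing.reflection_apply_self]
    ext x
    have := congrFun h x
    simp only [Pi.add_apply, Pi.zero_apply] at this
    simp only [rootSystem_root_apply, LinearMap.neg_apply, LieModule.Weight.toLinear_apply]
    linear_combination this
  have h2 : i = -j := (rootSystem H).root.injective h1
  have h3 := (RootPairing.Base.IsPos.neg_iff_not b j).mp (h2 ▸ hi)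
  exact h3 hj

lemma B6b_ee (T : Trip H) (b : (rootSystem H).Base) (i j : H.root) (hi : b.IsPos i)
    (hj : b.IsPos j) : killingForm ℂ L (T.e i) (T.e j) = 0 :=
  B6b_orth H (T.he i) (T.he j) (B6b_pos H b i j hi hj)

lemma B6b_ff (T : Trip H) (b : (rootSystem H).Base) (i j : H.root) (hi : b.IsPos i)
    (hj : b.IsPos j) : killingForm ℂ L (T.f i) (T.f j) = 0 := by
  apply B6b_orth H (T.hf i) (T.hf j)
  rw [← neg_add, neg_ne_zero]
  exact B6b_pos H b i j hi hj

/-- the first family -/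
noncomputable def B6ba (T : Trip H) (b : (rootSystem H).Base) :
    Fin (finrank ℂ H) ⊕ (posF b ⊕ posF b) → L :=
  Sum.elim (fun k => (Module.finBasis ℂ H k : L)) (Sum.elim (fun i => T.e i) (fun i => T.f i))

/-- the second family -/
noncomputable def B6bc (T : Trip H) (b : (rootSystem H).Base) :
    Fin (finrank ℂ H) ⊕ (posF b ⊕ posF b) → L :=
  Sum.elim (fun k => ((cartanEquivDual H).symm ((Module.finBasis ℂ H).coord k) : L))
    (Sum.elim (fun i => (con H i : ℂ) • T.f i) (fun i => (con H i : ℂ) • T.e i))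

lemma B6b_dualH (x : H) (φ : Dual ℂ H) :
    killingForm ℂ L (x : L) ((cartanEquivDual H).symm φ : H) = φ x := by
  rw [B6b_symm]
  have h : cartanEquivDual H ((cartanEquivDual H).symm φ) x = φ x := by
    rw [LinearEquiv.apply_symm_apply]
  exact h

theorem B6b_complete (T : Trip H) (b : (rootSystem H).Base) (x : L) :
    ∑ s, killingForm ℂ L x (B6bc H T b s) • B6ba H T b s = x := by
  classical
  induction T.mem_span b x using Submodule.span_induction with
  | zero => simp
  | add x y _ _ hx hy =>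
    simp only [map_add, LinearMap.add_apply, add_smul, Finset.sum_add_distrib]
    rw [hx, hy]
  | smul r x _ hx =>
    simp only [map_smul, LinearMap.smul_apply, smul_eq_mul, mul_smul]
    rw [← Finset.smul_sum, hx]
  | mem x hx =>
    rw [Fintype.sum_sum_type, Fintype.sum_sum_type]
    simp only [B6ba, B6bc, Sum.elim_inl, Sum.elim_inr]
    rcases hx with (hx | ⟨j, hj, rfl⟩) | ⟨j, hj, rfl⟩
    · lift x to H using hx
      have h1 : ∀ i : posF b, killingForm ℂ L (x : L) ((con H i : ℂ) • T.f i) • T.e i = 0 := by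
        intro i
        rw [map_smul, B6b_hf, smul_zero, zero_smul]
      have h2 : ∀ i : posF b, killingForm ℂ L (x : L) ((con H i : ℂ) • T.e i) • T.f i = 0 := by
        intro i
        rw [map_smul, B6b_he, smul_zero, zero_smul]
      rw [Finset.sum_eq_zero fun i _ => h1 i, Finset.sum_eq_zero fun i _ => h2 i, add_zero,
        add_zero]
      have h3 := (Module.finBasis ℂ H).sum_repr x
      conv_rhs => rw [← h3]
      push_cast
      refine Finset.sum_congr rfl fun k _ => ?_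
      rw [B6b_dualH]
      simp
    · have hj' : b.IsPos j := (mem_posF b j).mp hj
      have h0 : ∀ k, killingForm ℂ L (T.e j)
          ((cartanEquivDual H).symm ((Module.finBasis ℂ H).coord k) : H) = 0 := by
        intro k
        rw [B6b_symm, B6b_he]
      have h2 : ∀ i : posF b, killingForm ℂ L (T.e j) ((con H i : ℂ) • T.e i) • T.f i = 0 := by
        intro i
        rw [map_smul, B6b_ee H T b j i hj' ((mem_posF b i.1).mp i.2), smul_zero, zero_smul]
      rw [Finset.sum_eq_zero fun k _ => by rw [h0 k, zero_smul],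
        Finset.sum_eq_zero fun i _ => h2 i, add_zero, zero_add,
        Finset.sum_eq_single (⟨j, hj⟩ : posF b)]
      · rw [map_smul, smul_eq_mul, T.killing_ef, one_smul]
      · intro i _ hi
        rw [map_smul, B6b_ef H T j i, smul_zero, zero_smul]
        rintro rfl
        exact hi rfl
      · intro h
        exact absurd (Finset.mem_univ _) h
    · have hj' : b.IsPos j := (mem_posF b j).mp hj
      have h0 : ∀ k, killingForm ℂ L (T.f j)
          ((cartanEquivDual H).symm ((Module.finBasis ℂ H).coord k) : H) = 0 := by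
        intro k
        rw [B6b_symm, B6b_hf]
      have h2 : ∀ i : posF b, killingForm ℂ L (T.f j) ((con H i : ℂ) • T.f i) • T.e i = 0 := by
        intro i
        rw [map_smul, B6b_ff H T b j i hj' ((mem_posF b i.1).mp i.2), smul_zero, zero_smul]
      rw [Finset.sum_eq_zero fun k _ => by rw [h0 k, zero_smul],
        Finset.sum_eq_zero fun i _ => h2 i, zero_add, zero_add,
        Finset.sum_eq_single (⟨j, hj⟩ : posF b)]
      · rw [map_smul, smul_eq_mul, B6b_symm, T.killing_ef, one_smul]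
      · intro i _ hi
        rw [map_smul, B6b_symm, B6b_ef H T i j, smul_zero, zero_smul]
        rintro rfl
        exact hi rfl
      · intro h
        exact absurd (Finset.mem_univ _) h

lemma B6b_dform (μ : Dual ℂ H) :
    ∑ k, μ (Module.finBasis ℂ H k) *
      μ ((cartanEquivDual H).symm ((Module.finBasis ℂ H).coord k)) = dform H μ μ := by
  have h1 : μ = ∑ k, μ (Module.finBasis ℂ H k) • (Module.finBasis ℂ H).coord k := by
    apply (Module.finBasis ℂ H).ext
    intro j
    rw [LinearMap.sum_apply]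
    simp [Finsupp.single_apply]
  have h2 : dform H μ μ = μ ((cartanEquivDual H).symm μ) := rfl
  have h3 : (cartanEquivDual H).symm μ = ∑ k, μ (Module.finBasis ℂ H k) •
      (cartanEquivDual H).symm ((Module.finBasis ℂ H).coord k) := by
    conv_lhs => rw [h1]
    simp only [map_sum, map_smul]
  rw [h2, h3, map_sum]
  refine Finset.sum_congr rfl fun k _ => ?_
  rw [map_smul, smul_eq_mul]

theorem casimir [LieModule.IsIrreducible ℂ L V] (T : Trip H) (b : (rootSystem H).Base) :
    ∃ c : ℂ, ∀ (μ : Dual ℂ H) (v : V), v ∈ WS H V μ → dform H μ μ • v +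
      ∑ i ∈ posF b, (con H i : ℂ) • (⁅T.e i, ⁅T.f i, v⁆⁆ + ⁅T.f i, ⁅T.e i, v⁆⁆) = c • v := by
  obtain ⟨c, hc⟩ := B6b_scalar V (B6ba H T b) (B6bc H T b) (B6b_complete H T b)
  refine ⟨c, fun μ v hv => ?_⟩
  rw [← hc v, Fintype.sum_sum_type, Fintype.sum_sum_type]
  simp only [B6ba, B6bc, Sum.elim_inl, Sum.elim_inr]
  congr 1
  · rw [← B6b_dform, Finset.sum_smul]
    refine Finset.sum_congr rfl fun k _ => ?_
    rw [hv, lie_smul, hv, smul_smul, mul_comm]
  · rw [← Finset.sum_add_distrib, ← Finset.sum_coe_sort]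
    refine Finset.sum_congr rfl fun i _ => ?_
    simp only [smul_lie, lie_smul, smul_add]

end lie

end Pool.Agent.GP
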