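import Pool.Agent.GP.W1
import Pool.Agent.GP.B3

/-!
Module B7: the principal triple.

Hints. `2 • rho b.flip` is the sum of the positive coroots, a combination `∑ c j • coroot j` over
the simple `j` (only this is needed, not `c j > 0`). `⁅2 ρ^, T.e j⁆ = 2 • T.e j` by `root_rho`
(height 1) and `lie_eq_smul_of_mem_rootSpace`; `⁅∑ e_j, ∑ c_j f_j⁆ = ∑ c_j • coroot j` by
`ef_zero` and `T.hef`. It is not zero: a root exists as `L` is nontrivial (a simple one), and its
pairing with `rho b.flip` is `1`.
-/

namespace Pool.Agent.GP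

open Module

section lie

open LieAlgebra LieAlgebra.IsKilling

variable {L : Type*} [LieRing L] [LieAlgebra ℂ L] [FiniteDimensional ℂ L] [IsKilling ℂ L]
  (H : LieSubalgebra ℂ L) [H.IsCartanSubalgebra]
  (V : Type*) [AddCommGroup V] [Module ℂ V] [FiniteDimensional ℂ V]
  [LieRingModule L V] [LieModule ℂ L V]

/-- there is a root -/
theorem B7_nonempty_root [Nontrivial L] : Nonempty H.root := by
  by_contra hne
  rw [not_nonempty_iff] at hne
  have h1 : Submodule.span ℂ (Set.range (rootSystem H).root) = ⊤ :=
    RootPairing.IsRootSystem.span_root_eq_top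
  rw [Set.range_eq_empty, Submodule.span_empty] at h1
  have h2 : Nontrivial (Dual ℂ H) := inferInstance
  exact bot_ne_top h1

/-- the pairing of a simple root with twice the half sum of the positive coroots is two -/
theorem B7_pair (b : (rootSystem H).Base) (j : H.root) (hj : j ∈ b.support) :
    (j.1 : H → ℂ) ((2 : ℂ) • rho b.flip) = 2 := by
  have h1 := root_rho b j
  rw [b.height_one_of_mem_support hj] at h1
  have h2 : (rootSystem H).toLinearMap ((rootSystem H).root j) (rho b.flip) = 1 := by
    rw [h1]; norm_num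
  have h3 : (j.1 : H → ℂ) (rho b.flip) = 1 := h2
  have h4 : (j.1 : H → ℂ) ((2 : ℂ) • rho b.flip) = (2 : ℂ) * (j.1 : H → ℂ) (rho b.flip) := by
    have := (j.1.toLinear).map_smul (2 : ℂ) (rho b.flip)
    simpa using this
  rw [h4, h3, mul_one]

/-- twice the half sum of the positive coroots is a combination of the simple coroots -/
theorem B7_comb (b : (rootSystem H).Base) :
    ∃ c : H.root → ℂ, ((2 : ℂ) • rho b.flip : H) = ∑ j ∈ b.support, c j • coroot j.1 := by
  classical
  have h1 : ((2 : ℂ) • rho b.flip : H) ∈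
      Submodule.span ℂ ((rootSystem H).coroot '' (b.support : Set H.root)) := by
    have h2 : Submodule.span ℂ ((rootSystem H).coroot '' (b.support : Set H.root)) = ⊤ := by
      have h3 := b.span_coroot_support
      rw [h3]
      exact RootPairing.IsRootSystem.span_coroot_eq_top
    rw [h2]
    exact Submodule.mem_top
  rw [Submodule.mem_span_image_finset_iff_exists_fun] at h1
  obtain ⟨c, hc⟩ := h1
  refine ⟨fun j => if h : j ∈ b.support then c ⟨j, h⟩ else 0, ?_⟩
  rw [← hc, ← Finset.sum_coe_sort b.support]
  refine Finset.sum_congr rfl fun j _ => ?_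
  have hj : (j : H.root) ∈ b.support := j.2
  simp only [hj, dif_pos]
  rfl

variable {H} in
theorem Trip.principal [Nontrivial L] (T : Trip H) (b : (rootSystem H).Base) :
    ∃ c : H.root → ℂ, IsSl2Triple (((2 : ℂ) • rho b.flip : H) : L) (∑ j ∈ b.support, T.e j)
      (∑ j ∈ b.support, c j • T.f j) := by
  classical
  obtain ⟨c, hc⟩ := B7_comb H b
  refine ⟨c, ?_, ?_, ?_, ?_⟩
  · intro h0
    have h1 : ((2 : ℂ) • rho b.flip : H) = 0 := Subtype.ext (by simpa using h0)
    have := B7_nonempty_root H
    obtain ⟨j, hj⟩ := b.support_nonempty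
    have h2 := B7_pair H b j hj
    rw [h1] at h2
    have h3 : (j.1 : H → ℂ) 0 = 0 := by
      have h5 := (j.1.toLinear).map_zero
      exact h5
    rw [h3] at h2
    norm_num at h2
  · rw [hc]
    have h1 : ((∑ j ∈ b.support, c j • coroot j.1 : H) : L)
        = ∑ j ∈ b.support, c j • (coroot j.1 : L) := by
      have : ∀ s : Finset H.root, ((∑ j ∈ s, c j • coroot j.1 : H) : L)
          = ∑ j ∈ s, c j • (coroot j.1 : L) := by
        intro s
        induction s using Finset.induction_on with
        | empty => simp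
        | insert a s ha ih =>
          rw [Finset.sum_insert ha, Finset.sum_insert ha, ← ih]
          rfl
      exact this _
    rw [h1, sum_lie_sum]
    refine Finset.sum_congr rfl fun i hi => ?_
    rw [Finset.sum_eq_single i]
    · rw [lie_smul, T.hef]
    · intro k hk hki
      rw [lie_smul, T.ef_zero b i k hi hk (Ne.symm hki), smul_zero]
    · intro h
      exact absurd hi h
  · rw [lie_sum, Finset.smul_sum]
    refine Finset.sum_congr rfl fun j hj => ?_
    have h1 : ⁅(((2 : ℂ) • rho b.flip : H) : L), T.e j⁆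
        = (j.1 : H → ℂ) ((2 : ℂ) • rho b.flip) • T.e j :=
      lie_eq_smul_of_mem_rootSpace (T.he j) ((2 : ℂ) • rho b.flip : H)
    rw [B7_pair H b j hj] at h1
    rw [h1, two_smul, two_nsmul]
  · rw [lie_sum, Finset.smul_sum, ← Finset.sum_neg_distrib]
    refine Finset.sum_congr rfl fun j hj => ?_
    have h1 : ⁅(((2 : ℂ) • rho b.flip : H) : L), T.f j⁆
        = (-(j.1 : H → ℂ)) ((2 : ℂ) • rho b.flip) • T.f j :=
      lie_eq_smul_of_mem_rootSpace (T.hf j) ((2 : ℂ) • rho b.flip : H)
    rw [Pi.neg_apply, B7_pair H b j hj] at h1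
    rw [lie_smul, h1, neg_smul, smul_neg, two_smul, two_nsmul, smul_add]

end lie

end Pool.Agent.GP
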