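import Pool.Agent.GP.B1
import Pool.Agent.GP.B2
import Pool.Agent.GP.B7

/-!
Module B8: the levels.

Let `(t, e, f)` be the principal triple (B7) and `v ≠ 0` of weight `l`. A weight `μ` has
`(l - μ) (rho b.flip) = ∑ n j = k : ℕ`, so the eigenvalue of `t` on it is `l (t) - 2 k`. The
eigenvalues of `t` on `V` are symmetric, and are values of weights. So all levels up to the level
of the lowest weight occur.
-/

namespace Pool.Agent.GP

open Module

section lie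

open LieAlgebra LieAlgebra.IsKilling

variable {L : Type*} [LieRing L] [LieAlgebra ℂ L] [FiniteDimensional ℂ L] [IsKilling ℂ L]
  (H : LieSubalgebra ℂ L) [H.IsCartanSubalgebra]
  (V : Type*) [AddCommGroup V] [Module ℂ V] [FiniteDimensional ℂ V]
  [LieRingModule L V] [LieModule ℂ L V]

omit [FiniteDimensional ℂ L] [IsKilling ℂ L] [FiniteDimensional ℂ V] in
variable {V} in
lemma b8_pow_f {h e f : L} (t : IsSl2Triple h e f) (μ : ℂ) (v : V) (hv : ⁅h, v⁆ = μ • v)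
    (k : ℕ) : ⁅h, ((LieModule.toEnd ℂ L V f) ^ k) v⁆ =
      (μ - 2 * k) • ((LieModule.toEnd ℂ L V f) ^ k) v := by
  induction k with
  | zero => simp [hv]
  | succ k ih =>
    rw [pow_succ', Module.End.mul_apply, LieModule.toEnd_apply_apply, leibniz_lie, ih,
      t.lie_lie_smul_f ℂ]
    rw [neg_lie, smul_lie, lie_smul]
    push_cast
    module

omit [FiniteDimensional ℂ L] [IsKilling ℂ L] [FiniteDimensional ℂ V] in
variable {V} in
lemma b8_pow_e {h e f : L} (t : IsSl2Triple h e f) (μ : ℂ) (v : V) (hv : ⁅h, v⁆ = μ • v)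
    (k : ℕ) : ⁅h, ((LieModule.toEnd ℂ L V e) ^ k) v⁆ =
      (μ + 2 * k) • ((LieModule.toEnd ℂ L V e) ^ k) v := by
  induction k with
  | zero => simp [hv]
  | succ k ih =>
    rw [pow_succ', Module.End.mul_apply, LieModule.toEnd_apply_apply, leibniz_lie, ih,
      t.lie_h_e_smul ℂ]
    rw [smul_lie, lie_smul]
    push_cast
    module

omit [FiniteDimensional ℂ L] [IsKilling ℂ L] in
/-- the eigenvalues of the neutral element are symmetric -/
lemma b8_symm {h e f : L} (t : IsSl2Triple h e f) (m : ℤ)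
    (hm : ∃ v : V, v ≠ 0 ∧ ⁅h, v⁆ = (m : ℂ) • v) :
    ∃ v : V, v ≠ 0 ∧ ⁅h, v⁆ = ((-m : ℤ) : ℂ) • v := by
  obtain ⟨v, hv0, hv⟩ := hm
  obtain ⟨n, rfl | rfl⟩ := m.eq_nat_or_neg
  · have hv' : ⁅h, v⁆ = (n : ℂ) • v := by
      rw [hv]
      push_cast
      rfl
    refine ⟨((LieModule.toEnd ℂ L V f) ^ n) v, fun h0 => hv0 (sl2_f_inj t n v hv' h0), ?_⟩
    rw [b8_pow_f t _ v hv']
    congr 1
    push_cast
    ring
  · have hv' : ⁅h, v⁆ = (-n : ℂ) • v := by
      rw [hv]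
      push_cast
      rfl
    refine ⟨((LieModule.toEnd ℂ L V e) ^ n) v, fun h0 => hv0 (sl2_e_inj t n v hv' h0), ?_⟩
    rw [b8_pow_e t _ v hv']
    congr 1
    push_cast
    ring

/-- an eigenvalue of an element of the Cartan subalgebra is the value of a weight -/
lemma b8_weight [LieModule.IsIrreducible ℂ L V] (h : H) (m : ℂ)
    (hm : ∃ v : V, v ≠ 0 ∧ ⁅(h : L), v⁆ = m • v) : ∃ μ, WS H V μ ≠ ⊥ ∧ μ h = m := by
  obtain ⟨v, hv0, hv⟩ := hm
  obtain ⟨e, wt, he⟩ := exists_weight_basis H V (finrank ℂ V) rfl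
  have h1 : ∃ a, e.repr v a ≠ 0 := by
    by_contra hcon
    push Not at hcon
    apply hv0
    rw [← e.sum_repr v]
    exact Finset.sum_eq_zero fun a _ => by rw [hcon a, zero_smul]
  obtain ⟨a, ha⟩ := h1
  refine ⟨wt a, ?_, ?_⟩
  · intro h2
    have h3 := he a
    rw [h2, Submodule.mem_bot] at h3
    exact e.ne_zero a h3
  · have h2 : ⁅(h : L), v⁆ = ∑ b, (e.repr v b * wt b h) • e b := by
      conv_lhs => rw [← e.sum_repr v]
      rw [lie_sum]
      refine Finset.sum_congr rfl fun b _ => ?_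
      rw [lie_smul, (mem_WS H _ _).mp (he b) h, smul_smul]
    have h3 : e.repr ⁅(h : L), v⁆ a = e.repr v a * wt a h := by
      rw [h2, e.repr_sum_self]
    rw [hv, map_smul, Finsupp.smul_apply, smul_eq_mul] at h3
    rw [mul_comm] at h3
    exact (mul_left_cancel₀ ha h3).symm

theorem exists_levels [Nontrivial L] [LieModule.IsIrreducible ℂ L V] (b : (rootSystem H).Base)
    (l : Dual ℂ H) (hl : WS H V l ≠ ⊥) (hbel : ∀ μ, WS H V μ ≠ ⊥ → Below b l μ) :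
    ∃ N : ℕ, l ((2 : ℂ) • rho b.flip) = N ∧
      (∀ μ, WS H V μ ≠ ⊥ → ∃ k ≤ N, (l - μ) (rho b.flip) = (k : ℂ)) ∧
      ∀ k ≤ N, ∃ μ, WS H V μ ≠ ⊥ ∧ (l - μ) (rho b.flip) = (k : ℂ) := by
  obtain ⟨T⟩ := nonempty_trip H
  obtain ⟨c, t⟩ := T.principal b
  set e : L := ∑ j ∈ b.support, T.e j with he
  set f : L := ∑ j ∈ b.support, c j • T.f j with hf
  set τ : H := (2 : ℂ) • rho b.flip with hτ
  -- levels are natural numbers
  have hlev : ∀ μ, WS H V μ ≠ ⊥ → ∃ k : ℕ, (l - μ) (rho b.flip) = (k : ℂ) := by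
    intro μ hμ
    obtain ⟨n, hn⟩ := hbel μ hμ
    refine ⟨∑ j ∈ b.support, n j, ?_⟩
    rw [hn, LinearMap.sum_apply]
    push_cast
    refine Finset.sum_congr rfl fun j hj => ?_
    have h1 := root_rho b j
    rw [b.height_one_of_mem_support hj] at h1
    have h2 : (rootSystem H).toLinearMap ((rootSystem H).root j) (rho b.flip) =
        ((rootSystem H).root j) (rho b.flip) := rfl
    rw [h2] at h1
    rw [LinearMap.smul_apply, h1]
    simp
  have hval : ∀ (μ : Dual ℂ H) (k : ℂ), (l - μ) (rho b.flip) = k → μ τ = l τ - 2 * k := by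
    intro μ k hk
    rw [hτ, map_smul, map_smul, ← hk, LinearMap.sub_apply]
    simp only [smul_eq_mul]
    ring
  have heig : ∀ μ, WS H V μ ≠ ⊥ → ∃ v : V, v ≠ 0 ∧ ⁅(τ : L), v⁆ = μ τ • v := by
    intro μ hμ
    obtain ⟨v, hv, hv0⟩ := Submodule.exists_mem_ne_zero_of_ne_bot hμ
    exact ⟨v, hv0, (mem_WS H _ _).mp hv τ⟩
  obtain ⟨v, hv0, hv⟩ := heig l hl
  obtain ⟨z, hz⟩ := sl2_int t (l τ) v hv0 hv
  -- the lowest level
  have h1 : ∃ μ, WS H V μ ≠ ⊥ ∧ μ τ = ((-z : ℤ) : ℂ) :=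
    b8_weight H V τ _ (b8_symm V t z ⟨v, hv0, by rw [hv, hz]⟩)
  obtain ⟨μ₀, hμ₀, hμ₀'⟩ := h1
  obtain ⟨N, hN⟩ := hlev μ₀ hμ₀
  have h2 := hval μ₀ N hN
  rw [hμ₀', hz] at h2
  have hzN : z = N := by
    have h3 : (z : ℂ) = (N : ℂ) := by
      push_cast at h2
      linear_combination (-1 / 2 : ℂ) * h2
    exact_mod_cast h3
  have hlN : l τ = (N : ℂ) := by
    rw [hz, hzN]
    push_cast
    rfl
  refine ⟨N, hlN, ?_, ?_⟩
  · intro μ hμ
    obtain ⟨k, hk⟩ := hlev μ hμ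
    refine ⟨k, ?_, hk⟩
    have h3 := hval μ k hk
    rw [hlN] at h3
    have h4 : μ τ = (((N : ℤ) - 2 * k : ℤ) : ℂ) := by
      rw [h3]
      push_cast
      rfl
    obtain ⟨w, hw0, hw⟩ := heig μ hμ
    obtain ⟨μ', hμ', hμ''⟩ := b8_weight H V τ _
      (b8_symm V t ((N : ℤ) - 2 * k) ⟨w, hw0, by rw [hw, h4]⟩)
    obtain ⟨k', hk'⟩ := hlev μ' hμ'
    have h5 := hval μ' k' hk'
    rw [hlN, hμ''] at h5
    have h6 : -((N : ℤ) - 2 * k) = (N : ℤ) - 2 * k' := by exact_mod_cast h5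
    omega
  · intro k hk
    have hvN : ⁅(τ : L), v⁆ = (N : ℂ) • v := by rw [hv, hlN]
    have h3 : ((LieModule.toEnd ℂ L V f) ^ k) v ≠ 0 := by
      intro h4
      apply hv0
      apply sl2_f_inj t N v hvN
      obtain ⟨r, rfl⟩ := Nat.exists_eq_add_of_le' hk
      rw [pow_add, Module.End.mul_apply, h4, map_zero]
    obtain ⟨μ, hμ, hμ'⟩ := b8_weight H V τ _ ⟨_, h3, b8_pow_f t (N : ℂ) v hvN k⟩
    refine ⟨μ, hμ, ?_⟩
    obtain ⟨k', hk'⟩ := hlev μ hμ
    have h5 := hval μ k' hk'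
    rw [hlN, hμ'] at h5
    rw [hk']
    linear_combination (1 / 2 : ℂ) * h5

end lie

end Pool.Agent.GP
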