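import Pool.Agent.GP.B4
import Pool.Agent.GP.B5
import Pool.Agent.GP.B6b

/-!
Module B9: the data of the character formula.

Hints. Take `T` (B3), a basis of weight vectors `v`, `wt` (B2), `E i`, `F i` the matrices of
`T.e i`, `T.f i` in the basis `v` (`LinearMap.toMatrix v v (LieModule.toEnd ℂ L V (T.e i))`),
`B = dform H`, `con = con H`, `cas` from B6b, `top` the index with `wt top = l` (B4, unique by
`finrank_WS`), `inv` from `finrank_reflection` and `finrank_WS`.
-/

namespace Pool.Agent.GP

open Module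

section lie

open LieAlgebra LieAlgebra.IsKilling

variable {L : Type*} [LieRing L] [LieAlgebra ℂ L] [FiniteDimensional ℂ L] [IsKilling ℂ L]
  (H : LieSubalgebra ℂ L) [H.IsCartanSubalgebra]
  (V : Type*) [AddCommGroup V] [Module ℂ V] [FiniteDimensional ℂ V]
  [LieRingModule L V] [LieModule ℂ L V]

variable {H V} in
theorem B9_repr {n : ℕ} (v : Basis (Fin n) ℂ V) (wt : Fin n → Dual ℂ H)
    (hv : ∀ a, v a ∈ WS H V (wt a)) (μ : Dual ℂ H) (w : V) (hw : w ∈ WS H V μ) (a : Fin n)
    (ha : v.repr w a ≠ 0) : wt a = μ := by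
  ext h
  have h1 : ⁅(h : L), w⁆ = μ h • w := hw h
  have h2 : ⁅(h : L), w⁆ = ∑ c, (v.repr w c * wt c h) • v c := by
    conv_lhs => rw [← v.sum_repr w]
    rw [lie_sum]
    refine Finset.sum_congr rfl fun c _ => ?_
    rw [lie_smul, hv c h, smul_smul]
  have h3 : v.repr ⁅(h : L), w⁆ a = v.repr w a * wt a h := by
    rw [h2]
    exact congrFun (v.repr_sum_self (fun c => v.repr w c * wt c h)) a
  rw [h1, map_smul, Finsupp.smul_apply, smul_eq_mul, mul_comm] at h3
  exact (mul_left_cancel₀ ha h3).symm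

theorem exists_chData [LieModule.IsIrreducible ℂ L V] (b : (rootSystem H).Base) (n : ℕ)
    (hn : finrank ℂ V = n) :
    ∃ (D : ChData (rootSystem H) b n) (v : Basis (Fin n) ℂ V), ∀ a, v a ∈ WS H V (D.wt a) := by
  obtain ⟨T⟩ := nonempty_trip H
  obtain ⟨v, wt, hv⟩ := exists_weight_basis H V n hn
  obtain ⟨l, hl1, hl2, hl3⟩ := exists_top H V b
  obtain ⟨c, hc⟩ := casimir H V T b
  have htop : Nat.card {a // wt a = l} = 1 := by
    rw [← finrank_WS v wt hv l, hl1]
  obtain ⟨⟨hsub, ⟨top⟩⟩⟩ := (Nat.card_eq_one_iff_unique.1 htop : _ ∧ _) |> fun h => PLift.up h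
  have hE : ∀ (x : L) (a a' : Fin n), LinearMap.toMatrix v v (LieModule.toEnd ℂ L V x) a a' =
      v.repr ⁅x, v a'⁆ a := by
    intro x a a'
    rw [LinearMap.toMatrix_apply]
    rfl
  have hM : ∀ i : H.root, LinearMap.toMatrix v v (LieModule.toEnd ℂ L V (T.e i)) *
      LinearMap.toMatrix v v (LieModule.toEnd ℂ L V (T.f i)) =
      LinearMap.toMatrix v v (LieModule.toEnd ℂ L V (T.e i) * LieModule.toEnd ℂ L V (T.f i)) := by
    intro i
    rw [LinearMap.toMatrix_mul]
  have hM' : ∀ i : H.root, LinearMap.toMatrix v v (LieModule.toEnd ℂ L V (T.f i)) *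
      LinearMap.toMatrix v v (LieModule.toEnd ℂ L V (T.e i)) =
      LinearMap.toMatrix v v (LieModule.toEnd ℂ L V (T.f i) * LieModule.toEnd ℂ L V (T.e i)) := by
    intro i
    rw [LinearMap.toMatrix_mul]
  refine ⟨{
    wt := wt
    E := fun i => LinearMap.toMatrix v v (LieModule.toEnd ℂ L V (T.e i))
    F := fun i => LinearMap.toMatrix v v (LieModule.toEnd ℂ L V (T.f i))
    E_wt := ?_
    F_wt := ?_
    EF := ?_
    B := dform H
    con := con H
    con_pos := con_pos H
    B_symm := dform_symm H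
    B_root := ?_
    cas := c
    casimir := ?_
    top := top.1
    top_mult := ?_
    below := ?_
    dom := ?_
    inv := ?_ }, v, hv⟩
  · intro i hi a a' h
    rw [hE] at h
    exact B9_repr v wt hv _ _ (T.e_mem i (wt a') (v a') (hv a')) a h
  · intro i hi a a' h
    rw [hE] at h
    exact B9_repr v wt hv _ _ (T.f_mem i (wt a') (v a') (hv a')) a h
  · intro i hi
    have hef : LieModule.toEnd ℂ L V (T.e i) * LieModule.toEnd ℂ L V (T.f i) -
        LieModule.toEnd ℂ L V (T.f i) * LieModule.toEnd ℂ L V (T.e i) =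
        LieModule.toEnd ℂ L V (coroot i.1 : L) := by
      ext w
      rw [← T.hef i]
      simp
    rw [hM, hM', ← map_sub, hef]
    ext a a'
    rw [hE, hv a' (coroot i.1), map_smul, Basis.repr_self, Finsupp.smul_apply]
    rw [Matrix.diagonal_apply, Finsupp.single_apply]
    by_cases h : a = a'
    · subst h
      simp
    · rw [if_neg h, if_neg (Ne.symm h)]
      simp
  · intro i x
    rw [dform_root]
    simp
  · apply (Matrix.toLin v v).injective
    refine v.ext fun a => ?_
    have h1 := hc (wt a) (v a) (hv a)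
    rw [map_add, LinearMap.add_apply, map_sum, LinearMap.sum_apply]
    rw [map_smul, LinearMap.smul_apply, Matrix.toLin_one, LinearMap.id_apply, ← h1]
    congr 1
    · rw [Matrix.toLin_self]
      rw [Finset.sum_eq_single a]
      · rw [Matrix.diagonal_apply_eq]
      · intro c _ hca
        rw [Matrix.diagonal_apply_ne _ hca, zero_smul]
      · intro h
        exact absurd (Finset.mem_univ a) h
    · refine Finset.sum_congr rfl fun i _ => ?_
      rw [hM, hM', ← map_add, map_smul, LinearMap.smul_apply, Matrix.toLin_toMatrix]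
      rfl
  · intro a ha
    have h2 : (⟨a, ha.trans top.2⟩ : {a // wt a = l}) = top := Subsingleton.elim _ _
    exact congrArg Subtype.val h2
  · intro a
    rw [top.2]
    refine hl2 (wt a) ?_
    rw [Submodule.ne_bot_iff]
    exact ⟨v a, hv a, v.ne_zero a⟩
  · intro j hj
    obtain ⟨k, hk⟩ := hl3 j hj
    refine ⟨k, ?_⟩
    rw [top.2, ← hk]
    simp
  · intro j hj μ
    rw [← finrank_WS v wt hv, ← finrank_WS v wt hv]
    exact finrank_reflection H V j μ

end lie

end Pool.Agent.GP
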