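import Pool.Agent.GP.B1
import Pool.Agent.GP.B3
import Pool.Agent.GP.B7

/-!
Module C0: the chain.

Hints. Let `T` be a choice of triples (B3), `(t, e, f)` the principal triple (B7):
`t = 2 rho^`, `e = ∑ e_j`, `f = ∑ c_j f_j` over the simple `j`. `v k` has `t`-eigenvalue `n - 2 k`,
and a vector of weight `μ ≠ 0`-dimensional weight space is a combination of the `v k` with
`wt k = μ`; as the levels are distinct, `WS (wt k) = ℂ v k`, and `⁅T.f j, v k⁆` is in
`WS (wt k - root j)`, which has level `k + 1`, so it is a multiple of `v (k+1)`, nonzero only if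
`wt k - wt (k+1) = root j`. If `2 k < n`, `⁅f, v k⁆ ≠ 0` (`sl2_f_inj`), so there is a simple
`j = i k` with `⁅T.f j, v k⁆ ≠ 0`; if `2 k ≥ n`, `v (k+1)` has eigenvalue `< 0`, so
`⁅e, v (k+1)⁆ ≠ 0` and there is a simple `j = i k` with `⁅T.e j, v (k+1)⁆ ≠ 0`. In both cases
`wt k - wt (k+1) = root (i k)`, which determines `i k`, and both coefficients `φ k` (of `T.f (i k)`)
and `ε k` (of `T.e (i k)`) are nonzero by `sl2_ef`, `sl2_fe`. For other simple `j ≠ i k` both are
zero. `A j l = (rootSystem H).pairingIn ℤ l j` (`= root l (coroot j)`), `x j k = wt k (coroot j)`,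
an integer by `sl2_int`. `hrel`: apply `⁅T.e j, T.f j⁆ = coroot j` to `v k`, `j = i k`. `x_zero`:
the same for `j` with `T.f j v k = 0 = T.e j v k`. `x_run`: with `a t = φ t ε t`,
`a (k+s) = x j k + ... + x j (k+s)` for `s < l`, `x j (k+s) = x j k - 2 s`, and at the end
`0 - a (k+l-1) = x j (k+l) = x j k - 2 l` (as `T.f j v (k+l) = 0`), so
`l * x j k - l (l-1) = 2 l - x j k`... i.e. `(l+1) x j k = l (l+1)`.
`LM V v` is the set of matrices of the operators `toEnd x` in the basis `v`.
-/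

namespace Pool.Agent.GP

open Module

section lie

open LieAlgebra LieAlgebra.IsKilling

variable {L : Type*} [LieRing L] [LieAlgebra ℂ L] [FiniteDimensional ℂ L] [IsKilling ℂ L]
  (H : LieSubalgebra ℂ L) [H.IsCartanSubalgebra]
  (V : Type*) [AddCommGroup V] [Module ℂ V] [FiniteDimensional ℂ V]
  [LieRingModule L V] [LieModule ℂ L V]

variable {H V} in
/-- coordinates of a weight vector -/
theorem C0_repr {m : ℕ} (v : Basis (Fin m) ℂ V) (wt : Fin m → Dual ℂ H)
    (hv : ∀ a, v a ∈ WS H V (wt a)) (μ : Dual ℂ H) (w : V) (hw : w ∈ WS H V μ) (a : Fin m)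
    (ha : v.repr w a ≠ 0) : wt a = μ := by
  ext h
  have h1 := hw h
  have h2 : ⁅(h : L), w⁆ = ∑ c, (v.repr w c * wt c h) • v c := by
    conv_lhs => rw [← v.sum_repr w]
    rw [lie_sum]
    apply Finset.sum_congr rfl
    intro c _
    rw [lie_smul, hv c h, smul_smul]
  have h3 : v.repr ⁅(h : L), w⁆ a = v.repr w a * wt a h := by
    rw [h2, v.repr_sum_self]
  rw [h1, map_smul, Finsupp.smul_apply, smul_eq_mul, mul_comm] at h3
  exact (mul_left_cancel₀ ha h3).symm

variable {H V} in
/-- the lowering and raising operators in a chain of weight vectors with distinct levels -/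
theorem C0_ops (b : (rootSystem H).Base) (n : ℕ) (T : Trip H)
    (v : Basis (Fin (n + 1)) ℂ V) (wt : Fin (n + 1) → Dual ℂ H)
    (hv : ∀ a, v a ∈ WS H V (wt a))
    (hlev : ∀ k : Fin (n + 1), (wt 0 - wt k) (rho b.flip) = ((k : ℕ) : ℂ)) :
    (∀ j ∈ b.support, ∀ a c, v.repr ⁅T.f j, v c⁆ a ≠ 0 → a.val = c.val + 1 ∧
      wt c - wt a = (rootSystem H).root j) ∧
    ∀ j ∈ b.support, ∀ a c, v.repr ⁅T.e j, v c⁆ a ≠ 0 → c.val = a.val + 1 ∧
      wt a - wt c = (rootSystem H).root j := by
  have hroot : ∀ j ∈ b.support, (rootSystem H).root j (rho b.flip) = 1 := by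
    intro j hj
    have := root_rho b j
    rw [RootPairing.Base.height_one_of_mem_support hj] at this
    simpa using this
  constructor
  · intro j hj a c h
    have h1 := C0_repr v wt hv _ _ (Trip.f_mem T j _ _ (hv c)) a h
    have h2 : wt c - wt a = (rootSystem H).root j := by rw [h1]; abel
    refine ⟨?_, h2⟩
    have h3 := hroot j hj
    rw [← h2] at h3
    have h4 : (wt c - wt a) (rho b.flip) = (wt 0 - wt a) (rho b.flip) -
        (wt 0 - wt c) (rho b.flip) := by
      simp only [LinearMap.sub_apply]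
      ring
    rw [h4, hlev, hlev] at h3
    have h5 : ((a.val : ℕ) : ℂ) = ((c.val + 1 : ℕ) : ℂ) := by
      push_cast
      linear_combination h3
    exact_mod_cast h5
  · intro j hj a c h
    have h1 := C0_repr v wt hv _ _ (Trip.e_mem T j _ _ (hv c)) a h
    have h2 : wt a - wt c = (rootSystem H).root j := by rw [h1]; abel
    refine ⟨?_, h2⟩
    have h3 := hroot j hj
    rw [← h2] at h3
    have h4 : (wt a - wt c) (rho b.flip) = (wt 0 - wt c) (rho b.flip) -
        (wt 0 - wt a) (rho b.flip) := by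
      simp only [LinearMap.sub_apply]
      ring
    rw [h4, hlev, hlev] at h3
    have h5 : ((c.val : ℕ) : ℂ) = ((a.val + 1 : ℕ) : ℂ) := by
      push_cast
      linear_combination h3
    exact_mod_cast h5

variable {H V} in
/-- a simple root joins two consecutive weights -/
theorem C0_step [Nontrivial L] (b : (rootSystem H).Base) (n : ℕ) (T : Trip H)
    (v : Basis (Fin (n + 1)) ℂ V) (wt : Fin (n + 1) → Dual ℂ H)
    (hv : ∀ a, v a ∈ WS H V (wt a))
    (hlev : ∀ k : Fin (n + 1), (wt 0 - wt k) (rho b.flip) = ((k : ℕ) : ℂ))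
    (hN : wt 0 ((2 : ℂ) • rho b.flip) = n) (k : ℕ) (hk : k < n) :
    ∃ j ∈ b.support, v.repr ⁅T.f j, v ⟨k, by omega⟩⁆ ⟨k + 1, by omega⟩ ≠ 0 ∧
      v.repr ⁅T.e j, v ⟨k + 1, by omega⟩⁆ ⟨k, by omega⟩ ≠ 0 := by
  obtain ⟨hF, hE⟩ := C0_ops b n T v wt hv hlev
  obtain ⟨c, hc⟩ := Trip.principal T b
  have heig : ∀ a : Fin (n + 1), ⁅(((2 : ℂ) • rho b.flip : H) : L), v a⁆ =
      ((n : ℂ) - 2 * (a.val : ℂ)) • v a := by
    intro a
    rw [hv a ((2 : ℂ) • rho b.flip)]
    congr 1
    have h1 := hlev a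
    rw [LinearMap.sub_apply] at h1
    rw [map_smul, smul_eq_mul] at hN ⊢
    linear_combination hN - 2 * h1
  -- the image of a basis vector under a raising or lowering operator
  have hFv : ∀ j ∈ b.support, ⁅T.f j, v ⟨k, by omega⟩⁆ =
      v.repr ⁅T.f j, v ⟨k, by omega⟩⁆ ⟨k + 1, by omega⟩ • v ⟨k + 1, by omega⟩ := by
    intro j hj
    conv_lhs => rw [← v.sum_repr ⁅T.f j, v ⟨k, by omega⟩⁆]
    rw [Finset.sum_eq_single_of_mem (⟨k + 1, by omega⟩ : Fin (n + 1)) (Finset.mem_univ _)]
    intro a _ ha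
    by_contra h
    have h' : v.repr ⁅T.f j, v ⟨k, by omega⟩⁆ a ≠ 0 := by
      intro h''
      rw [h'', zero_smul] at h
      exact h rfl
    exact ha (Fin.ext (hF j hj _ _ h').1)
  have hEv : ∀ j ∈ b.support, ⁅T.e j, v ⟨k + 1, by omega⟩⁆ =
      v.repr ⁅T.e j, v ⟨k + 1, by omega⟩⁆ ⟨k, by omega⟩ • v ⟨k, by omega⟩ := by
    intro j hj
    conv_lhs => rw [← v.sum_repr ⁅T.e j, v ⟨k + 1, by omega⟩⁆]
    rw [Finset.sum_eq_single_of_mem (⟨k, by omega⟩ : Fin (n + 1)) (Finset.mem_univ _)]
    intro a _ ha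
    by_contra h
    have h' : v.repr ⁅T.e j, v ⟨k + 1, by omega⟩⁆ a ≠ 0 := by
      intro h''
      rw [h'', zero_smul] at h
      exact h rfl
    have := (hE j hj _ _ h').1
    exact ha (Fin.ext (by simpa using this.symm))
  have hpow : ∀ (x : L) (w : V) (m : ℕ), 0 < m → ⁅x, w⁆ = 0 →
      ((LieModule.toEnd ℂ L V x) ^ m) w = 0 := by
    intro x w m hm h
    obtain ⟨m', rfl⟩ := Nat.exists_eq_succ_of_ne_zero hm.ne'
    rw [pow_succ, Module.End.mul_apply, LieModule.toEnd_apply_apply, h, map_zero]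
  by_cases h2 : 2 * k < n
  · -- lowering
    have h3 : ⁅∑ j ∈ b.support, c j • T.f j, v ⟨k, by omega⟩⁆ ≠ 0 := by
      intro h0
      have h4 := sl2_f_inj hc (n - 2 * k) (v ⟨k, by omega⟩) (by
        rw [heig, Nat.cast_sub h2.le]; push_cast; rfl) (hpow _ _ _ (by omega) h0)
      exact v.ne_zero _ h4
    obtain ⟨j, hj, hj'⟩ : ∃ j ∈ b.support, ⁅T.f j, v ⟨k, by omega⟩⁆ ≠ 0 := by
      by_contra hcon
      push Not at hcon
      apply h3
      rw [sum_lie]
      apply Finset.sum_eq_zero
      intro j hj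
      rw [smul_lie, hcon j hj, smul_zero]
    have h5 := sl2_ef (T.isSl2 j) _ _ (hv ⟨k, by omega⟩ (coroot j.1)) hj'
    refine ⟨j, hj, ?_, ?_⟩
    · intro h0
      rw [hFv j hj, h0, zero_smul] at hj'
      exact hj' rfl
    · intro h0
      rw [hFv j hj, lie_smul, hEv j hj, h0, zero_smul, smul_zero] at h5
      exact h5 rfl
  · -- raising
    have h3 : ⁅∑ j ∈ b.support, T.e j, v ⟨k + 1, by omega⟩⁆ ≠ 0 := by
      intro h0
      have h4 := sl2_e_inj hc (2 * (k + 1) - n) (v ⟨k + 1, by omega⟩) (by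
        rw [heig, Nat.cast_sub (by omega)]; push_cast; congr 1; ring) (hpow _ _ _ (by omega) h0)
      exact v.ne_zero _ h4
    obtain ⟨j, hj, hj'⟩ : ∃ j ∈ b.support, ⁅T.e j, v ⟨k + 1, by omega⟩⁆ ≠ 0 := by
      by_contra hcon
      push Not at hcon
      apply h3
      rw [sum_lie]
      apply Finset.sum_eq_zero
      intro j hj
      rw [hcon j hj]
    have h5 := sl2_fe (T.isSl2 j) _ _ (hv ⟨k + 1, by omega⟩ (coroot j.1)) hj'
    refine ⟨j, hj, ?_, ?_⟩
    · intro h0
      rw [hEv j hj, lie_smul, hFv j hj, h0, zero_smul, smul_zero] at h5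
      exact h5 rfl
    · intro h0
      rw [hEv j hj, h0, zero_smul] at hj'
      exact hj' rfl

theorem exists_chain [Nontrivial L] (b : (rootSystem H).Base) (n : ℕ)
    (v : Basis (Fin (n + 1)) ℂ V) (wt : Fin (n + 1) → Dual ℂ H)
    (hv : ∀ a, v a ∈ WS H V (wt a))
    (hlev : ∀ k : Fin (n + 1), (wt 0 - wt k) (rho b.flip) = ((k : ℕ) : ℂ))
    (hN : wt 0 ((2 : ℂ) • rho b.flip) = n) :
    ∃ MC : MatChain n b.support (LM V (L := L) v), ∀ k (hk : k < n),
      wt ⟨k, by omega⟩ - wt ⟨k + 1, by omega⟩ = (rootSystem H).root (MC.i k) := by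
  classical
  obtain ⟨T⟩ := nonempty_trip H
  obtain ⟨hF, hE⟩ := C0_ops b n T v wt hv hlev
  have hstep := C0_step b n T v wt hv hlev hN
  obtain ⟨c, hc⟩ := Trip.principal T b
  have hne : Nonempty b.support := by
    by_contra h
    have h0 : b.support = ∅ := by
      rw [Finset.eq_empty_iff_forall_notMem]
      intro x hx
      exact h ⟨⟨x, hx⟩⟩
    have h1 := hc.lie_e_f
    rw [h0, Finset.sum_empty, Finset.sum_empty, lie_zero] at h1
    exact hc.h_ne_zero h1.symm
  -- coefficients
  let fc : b.support → ℕ → ℂ := fun j k => if h : k < n then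
    v.repr ⁅T.f j, v ⟨k, by omega⟩⁆ ⟨k + 1, by omega⟩ else 0
  let ec : b.support → ℕ → ℂ := fun j k => if h : k < n then
    v.repr ⁅T.e j, v ⟨k + 1, by omega⟩⁆ ⟨k, by omega⟩ else 0
  have fc_eq : ∀ (j : b.support) (k : ℕ) (h : k < n),
      fc j k = v.repr ⁅T.f j, v ⟨k, by omega⟩⁆ ⟨k + 1, by omega⟩ := fun j k h => dif_pos h
  have ec_eq : ∀ (j : b.support) (k : ℕ) (h : k < n),
      ec j k = v.repr ⁅T.e j, v ⟨k + 1, by omega⟩⁆ ⟨k, by omega⟩ := fun j k h => dif_pos h
  have fc_ge : ∀ (j : b.support) (k : ℕ), ¬ k < n → fc j k = 0 := fun j k h => dif_neg h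
  have hstep' : ∀ k : ℕ, ∃ j : b.support, k < n → fc j k ≠ 0 ∧ ec j k ≠ 0 := by
    intro k
    by_cases hk : k < n
    · obtain ⟨j, hj, h1, h2⟩ := hstep k hk
      refine ⟨⟨j, hj⟩, fun _ => ⟨?_, ?_⟩⟩
      · rw [fc_eq _ _ hk]; exact h1
      · rw [ec_eq _ _ hk]; exact h2
    · exact ⟨hne.some, fun h => absurd h hk⟩
  choose I hI using hstep'
  have hroot : ∀ (j : b.support) (k : ℕ) (hk : k < n), fc j k ≠ 0 →
      wt ⟨k, by omega⟩ - wt ⟨k + 1, by omega⟩ = (rootSystem H).root j := by
    intro j k hk h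
    rw [fc_eq _ _ hk] at h
    exact (hF j j.2 _ _ h).2
  have hrootE : ∀ (j : b.support) (k : ℕ) (hk : k < n), ec j k ≠ 0 →
      wt ⟨k, by omega⟩ - wt ⟨k + 1, by omega⟩ = (rootSystem H).root j := by
    intro j k hk h
    rw [ec_eq _ _ hk] at h
    exact (hE j j.2 _ _ h).2
  have hinj : ∀ j l : b.support, (rootSystem H).root j = (rootSystem H).root l → j = l := by
    intro j l h
    exact Subtype.ext ((rootSystem H).root.injective h)
  have fc_ne : ∀ (j : b.support) (k : ℕ), j ≠ I k → fc j k = 0 := by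
    intro j k h
    by_cases hk : k < n
    · by_contra h'
      exact h (hinj _ _ ((hroot j k hk h').symm.trans (hroot (I k) k hk (hI k hk).1)))
    · exact fc_ge j k hk
  -- the operators on the basis
  have hfv : ∀ (j : b.support) (k : ℕ) (hk : k < n), ⁅T.f j, v ⟨k, by omega⟩⁆ =
      fc j k • v ⟨k + 1, by omega⟩ := by
    intro j k hk
    conv_lhs => rw [← v.sum_repr ⁅T.f j, v ⟨k, by omega⟩⁆]
    rw [Finset.sum_eq_single_of_mem (⟨k + 1, by omega⟩ : Fin (n + 1)) (Finset.mem_univ _),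
      fc_eq _ _ hk]
    intro a _ ha
    by_contra h
    have h' : v.repr ⁅T.f j, v ⟨k, by omega⟩⁆ a ≠ 0 := by
      intro h''
      rw [h'', zero_smul] at h
      exact h rfl
    exact ha (Fin.ext (hF j j.2 _ _ h').1)
  have hfvn : ∀ (j : b.support), ⁅T.f j, v ⟨n, by omega⟩⁆ = 0 := by
    intro j
    rw [← v.sum_repr ⁅T.f j, v ⟨n, by omega⟩⁆]
    apply Finset.sum_eq_zero
    intro a _
    by_contra h
    have h' : v.repr ⁅T.f j, v ⟨n, by omega⟩⁆ a ≠ 0 := by
      intro h''
      rw [h'', zero_smul] at h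
      exact h rfl
    have h1 : a.val = n + 1 := (hF j j.2 _ _ h').1
    have := a.2
    omega
  have hev : ∀ (j : b.support) (k : ℕ) (hk : k < n), ⁅T.e j, v ⟨k + 1, by omega⟩⁆ =
      ec j k • v ⟨k, by omega⟩ := by
    intro j k hk
    conv_lhs => rw [← v.sum_repr ⁅T.e j, v ⟨k + 1, by omega⟩⁆]
    rw [Finset.sum_eq_single_of_mem (⟨k, by omega⟩ : Fin (n + 1)) (Finset.mem_univ _),
      ec_eq _ _ hk]
    intro a _ ha
    by_contra h
    have h' : v.repr ⁅T.e j, v ⟨k + 1, by omega⟩⁆ a ≠ 0 := by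
      intro h''
      rw [h'', zero_smul] at h
      exact h rfl
    have := (hE j j.2 _ _ h').1
    exact ha (Fin.ext (by simpa using this.symm))
  have hev0 : ∀ (j : b.support), ⁅T.e j, v ⟨0, by omega⟩⁆ = 0 := by
    intro j
    rw [← v.sum_repr ⁅T.e j, v ⟨0, by omega⟩⁆]
    apply Finset.sum_eq_zero
    intro a _
    by_contra h
    have h' : v.repr ⁅T.e j, v ⟨0, by omega⟩⁆ a ≠ 0 := by
      intro h''
      rw [h'', zero_smul] at h
      exact h rfl
    have h1 : 0 = a.val + 1 := (hE j j.2 _ _ h').1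
    omega
  -- the products
  let pr : b.support → ℕ → ℂ := fun j k => fc j k * ec j k
  have pr_ge : ∀ (j : b.support) (k : ℕ), ¬ k < n → pr j k = 0 := by
    intro j k h
    show fc j k * ec j k = 0
    rw [fc_ge j k h, zero_mul]
  have pr_ne : ∀ (j : b.support) (k : ℕ), j ≠ I k → pr j k = 0 := by
    intro j k h
    show fc j k * ec j k = 0
    rw [fc_ne j k h, zero_mul]
  have hef : ∀ (j : b.support) (k : ℕ) (hk : k < n + 1),
      ⁅T.e j, ⁅T.f j, v ⟨k, hk⟩⁆⁆ = pr j k • v ⟨k, hk⟩ := by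
    intro j k hk
    by_cases h : k < n
    · rw [hfv j k h, lie_smul, hev j k h, smul_smul]
    · have hkn : k = n := by omega
      subst hkn
      rw [hfvn, lie_zero, pr_ge j k h, zero_smul]
  have hfe : ∀ (j : b.support) (k : ℕ) (hk : k < n),
      ⁅T.f j, ⁅T.e j, v ⟨k + 1, by omega⟩⁆⁆ = pr j k • v ⟨k + 1, by omega⟩ := by
    intro j k hk
    rw [hev j k hk, lie_smul, hfv j k hk, smul_smul, mul_comm]
  have hrel0 : ∀ j : b.support, wt ⟨0, by omega⟩ (coroot j.1.1) = pr j 0 := by
    intro j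
    have h1 := hv ⟨0, by omega⟩ (coroot j.1.1)
    rw [← T.hef j.1, lie_lie, hef j 0 (by omega), hev0, lie_zero, sub_zero] at h1
    have h2 := sub_eq_zero.2 h1
    rw [← sub_smul] at h2
    rcases smul_eq_zero.1 h2 with h3 | h3
    · exact (sub_eq_zero.1 h3).symm
    · exact absurd h3 (v.ne_zero _)
  have hrel1 : ∀ (j : b.support) (k : ℕ) (hk : k < n),
      wt ⟨k + 1, by omega⟩ (coroot j.1.1) = pr j (k + 1) - pr j k := by
    intro j k hk
    have h1 := hv ⟨k + 1, by omega⟩ (coroot j.1.1)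
    rw [← T.hef j.1, lie_lie, hef j (k + 1) (by omega), hfe j k hk, ← sub_smul] at h1
    have h2 := sub_eq_zero.2 h1
    rw [← sub_smul] at h2
    rcases smul_eq_zero.1 h2 with h3 | h3
    · exact (sub_eq_zero.1 h3).symm
    · exact absurd h3 (v.ne_zero _)
  -- the integers
  have hint : ∀ (j : b.support) (k : ℕ), ∃ z : ℤ, ∀ h : k < n + 1,
      wt ⟨k, h⟩ (coroot j.1.1) = z := by
    intro j k
    by_cases h : k < n + 1
    · obtain ⟨z, hz⟩ := sl2_int (T.isSl2 j.1) _ _ (v.ne_zero ⟨k, h⟩)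
        (hv ⟨k, h⟩ (coroot j.1.1))
      exact ⟨z, fun _ => hz⟩
    · exact ⟨0, fun h' => absurd h' h⟩
  choose X hX using hint
  have hA : ∀ j l : b.support, (((rootSystem H).pairingIn ℤ l.1 j.1 : ℤ) : ℂ) =
      (rootSystem H).root l (coroot j.1.1) := by
    intro j l
    have := (rootSystem H).algebraMap_pairingIn ℤ l.1 j.1
    rw [rootSystem_pairing_apply] at this
    exact this
  have hX0 : ∀ j : b.support, (X j 0 : ℂ) = pr j 0 := by
    intro j
    rw [← hX j 0 (by omega)]
    exact hrel0 j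
  have hX1 : ∀ (j : b.support) (k : ℕ), k < n → (X j (k + 1) : ℂ) = pr j (k + 1) - pr j k := by
    intro j k hk
    rw [← hX j (k + 1) (by omega)]
    exact hrel1 j k hk
  have hXp : ∀ (j : b.support) (k : ℕ), k ≤ n → (k = 0 ∨ I (k - 1) ≠ j) →
      (X j k : ℂ) = pr j k := by
    intro j k hk h
    rcases Nat.eq_zero_or_pos k with h0 | h0
    · subst h0
      exact hX0 j
    · obtain ⟨k', rfl⟩ : ∃ k', k = k' + 1 := ⟨k - 1, by omega⟩
      rw [hX1 j k' (by omega)]
      rcases h with h | h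
      · omega
      · rw [Nat.add_sub_cancel] at h
        rw [pr_ne j k' (Ne.symm h), sub_zero]
  have hXs : ∀ (j : b.support) (k : ℕ), k < n →
      X j (k + 1) = X j k - (rootSystem H).pairingIn ℤ (I k).1 j.1 := by
    intro j k hk
    have h1 : (X j (k + 1) : ℂ) =
        ((X j k - (rootSystem H).pairingIn ℤ (I k).1 j.1 : ℤ) : ℂ) := by
      push_cast
      rw [hA j (I k), ← hroot (I k) k hk (hI k hk).1, ← hX j (k + 1) (by omega),
        ← hX j k (by omega), LinearMap.sub_apply]
      ring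
    exact_mod_cast h1
  refine ⟨{ A := fun j l => (rootSystem H).pairingIn ℤ l.1 j.1
            A_diag := fun j => (rootSystem H).pairingIn_same ℤ j.1
            A_zero := fun j l h => ((rootSystem H).pairingIn_eq_zero_iff).1 h
            i := I
            x := X
            x_succ := hXs
            x_zero := ?_
            x_run := ?_
            φ := fun k => fc (I k) k
            ε := fun k => ec (I k) k
            hφ := fun k hk => (hI k hk).1
            hε := fun k hk => (hI k hk).2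
            hrel := ?_
            hf := ?_
            he := ?_ }, fun k hk => hroot (I k) k hk (hI k hk).1⟩
  · intro j k hk h1 h2
    have h3 := hXp j k hk h1
    have h4 : pr j k = 0 := by
      rcases h2 with h2 | h2
      · exact pr_ge j k (by omega)
      · exact pr_ne j k (Ne.symm h2)
    rw [h4] at h3
    exact_mod_cast h3
  · intro j k l hkl hl h1 h2 h3
    have hs : ∀ s ≤ l, X j (k + s) = X j k - 2 * s := by
      intro s
      induction s with
      | zero => intro _; simp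
      | succ s ih =>
        intro hs
        have h5 := hXs j (k + s) (by omega)
        rw [h2 (k + s) (by omega) (by omega), (rootSystem H).pairingIn_same ℤ j.1,
          ih (by omega)] at h5
        rw [← add_assoc, h5]
        push_cast
        ring
    have hp : ∀ s ≤ l, pr j (k + s) = (s + 1) * X j k - s * (s + 1) := by
      intro s
      induction s with
      | zero =>
        intro _
        rw [Nat.add_zero, ← hXp j k (by omega) h1]
        push_cast
        ring
      | succ s ih =>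
        intro hs'
        have h5 := hX1 j (k + s) (by omega)
        rw [ih (by omega), show k + s + 1 = k + (s + 1) by ring, hs (s + 1) hs'] at h5
        push_cast at h5 ⊢
        linear_combination -h5
    have h4 : pr j (k + l) = 0 := by
      rcases h3 with h3 | h3
      · exact pr_ge j _ (by omega)
      · exact pr_ne j _ (Ne.symm h3)
    have h5 := hp l le_rfl
    rw [h4] at h5
    have h6 : ((l : ℂ) + 1) * ((X j k : ℂ) - l) = 0 := by linear_combination -h5
    rcases mul_eq_zero.1 h6 with h7 | h7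
    · exact absurd h7 (by exact_mod_cast Nat.succ_ne_zero l)
    · have h8 : (X j k : ℂ) = ((l : ℤ) : ℂ) := by
        push_cast
        exact sub_eq_zero.1 h7
      exact_mod_cast h8
  · intro k hk
    show pr (I k) k = (X (I k) k : ℂ) + _
    rcases Nat.eq_zero_or_pos k with h0 | h0
    · subst h0
      rw [if_neg (by simp), hX0, add_zero]
    · obtain ⟨k', rfl⟩ : ∃ k', k = k' + 1 := ⟨k - 1, by omega⟩
      rw [hX1 _ k' (by omega)]
      simp only [Nat.add_sub_cancel]
      by_cases h : I k' = I (k' + 1)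
      · rw [if_pos ⟨h0, h⟩, ← h]
        show pr (I k') (k' + 1) = pr (I k') (k' + 1) - pr (I k') k' + pr (I k') k'
        ring
      · rw [if_neg (fun h' => h h'.2), pr_ne (I (k' + 1)) k' (Ne.symm h)]
        ring
  · intro j
    refine ⟨T.f j.1, ?_⟩
    ext a d
    rw [LinearMap.comp_apply]
    show LinearMap.toMatrix v v (LieModule.toEnd ℂ L V (T.f j.1)) a d = _
    rw [LinearMap.toMatrix_apply, LieModule.toEnd_apply_apply, Matrix.of_apply]
    by_cases h : a.val = d.val + 1 ∧ I d.val = j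
    · obtain ⟨h1, h2⟩ := h
      have hd : d.val < n := by have := a.2; omega
      rw [if_pos ⟨h1, h2⟩, fc_eq _ _ hd, h2]
      have ha : a = ⟨d.val + 1, by omega⟩ := Fin.ext h1
      rw [ha]
    · rw [if_neg h]
      by_contra h'
      obtain ⟨h1, h2⟩ := hF j.1 j.2 _ _ h'
      apply h
      refine ⟨h1, ?_⟩
      have hd : d.val < n := by have := a.2; omega
      have h3 := hroot (I d.val) d.val hd (hI d.val hd).1
      have ha : a = ⟨d.val + 1, by omega⟩ := Fin.ext h1
      rw [ha] at h2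
      exact hinj _ _ (h3.symm.trans h2)
  · intro j
    refine ⟨T.e j.1, ?_⟩
    ext a d
    rw [LinearMap.comp_apply]
    show LinearMap.toMatrix v v (LieModule.toEnd ℂ L V (T.e j.1)) a d = _
    rw [LinearMap.toMatrix_apply, LieModule.toEnd_apply_apply, Matrix.of_apply]
    by_cases h : d.val = a.val + 1 ∧ I a.val = j
    · obtain ⟨h1, h2⟩ := h
      have hd : a.val < n := by have := d.2; omega
      rw [if_pos ⟨h1, h2⟩, ec_eq _ _ hd, h2]
      have ha : d = ⟨a.val + 1, by omega⟩ := Fin.ext h1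
      rw [ha]
    · rw [if_neg h]
      by_contra h'
      obtain ⟨h1, h2⟩ := hE j.1 j.2 _ _ h'
      apply h
      refine ⟨h1, ?_⟩
      have hd : a.val < n := by have := d.2; omega
      have h3 := hroot (I a.val) a.val hd (hI a.val hd).1
      have ha : d = ⟨a.val + 1, by omega⟩ := Fin.ext h1
      rw [ha] at h2
      exact hinj _ _ (h3.symm.trans h2)

end lie

end Pool.Agent.GP
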