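import Pool.Agent.GP.Defs

/-!
Module C1: the classification of words.

Proof. A run of the letter `j` is a maximal block of consecutive positions `k, ..., k+l-1` with
letter `j`; `x_run`: `x j k = l`, hence by `x_succ` and `A_diag`, `x j (k+l) = -l`. If neither
`i (k-1)` nor `i k` is `j` then `x j k = 0` (`x_zero`).
(F0) If `i t = j`, `i (t+1) = l ≠ j` (or reversed) for some `t`, then `A j l ≠ 0` (hence
`A l j ≠ 0`).
(F1) If `j ≠ l` are adjacent somewhere, then every position `s < n` with `i s = j` has
`i (s-1) = l` (with `s ≥ 1`) or `i (s+1) = l` (with `s+1 < n`).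
Then one looks at the first repeated letter.
-/

namespace Pool.Agent.GP

open Module

namespace Word

variable {n : ℕ} {J : Type*} (W : Word n J)

include W

theorem C1_fwd (s : ℕ) (hs : s < n) : ∃ L, 0 < L ∧ s + L ≤ n ∧
    (∀ t, s ≤ t → t < s + L → W.i t = W.i s) ∧ (s + L = n ∨ W.i (s + L) ≠ W.i s) := by
  obtain ⟨d, hd⟩ : ∃ d, n = s + d + 1 := ⟨n - s - 1, by omega⟩
  induction d generalizing s with
  | zero =>
    refine ⟨1, one_pos, by omega, ?_, Or.inl (by omega)⟩
    intro t h1 h2
    rw [show t = s by omega]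
  | succ d ih =>
    by_cases h : W.i (s + 1) = W.i s
    · obtain ⟨L, h1, h2, h3, h4⟩ := ih (s + 1) (by omega) (by omega)
      refine ⟨L + 1, by omega, by omega, ?_, ?_⟩
      · intro t ht1 ht2
        rcases Nat.eq_or_lt_of_le ht1 with rfl | ht
        · rfl
        · rw [h3 t (by omega) (by omega), h]
      · rw [show s + (L + 1) = s + 1 + L by omega, ← h]
        exact h4
    · refine ⟨1, one_pos, by omega, ?_, Or.inr h⟩
      intro t h1 h2
      rw [show t = s by omega]

theorem C1_bwd (s : ℕ) : ∃ a, a ≤ s ∧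
    (∀ t, a ≤ t → t ≤ s → W.i t = W.i s) ∧ (a = 0 ∨ W.i (a - 1) ≠ W.i s) := by
  induction s with
  | zero =>
    refine ⟨0, le_rfl, ?_, Or.inl rfl⟩
    intro t h1 h2
    rw [show t = 0 by omega]
  | succ s ih =>
    by_cases h : W.i s = W.i (s + 1)
    · obtain ⟨a, h1, h2, h3⟩ := ih
      refine ⟨a, by omega, ?_, ?_⟩
      · intro t ht1 ht2
        rcases Nat.eq_or_lt_of_le ht2 with rfl | ht
        · rfl
        · rw [h2 t ht1 (by omega), h]
      · rw [← h]
        exact h3
    · refine ⟨s + 1, le_rfl, ?_, Or.inr h⟩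
      intro t h1 h2
      rw [show t = s + 1 by omega]

theorem C1_on (j : J) (a l : ℕ) (h : ∀ t, a ≤ t → t < a + l → W.i t = j) (hn : a + l ≤ n) :
    W.x j (a + l) = W.x j a - 2 * l := by
  induction l with
  | zero => simp
  | succ l ih =>
    have h1 := ih (fun t h1 h2 => h t h1 (by omega)) (by omega)
    have h2 := W.x_succ j (a + l) (by omega)
    rw [h (a + l) (by omega) (by omega), W.A_diag, h1] at h2
    rw [← add_assoc, h2]
    push_cast
    ring

/-- The weight at the start of a run is positive. -/
theorem C1_start (j : J) (s : ℕ) (hs : s < n) (hj : W.i s = j)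
    (h : s = 0 ∨ W.i (s - 1) ≠ j) : 1 ≤ W.x j s := by
  subst hj
  obtain ⟨L, h1, h2, h3, h4⟩ := W.C1_fwd s hs
  have := W.x_run (W.i s) s L h2 h1 h h3 h4
  omega

/-- If the weight at the start of a run is one, then so is the length. -/
theorem C1_start_one (j : J) (s : ℕ) (hs : s < n) (hj : W.i s = j)
    (h : s = 0 ∨ W.i (s - 1) ≠ j) (hx : W.x j s = 1) : s + 1 = n ∨ W.i (s + 1) ≠ j := by
  subst hj
  obtain ⟨L, h1, h2, h3, h4⟩ := W.C1_fwd s hs
  have := W.x_run (W.i s) s L h2 h1 h h3 h4
  have hL : L = 1 := by omega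
  subst hL
  exact h4

/-- The weight at the end of a run is negative. -/
theorem C1_end (j : J) (s : ℕ) (hs : s < n) (hj : W.i s = j)
    (h : s + 1 = n ∨ W.i (s + 1) ≠ j) : W.x j (s + 1) ≤ -1 := by
  subst hj
  obtain ⟨a, h1, h2, h3⟩ := W.C1_bwd s
  have h4 := W.x_run (W.i s) a (s + 1 - a) (by omega) (by omega) h3
    (fun t ht1 ht2 => h2 t ht1 (by omega)) (by rw [show a + (s + 1 - a) = s + 1 by omega]; exact h)
  have h5 := W.C1_on (W.i s) a (s + 1 - a) (fun t ht1 ht2 => h2 t ht1 (by omega)) (by omega)
  rw [show a + (s + 1 - a) = s + 1 by omega, h4] at h5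
  rw [h5]
  omega

/-- A run of length one. -/
theorem C1_single (j : J) (s : ℕ) (hs : s < n) (hj : W.i s = j) (h0 : s = 0 ∨ W.i (s - 1) ≠ j)
    (h : s + 1 = n ∨ W.i (s + 1) ≠ j) : W.x j s = 1 ∧ W.x j (s + 1) = -1 := by
  have hr : ∀ t, s ≤ t → t < s + 1 → W.i t = j := by
    intro t h1 h2
    rw [show t = s by omega]
    exact hj
  have h4 := W.x_run j s 1 (by omega) (by omega) h0 hr h
  have h5 := W.C1_on j s 1 hr (by omega)
  rw [h4] at h5
  exact ⟨by rw [h4]; rfl, by rw [h5]; norm_num⟩

/-- A run of length two. -/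
theorem C1_double (j : J) (s : ℕ) (hs : s + 1 < n) (hj : W.i s = j) (hj' : W.i (s + 1) = j)
    (h0 : s = 0 ∨ W.i (s - 1) ≠ j)
    (h : s + 2 = n ∨ W.i (s + 2) ≠ j) : W.x j s = 2 ∧ W.x j (s + 2) = -2 := by
  have hr : ∀ t, s ≤ t → t < s + 2 → W.i t = j := by
    intro t h1 h2
    rcases (show t = s ∨ t = s + 1 by omega) with rfl | rfl
    · exact hj
    · exact hj'
  have h4 := W.x_run j s 2 (by omega) (by omega) h0 hr h
  have h5 := W.C1_on j s 2 hr (by omega)
  rw [h4] at h5
  exact ⟨by rw [h4]; rfl, by rw [h5]; norm_num⟩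

/-- (F0) -/
theorem C1_F0 (t : ℕ) (ht : t + 1 < n) (h : W.i t ≠ W.i (t + 1)) :
    W.A (W.i t) (W.i (t + 1)) ≠ 0 := by
  intro h0
  have h1 := W.C1_end (W.i t) t (by omega) rfl (Or.inr h.symm)
  have h2 := W.x_succ (W.i t) (t + 1) ht
  rw [h0, sub_zero] at h2
  have h3 : 0 ≤ W.x (W.i t) (t + 1 + 1) := by
    by_cases h4 : t + 1 + 1 = n ∨ W.i (t + 1 + 1) ≠ W.i t
    · have := W.x_zero (W.i t) (t + 1 + 1) (by omega) (Or.inr (by
        rw [Nat.add_sub_cancel]; exact h.symm)) h4
      omega
    · push Not at h4
      have := W.C1_start (W.i t) (t + 1 + 1) (by omega) h4.2 (Or.inr (by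
        rw [Nat.add_sub_cancel]; exact h.symm))
      omega
  omega

/-- (F1) -/
theorem C1_F1 (t : ℕ) (ht : t + 1 < n) (h : W.i t ≠ W.i (t + 1)) (s : ℕ) (hs : s < n) (j l : J)
    (hjl : (j = W.i t ∧ l = W.i (t + 1)) ∨ (j = W.i (t + 1) ∧ l = W.i t)) (hj : W.i s = j) :
    (0 < s ∧ W.i (s - 1) = l) ∨ (s + 1 < n ∧ W.i (s + 1) = l) := by
  have hne : j ≠ l := by
    rcases hjl with ⟨rfl, rfl⟩ | ⟨rfl, rfl⟩
    · exact h
    · exact h.symm
  have hA : W.A l j ≠ 0 := by
    have := W.C1_F0 t ht h
    rcases hjl with ⟨rfl, rfl⟩ | ⟨rfl, rfl⟩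
    · exact fun h' => this (W.A_zero _ _ h')
    · exact this
  by_contra hcon
  push Not at hcon
  have h1 : W.x l s = 0 := by
    apply W.x_zero l s hs.le
    · rcases Nat.eq_zero_or_pos s with h0 | h0
      · exact Or.inl h0
      · exact Or.inr (hcon.1 h0)
    · right
      rw [hj]
      exact hne
  have h2 : W.x l (s + 1) = 0 := by
    apply W.x_zero l (s + 1) hs
    · right
      rw [Nat.add_sub_cancel, hj]
      exact hne
    · rcases Nat.lt_or_ge (s + 1) n with h0 | h0
      · exact Or.inr (hcon.2 h0)
      · left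
        omega
  have h3 := W.x_succ l s hs
  rw [h1, h2, hj] at h3
  exact hA (by omega)

end Word

theorem Word.classify {n : ℕ} {J : Type*} (W : Word n J) (hn : Even n) (hn0 : 0 < n) :
    (∀ k < n, W.i k = W.i 0) ∨ (∀ k < n, ∀ l < n, W.i k = W.i l → k = l) ∨
    (∀ k < n, ∀ l < n, (W.i k = W.i l ↔ k = l ∨ k + l + 1 = n)) ∨
    (n = 6 ∧ W.i 1 ≠ W.i 0 ∧ W.i 2 = W.i 0 ∧ W.i 3 = W.i 0 ∧ W.i 4 = W.i 1 ∧ W.i 5 = W.i 0) := by
  classical
  by_cases hinj : ∀ k < n, ∀ l < n, W.i k = W.i l → k = l
  · exact Or.inr (Or.inl hinj)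
  -- the first repetition
  have hex : ∃ m, m < n ∧ ∃ s < m, W.i m = W.i s := by
    push Not at hinj
    obtain ⟨k, hk, l, hl, h, hne⟩ := hinj
    rcases Nat.lt_or_gt_of_ne hne with h' | h'
    · exact ⟨l, hl, k, h', h.symm⟩
    · exact ⟨k, hk, l, h', h⟩
  set m := Nat.find hex with hm
  obtain ⟨hmn, s, hsm, hms⟩ := Nat.find_spec hex
  rw [← hm] at hmn hsm hms
  have hdist : ∀ k l, k < m → l < m → W.i k = W.i l → k = l := by
    intro k l hk hl h
    by_contra hne
    rcases Nat.lt_or_gt_of_ne hne with h' | h'
    · exact Nat.find_min hex hl ⟨by omega, k, h', h.symm⟩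
    · exact Nat.find_min hex hk ⟨by omega, l, h', h⟩
  have hne : ∀ k l, k < m → l < m → k ≠ l → W.i k ≠ W.i l := fun k l hk hl h h' =>
    h (hdist k l hk hl h')
  clear_value m
  -- the letter after `i 0`
  have hnext : ∀ t, t + 1 < n → W.i t = W.i 0 → W.i (t + 1) ≠ W.i 0 → W.i 1 = W.i (t + 1) := by
    intro t ht h0 h1
    rcases W.C1_F1 t ht (by rw [h0]; exact h1.symm) 0 hn0 (W.i 0) (W.i (t + 1))
      (Or.inl ⟨h0.symm, rfl⟩) rfl with h | h
    · omega
    · exact h.2
  rcases (show s + 3 ≤ m ∨ s + 1 = m ∨ s + 2 = m by omega) with h3 | h1 | h2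
  · -- (1)
    exfalso
    have hadj : W.i (m - 1) ≠ W.i (m - 1 + 1) := by
      rw [show m - 1 + 1 = m by omega, hms]
      exact hne _ _ (by omega) (by omega) (by omega)
    rcases W.C1_F1 (m - 1) (by omega) hadj s (by omega) (W.i s) (W.i (m - 1))
      (Or.inr ⟨by rw [show m - 1 + 1 = m by omega, hms], rfl⟩) rfl with h | h
    · exact hne _ _ (by omega) (by omega) (by omega) h.2
    · exact hne _ _ (by omega) (by omega) (by omega) h.2
  · -- (2)
    have hs : s = m - 1 := by omega
    subst hs
    rcases Nat.lt_or_ge m 2 with hm1 | hm2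
    · have hm1' : m = 1 := by omega
      subst hm1'
      left
      by_contra hcon
      have hex2 : ∃ t, t < n ∧ W.i t ≠ W.i 0 := by
        push Not at hcon
        obtain ⟨t, h1, h2⟩ := hcon
        exact ⟨t, h1, h2⟩
      set t := Nat.find hex2 with ht
      obtain ⟨ht1, ht2⟩ := Nat.find_spec hex2
      rw [← ht] at ht1 ht2
      have ht0 : t ≠ 0 := by
        intro h
        rw [h] at ht2
        exact ht2 rfl
      have ht3 : W.i (t - 1) = W.i 0 := by
        by_contra h
        exact Nat.find_min hex2 (show t - 1 < Nat.find hex2 by omega) ⟨by omega, h⟩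
      have := hnext (t - 1) (by omega) ht3 (by
        rw [show t - 1 + 1 = t by omega]; exact ht2)
      rw [show t - 1 + 1 = t by omega] at this
      apply ht2
      rw [← this, hms]
    · have hfold : ∀ t, t < m → m + t < n ∧ W.i (m + t) = W.i (m - 1 - t) := by
        intro t
        induction t using Nat.strong_induction_on with
        | _ t ih =>
          intro ht
          rcases Nat.eq_zero_or_pos t with rfl | ht0
          · exact ⟨hmn, hms⟩
          · obtain ⟨a1, a2⟩ := ih (t - 1) (by omega) (by omega)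
            have hp : W.i (m + (t - 1) - 1) ≠ W.i (m - 1 - t) := by
              rcases Nat.lt_or_ge t 2 with h | h
              · have : t = 1 := by omega
                subst this
                exact hne _ _ (by omega) (by omega) (by omega)
              · have a3 := (ih (t - 2) (by omega) (by omega)).2
                rw [show m + (t - 1) - 1 = m + (t - 2) by omega, a3]
                exact hne _ _ (by omega) (by omega) (by omega)
            rcases W.C1_F1 (m - 1 - t) (by omega) (hne _ _ (by omega) (by omega) (by omega))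
              (m + (t - 1)) a1 (W.i (m - 1 - t + 1)) (W.i (m - 1 - t)) (Or.inr ⟨rfl, rfl⟩)
              (by rw [a2]; congr 1; omega) with h | h
            · exact absurd h.2 hp
            · rw [show m + (t - 1) + 1 = m + t by omega] at h
              exact h
      rcases Nat.lt_or_ge (2 * m) n with hlt | hge
      · exfalso
        have e0 : W.i (2 * m - 1) = W.i 0 := by
          have := (hfold (m - 1) (by omega)).2
          rwa [show m + (m - 1) = 2 * m - 1 by omega, show m - 1 - (m - 1) = 0 by omega] at this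
        have e1 : W.i (2 * m - 2) = W.i 1 := by
          have := (hfold (m - 2) (by omega)).2
          rwa [show m + (m - 2) = 2 * m - 2 by omega, show m - 1 - (m - 2) = 1 by omega] at this
        have h10 : W.i 1 ≠ W.i 0 := hne _ _ (by omega) (by omega) (by omega)
        have h20 : W.i 2 ≠ W.i 0 := by
          rcases Nat.lt_or_ge 2 m with h | h
          · exact hne _ _ h (by omega) (by omega)
          · have : m = 2 := by omega
            subst this
            rw [hms]
            exact h10
        have e2 : W.i (2 * m - 3) ≠ W.i 0 := by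
          rcases Nat.lt_or_ge 2 m with h | h
          · have := (hfold (m - 3) (by omega)).2
            rw [show m + (m - 3) = 2 * m - 3 by omega, show m - 1 - (m - 3) = 2 by omega] at this
            rw [this]
            exact h20
          · have : m = 2 := by omega
            subst this
            exact h10
        -- `A (i 0) (i 1) = -1`
        obtain ⟨x0, x1⟩ := W.C1_single (W.i 0) 0 hn0 rfl (Or.inl rfl) (Or.inr h10)
        have x2 := W.x_zero (W.i 0) 2 (by omega) (Or.inr h10) (Or.inr h20)
        have x3 := W.x_succ (W.i 0) 1 (by omega)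
        have x4 := W.x_zero (W.i 0) (2 * m - 2) (by omega) (Or.inr (by
          rw [show 2 * m - 2 - 1 = 2 * m - 3 by omega]; exact e2)) (Or.inr (by rw [e1]; exact h10))
        have x5 := W.x_succ (W.i 0) (2 * m - 2) (by omega)
        rw [e1, x4, show 2 * m - 2 + 1 = 2 * m - 1 by omega] at x5
        rw [x2] at x3
        have x6 : W.x (W.i 0) (2 * m - 1) = 1 := by
          rw [zero_add] at x1
          omega
        have h2m : W.i (2 * m) ≠ W.i 0 := by
          have := W.C1_start_one (W.i 0) (2 * m - 1) (by omega) e0 (Or.inr (by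
            rw [show 2 * m - 1 - 1 = 2 * m - 2 by omega, e1]; exact h10)) x6
          rw [show 2 * m - 1 + 1 = 2 * m by omega] at this
          rcases this with h | h
          · omega
          · exact h
        have h2m1 : W.i 1 = W.i (2 * m) := by
          have := hnext (2 * m - 1) (by omega) e0 (by
            rw [show 2 * m - 1 + 1 = 2 * m by omega]; exact h2m)
          rwa [show 2 * m - 1 + 1 = 2 * m by omega] at this
        have y0 := W.x_zero (W.i 1) 0 (by omega) (Or.inl rfl) (Or.inr h10.symm)
        have y1 := W.x_succ (W.i 1) 0 hn0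
        rw [y0] at y1
        have y2 := W.x_succ (W.i 1) (2 * m - 1) (by omega)
        rw [e0, show 2 * m - 1 + 1 = 2 * m by omega] at y2
        have y3 := W.C1_start (W.i 1) (2 * m) hlt h2m1.symm (Or.inr (by
          rw [e0]; exact h10.symm))
        rcases Nat.lt_or_ge 2 m with h | h
        · have y4 := W.C1_single (W.i 1) 1 (by omega) rfl (Or.inr h10.symm)
            (Or.inr (hne _ _ h (by omega) (by omega)))
          have y5 := W.C1_end (W.i 1) (2 * m - 2) (by omega) e1 (Or.inr (by
            rw [show 2 * m - 2 + 1 = 2 * m - 1 by omega, e0]; exact h10.symm))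
          rw [show 2 * m - 2 + 1 = 2 * m - 1 by omega] at y5
          rw [zero_add] at y1
          omega
        · have : m = 2 := by omega
          subst this
          have y4 := W.C1_double (W.i 1) 1 (by omega) rfl hms (Or.inr h10.symm)
            (Or.inr (by
              have : W.i 3 = W.i 0 := e0
              show W.i 3 ≠ W.i 1
              rw [this]
              exact h10.symm))
          have y6 : W.x (W.i 1) (2 * 2 - 1) = -2 := y4.2
          rw [zero_add] at y1
          omega
      · -- the third case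
        have hn2 : n = 2 * m := by
          have := (hfold (m - 1) (by omega)).1
          omega
        right
        right
        left
        have hmin : ∀ k, k < n → W.i k = W.i (min k (n - 1 - k)) := by
          intro k hk
          rcases Nat.lt_or_ge k m with h | h
          · rw [show min k (n - 1 - k) = k by omega]
          · have := (hfold (k - m) (by omega)).2
            rw [show m + (k - m) = k by omega] at this
            rw [this]
            congr 1
            omega
        intro k hk l hl
        rw [hmin k hk, hmin l hl]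
        constructor
        · intro h
          have := hdist _ _ (by omega) (by omega) h
          omega
        · intro h
          congr 1
          omega
  · -- (3)
    have hs : s = m - 2 := by omega
    subst hs
    have hfold : ∀ t, t < m → m - 1 + t < n ∧ W.i (m - 1 + t) = W.i (m - 1 - t) := by
      intro t
      induction t using Nat.strong_induction_on with
      | _ t ih =>
        intro ht
        rcases (show t = 0 ∨ t = 1 ∨ 2 ≤ t by omega) with rfl | rfl | ht2
        · exact ⟨by omega, rfl⟩
        · rw [show m - 1 + 1 = m by omega, show m - 1 - 1 = m - 2 by omega]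
          exact ⟨hmn, hms⟩
        · obtain ⟨a1, a2⟩ := ih (t - 1) (by omega) (by omega)
          have hp : W.i (m - 1 + (t - 1) - 1) ≠ W.i (m - 1 - t) := by
            have a3 := (ih (t - 2) (by omega) (by omega)).2
            rw [show m - 1 + (t - 1) - 1 = m - 1 + (t - 2) by omega, a3]
            exact hne _ _ (by omega) (by omega) (by omega)
          rcases W.C1_F1 (m - 1 - t) (by omega) (hne _ _ (by omega) (by omega) (by omega))
            (m - 1 + (t - 1)) a1 (W.i (m - 1 - t + 1)) (W.i (m - 1 - t)) (Or.inr ⟨rfl, rfl⟩)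
            (by rw [a2]; congr 1; omega) with h | h
          · exact absurd h.2 hp
          · rw [show m - 1 + (t - 1) + 1 = m - 1 + t by omega] at h
            exact h
    have hn2 : 2 * m ≤ n := by
      have := (hfold (m - 1) (by omega)).1
      obtain ⟨r, hr⟩ := hn
      omega
    have h10 : W.i 1 ≠ W.i 0 := hne _ _ (by omega) (by omega) (by omega)
    have e0 : W.i (2 * m - 2) = W.i 0 := by
      have := (hfold (m - 1) (by omega)).2
      rwa [show m - 1 + (m - 1) = 2 * m - 2 by omega, show m - 1 - (m - 1) = 0 by omega] at this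
    have e1 : W.i (2 * m - 3) = W.i 1 := by
      have := (hfold (m - 2) (by omega)).2
      rwa [show m - 1 + (m - 2) = 2 * m - 3 by omega, show m - 1 - (m - 2) = 1 by omega] at this
    obtain ⟨x0, x1⟩ := W.C1_single (W.i 0) 0 hn0 rfl (Or.inl rfl) (Or.inr h10)
    rw [zero_add] at x1
    have x3 := W.x_succ (W.i 0) 1 (by omega)
    have y0 := W.x_zero (W.i 1) 0 (by omega) (Or.inl rfl) (Or.inr h10.symm)
    have y1 := W.x_succ (W.i 1) 0 hn0
    rw [y0, zero_add] at y1
    have h21 : W.i 2 ≠ W.i 1 := by
      rcases Nat.lt_or_ge 2 m with h | h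
      · exact hne _ _ h (by omega) (by omega)
      · have : m = 2 := by omega
        subst this
        rw [hms]
        exact h10.symm
    have y4 := W.C1_single (W.i 1) 1 (by omega) rfl (Or.inr h10.symm) (Or.inr h21)
    have hA10 : W.A (W.i 1) (W.i 0) = -1 := by omega
    -- two runs of `i 1` at distance one are impossible
    have hkey : ∀ t, t + 2 < n → W.i t = W.i 1 → W.i (t + 1) = W.i 0 → W.i (t + 2) ≠ W.i 1 := by
      intro t ht a0 a1 a2
      have b1 := W.C1_end (W.i 1) t (by omega) a0 (Or.inr (by rw [a1]; exact h10.symm))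
      have b2 := W.C1_start (W.i 1) (t + 2) ht a2 (Or.inr (by
        rw [show t + 2 - 1 = t + 1 by omega, a1]; exact h10.symm))
      have b3 := W.x_succ (W.i 1) (t + 1) (by omega)
      rw [a1, hA10, show t + 1 + 1 = t + 2 by omega] at b3
      omega
    rcases Nat.lt_or_ge 2 m with hm3 | hm2
    · exfalso
      have h20 : W.i 2 ≠ W.i 0 := hne _ _ hm3 (by omega) (by omega)
      have x2 := W.x_zero (W.i 0) 2 (by omega) (Or.inr h10) (Or.inr h20)
      rw [x2] at x3
      have e2 : W.i (2 * m - 4) = W.i 2 := by
        have := (hfold (m - 3) (by omega)).2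
        rwa [show m - 1 + (m - 3) = 2 * m - 4 by omega, show m - 1 - (m - 3) = 2 by omega] at this
      have x4 := W.x_zero (W.i 0) (2 * m - 3) (by omega) (Or.inr (by
        rw [show 2 * m - 3 - 1 = 2 * m - 4 by omega, e2]; exact h20))
        (Or.inr (by rw [e1]; exact h10))
      have x5 := W.x_succ (W.i 0) (2 * m - 3) (by omega)
      rw [e1, x4, show 2 * m - 3 + 1 = 2 * m - 2 by omega] at x5
      have x6 : W.x (W.i 0) (2 * m - 2) = 1 := by omega
      have hl : W.i (2 * m - 1) ≠ W.i 0 := by
        have := W.C1_start_one (W.i 0) (2 * m - 2) (by omega) e0 (Or.inr (by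
          rw [show 2 * m - 2 - 1 = 2 * m - 3 by omega, e1]; exact h10)) x6
        rw [show 2 * m - 2 + 1 = 2 * m - 1 by omega] at this
        rcases this with h | h
        · omega
        · exact h
      have hl1 : W.i 1 = W.i (2 * m - 1) := by
        have := hnext (2 * m - 2) (by omega) e0 (by
          rw [show 2 * m - 2 + 1 = 2 * m - 1 by omega]; exact hl)
        rwa [show 2 * m - 2 + 1 = 2 * m - 1 by omega] at this
      refine hkey (2 * m - 3) (by omega) e1 ?_ ?_
      · rw [show 2 * m - 3 + 1 = 2 * m - 2 by omega]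
        exact e0
      · rw [show 2 * m - 3 + 2 = 2 * m - 1 by omega]
        exact hl1.symm
    · have hm' : m = 2 := by omega
      subst hm'
      have i2 : W.i 2 = W.i 0 := hms
      have i3 : W.i 3 = W.i 0 := by
        by_contra h
        exact hkey 1 (by omega) rfl i2 (hnext 2 (by omega) i2 h).symm
      have i4 : 4 < n ∧ W.i 4 = W.i 1 := by
        rcases W.C1_F1 0 (by omega) h10.symm 3 (by omega) (W.i 0) (W.i 1) (Or.inl ⟨rfl, rfl⟩) i3
          with h | h
        · have h' : W.i 2 = W.i 1 := h.2
          exact absurd h' h21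
        · exact h
      have hn6 : 6 ≤ n := by
        obtain ⟨r, hr⟩ := hn
        omega
      obtain ⟨z2, z4⟩ := W.C1_double (W.i 0) 2 (by omega) i2 i3 (Or.inr h10)
        (Or.inr (by show W.i 4 ≠ W.i 0; rw [i4.2]; exact h10))
      have z4' : W.x (W.i 0) 4 = -2 := z4
      have x3' : W.x (W.i 0) 2 = W.x (W.i 0) 1 - W.A (W.i 0) (W.i 1) := x3
      have hA01 : W.A (W.i 0) (W.i 1) = -3 := by omega
      have w3 := W.x_zero (W.i 1) 3 (by omega) (Or.inr (by show W.i 2 ≠ W.i 1; exact h21))
        (Or.inr (by rw [i3]; exact h10.symm))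
      have w4 := W.x_succ (W.i 1) 3 (by omega)
      rw [i3, hA10, w3] at w4
      have w4' : W.x (W.i 1) 4 = 1 := by
        rw [show (3 : ℕ) + 1 = 4 from rfl] at w4
        omega
      have i51 : W.i 5 ≠ W.i 1 := by
        rcases W.C1_start_one (W.i 1) 4 (by omega) i4.2 (Or.inr (by
          show W.i 3 ≠ W.i 1; rw [i3]; exact h10.symm)) w4' with h | h
        · omega
        · exact h
      have i5 : W.i 5 = W.i 0 := by
        rcases W.C1_F1 4 (by omega) (by
          show W.i 4 ≠ W.i 5
          rw [i4.2]
          exact i51.symm) 1 (by omega) (W.i 1) (W.i 5) (Or.inl ⟨i4.2.symm, rfl⟩) rfl with h | h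
        · exact h.2.symm
        · have h' : W.i 2 = W.i 5 := h.2
          rw [← h', i2]
      rcases Nat.lt_or_ge 6 n with h6 | h6
      · exfalso
        have z5 := W.x_succ (W.i 0) 4 (by omega)
        rw [i4.2, hA01, z4'] at z5
        have z5' : W.x (W.i 0) 5 = 1 := by
          rw [show (4 : ℕ) + 1 = 5 from rfl] at z5
          omega
        have i60 : W.i 6 ≠ W.i 0 := by
          rcases W.C1_start_one (W.i 0) 5 (by omega) i5 (Or.inr (by
            show W.i 4 ≠ W.i 0; rw [i4.2]; exact h10)) z5' with h | h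
          · omega
          · exact h
        exact hkey 4 (by omega) i4.2 i5 (hnext 5 (by omega) i5 i60).symm
      · right
        right
        right
        exact ⟨by omega, h10, i2, i3, i4.2, i5⟩

end Pool.Agent.GP
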