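import Pool.Agent.GP.C1

/-!
Module C2: the rotations.

By `Word.classify` the word is injective or palindromic. Write `E a b` for the matrix unit.
Injective: `E (k+1) k` and `E k (k+1)` are in `L` for `k < n`; brackets give all `E a b`, `a ≠ b`.
Palindromic: after conjugation by a diagonal matrix the matrices
`D a b = E a b - (-1)^(a+b) E (n-b) (n-a)` with `|a - b| = 1` are in the algebra; brackets give all
`D a b`. With `J k (n-k) = (-1)^k`, `J * J = 1`, `U = (1+i)/2 + (1-i)/2 J` satisfies `U * U = J`
and conjugates the antisymmetric matrices into the span of the `D a b`.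
-/

namespace Pool.Agent.GP

open Module Matrix

section C2

variable {n : ℕ}

theorem C2_units (L : Submodule ℂ (Matrix (Fin (n + 1)) (Fin (n + 1)) ℂ))
    (hbr : ∀ X ∈ L, ∀ Y ∈ L, X * Y - Y * X ∈ L)
    (h1 : ∀ a b : Fin (n + 1), a.val = b.val + 1 → single a b (1 : ℂ) ∈ L)
    (h2 : ∀ a b : Fin (n + 1), b.val = a.val + 1 → single a b (1 : ℂ) ∈ L) :
    ∀ a b : Fin (n + 1), a ≠ b → single a b (1 : ℂ) ∈ L := by
  have key : ∀ d : ℕ, ∀ a c : Fin (n + 1), (a.val = c.val + d + 1 → single a c (1 : ℂ) ∈ L) ∧
      (c.val = a.val + d + 1 → single a c (1 : ℂ) ∈ L) := by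
    intro d
    induction d with
    | zero =>
      intro a c
      exact ⟨fun h => h1 a c (by omega), fun h => h2 a c (by omega)⟩
    | succ d ih =>
      intro a c
      constructor
      · intro h
        have ha := a.isLt
        let b : Fin (n + 1) := ⟨c.val + d + 1, by omega⟩
        have e1 := h1 a b (by simp only [b]; omega)
        have e2 := (ih b c).1 (by simp only [b])
        have e3 := hbr _ e1 _ e2
        rw [single_mul_single_same, single_mul_single_of_ne, sub_zero, mul_one] at e3
        · exact e3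
        · intro hc
          rw [hc] at h
          omega
      · intro h
        have hc := c.isLt
        let b : Fin (n + 1) := ⟨a.val + 1, by omega⟩
        have e1 := h2 a b (by simp only [b])
        have e2 := (ih b c).2 (by simp only [b]; omega)
        have e3 := hbr _ e1 _ e2
        rw [single_mul_single_same, single_mul_single_of_ne, sub_zero, mul_one] at e3
        · exact e3
        · intro hc
          rw [hc] at h
          omega
  intro a b hab
  rcases lt_or_gt_of_ne (fun h => hab (Fin.ext h) : a.val ≠ b.val) with h | h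
  · exact (key (b.val - a.val - 1) a b).2 (by omega)
  · exact (key (a.val - b.val - 1) a b).1 (by omega)

/-- the basic matrices in the palindromic case -/
noncomputable def C2D (a b : Fin (n + 1)) : Matrix (Fin (n + 1)) (Fin (n + 1)) ℂ :=
  single a b 1 - single b.rev a.rev ((-1) ^ (a.val + b.val))

theorem C2_pow_sq (k : ℕ) : ((-1 : ℂ) ^ k) * ((-1 : ℂ) ^ k) = 1 := by
  rw [← mul_pow]
  norm_num

theorem C2D_bracket {a b c : Fin (n + 1)} (hca : c ≠ a) (hcb : c ≠ b.rev) (hab : a ≠ b.rev) :
    C2D a b * C2D b c - C2D b c * C2D a b = C2D a c := by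
  have h1 : b ≠ c.rev := fun h => hcb (by rw [h, Fin.rev_rev])
  have h2 : a.rev ≠ b := fun h => hab (by rw [← h, Fin.rev_rev])
  have h3 : a.rev ≠ c.rev := fun h => hca (Fin.rev_injective h).symm
  unfold C2D
  rw [sub_mul, mul_sub, mul_sub, sub_mul, mul_sub, mul_sub, single_mul_single_same,
    single_mul_single_of_ne (h := h1), single_mul_single_of_ne (h := h2),
    single_mul_single_of_ne (h := h3), single_mul_single_of_ne (h := hca),
    single_mul_single_of_ne (h := hcb), single_mul_single_of_ne (h := hab.symm),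
    single_mul_single_same]
  have h4 : (-1 : ℂ) ^ (b.val + c.val) * (-1 : ℂ) ^ (a.val + b.val) =
      (-1 : ℂ) ^ (a.val + c.val) := by
    rw [pow_add, pow_add, pow_add]
    have := C2_pow_sq b.val
    linear_combination ((-1 : ℂ) ^ c.val * (-1 : ℂ) ^ a.val) * this
  rw [h4]
  simp

theorem C2D_bracket' {a b : Fin (n + 1)} (hab' : a ≠ b.rev) :
    C2D a b * C2D b a - C2D b a * C2D a b = C2D a a - C2D b b := by
  have h2 : a.rev ≠ b := fun h => hab' (by rw [← h, Fin.rev_rev])
  have e1 : (-1 : ℂ) ^ (a.val + b.val) * (-1 : ℂ) ^ (b.val + a.val) = 1 := by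
    rw [add_comm b.val a.val]
    exact C2_pow_sq _
  have e2 : (-1 : ℂ) ^ (b.val + a.val) * (-1 : ℂ) ^ (a.val + b.val) = 1 := by
    rw [add_comm b.val a.val]
    exact C2_pow_sq _
  have e3 : ∀ k : ℕ, (-1 : ℂ) ^ (k + k) = 1 := fun k => by
    rw [pow_add]
    exact C2_pow_sq k
  unfold C2D
  rw [sub_mul, mul_sub, mul_sub, sub_mul, mul_sub, mul_sub, single_mul_single_same,
    single_mul_single_of_ne (h := h2.symm), single_mul_single_of_ne (h := h2),
    single_mul_single_same, single_mul_single_same, single_mul_single_of_ne (h := hab'),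
    single_mul_single_of_ne (h := hab'.symm), single_mul_single_same, e1, e2, e3, e3]
  simp only [mul_one]
  abel

theorem C2D_rev (hn : Even n) (a : Fin (n + 1)) : C2D a a.rev = 0 := by
  have : (-1 : ℂ) ^ (a.val + a.rev.val) = 1 := by
    have h : a.val + a.rev.val = n := by
      rw [Fin.val_rev]
      have := a.isLt
      omega
    rw [h]
    exact hn.neg_one_pow
  rw [C2D, this, Fin.rev_rev, sub_self]

theorem C2D_all (hn : Even n) (hn0 : 0 < n)
    (L : Submodule ℂ (Matrix (Fin (n + 1)) (Fin (n + 1)) ℂ))
    (hbr : ∀ X ∈ L, ∀ Y ∈ L, X * Y - Y * X ∈ L)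
    (h1 : ∀ a b : Fin (n + 1), a.val = b.val + 1 → C2D a b ∈ L)
    (h2 : ∀ a b : Fin (n + 1), b.val = a.val + 1 → C2D a b ∈ L) :
    ∀ a b : Fin (n + 1), C2D a b ∈ L := by
  obtain ⟨r, hr⟩ := hn
  have hne : ∀ x y : Fin (n + 1), x.val + y.val ≠ n → x ≠ y.rev := by
    intro x y h hxy
    apply h
    rw [hxy, Fin.val_rev]
    have := y.isLt
    omega
  have hne' : ∀ x y : Fin (n + 1), x.val ≠ y.val → x ≠ y := fun x y h hxy => h (by rw [hxy])
  have key : ∀ d : ℕ, ∀ a c : Fin (n + 1), (a.val = c.val + d + 1 → C2D a c ∈ L) ∧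
      (c.val = a.val + d + 1 → C2D a c ∈ L) := by
    intro d
    induction d with
    | zero =>
      intro a c
      exact ⟨fun h => h1 a c (by omega), fun h => h2 a c (by omega)⟩
    | succ d ih =>
      intro a c
      constructor
      · intro h
        have ha := a.isLt
        by_cases hs : a.val + c.val = n + 1
        · let b : Fin (n + 1) := ⟨c.val + 1, by omega⟩
          have hb : b.val = c.val + 1 := rfl
          have e1 := (ih a b).1 (by omega)
          have e2 := h1 b c (by omega)
          have e3 := hbr _ e1 _ e2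
          rw [C2D_bracket (hne' _ _ (by omega)) (hne _ _ (by omega)) (hne _ _ (by omega))] at e3
          exact e3
        · let b : Fin (n + 1) := ⟨c.val + d + 1, by omega⟩
          have hb : b.val = c.val + d + 1 := rfl
          have e1 := h1 a b (by omega)
          have e2 := (ih b c).1 (by omega)
          have e3 := hbr _ e1 _ e2
          rw [C2D_bracket (hne' _ _ (by omega)) (hne _ _ (by omega)) (hne _ _ (by omega))] at e3
          exact e3
      · intro h
        have hc := c.isLt
        by_cases hs : a.val + c.val + 1 = n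
        · let b : Fin (n + 1) := ⟨a.val + d + 1, by omega⟩
          have hb : b.val = a.val + d + 1 := rfl
          have e1 := (ih a b).2 (by omega)
          have e2 := h2 b c (by omega)
          have e3 := hbr _ e1 _ e2
          rw [C2D_bracket (hne' _ _ (by omega)) (hne _ _ (by omega)) (hne _ _ (by omega))] at e3
          exact e3
        · let b : Fin (n + 1) := ⟨a.val + 1, by omega⟩
          have hb : b.val = a.val + 1 := rfl
          have e1 := h2 a b (by omega)
          have e2 := (ih b c).2 (by omega)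
          have e3 := hbr _ e1 _ e2
          rw [C2D_bracket (hne' _ _ (by omega)) (hne _ _ (by omega)) (hne _ _ (by omega))] at e3
          exact e3
  have hoff : ∀ a b : Fin (n + 1), a ≠ b → C2D a b ∈ L := by
    intro a b hab
    rcases lt_or_gt_of_ne (fun h => hab (Fin.ext h) : a.val ≠ b.val) with h | h
    · exact (key (b.val - a.val - 1) a b).2 (by omega)
    · exact (key (a.val - b.val - 1) a b).1 (by omega)
  intro a b
  by_cases hab : a = b
  · subst hab
    let c : Fin (n + 1) := ⟨r, by omega⟩
    have hc : c.val = r := rfl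
    have hcr : c.rev = c := by
      apply Fin.ext
      rw [Fin.val_rev, hc]
      omega
    have hcc : C2D c c = 0 := by
      have := C2D_rev (n := n) ⟨r, hr⟩ c
      rwa [hcr] at this
    by_cases hac : a = c
    · rw [hac, hcc]
      exact L.zero_mem
    · have e3 := hbr _ (hoff a c hac) _ (hoff c a (Ne.symm hac))
      rw [C2D_bracket' (by rw [hcr]; exact hac), hcc, sub_zero] at e3
      exact e3
  · exact hoff a b hab

theorem C2_span (L : Submodule ℂ (Matrix (Fin (n + 1)) (Fin (n + 1)) ℂ))
    (hL : ∀ a b : Fin (n + 1), C2D a b ∈ L)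
    (X : Matrix (Fin (n + 1)) (Fin (n + 1)) ℂ)
    (hX : ∀ a b, X a b = - ((-1) ^ (a.val + b.val) * X b.rev a.rev)) : X ∈ L := by
  have h : X = ∑ a, ∑ b, (X a b / 2) • C2D a b := by
    ext i j
    rw [Matrix.sum_apply]
    have e1 : ∀ a, (∑ b, (X a b / 2) • C2D a b) i j = (if a = i then X a j / 2 else 0) -
        (if a = j.rev then X a i.rev / 2 * (-1) ^ (a.val + i.rev.val) else 0) := by
      intro a
      rw [Matrix.sum_apply]
      have e2 : ∀ b, ((X a b / 2) • C2D a b) i j =
          (if b = j then (if a = i then X a j / 2 else 0) else 0) -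
          (if b = i.rev then (if a = j.rev then X a i.rev / 2 * (-1) ^ (a.val + i.rev.val)
            else 0) else 0) := by
        intro b
        rw [C2D, Matrix.smul_apply, Matrix.sub_apply, smul_eq_mul, mul_sub]
        congr 1
        · rw [Matrix.single_apply]
          by_cases hb : b = j
          · by_cases ha : a = i
            · rw [if_pos ⟨ha, hb⟩, if_pos hb, if_pos ha, mul_one, hb]
            · rw [if_neg (fun h => ha h.1), if_pos hb, if_neg ha, mul_zero]
          · rw [if_neg (fun h => hb h.2), if_neg hb, mul_zero]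
        · rw [Matrix.single_apply]
          by_cases hb : b = i.rev
          · by_cases ha : a = j.rev
            · rw [if_pos ⟨by rw [hb, Fin.rev_rev], by rw [ha, Fin.rev_rev]⟩, if_pos hb, if_pos ha,
                hb]
            · rw [if_neg (fun h => ha (by rw [← h.2, Fin.rev_rev])), if_pos hb, if_neg ha,
                mul_zero]
          · rw [if_neg (fun h => hb (by rw [← h.1, Fin.rev_rev])), if_neg hb, mul_zero]
      rw [Finset.sum_congr rfl fun b _ => e2 b, Finset.sum_sub_distrib, Finset.sum_ite_eq',
        Finset.sum_ite_eq', if_pos (Finset.mem_univ _), if_pos (Finset.mem_univ _)]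
    rw [Finset.sum_congr rfl fun a _ => e1 a, Finset.sum_sub_distrib, Finset.sum_ite_eq',
      Finset.sum_ite_eq', if_pos (Finset.mem_univ _), if_pos (Finset.mem_univ _)]
    have e3 : (-1 : ℂ) ^ (j.rev.val + i.rev.val) = (-1 : ℂ) ^ (i.val + j.val) := by
      have hi := i.isLt
      have hj := j.isLt
      have hh : (j.rev.val + i.rev.val) + (i.val + j.val) = n + n := by
        rw [Fin.val_rev, Fin.val_rev]
        omega
      have h1 : (-1 : ℂ) ^ (j.rev.val + i.rev.val) * (-1 : ℂ) ^ (i.val + j.val) = 1 := by
        rw [← pow_add, hh, pow_add]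
        exact C2_pow_sq n
      have h2 := C2_pow_sq (i.val + j.val)
      calc (-1 : ℂ) ^ (j.rev.val + i.rev.val) = (-1 : ℂ) ^ (j.rev.val + i.rev.val) *
            ((-1 : ℂ) ^ (i.val + j.val) * (-1 : ℂ) ^ (i.val + j.val)) := by rw [h2, mul_one]
        _ = ((-1 : ℂ) ^ (j.rev.val + i.rev.val) * (-1 : ℂ) ^ (i.val + j.val)) *
            (-1 : ℂ) ^ (i.val + j.val) := by ring
        _ = (-1 : ℂ) ^ (i.val + j.val) := by rw [h1, one_mul]
    rw [e3]
    have := hX i j
    linear_combination (1 / 2 : ℂ) * this
  rw [h]
  exact L.sum_mem fun a _ => L.sum_mem fun b _ => L.smul_mem _ (hL a b)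

/-- the form -/
noncomputable def C2J (n : ℕ) : Matrix (Fin (n + 1)) (Fin (n + 1)) ℂ :=
  Matrix.of fun a b => if b = a.rev then (-1) ^ a.val else 0

theorem C2_rev_pow (hn : Even n) (a : Fin (n + 1)) : (-1 : ℂ) ^ a.rev.val = (-1) ^ a.val := by
  have ha := a.isLt
  have h1 : (-1 : ℂ) ^ a.rev.val * (-1) ^ a.val = 1 := by
    rw [← pow_add, Fin.val_rev]
    have : n + 1 - (a.val + 1) + a.val = n := by omega
    rw [this]
    exact hn.neg_one_pow
  calc (-1 : ℂ) ^ a.rev.val = (-1 : ℂ) ^ a.rev.val * ((-1 : ℂ) ^ a.val * (-1 : ℂ) ^ a.val) := by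
        rw [C2_pow_sq, mul_one]
    _ = ((-1 : ℂ) ^ a.rev.val * (-1) ^ a.val) * (-1) ^ a.val := by ring
    _ = (-1) ^ a.val := by rw [h1, one_mul]

theorem C2J_mul (X : Matrix (Fin (n + 1)) (Fin (n + 1)) ℂ) (a b : Fin (n + 1)) :
    (C2J n * X) a b = (-1) ^ a.val * X a.rev b := by
  rw [Matrix.mul_apply, Finset.sum_eq_single a.rev]
  · simp [C2J]
  · intro c _ hc
    simp [C2J, hc]
  · intro h
    exact (h (Finset.mem_univ _)).elim

theorem C2_mul_J (hn : Even n) (X : Matrix (Fin (n + 1)) (Fin (n + 1)) ℂ) (a b : Fin (n + 1)) :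
    (X * C2J n) a b = X a b.rev * (-1) ^ b.val := by
  rw [Matrix.mul_apply, Finset.sum_eq_single b.rev]
  · rw [C2J, Matrix.of_apply, if_pos (Fin.rev_rev b).symm, C2_rev_pow hn]
  · intro c _ hc
    have : ¬ b = c.rev := fun h => hc (by rw [h, Fin.rev_rev])
    simp [C2J, this]
  · intro h
    exact (h (Finset.mem_univ _)).elim

theorem C2J_sq (hn : Even n) : C2J n * C2J n = 1 := by
  ext a b
  rw [C2J_mul, C2J, Matrix.of_apply, Fin.rev_rev, Matrix.one_apply]
  by_cases h : a = b
  · rw [if_pos h.symm, if_pos h, C2_rev_pow hn]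
    exact C2_pow_sq _
  · rw [if_neg (Ne.symm h), if_neg h, mul_zero]

theorem C2J_transpose (hn : Even n) : (C2J n)ᵀ = C2J n := by
  ext a b
  rw [Matrix.transpose_apply, C2J, Matrix.of_apply, Matrix.of_apply]
  by_cases h : b = a.rev
  · rw [if_pos h, if_pos (by rw [h, Fin.rev_rev]), h, C2_rev_pow hn]
  · rw [if_neg h, if_neg (fun h' => h (by rw [h', Fin.rev_rev]))]

/-- conjugation by a square root of the form maps antisymmetric matrices to the algebra -/
theorem C2_rot (hn : Even n) : ∃ U V : Matrix (Fin (n + 1)) (Fin (n + 1)) ℂ, U * V = 1 ∧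
    V * U = 1 ∧ ∀ R : Matrix (Fin (n + 1)) (Fin (n + 1)) ℂ, Rᵀ = -R → ∀ a b,
      (U * R * V) a b = - ((-1) ^ (a.val + b.val) * (U * R * V) b.rev a.rev) := by
  set J := C2J n with hJ
  have hJ2 : J * J = 1 := C2J_sq hn
  have hJt : Jᵀ = J := C2J_transpose hn
  set α : ℂ := (1 + Complex.I) / 2 with hα
  set β : ℂ := (1 - Complex.I) / 2 with hβ
  have hαβ : α * β = 1 / 2 := by
    rw [hα, hβ]
    have := Complex.I_sq
    linear_combination (-1 / 4 : ℂ) * this
  have hsq : α * α + β * β = 0 := by
    rw [hα, hβ]
    have := Complex.I_sq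
    linear_combination (1 / 2 : ℂ) * this
  have hUV : (α • (1 : Matrix (Fin (n + 1)) (Fin (n + 1)) ℂ) + β • J) * (β • 1 + α • J) = 1 := by
    have : (α • (1 : Matrix (Fin (n + 1)) (Fin (n + 1)) ℂ) + β • J) * (β • 1 + α • J) =
        (α * β) • 1 + (α * α + β * β) • J + (α * β) • (J * J) := by
      simp only [add_mul, mul_add, smul_mul_smul_comm, one_mul, mul_one, add_smul]
      rw [mul_comm β α]
      abel
    rw [this, hJ2, hsq, zero_smul, add_zero, ← add_smul, hαβ]
    norm_num
  have hVU : (β • (1 : Matrix (Fin (n + 1)) (Fin (n + 1)) ℂ) + α • J) * (α • 1 + β • J) = 1 := by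
    have : (β • (1 : Matrix (Fin (n + 1)) (Fin (n + 1)) ℂ) + α • J) * (α • 1 + β • J) =
        (α * β) • 1 + (α * α + β * β) • J + (α * β) • (J * J) := by
      simp only [add_mul, mul_add, smul_mul_smul_comm, one_mul, mul_one, add_smul]
      rw [mul_comm β α]
      abel
    rw [this, hJ2, hsq, zero_smul, add_zero, ← add_smul, hαβ]
    norm_num
  refine ⟨α • 1 + β • J, β • 1 + α • J, hUV, hVU, ?_⟩
  intro R hR a b
  set U := α • (1 : Matrix (Fin (n + 1)) (Fin (n + 1)) ℂ) + β • J with hU
  set V := β • (1 : Matrix (Fin (n + 1)) (Fin (n + 1)) ℂ) + α • J with hV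
  have hUt : Uᵀ = U := by
    rw [hU, Matrix.transpose_add, Matrix.transpose_smul, Matrix.transpose_smul,
      Matrix.transpose_one, hJt]
  have hVt : Vᵀ = V := by
    rw [hV, Matrix.transpose_add, Matrix.transpose_smul, Matrix.transpose_smul,
      Matrix.transpose_one, hJt]
  have hJV : J * V = U := by
    rw [hV, hU, mul_add, mul_smul_comm, mul_smul_comm, mul_one, hJ2]
    exact add_comm _ _
  have hUJ : U * J = V := by
    rw [hV, hU, add_mul, smul_mul_assoc, smul_mul_assoc, one_mul, hJ2]
    exact add_comm _ _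
  have key : J * (U * R * V)ᵀ * J = - (U * R * V) := by
    rw [Matrix.transpose_mul, Matrix.transpose_mul, hUt, hVt, hR]
    calc J * (V * (-R * U)) * J = - ((J * V) * R * (U * J)) := by
          simp only [neg_mul, mul_neg, mul_assoc]
      _ = - (U * R * V) := by rw [hJV, hUJ]
  have e := congrFun (congrFun key a) b
  rw [C2_mul_J hn, C2J_mul, Matrix.transpose_apply, Matrix.neg_apply] at e
  rw [pow_add]
  linear_combination e

end C2

theorem rots_of_chain' {n : ℕ} {J : Type*}
    (L : Submodule ℂ (Matrix (Fin (n + 1)) (Fin (n + 1)) ℂ))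
    (hbr : ∀ X ∈ L, ∀ Y ∈ L, X * Y - Y * X ∈ L) (MC : MatChain n J L)
    (hn : Even n) (hn0 : 0 < n) (h6 : ¬ (n = 6 ∧ MC.i 1 ≠ MC.i 0 ∧ MC.i 2 = MC.i 0 ∧
      MC.i 3 = MC.i 0 ∧ MC.i 4 = MC.i 1 ∧ MC.i 5 = MC.i 0)) (hc : ¬ ∀ k < n, MC.i k = MC.i 0) :
    ∃ U V : Matrix (Fin (n + 1)) (Fin (n + 1)) ℂ, U * V = 1 ∧ V * U = 1 ∧
      ∀ i j, U * rot i j * V ∈ L := by
  classical
  rcases MC.toWord.classify hn hn0 with h | h | h | h
  · exact (hc h).elim
  · -- injective
    have hall : ∀ a b : Fin (n + 1), a ≠ b → single a b (1 : ℂ) ∈ L := by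
      refine C2_units L hbr ?_ ?_
      · intro a b hab
        have ha := a.isLt
        have hb : b.val < n := by omega
        have e1 := L.smul_mem (MC.φ b.val)⁻¹ (MC.hf (MC.i b.val))
        convert e1 using 1
        ext x y
        rw [Matrix.single_apply, Matrix.smul_apply, Matrix.of_apply, smul_eq_mul]
        by_cases hxy : a = x ∧ b = y
        · obtain ⟨rfl, rfl⟩ := hxy
          rw [if_pos ⟨rfl, rfl⟩, if_pos ⟨hab, rfl⟩, inv_mul_cancel₀ (MC.hφ _ hb)]
        · rw [if_neg hxy, if_neg, mul_zero]
          rintro ⟨h1, h2⟩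
          apply hxy
          have hx := x.isLt
          have h3 := h y.val (by omega) b.val hb h2
          exact ⟨Fin.ext (by omega), Fin.ext h3.symm⟩
      · intro a b hab
        have hb := b.isLt
        have ha : a.val < n := by omega
        have e1 := L.smul_mem (MC.ε a.val)⁻¹ (MC.he (MC.i a.val))
        convert e1 using 1
        ext x y
        rw [Matrix.single_apply, Matrix.smul_apply, Matrix.of_apply, smul_eq_mul]
        by_cases hxy : a = x ∧ b = y
        · obtain ⟨rfl, rfl⟩ := hxy
          rw [if_pos ⟨rfl, rfl⟩, if_pos ⟨hab, rfl⟩, inv_mul_cancel₀ (MC.hε _ ha)]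
        · rw [if_neg hxy, if_neg, mul_zero]
          rintro ⟨h1, h2⟩
          apply hxy
          have hy := y.isLt
          have h3 := h x.val (by omega) a.val ha h2
          exact ⟨Fin.ext h3.symm, Fin.ext (by omega)⟩
    refine ⟨1, 1, one_mul 1, one_mul 1, fun i j => ?_⟩
    rw [one_mul, mul_one, rot]
    by_cases hij : i = j
    · rw [hij, sub_self]
      exact L.zero_mem
    · exact L.sub_mem (hall i j hij) (hall j i (Ne.symm hij))
  · -- palindromic
    obtain ⟨r, hr⟩ := hn
    have hpal : ∀ k < n, ∀ l < n, (MC.i k = MC.i l ↔ k = l ∨ k + l + 1 = n) := h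
    -- the products
    have hprod1 : ∀ k < n, k ≠ r → k + 1 ≠ r → MC.φ k * MC.ε k = 1 := by
      intro k hk hkr hkr'
      have e1 := MC.hrel k hk
      have hlast : k = 0 ∨ MC.i (k - 1) ≠ MC.i k := by
        rcases Nat.eq_zero_or_pos k with h0 | h0
        · exact Or.inl h0
        · right
          intro he
          rcases (hpal (k - 1) (by omega) k hk).1 he with h1 | h1 <;> omega
      have hnext : k + 1 = n ∨ MC.i (k + 1) ≠ MC.i k := by
        by_cases h0 : k + 1 = n
        · exact Or.inl h0
        · right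
          intro he
          rcases (hpal (k + 1) (by omega) k hk).1 he with h1 | h1 <;> omega
      have e2 := MC.x_run (MC.i k) k 1 (by omega) one_pos hlast (fun t h1 h2 => by
        have : t = k := by omega
        rw [this]) hnext
      rw [e2, if_neg] at e1
      · simpa using e1
      · rintro ⟨h1, h2⟩
        rcases hlast with h3 | h3
        · omega
        · exact h3 h2
    have hmid : MC.i r = MC.i (r - 1) := (hpal r (by omega) (r - 1) (by omega)).2 (by omega)
    have hrunx : MC.x (MC.i (r - 1)) (r - 1) = 2 := by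
      have hlast : r - 1 = 0 ∨ MC.i (r - 1 - 1) ≠ MC.i (r - 1) := by
        rcases Nat.eq_zero_or_pos (r - 1) with h0 | h0
        · exact Or.inl h0
        · right
          intro he
          rcases (hpal (r - 1 - 1) (by omega) (r - 1) (by omega)).1 he with h1 | h1 <;> omega
      have hnext : r - 1 + 2 = n ∨ MC.i (r - 1 + 2) ≠ MC.i (r - 1) := by
        by_cases h0 : r - 1 + 2 = n
        · exact Or.inl h0
        · right
          intro he
          rcases (hpal (r - 1 + 2) (by omega) (r - 1) (by omega)).1 he with h1 | h1 <;> omega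
      have e2 := MC.x_run (MC.i (r - 1)) (r - 1) 2 (by omega) two_pos hlast (fun t h1 h2 => by
        have : t = r - 1 ∨ t = r := by omega
        rcases this with h3 | h3
        · rw [h3]
        · rw [h3, hmid]) hnext
      simpa using e2
    have hprod2 : MC.φ (r - 1) * MC.ε (r - 1) = 2 := by
      have e1 := MC.hrel (r - 1) (by omega)
      rw [hrunx, if_neg] at e1
      · simpa using e1
      · rintro ⟨h1, h2⟩
        rcases (hpal (r - 1 - 1) (by omega) (r - 1) (by omega)).1 h2 with h3 | h3 <;> omega
    have hprod3 : MC.φ r * MC.ε r = 2 := by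
      have e1 := MC.hrel r (by omega)
      rw [if_pos ⟨by omega, hmid.symm⟩, hprod2] at e1
      have e2 := MC.x_succ (MC.i (r - 1)) (r - 1) (by omega)
      have e3 : r - 1 + 1 = r := by omega
      rw [e3, hrunx, MC.A_diag] at e2
      rw [hmid, e2] at e1
      simpa using e1
    have hprod : ∀ k < n, ∀ l < n, k + l + 1 = n → MC.φ k * MC.ε k = MC.φ l * MC.ε l ∧
        MC.φ k * MC.ε k ≠ 0 := by
      intro k hk l hl hkl
      refine ⟨?_, mul_ne_zero (MC.hφ k hk) (MC.hε k hk)⟩
      by_cases h1 : k = r
      · have h2 : l = r - 1 := by omega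
        rw [h1, h2, hprod2, hprod3]
      · by_cases h2 : k + 1 = r
        · have h3 : k = r - 1 := by omega
          have h4 : l = r := by omega
          rw [h3, h4, hprod2, hprod3]
        · rw [hprod1 k hk h1 h2, hprod1 l hl (by omega) (by omega)]
    -- the diagonal matrix
    let d : ℕ → ℂ := fun k => ∏ t ∈ Finset.range k, MC.φ t
    have hd0 : ∀ k, k ≤ n → d k ≠ 0 := fun k hk =>
      Finset.prod_ne_zero_iff.2 fun t ht => MC.hφ t (by
        have := Finset.mem_range.1 ht
        omega)
    have hds : ∀ k, d (k + 1) = d k * MC.φ k := fun k => Finset.prod_range_succ _ _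
    let Dg : Matrix (Fin (n + 1)) (Fin (n + 1)) ℂ := diagonal fun a => d a.val
    let Di : Matrix (Fin (n + 1)) (Fin (n + 1)) ℂ := diagonal fun a => (d a.val)⁻¹
    have hDD : Dg * Di = 1 := by
      rw [diagonal_mul_diagonal, ← diagonal_one]
      congr 1
      funext a
      exact mul_inv_cancel₀ (hd0 _ (by have := a.isLt; omega))
    have hDD' : Di * Dg = 1 := by
      rw [diagonal_mul_diagonal, ← diagonal_one]
      congr 1
      funext a
      exact inv_mul_cancel₀ (hd0 _ (by have := a.isLt; omega))
    let conj : Matrix (Fin (n + 1)) (Fin (n + 1)) ℂ →ₗ[ℂ] Matrix (Fin (n + 1)) (Fin (n + 1)) ℂ :=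
      { toFun := fun X => Dg * X * Di
        map_add' := fun X Y => by rw [mul_add, add_mul]
        map_smul' := fun c X => by rw [mul_smul_comm, smul_mul_assoc, RingHom.id_apply] }
    have hconj : ∀ X, conj X = Dg * X * Di := fun X => rfl
    have hmem : ∀ X, X ∈ L.comap conj ↔ Dg * X * Di ∈ L := fun X => Iff.rfl
    have hbr' : ∀ X ∈ L.comap conj, ∀ Y ∈ L.comap conj, X * Y - Y * X ∈ L.comap conj := by
      intro X hX Y hY
      rw [hmem] at hX hY ⊢
      have := hbr _ hX _ hY
      have e1 : Dg * X * Di * (Dg * Y * Di) = Dg * (X * Y) * Di := by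
        calc Dg * X * Di * (Dg * Y * Di) = Dg * X * (Di * Dg) * Y * Di := by
              simp only [mul_assoc]
          _ = Dg * (X * Y) * Di := by rw [hDD', mul_one]; simp only [mul_assoc]
      have e2 : Dg * Y * Di * (Dg * X * Di) = Dg * (Y * X) * Di := by
        calc Dg * Y * Di * (Dg * X * Di) = Dg * Y * (Di * Dg) * X * Di := by
              simp only [mul_assoc]
          _ = Dg * (Y * X) * Di := by rw [hDD', mul_one]; simp only [mul_assoc]
      rw [e1, e2] at this
      rw [mul_sub, sub_mul]
      exact this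
    have hentry : ∀ (X : Matrix (Fin (n + 1)) (Fin (n + 1)) ℂ) (x y : Fin (n + 1)),
        (Dg * X * Di) x y = d x.val * X x y * (d y.val)⁻¹ := by
      intro X x y
      rw [mul_diagonal, diagonal_mul]
    have hlow : ∀ a b : Fin (n + 1), a.val = b.val + 1 → C2D a b ∈ L.comap conj := by
      intro a b hab
      have ha := a.isLt
      have hb : b.val < n := by omega
      rw [hmem]
      convert MC.hf (MC.i b.val) using 1
      ext x y
      rw [hentry, Matrix.of_apply, C2D, Matrix.sub_apply, Matrix.single_apply,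
        Matrix.single_apply, hab]
      have hsg : (-1 : ℂ) ^ (b.val + 1 + b.val) = -1 := by
        rw [Odd.neg_one_pow]
        exact ⟨b.val, by omega⟩
      rw [hsg]
      have hx := x.isLt
      have hy := y.isLt
      have hr1 : ∀ z : Fin (n + 1), z.rev.val = n - z.val := fun z => by
        rw [Fin.val_rev]; omega
      by_cases hxy : x.val = y.val + 1
      · have hyn : y.val < n := by omega
        have hdd : d x.val * (d y.val)⁻¹ = MC.φ y.val := by
          rw [hxy, hds]
          field_simp [hd0 y.val (by omega)]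
        by_cases h1 : y = b
        · have h2 : a = x := Fin.ext (by rw [hab, hxy, h1])
          have h3 : ¬ (b.rev = x ∧ a.rev = y) := by
            rintro ⟨h4, h5⟩
            have := congrArg Fin.val h5
            rw [hr1, h1] at this
            omega
          rw [if_pos ⟨h2, h1.symm⟩, if_neg h3, if_pos ⟨hxy, by rw [h1]⟩, sub_zero, mul_one, hdd]
        · by_cases h2 : b.rev = x ∧ a.rev = y
          · have h4 : MC.i y.val = MC.i b.val := (hpal _ hyn _ hb).2 (Or.inr (by
              have := congrArg Fin.val h2.2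
              rw [hr1] at this
              omega))
            rw [if_neg (fun h => h1 h.2.symm), if_pos h2, if_pos ⟨hxy, h4⟩]
            rw [← hdd]
            ring
          · rw [if_neg (fun h => h1 h.2.symm), if_neg h2, if_neg]
            · simp
            · rintro ⟨-, h4⟩
              rcases (hpal _ hyn _ hb).1 h4 with h5 | h5
              · exact h1 (Fin.ext h5)
              · apply h2
                constructor
                · apply Fin.ext
                  rw [hr1]
                  omega
                · apply Fin.ext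
                  rw [hr1]
                  omega
      · have h1 : ¬ (a = x ∧ b = y) := by
          rintro ⟨rfl, rfl⟩
          exact hxy hab
        have h2 : ¬ (b.rev = x ∧ a.rev = y) := by
          rintro ⟨h3, h4⟩
          apply hxy
          rw [← h3, ← h4, hr1, hr1]
          omega
        rw [if_neg h1, if_neg h2, if_neg (fun h => hxy h.1)]
        simp
    have hupp : ∀ a b : Fin (n + 1), b.val = a.val + 1 → C2D a b ∈ L.comap conj := by
      intro a b hab
      have hb := b.isLt
      have ha : a.val < n := by omega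
      rw [hmem]
      have hne0 : MC.φ a.val * MC.ε a.val ≠ 0 := mul_ne_zero (MC.hφ _ ha) (MC.hε _ ha)
      convert L.smul_mem (MC.φ a.val * MC.ε a.val)⁻¹ (MC.he (MC.i a.val)) using 1
      ext x y
      rw [hentry, Matrix.smul_apply, Matrix.of_apply, C2D, Matrix.sub_apply, Matrix.single_apply,
        Matrix.single_apply, hab, smul_eq_mul]
      have hsg : (-1 : ℂ) ^ (a.val + (a.val + 1)) = -1 := by
        rw [Odd.neg_one_pow]
        exact ⟨a.val, by omega⟩
      rw [hsg]
      have hx := x.isLt
      have hy := y.isLt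
      have hr1 : ∀ z : Fin (n + 1), z.rev.val = n - z.val := fun z => by
        rw [Fin.val_rev]; omega
      by_cases hxy : y.val = x.val + 1
      · have hxn : x.val < n := by omega
        have hdd : d x.val * (d y.val)⁻¹ = (MC.φ x.val)⁻¹ := by
          rw [hxy, hds]
          field_simp [hd0 x.val (by omega), MC.hφ x.val hxn]
        by_cases h1 : x = a
        · have h2 : b = y := Fin.ext (by rw [hab, hxy, h1])
          have h3 : ¬ (b.rev = x ∧ a.rev = y) := by
            rintro ⟨h4, h5⟩
            have := congrArg Fin.val h4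
            rw [hr1, h1] at this
            omega
          rw [if_pos ⟨h1.symm, h2⟩, if_neg h3, if_pos ⟨hxy, by rw [h1]⟩, sub_zero, mul_one, hdd, h1]
          have := MC.hφ a.val ha
          have := MC.hε a.val ha
          field_simp
        · by_cases h2 : b.rev = x ∧ a.rev = y
          · have h5 : x.val + a.val + 1 = n := by
              have := congrArg Fin.val h2.1
              rw [hr1] at this
              omega
            have h4 : MC.i x.val = MC.i a.val := (hpal _ hxn _ ha).2 (Or.inr h5)
            have h6 := (hprod _ hxn _ ha h5).1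
            rw [if_neg (fun h => h1 h.1.symm), if_pos h2, if_pos ⟨hxy, h4⟩, ← h6]
            have e5 : d x.val * (0 - -1) * (d y.val)⁻¹ = d x.val * (d y.val)⁻¹ := by ring
            rw [e5, hdd]
            have := MC.hφ x.val hxn
            have := MC.hε x.val hxn
            field_simp
          · rw [if_neg (fun h => h1 h.1.symm), if_neg h2, if_neg]
            · simp
            · rintro ⟨-, h4⟩
              rcases (hpal _ hxn _ ha).1 h4 with h5 | h5
              · exact h1 (Fin.ext h5)
              · apply h2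
                constructor
                · apply Fin.ext
                  rw [hr1]
                  omega
                · apply Fin.ext
                  rw [hr1]
                  omega
      · have h1 : ¬ (a = x ∧ b = y) := by
          rintro ⟨rfl, rfl⟩
          exact hxy hab
        have h2 : ¬ (b.rev = x ∧ a.rev = y) := by
          rintro ⟨h3, h4⟩
          apply hxy
          rw [← h3, ← h4, hr1, hr1]
          omega
        rw [if_neg h1, if_neg h2, if_neg (fun h => hxy h.1)]
        simp
    have hall := C2D_all ⟨r, hr⟩ hn0 _ hbr' hlow hupp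
    obtain ⟨U, V, hUV, hVU, hR⟩ := C2_rot (n := n) ⟨r, hr⟩
    refine ⟨Dg * U, V * Di, ?_, ?_, fun i j => ?_⟩
    · calc Dg * U * (V * Di) = Dg * (U * V) * Di := by simp only [mul_assoc]
        _ = 1 := by rw [hUV, mul_one, hDD]
    · calc V * Di * (Dg * U) = V * (Di * Dg) * U := by simp only [mul_assoc]
        _ = 1 := by rw [hDD', mul_one, hVU]
    · have e1 : U * rot i j * V ∈ L.comap conj := by
        refine C2_span _ hall _ (hR _ ?_)
        rw [rot, Matrix.transpose_sub, Matrix.transpose_single, Matrix.transpose_single, neg_sub]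
      rw [hmem] at e1
      convert e1 using 1
      simp only [mul_assoc]
  · exact (h6 h).elim

theorem rots_of_chain {n : ℕ} {J : Type*}
    (L : Submodule ℂ (Matrix (Fin (n + 1)) (Fin (n + 1)) ℂ))
    (hbr : ∀ X ∈ L, ∀ Y ∈ L, X * Y - Y * X ∈ L) (MC : MatChain n J L)
    (hn : Even n) (hn0 : 0 < n) (h6 : n ≠ 6) (hc : ¬ ∀ k < n, MC.i k = MC.i 0) :
    ∃ U V : Matrix (Fin (n + 1)) (Fin (n + 1)) ℂ, U * V = 1 ∧ V * U = 1 ∧
      ∀ i j, U * rot i j * V ∈ L :=
  rots_of_chain' L hbr MC hn hn0 (fun h => h6 h.1) hc

end Pool.Agent.GP
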