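import Pool.Agent.GP.Defs

/-!
Module N1: a cyclotomic factor.

Hints. Work in `ℤ[X]` (or `ℚ[X]`). `X ^ m - 1 = ∏ d ∣ m, cyclotomic d`
(`Polynomial.prod_cyclotomic_eq_X_pow_sub_one`), squarefree. Suppose no `cyclotomic (p ^ (k+1))`
divides `P = ∑ X ^ lev a`. Comparing multiplicities (`emultiplicity` or `rootMultiplicity` of a
primitive root of unity in ℂ) gives for all `k` : `#{i ∈ S | p ^ (k+1) ∣ ht i} =
#{i ∈ S | p ^ (k+1) ∣ d i}`, so `∑ i ∈ S, v_p (ht i) = ∑ i ∈ S, v_p (d i)`
(`padicValNat`, sum over `k` of indicators). On the other hand `1 - X ^ m = (1 - X) *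
∑ t < m, X ^ t`; cancel `(1 - X) ^ |S|` and evaluate at `1`: `p * ∏ ht i = ∏ d i`, so
`1 + ∑ v_p (ht i) = ∑ v_p (d i)`, a contradiction.
-/

namespace Pool.Agent.GP

open Module

theorem N1_ne {m : ℕ} (hm : 0 < m) : (1 - Polynomial.X ^ m : Polynomial ℂ) ≠ 0 := by
  intro h
  have h1 := congrArg (Polynomial.eval 0) h
  simp [hm.ne'] at h1

theorem N1_single {q m : ℕ} (hm : 0 < m) {ζ : ℂ} (hζ : IsPrimitiveRoot ζ q) :
    Polynomial.rootMultiplicity ζ (1 - Polynomial.X ^ m : Polynomial ℂ) =
      if q ∣ m then 1 else 0 := by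
  split_ifs with h
  · have h1 : (Polynomial.X ^ m - 1 : Polynomial ℂ).Separable :=
      Polynomial.separable_X_pow_sub_C (1 : ℂ) (by exact_mod_cast hm.ne') one_ne_zero
    have h2 : (1 - Polynomial.X ^ m : Polynomial ℂ).Separable := by
      have h3 : (1 - Polynomial.X ^ m : Polynomial ℂ) =
          (-1 : Polynomial ℂ) * (Polynomial.X ^ m - 1) := by ring
      rw [h3]
      have hu : IsUnit (-1 : Polynomial ℂ) := isUnit_one.neg
      exact h1.unit_mul hu
    apply le_antisymm (Polynomial.rootMultiplicity_le_one_of_separable h2 ζ)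
    rw [Nat.succ_le_iff, Polynomial.rootMultiplicity_pos (N1_ne hm)]
    show Polynomial.eval ζ (1 - Polynomial.X ^ m) = 0
    simp only [Polynomial.eval_sub, Polynomial.eval_one, Polynomial.eval_pow,
      Polynomial.eval_X]
    rw [(hζ.pow_eq_one_iff_dvd m).2 h, sub_self]
  · apply Polynomial.rootMultiplicity_eq_zero
    intro h1
    apply h
    rw [← hζ.pow_eq_one_iff_dvd]
    have h2 : Polynomial.eval ζ (1 - Polynomial.X ^ m) = 0 := h1
    simp only [Polynomial.eval_sub, Polynomial.eval_one, Polynomial.eval_pow,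
      Polynomial.eval_X] at h2
    exact (sub_eq_zero.1 h2).symm

theorem N1_prod_ne {ι : Type*} (S : Finset ι) (d : ι → ℕ) (hpos : ∀ i ∈ S, 0 < d i) :
    (∏ i ∈ S, (1 - Polynomial.X ^ d i) : Polynomial ℂ) ≠ 0 :=
  Finset.prod_ne_zero_iff.2 fun i hi => N1_ne (hpos i hi)

theorem N1_mult {ι : Type*} {q : ℕ} {ζ : ℂ} (hζ : IsPrimitiveRoot ζ q) (S : Finset ι)
    (d : ι → ℕ) (hpos : ∀ i ∈ S, 0 < d i) :
    Polynomial.rootMultiplicity ζ (∏ i ∈ S, (1 - Polynomial.X ^ d i) : Polynomial ℂ) =
      ∑ i ∈ S, (if q ∣ d i then 1 else 0) := by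
  classical
  induction S using Finset.induction_on with
  | empty =>
    rw [Finset.prod_empty, Finset.sum_empty]
    have : (1 : Polynomial ℂ) = Polynomial.C 1 := by simp
    rw [this, Polynomial.rootMultiplicity_C]
  | insert a S ha ih =>
    have h1 := N1_prod_ne (insert a S) d hpos
    rw [Finset.prod_insert ha] at h1
    rw [Finset.prod_insert ha, Finset.sum_insert ha, Polynomial.rootMultiplicity_mul h1,
      N1_single (hpos a (Finset.mem_insert_self a S)) hζ,
      ih fun i hi => hpos i (Finset.mem_insert_of_mem hi)]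

theorem N1_val {p N m : ℕ} (hp : p.Prime) (hm : 0 < m) (hN : m.factorization p ≤ N) :
    ∑ k ∈ Finset.range N, (if p ^ (k + 1) ∣ m then 1 else 0) = m.factorization p := by
  rw [← Finset.card_filter]
  have h1 : (Finset.range N).filter (fun k => p ^ (k + 1) ∣ m) =
      Finset.range (m.factorization p) := by
    ext k
    simp only [Finset.mem_filter, Finset.mem_range]
    rw [hp.pow_dvd_iff_le_factorization hm.ne']
    omega
  rw [h1, Finset.card_range]

theorem exists_cyclotomic {ι : Type*} {p : ℕ} (hp : p.Prime) (lev : Fin p → ℕ) (S : Finset ι)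
    (ht d : ι → ℕ) (hpos : ∀ i ∈ S, 0 < ht i ∧ 0 < d i)
    (hid : (∑ a, (Polynomial.X : Polynomial ℤ) ^ lev a) * ∏ i ∈ S, (1 - Polynomial.X ^ ht i) =
        ∏ i ∈ S, (1 - Polynomial.X ^ d i)) :
    ∃ k : ℕ, Polynomial.cyclotomic (p ^ (k + 1)) ℤ ∣ ∑ a, (Polynomial.X : Polynomial ℤ) ^ lev a := by
  by_contra hcon
  push Not at hcon
  -- multiplicities of the roots of unity of order `p ^ (k + 1)`
  have hmult : ∀ k : ℕ, ∑ i ∈ S, (if p ^ (k + 1) ∣ ht i then 1 else 0) =
      ∑ i ∈ S, (if p ^ (k + 1) ∣ d i then 1 else 0) := by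
    intro k
    have hq : p ^ (k + 1) ≠ 0 := pow_ne_zero _ hp.ne_zero
    have hζ := Complex.isPrimitiveRoot_exp (p ^ (k + 1)) hq
    set ζ := Complex.exp (2 * Real.pi * Complex.I / ((p ^ (k + 1) : ℕ) : ℂ)) with hζdef
    have hid' : (∑ a, (Polynomial.X : Polynomial ℂ) ^ lev a) *
        ∏ i ∈ S, (1 - Polynomial.X ^ ht i) = ∏ i ∈ S, (1 - Polynomial.X ^ d i) := by
      have := congrArg (Polynomial.map (Int.castRingHom ℂ)) hid
      simpa [Polynomial.map_mul, Polynomial.map_sum, Polynomial.map_prod] using this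
    have hne : (∑ a, (Polynomial.X : Polynomial ℂ) ^ lev a) *
        ∏ i ∈ S, (1 - Polynomial.X ^ ht i) ≠ 0 := by
      rw [hid']
      exact N1_prod_ne S d fun i hi => (hpos i hi).2
    have h1 : Polynomial.rootMultiplicity ζ (∑ a, (Polynomial.X : Polynomial ℂ) ^ lev a) = 0 := by
      apply Polynomial.rootMultiplicity_eq_zero
      intro hroot
      apply hcon k
      rw [Polynomial.cyclotomic_eq_minpoly hζ (Nat.pos_of_ne_zero hq)]
      apply minpoly.isIntegrallyClosed_dvd (hζ.isIntegral (Nat.pos_of_ne_zero hq))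
      have h2 : Polynomial.eval ζ (∑ a, (Polynomial.X : Polynomial ℂ) ^ lev a) = 0 := hroot
      simpa [Polynomial.eval_finsetSum] using h2
    rw [← N1_mult hζ S ht fun i hi => (hpos i hi).1, ← N1_mult hζ S d fun i hi => (hpos i hi).2,
      ← hid', Polynomial.rootMultiplicity_mul hne, h1, zero_add]
  -- the sums of the valuations
  have hval : ∑ i ∈ S, (ht i).factorization p = ∑ i ∈ S, (d i).factorization p := by
    have hN : ∀ i ∈ S, (ht i).factorization p ≤
        ∑ i ∈ S, ((ht i).factorization p + (d i).factorization p) ∧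
        (d i).factorization p ≤ ∑ i ∈ S, ((ht i).factorization p + (d i).factorization p) := by
      intro i hi
      have := Finset.single_le_sum (f := fun i => (ht i).factorization p + (d i).factorization p)
        (fun j _ => Nat.zero_le _) hi
      constructor
      · exact le_trans (Nat.le_add_right _ _) this
      · exact le_trans (Nat.le_add_left _ _) this
    have h1 := Finset.sum_congr (rfl : S = S) fun i hi =>
      (N1_val hp (hpos i hi).1 (hN i hi).1).symm
    have h2 := Finset.sum_congr (rfl : S = S) fun i hi =>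
      (N1_val hp (hpos i hi).2 (hN i hi).2).symm
    rw [h1, h2, Finset.sum_comm]
    rw [Finset.sum_comm (s := S)]
    exact Finset.sum_congr rfl fun k _ => hmult k
  -- evaluation at one
  have hone : p * ∏ i ∈ S, ht i = ∏ i ∈ S, d i := by
    have hgeom : ∀ m : ℕ, (1 - Polynomial.X ^ m : Polynomial ℤ) =
        (1 - Polynomial.X) * ∑ t ∈ Finset.range m, Polynomial.X ^ t := fun m =>
      (mul_neg_geom_sum (Polynomial.X : Polynomial ℤ) m).symm
    have h1 : (∑ a, (Polynomial.X : Polynomial ℤ) ^ lev a) *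
        ∏ i ∈ S, ∑ t ∈ Finset.range (ht i), Polynomial.X ^ t =
        ∏ i ∈ S, ∑ t ∈ Finset.range (d i), Polynomial.X ^ t := by
      have h2 := hid
      simp only [hgeom, Finset.prod_mul_distrib] at h2
      have h3 : (∏ _i ∈ S, (1 - Polynomial.X : Polynomial ℤ)) ≠ 0 := by
        refine Finset.prod_ne_zero_iff.2 fun i _ => ?_
        intro h4
        have := congrArg (Polynomial.eval 0) h4
        simp at this
      apply mul_left_cancel₀ h3
      rw [← h2]
      ring
    have h2 := congrArg (Polynomial.eval 1) h1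
    simp only [Polynomial.eval_mul, Polynomial.eval_finsetSum, Polynomial.eval_pow,
      Polynomial.eval_X, one_pow, Polynomial.eval_prod, Finset.sum_const, Finset.card_univ,
      Fintype.card_fin, Finset.card_range, nsmul_eq_mul, mul_one] at h2
    exact_mod_cast h2
  have hht : ∏ i ∈ S, ht i ≠ 0 := Finset.prod_ne_zero_iff.2 fun i hi => (hpos i hi).1.ne'
  have h1 := congrArg (fun n => Nat.factorization n p) hone
  rw [Nat.factorization_mul hp.ne_zero hht, Nat.factorization_prod fun i hi => (hpos i hi).1.ne',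
    Nat.factorization_prod fun i hi => (hpos i hi).2.ne'] at h1
  simp only [Finsupp.coe_add, Pi.add_apply, Finsupp.coe_finsetSum, Finset.sum_apply,
    hp.factorization_self] at h1
  omega

end Pool.Agent.GP
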