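import Pool.Agent.GP.Defs

/-!
Module N2: the levels are distinct.

Hints. Let `m = p ^ (k+1)`, `q = p ^ k`, `n r = #{a | lev a % m = r}` for `r < m`, `R = ∑ r < m,
n r X ^ r`. Then `R ≡ ∑ X ^ lev a` modulo `X ^ m - 1`, so `cyclotomic m ∣ R`, `R = cyclotomic m * S`
with `deg S < q` (`natDegree_cyclotomic`, totient), and `cyclotomic m = ∑ j < p, X ^ (j * q)`
(`Polynomial.cyclotomic_prime_pow_eq_geom_sum`), so `n r = n (r + q)` whenever `r + q < m`. As
`∑ r < m, n r = p`, `∑ r < q, n r = 1`. Level `0` occurs (`hlow`), so `n 0 = 1` and `n r = 0` for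
`0 < r < q`. If `k ≥ 1`, then `q ≥ 2`, level `1` does not occur, so by `hlow` all levels are `0`
and `n 0 = p`, a contradiction. So `q = 1`, all `n r = 1`, and `lev` is injective.
-/

namespace Pool.Agent.GP

open Module

theorem lev_injective {p : ℕ} (hp : p.Prime) (lev : Fin p → ℕ)
    (hlow : ∀ a, ∀ k ≤ lev a, ∃ a', lev a' = k) (k : ℕ)
    (hk : Polynomial.cyclotomic (p ^ (k + 1)) ℤ ∣ ∑ a, (Polynomial.X : Polynomial ℤ) ^ lev a) :
    Function.Injective lev := by
  classical
  have hp2 := hp.two_le
  have hne : (Finset.univ : Finset (Fin p)).Nonempty := ⟨⟨0, hp.pos⟩, Finset.mem_univ _⟩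
  obtain ⟨a0, -, ha0⟩ := Finset.exists_mem_eq_sup Finset.univ hne lev
  set h : ℕ := Finset.univ.sup lev with hh
  have hle : ∀ a, lev a ≤ h := fun a => Finset.le_sup (Finset.mem_univ a)
  -- the levels form an initial segment
  have hsub : Finset.range (h + 1) ⊆ Finset.univ.image lev := by
    intro t ht
    rw [Finset.mem_range] at ht
    obtain ⟨a', ha'⟩ := hlow a0 t (by omega)
    exact Finset.mem_image.2 ⟨a', Finset.mem_univ _, ha'⟩
  have hcard1 : h + 1 ≤ (Finset.univ.image lev).card := by
    have := Finset.card_le_card hsub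
    rwa [Finset.card_range] at this
  have hcard2 : (Finset.univ.image lev).card ≤ p := by
    have := Finset.card_image_le (s := (Finset.univ : Finset (Fin p))) (f := lev)
    rwa [Finset.card_univ, Fintype.card_fin] at this
  -- degrees
  have hP : (∑ a, (Polynomial.X : Polynomial ℤ) ^ lev a) ≠ 0 := by
    intro h0
    have h1 := congrArg (Polynomial.eval 1) h0
    simp only [Polynomial.eval_finsetSum, Polynomial.eval_pow, Polynomial.eval_X, one_pow,
      Finset.sum_const, Finset.card_univ, Fintype.card_fin, nsmul_eq_mul, mul_one,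
      Polynomial.eval_zero] at h1
    have : p = 0 := by exact_mod_cast h1
    omega
  have hdeg1 : (∑ a, (Polynomial.X : Polynomial ℤ) ^ lev a).natDegree ≤ h := by
    refine Polynomial.natDegree_sum_le_of_forall_le _ _ fun a _ => ?_
    rw [Polynomial.natDegree_X_pow]
    exact hle a
  have hdeg2 := Polynomial.natDegree_le_of_dvd hk hP
  rw [Polynomial.natDegree_cyclotomic, Nat.totient_prime_pow_succ hp] at hdeg2
  have hpk : 1 ≤ p ^ k := Nat.one_le_pow _ _ hp.pos
  have h3 : 1 * (p - 1) ≤ p ^ k * (p - 1) := Nat.mul_le_mul_right _ hpk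
  have hcard : (Finset.univ.image lev).card = (Finset.univ : Finset (Fin p)).card := by
    rw [Finset.card_univ, Fintype.card_fin]
    omega
  have hinj := Finset.card_image_iff.1 hcard
  intro a b hab
  exact hinj (Finset.mem_coe.2 (Finset.mem_univ a)) (Finset.mem_coe.2 (Finset.mem_univ b)) hab

end Pool.Agent.GP
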