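import Pool.Agent.GP.W7
import Pool.Agent.GP.N1
import Pool.Agent.GP.N2
import Pool.Agent.GP.B8
import Pool.Agent.GP.B9
import Pool.Agent.GP.C0

/-!
The levels of an irreducible representation of prime dimension.
-/

namespace Pool.Agent.GP

open Module LieAlgebra LieAlgebra.IsKilling

variable {L : Type*} [LieRing L] [LieAlgebra ℂ L] [FiniteDimensional ℂ L] [IsKilling ℂ L]
  (H : LieSubalgebra ℂ L) [H.IsCartanSubalgebra]
  (V : Type*) [AddCommGroup V] [Module ℂ V] [FiniteDimensional ℂ V]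
  [LieRingModule L V] [LieModule ℂ L V]

variable {H V} in
lemma exists_wt_eq {n : ℕ} (v : Basis (Fin n) ℂ V) (wt : Fin n → Dual ℂ H)
    (hv : ∀ a, v a ∈ WS H V (wt a)) (μ : Dual ℂ H) (hμ : WS H V μ ≠ ⊥) : ∃ a, wt a = μ := by
  by_contra hcon
  push Not at hcon
  have h1 := finrank_WS v wt hv μ
  have h2 : IsEmpty {a // wt a = μ} := ⟨fun a => hcon a.1 a.2⟩
  rw [Nat.card_of_isEmpty] at h1
  exact hμ (Submodule.finrank_eq_zero.mp h1)

/-- the levels of an irreducible representation of prime dimension -/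
theorem exists_level_basis [Nontrivial L] [LieModule.IsIrreducible ℂ L V]
    (b : (rootSystem H).Base) (n : ℕ) (hp : (n + 1).Prime) (hn : finrank ℂ V = n + 1) :
    ∃ (v : Basis (Fin (n + 1)) ℂ V) (wt : Fin (n + 1) → Dual ℂ H), (∀ a, v a ∈ WS H V (wt a)) ∧
      (∀ k : Fin (n + 1), (wt 0 - wt k) (rho b.flip) = ((k : ℕ) : ℂ)) ∧
      wt 0 ((2 : ℂ) • rho b.flip) = n := by
  obtain ⟨D, v, hv⟩ := exists_chData H V b (n + 1) hn
  have hWS : ∀ a, WS H V (D.wt a) ≠ ⊥ := fun a h =>
    v.ne_zero a ((Submodule.mem_bot ℂ).mp (h ▸ hv a))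
  obtain ⟨N, hN, hN1, hN2⟩ := exists_levels H V b (D.wt D.top) (hWS _) (by
    intro μ hμ
    obtain ⟨a, rfl⟩ := exists_wt_eq v D.wt hv μ hμ
    exact D.below a)
  obtain ⟨lev, ht, d, hlev, hpos, hid⟩ := product_identity b D
  have hlev' : ∀ a, (D.wt D.top - D.wt a) (rho b.flip) = (lev a : ℂ) := hlev
  obtain ⟨k, hk⟩ := exists_cyclotomic hp lev (posF b) ht d hpos hid
  have hle : ∀ a, lev a ≤ N := by
    intro a
    obtain ⟨k, hk, h1⟩ := hN1 _ (hWS a)
    rw [hlev'] at h1
    have h2 : lev a = k := by exact_mod_cast h1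
    omega
  have hocc : ∀ k ≤ N, ∃ a, lev a = k := by
    intro k hk
    obtain ⟨μ, hμ, h1⟩ := hN2 k hk
    obtain ⟨a, rfl⟩ := exists_wt_eq v D.wt hv μ hμ
    rw [hlev'] at h1
    exact ⟨a, by exact_mod_cast h1⟩
  have hinj := lev_injective hp lev (fun a k hk => hocc k (hk.trans (hle a))) k hk
  -- the number of levels
  have hNn : N = n := by
    have h1 : Finset.univ.image lev = Finset.range (N + 1) := by
      ext k
      simp only [Finset.mem_image, Finset.mem_univ, true_and, Finset.mem_range]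
      constructor
      · rintro ⟨a, rfl⟩
        exact Nat.lt_succ_of_le (hle a)
      · intro hk
        exact hocc k (Nat.le_of_lt_succ hk)
    have h2 := Finset.card_image_of_injective Finset.univ hinj
    rw [h1, Finset.card_range, Finset.card_univ, Fintype.card_fin] at h2
    omega
  subst hNn
  choose g hg using fun k : Fin (N + 1) => hocc k (Nat.le_of_lt_succ k.2)
  have hginj : Function.Injective g := by
    intro k k' h
    apply Fin.ext
    rw [← hg k, ← hg k', h]
  have hgbij : Function.Bijective g := (Finite.injective_iff_bijective).mp hginj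
  obtain ⟨e, he⟩ : ∃ e : Fin (N + 1) ≃ Fin (N + 1), ∀ k, e k = g k :=
    ⟨Equiv.ofBijective g hgbij, fun _ => rfl⟩
  have h0 : g 0 = D.top := by
    apply hinj
    rw [hg 0]
    have h1 := hlev' D.top
    rw [sub_self, LinearMap.zero_apply] at h1
    have h2 : lev D.top = 0 := by exact_mod_cast h1.symm
    rw [h2]
    rfl
  refine ⟨v.reindex e.symm, fun k => D.wt (g k), ?_, ?_, ?_⟩
  · intro a
    rw [Basis.reindex_apply, Equiv.symm_symm, he]
    exact hv _
  · intro k
    show (D.wt (g 0) - D.wt (g k)) (rho b.flip) = _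
    rw [h0, hlev', hg k]
  · show D.wt (g 0) _ = _
    rw [h0, hN]

end Pool.Agent.GP
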