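import Pool.Agent.GP.Core1
import Pool.Agent.GP.C2
import Pool.Agent.GP.A2
import Pool.Agent.GP.A3

/-!
Gabber's theorem.
-/

namespace Pool.Agent.GP

open Module LieAlgebra LieAlgebra.IsKilling

attribute [local instance 100] LieRing.ofAssociativeRing

section ss

variable {V : Type*} [AddCommGroup V] [Module ℂ V] [FiniteDimensional ℂ V]

lemma isSemisimple_of_span (x : Module.End ℂ V)
    (hx : ∀ v : V, v ∈ Submodule.span ℂ {w | ∃ r : ℂ, x w = r • w}) : x.IsSemisimple := by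
  classical
  have hfin : Finite x.Eigenvalues := inferInstance
  have : Fintype x.Eigenvalues := Fintype.ofFinite _
  let S : Finset ℂ := Finset.univ.image fun μ : x.Eigenvalues => (μ : ℂ)
  refine Module.End.isSemisimple_of_squarefree_aeval_eq_zero
    (p := ∏ μ ∈ S, (Polynomial.X - Polynomial.C μ)) ?_ ?_
  · apply Polynomial.Separable.squarefree
    rw [Polynomial.separable_prod_X_sub_C_iff']
    intro a _ b _ h
    exact h
  · ext v
    induction hx v using Submodule.span_induction with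
    | mem w hw =>
      obtain ⟨r, hr⟩ := hw
      by_cases h0 : w = 0
      · rw [h0, map_zero, map_zero]
      · have hev : x.HasEigenvector r w := ⟨Module.End.mem_eigenspace_iff.mpr hr, h0⟩
        rw [Module.End.aeval_apply_of_hasEigenvector hev, LinearMap.zero_apply,
          Polynomial.eval_prod, Finset.prod_eq_zero (i := r), zero_smul]
        · exact Finset.mem_image.mpr ⟨⟨r, Module.End.hasEigenvalue_of_hasEigenvector hev⟩,
            Finset.mem_univ _, rfl⟩
        · simp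
    | zero => simp
    | add u w _ _ hu hw => rw [map_add, hu, hw, map_add]
    | smul a w _ hw => rw [map_smul, hw, map_smul]

end ss

section main

variable {V : Type} [AddCommGroup V] [Module ℂ V] [FiniteDimensional ℂ V]
  (L : LieSubalgebra ℂ (Module.End ℂ V))

lemma ad_sub_isSemisimple (x : L) (hx : (x : Module.End ℂ V).IsSemisimple) :
    (LieAlgebra.ad ℂ L x).IsSemisimple := by
  have h1 := LieAlgebra.ad_isSemisimple_of_isSemisimple hx
  have h2 : L.toSubmodule ∈
      (LieAlgebra.ad ℂ (Module.End ℂ V) (x : Module.End ℂ V)).invtSubmodule := by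
    intro y hy
    exact L.lie_mem x.2 hy
  exact h1.restrict h2

/-- the chain of an irreducible Lie algebra of prime degree and a semisimple element -/
theorem exists_core [LieModule.IsIrreducible ℂ L V]
    (htr : ∀ x ∈ L, LinearMap.trace ℂ V x = 0) (n : ℕ) (hp : (n + 1).Prime)
    (hn : finrank ℂ V = n + 1) (B : L) (hB : (B : Module.End ℂ V).IsSemisimple) (hB0 : B ≠ 0) :
    ∃ (J : Type) (v : Basis (Fin (n + 1)) ℂ V) (MC : MatChain n J (LM V (L := L) v))
      (m : Fin (n + 1) → ℂ) (r : J → ℂ), (∀ a, (B : Module.End ℂ V) (v a) = m a • v a) ∧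
      ∀ k (hk : k < n), m ⟨k, by omega⟩ - m ⟨k + 1, by omega⟩ = r (MC.i k) := by
  have hK : IsKilling ℂ L := isKilling_of_irr L htr
  have hnt : Nontrivial L := ⟨B, 0, hB0⟩
  obtain ⟨H, hH, hBH⟩ := exists_cartan B (ad_sub_isSemisimple L B hB)
  obtain ⟨b⟩ := (rootSystem H).nonempty_base
  obtain ⟨v, wt, hv, hlev, hN⟩ := exists_level_basis H V b n hp hn
  obtain ⟨MC, hMC⟩ := exists_chain H V b n v wt hv hlev hN
  refine ⟨b.support, v, MC, fun a => wt a ⟨B, hBH⟩, fun j => (rootSystem H).root j ⟨B, hBH⟩,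
    fun a => hv a ⟨B, hBH⟩, fun k hk => ?_⟩
  exact congrArg (fun l : Dual ℂ H => l ⟨B, hBH⟩) (hMC k hk)

/-- the kernel of an operator with distinct eigenvalues -/
lemma finrank_ker_le {n : ℕ} (v : Basis (Fin n) ℂ V) (x : Module.End ℂ V) (m : Fin n → ℂ)
    (hm : ∀ a, x (v a) = m a • v a) (hinj : Function.Injective m) :
    finrank ℂ (LinearMap.ker x) ≤ 1 := by
  have h1 : ∀ u, x u = 0 → ∀ a, m a * v.repr u a = 0 := by
    intro u hu a
    have h2 : x u = ∑ a, (v.repr u a * m a) • v a := by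
      conv_lhs => rw [← v.sum_repr u]
      rw [map_sum]
      refine Finset.sum_congr rfl fun a _ => ?_
      rw [map_smul, hm, smul_smul]
    rw [h2] at hu
    have h3 := (Fintype.linearIndependent_iff.mp v.linearIndependent) _ hu a
    rw [mul_comm]
    exact h3
  by_cases h0 : ∃ a, m a = 0
  · obtain ⟨a₀, ha₀⟩ := h0
    rw [finrank_le_one_iff]
    refine ⟨⟨v a₀, ?_⟩, fun u => ⟨v.repr u.1 a₀, ?_⟩⟩
    · rw [LinearMap.mem_ker, hm, ha₀, zero_smul]
    · apply Subtype.ext
      have h2 : (u : V) = v.repr u.1 a₀ • v a₀ := by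
        conv_lhs => rw [← v.sum_repr u.1]
        rw [Finset.sum_eq_single a₀]
        · intro a _ ha
          have h3 := h1 u.1 u.2 a
          rcases mul_eq_zero.mp h3 with h4 | h4
          · exact absurd (hinj (h4.trans ha₀.symm)) ha
          · rw [h4, zero_smul]
        · intro h
          exact absurd (Finset.mem_univ _) h
      exact h2.symm
  · push Not at h0
    have h2 : LinearMap.ker x = ⊥ := by
      rw [eq_bot_iff]
      intro u hu
      rw [Submodule.mem_bot, ← v.repr.map_eq_zero_iff]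
      ext a
      rcases mul_eq_zero.mp (h1 u hu a) with h4 | h4
      · exact absurd h4 (h0 a)
      · exact h4
    rw [h2, finrank_bot]
    exact Nat.zero_le _

end main

section matrices

variable {n : ℕ}

/-- the Lie algebra of operators of a Lie algebra of matrices -/
noncomputable def opL (L : Submodule ℂ (Matrix (Fin n) (Fin n) ℂ))
    (hbr : ∀ X ∈ L, ∀ Y ∈ L, X * Y - Y * X ∈ L) :
    LieSubalgebra ℂ (Module.End ℂ (Fin n → ℂ)) where
  __ := L.map (Matrix.toLin' : Matrix (Fin n) (Fin n) ℂ ≃ₗ[ℂ] _).toLinearMap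
  lie_mem' := by
    rintro _ _ ⟨X, hX, rfl⟩ ⟨Y, hY, rfl⟩
    refine ⟨X * Y - Y * X, hbr X hX Y hY, ?_⟩
    show Matrix.toLin' (X * Y - Y * X) = ⁅Matrix.toLin' X, Matrix.toLin' Y⁆
    rw [map_sub, Matrix.toLin'_mul, Matrix.toLin'_mul]
    rfl

lemma mem_opL (L : Submodule ℂ (Matrix (Fin n) (Fin n) ℂ))
    (hbr : ∀ X ∈ L, ∀ Y ∈ L, X * Y - Y * X ∈ L) (x : Module.End ℂ (Fin n → ℂ)) :
    x ∈ opL L hbr ↔ ∃ X ∈ L, Matrix.toLin' X = x := Iff.rfl

lemma opL_irr (L : Submodule ℂ (Matrix (Fin n) (Fin n) ℂ))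
    (hbr : ∀ X ∈ L, ∀ Y ∈ L, X * Y - Y * X ∈ L) (hn : 0 < n)
    (hirr : ∀ W : Submodule ℂ (Fin n → ℂ), (∀ X ∈ L, ∀ w ∈ W, X.mulVec w ∈ W) → W = ⊥ ∨ W = ⊤) :
    LieModule.IsIrreducible ℂ (opL L hbr) (Fin n → ℂ) := by
  have : Nonempty (Fin n) := ⟨⟨0, hn⟩⟩
  have : Nontrivial (LieSubmodule ℂ (opL L hbr) (Fin n → ℂ)) :=
    LieSubmodule.nontrivial_iff _ _ _ |>.mpr inferInstance
  refine IsSimpleOrder.mk fun W => ?_
  rcases hirr W.toSubmodule (fun X hX w hw => W.lie_mem (x := ⟨Matrix.toLin' X, X, hX, rfl⟩) hw)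
    with h | h
  · left
    exact (LieSubmodule.toSubmodule_eq_bot W).mp h
  · right
    rw [← LieSubmodule.toSubmodule_inj, h]
    rfl

lemma LM_br {V : Type*} [AddCommGroup V] [Module ℂ V] (L : LieSubalgebra ℂ (Module.End ℂ V))
    (v : Basis (Fin n) ℂ V) :
    ∀ X ∈ LM V (L := L) v, ∀ Y ∈ LM V (L := L) v, X * Y - Y * X ∈ LM V (L := L) v := by
  rintro _ ⟨x, rfl⟩ _ ⟨y, rfl⟩
  refine ⟨⁅x, y⁆, ?_⟩
  show LinearMap.toMatrix v v (LieModule.toEnd ℂ L V ⁅x, y⁆) =
    LinearMap.toMatrix v v (LieModule.toEnd ℂ L V x) *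
      LinearMap.toMatrix v v (LieModule.toEnd ℂ L V y) -
    LinearMap.toMatrix v v (LieModule.toEnd ℂ L V y) *
      LinearMap.toMatrix v v (LieModule.toEnd ℂ L V x)
  rw [← LinearMap.toMatrix_mul, ← LinearMap.toMatrix_mul, ← map_sub, LieHom.map_lie]
  rfl

/-- from a chain in some basis to the rotations -/
theorem rots_back (L : Submodule ℂ (Matrix (Fin n) (Fin n) ℂ))
    (hbr : ∀ X ∈ L, ∀ Y ∈ L, X * Y - Y * X ∈ L) (v : Basis (Fin n) ℂ (Fin n → ℂ))
    (h : ∃ U V : Matrix (Fin n) (Fin n) ℂ, U * V = 1 ∧ V * U = 1 ∧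
      ∀ i j, U * rot i j * V ∈ LM (Fin n → ℂ) (L := opL L hbr) v) :
    ∃ U V : Matrix (Fin n) (Fin n) ℂ, U * V = 1 ∧ V * U = 1 ∧ ∀ i j, U * rot i j * V ∈ L := by
  classical
  obtain ⟨U, V, h1, h2, h3⟩ := h
  obtain ⟨S, hS⟩ : ∃ S, S = (Pi.basisFun ℂ (Fin n)).toMatrix v := ⟨_, rfl⟩
  obtain ⟨T, hT⟩ : ∃ T, T = v.toMatrix (Pi.basisFun ℂ (Fin n)) := ⟨_, rfl⟩
  have hST : S * T = 1 := by rw [hS, hT]; exact Basis.toMatrix_mul_toMatrix_flip _ _
  have hTS : T * S = 1 := by rw [hS, hT]; exact Basis.toMatrix_mul_toMatrix_flip _ _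
  refine ⟨S * U, V * T, ?_, ?_, fun i j => ?_⟩
  · calc S * U * (V * T) = S * (U * V) * T := by simp only [Matrix.mul_assoc]
      _ = 1 := by rw [h1, Matrix.mul_one, hST]
  · calc V * T * (S * U) = V * (T * S) * U := by simp only [Matrix.mul_assoc]
      _ = 1 := by rw [hTS, Matrix.mul_one, h2]
  · obtain ⟨⟨_, X, hX, rfl⟩, hx⟩ := h3 i j
    have h4 : LinearMap.toMatrix v v (Matrix.toLin' X) = U * rot i j * V := hx
    have h5 : LinearMap.toMatrix v v (Matrix.toLin' X) = T * X * S := by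
      have h6 := basis_toMatrix_mul_linearMap_toMatrix_mul_basis_toMatrix
        v (Pi.basisFun ℂ (Fin n)) v (Pi.basisFun ℂ (Fin n)) (Matrix.toLin' X)
      rw [hS, hT, ← h6]
      congr 2
      exact LinearMap.toMatrix'_toLin' X
    have h6 : S * U * rot i j * (V * T) = X := by
      calc S * U * rot i j * (V * T) = S * (U * rot i j * V) * T := by
            simp only [Matrix.mul_assoc]
        _ = S * (T * X * S) * T := by rw [← h4, h5]
        _ = (S * T) * X * (S * T) := by simp only [Matrix.mul_assoc]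
        _ = X := by rw [hST, Matrix.one_mul, Matrix.mul_one]
    rw [h6]
    exact hX

end matrices

/-- **Gabber's theorem**, with a semisimple element whose kernel has dimension at least two -/
theorem prime_core {p : ℕ} (hp : p.Prime) (h5 : 5 ≤ p) (h7 : p ≠ 7)
    (L : Submodule ℂ (Matrix (Fin p) (Fin p) ℂ))
    (hbr : ∀ X ∈ L, ∀ Y ∈ L, X * Y - Y * X ∈ L) (htr : ∀ X ∈ L, X.trace = 0)
    (hirr : ∀ W : Submodule ℂ (Fin p → ℂ), (∀ X ∈ L, ∀ w ∈ W, X.mulVec w ∈ W) → W = ⊥ ∨ W = ⊤)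
    (B : Matrix (Fin p) (Fin p) ℂ) (hB : B ∈ L) (hB0 : B ≠ 0)
    (hBd : ∀ v : Fin p → ℂ, v ∈ Submodule.span ℂ {w | ∃ r : ℂ, B.mulVec w = r • w})
    (hker : 2 ≤ finrank ℂ (LinearMap.ker B.mulVecLin)) :
    ∃ U V : Matrix (Fin p) (Fin p) ℂ, U * V = 1 ∧ V * U = 1 ∧ ∀ i j, U * rot i j * V ∈ L := by
  obtain ⟨n, rfl⟩ : ∃ n, p = n + 1 := ⟨p - 1, by omega⟩
  have hI := opL_irr L hbr (Nat.succ_pos n) hirr
  obtain ⟨Bo, hBo⟩ : ∃ Bo : opL L hbr, (Bo : Module.End ℂ (Fin (n + 1) → ℂ)) = Matrix.toLin' B :=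
    ⟨⟨_, B, hB, rfl⟩, rfl⟩
  have hBss : (Bo : Module.End ℂ (Fin (n + 1) → ℂ)).IsSemisimple := by
    apply isSemisimple_of_span
    rw [hBo]
    exact hBd
  have hBo0 : Bo ≠ 0 := by
    rintro rfl
    apply hB0
    have h1 : Matrix.toLin' B = 0 := hBo.symm
    exact (Matrix.toLin').map_eq_zero_iff.mp h1
  obtain ⟨J, v, MC, m, r, hm, hr⟩ := exists_core (opL L hbr) (by
    rintro _ ⟨X, hX, rfl⟩
    show LinearMap.trace ℂ _ (Matrix.toLin' X) = 0
    rw [Matrix.trace_toLin'_eq, htr X hX]) n hp (by simp) Bo hBss hBo0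
  apply rots_back L hbr v
  apply rots_of_chain _ (LM_br _ v) MC
  · rcases hp.eq_two_or_odd' with h | h
    · omega
    · rw [Nat.odd_add_one, Nat.not_odd_iff_even] at h
      exact h
  · omega
  · omega
  · intro hc
    -- the eigenvalues are in arithmetic progression
    obtain ⟨ρ, hρ⟩ : ∃ ρ, ρ = r (MC.i 0) := ⟨_, rfl⟩
    have h1 : ∀ k (hk : k < n + 1), m ⟨k, hk⟩ = m 0 - k * ρ := by
      intro k
      induction k with
      | zero =>
        intro hk
        rw [Nat.cast_zero, zero_mul, sub_zero]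
        rfl
      | succ k ih =>
        intro hk
        have h2 := hr k (by omega)
        rw [hc k (by omega), ← hρ, ih (by omega)] at h2
        push_cast
        linear_combination -h2
    have h2 : ∀ a, m a = m 0 - (a : ℕ) * ρ := fun a => h1 a.1 a.2
    by_cases h0 : ρ = 0
    · -- scalar
      have h3 : ∀ a, m a = m 0 := fun a => by rw [h2, h0, mul_zero, sub_zero]
      have h4 : (Bo : Module.End ℂ (Fin (n + 1) → ℂ)) = m 0 • 1 := by
        apply v.ext
        intro a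
        rw [hm, h3, LinearMap.smul_apply, Module.End.one_apply]
      have h5 : LinearMap.trace ℂ _ (Bo : Module.End ℂ (Fin (n + 1) → ℂ)) = 0 := by
        rw [hBo, Matrix.trace_toLin'_eq, htr B hB]
      rw [h4, map_smul, LinearMap.trace_one] at h5
      have h6 : m 0 = 0 := by
        rcases mul_eq_zero.mp h5 with h7 | h7
        · exact h7
        · exfalso
          rw [finrank_fintype_fun_eq_card, Fintype.card_fin] at h7
          exact Nat.cast_ne_zero.mpr (Nat.succ_ne_zero n) h7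
      apply hBo0
      apply Subtype.ext
      rw [h4, h6, zero_smul]
      rfl
    · have h3 : Function.Injective m := by
        intro a a' h
        rw [h2 a, h2 a'] at h
        have h4 : ((a : ℕ) : ℂ) = ((a' : ℕ) : ℂ) := by
          have h5 : (((a : ℕ) : ℂ) - ((a' : ℕ) : ℂ)) * ρ = 0 := by linear_combination -h
          rcases mul_eq_zero.mp h5 with h6 | h6
          · exact sub_eq_zero.mp h6
          · exact absurd h6 h0
        exact Fin.ext (by exact_mod_cast h4)
      have h4 := finrank_ker_le v _ m hm h3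
      rw [hBo] at h4
      have h5 : LinearMap.ker (Matrix.toLin' B) = LinearMap.ker B.mulVecLin := rfl
      rw [h5] at h4
      omega

end Pool.Agent.GP
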