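import Mathlib

/-!
Gabber's theorem on representations of prime dimension: common definitions.
-/

namespace Pool.Agent.GP

open Module

noncomputable section

section roots

variable {ι M N : Type*} [AddCommGroup M] [Module ℂ M] [AddCommGroup N] [Module ℂ N]
  {P : RootPairing ι ℂ M N} (b : P.Base)

/-- points reachable from `y` by simple reflections -/
inductive Reach (y : M) : M → Prop
  | refl : Reach y y
  | step {x : M} {j : ι} (hj : j ∈ b.support) (h : Reach y x) : Reach y (P.reflection j x)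

/-- antisymmetric elements of the group ring -/
def Anti (f : AddMonoidAlgebra ℂ M) : Prop :=
  ∀ j ∈ b.support, ∀ x, f.coeff (P.reflection j x) = - f.coeff x

/-- `x` is below `y` -/
def Below (y x : M) : Prop := ∃ n : ι → ℕ, y - x = ∑ j ∈ b.support, n j • P.root j

/-- evaluation at a point -/
def ev (P : RootPairing ι ℂ M N) (z : N) : AddMonoidAlgebra ℂ M →+* AddMonoidAlgebra ℂ ℂ :=
  AddMonoidAlgebra.mapDomainRingHom ℂ (P.toLinearMap.flip z).toAddMonoidHom

variable [Fintype ι]

open Classical in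
/-- the positive roots -/
def posF : Finset ι := Finset.univ.filter fun i => b.IsPos i

lemma mem_posF (i : ι) : i ∈ posF b ↔ b.IsPos i := by
  classical
  simp [posF]

/-- half the sum of the positive roots -/
def rho : M := (1 / 2 : ℂ) • ∑ i ∈ posF b, P.root i

/-- the Weyl denominator -/
def wden : AddMonoidAlgebra ℂ M :=
  AddMonoidAlgebra.single (rho b) 1 * ∏ i ∈ posF b, (1 - AddMonoidAlgebra.single (-P.root i) 1)

end roots

section chdata

variable {ι M N : Type*} [Fintype ι] [AddCommGroup M] [Module ℂ M] [AddCommGroup N] [Module ℂ N]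

/-- the data of a representation with its weights in a root system -/
structure ChData (P : RootPairing ι ℂ M N) (b : P.Base) (n : ℕ) where
  /-- the weights -/
  wt : Fin n → M
  /-- the raising operators -/
  E : ι → Matrix (Fin n) (Fin n) ℂ
  /-- the lowering operators -/
  F : ι → Matrix (Fin n) (Fin n) ℂ
  E_wt : ∀ i, b.IsPos i → ∀ a a', E i a a' ≠ 0 → wt a = wt a' + P.root i
  F_wt : ∀ i, b.IsPos i → ∀ a a', F i a a' ≠ 0 → wt a = wt a' - P.root i
  EF : ∀ i, b.IsPos i → E i * F i - F i * E i =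
    Matrix.diagonal fun a => P.toLinearMap (wt a) (P.coroot i)
  /-- the bilinear form -/
  B : M →ₗ[ℂ] M →ₗ[ℂ] ℂ
  /-- the ratio of a root and its coroot -/
  con : ι → ℝ
  con_pos : ∀ i, 0 < con i
  B_symm : ∀ x y, B x y = B y x
  B_root : ∀ i x, B (P.root i) x = con i * P.toLinearMap x (P.coroot i)
  /-- the eigenvalue of the Casimir operator -/
  cas : ℂ
  casimir : (Matrix.diagonal fun a => B (wt a) (wt a)) +
    ∑ i ∈ posF b, (con i : ℂ) • (E i * F i + F i * E i) = cas • 1
  /-- the highest weight vector -/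
  top : Fin n
  top_mult : ∀ a, wt a = wt top → a = top
  below : ∀ a, Below b (wt top) (wt a)
  dom : ∀ j ∈ b.support, ∃ k : ℕ, P.toLinearMap (wt top) (P.coroot j) = k
  inv : ∀ j ∈ b.support, ∀ μ, Nat.card {a // wt a = P.reflection j μ} = Nat.card {a // wt a = μ}

variable {P : RootPairing ι ℂ M N} {b : P.Base} {n : ℕ}

/-- the character -/
def ChData.ch (D : ChData P b n) : AddMonoidAlgebra ℂ M :=
  ∑ a, AddMonoidAlgebra.single (D.wt a) 1

end chdata

section lie

open LieAlgebra LieAlgebra.IsKilling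

variable {L : Type*} [LieRing L] [LieAlgebra ℂ L] [FiniteDimensional ℂ L] [IsKilling ℂ L]
  (H : LieSubalgebra ℂ L) [H.IsCartanSubalgebra]

/-- a choice of standard triples -/
structure Trip where
  /-- raising operators -/
  e : H.root → L
  /-- lowering operators -/
  f : H.root → L
  he : ∀ i, e i ∈ rootSpace H (i.1 : H → ℂ)
  hf : ∀ i, f i ∈ rootSpace H (-(i.1 : H → ℂ))
  hef : ∀ i, ⁅e i, f i⁆ = (coroot i.1 : L)

/-- the bilinear form on the dual of the Cartan subalgebra -/
def dform : Dual ℂ H →ₗ[ℂ] Dual ℂ H →ₗ[ℂ] ℂ :=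
  LinearMap.compl₂ LinearMap.id ((cartanEquivDual H).symm : Dual ℂ H →ₗ[ℂ] H)

/-- the ratio of a root and its coroot -/
def con (i : H.root) : ℝ := (dform H (i.1.toLinear) (i.1.toLinear)).re / 2

variable (V : Type*) [AddCommGroup V] [Module ℂ V] [LieRingModule L V] [LieModule ℂ L V]

/-- the weight spaces of a representation -/
def WS (μ : Dual ℂ H) : Submodule ℂ V where
  carrier := {v | ∀ h : H, ⁅(h : L), v⁆ = μ h • v}
  zero_mem' h := by simp
  add_mem' {x y} hx hy h := by rw [lie_add, hx h, hy h, smul_add]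
  smul_mem' c x hx h := by rw [lie_smul, hx h, smul_comm]

variable {V} in
omit [FiniteDimensional ℂ L] [IsKilling ℂ L] [H.IsCartanSubalgebra] in
lemma mem_WS (μ : Dual ℂ H) (v : V) : v ∈ WS H V μ ↔ ∀ h : H, ⁅(h : L), v⁆ = μ h • v := Iff.rfl

/-- the matrices of the operators of a representation in a basis -/
def LM {n : ℕ} (v : Basis (Fin n) ℂ V) : Submodule ℂ (Matrix (Fin n) (Fin n) ℂ) :=
  LinearMap.range ((LinearMap.toMatrix v v : (V →ₗ[ℂ] V) →ₗ[ℂ] Matrix (Fin n) (Fin n) ℂ) ∘ₗ
    (LieModule.toEnd ℂ L V : L →ₗ[ℂ] Module.End ℂ V))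

end lie

/-- infinitesimal rotations -/
def rot {m : ℕ} (i j : Fin m) : Matrix (Fin m) (Fin m) ℂ :=
  Matrix.single i j 1 - Matrix.single j i 1

section words

/-- the combinatorics of a representation all of whose levels have dimension one -/
structure Word (n : ℕ) (J : Type*) where
  /-- the Cartan matrix -/
  A : J → J → ℤ
  A_diag : ∀ j, A j j = 2
  A_zero : ∀ j l, A j l = 0 → A l j = 0
  /-- the letters -/
  i : ℕ → J
  /-- the weights -/
  x : J → ℕ → ℤ
  x_succ : ∀ j k, k < n → x j (k + 1) = x j k - A j (i k)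
  x_zero : ∀ j k, k ≤ n → (k = 0 ∨ i (k - 1) ≠ j) → (k = n ∨ i k ≠ j) → x j k = 0
  x_run : ∀ j k l, k + l ≤ n → 0 < l → (k = 0 ∨ i (k - 1) ≠ j) →
    (∀ t, k ≤ t → t < k + l → i t = j) → (k + l = n ∨ i (k + l) ≠ j) → x j k = l

open Classical in
/-- a representation all of whose levels have dimension one -/
structure MatChain (n : ℕ) (J : Type*) (L : Submodule ℂ (Matrix (Fin (n + 1)) (Fin (n + 1)) ℂ))
    extends Word n J where
  /-- the coefficients of the lowering operators -/
  φ : ℕ → ℂ
  /-- the coefficients of the raising operators -/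
  ε : ℕ → ℂ
  hφ : ∀ k, k < n → φ k ≠ 0
  hε : ∀ k, k < n → ε k ≠ 0
  hrel : ∀ k, k < n → φ k * ε k = (x (i k) k : ℂ) +
    if 0 < k ∧ i (k - 1) = i k then φ (k - 1) * ε (k - 1) else 0
  hf : ∀ j, (Matrix.of fun a b : Fin (n + 1) =>
    if a.val = b.val + 1 ∧ i b.val = j then φ b.val else 0) ∈ L
  he : ∀ j, (Matrix.of fun a b : Fin (n + 1) =>
    if b.val = a.val + 1 ∧ i a.val = j then ε a.val else 0) ∈ L

end words

end

end Pool.Agent.GP
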