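import Pool.Agent.Helper8.B.HF

/-!
Module G2F: exclusion of the exceptional Lie algebra `G2` by signature.

`V = Fin 7 → ℂ`, `h = hf H0` a nondegenerate Hermitian form whose isotropic subspaces have dimension
at most 2, `A` an irreducible Lie algebra of matrices, stable under adjoints, preserving a symmetric
bilinear form `Q` which pairs `w k` with `w (6 - k)`, with an element `B` (eigenvalue `t` on
`w 0, w 1`, `0` on `w 2, w 3, w 4`, `-t` on `w 5, w 6`), a pair `e, f` commuting with `B`, and no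
nonzero element which is diagonal in the basis `w` and kills `w 0, w 1`.

Proof.
(0) Notation: `V_t`, `V_0`, `V_(-t)` the eigenspaces of `B`; `X'` the adjoint of `X ∈ A`
(`hadj`; also `hf (X u) v = hf u (X' v)` by Hermitian symmetry, `X'' = X` by nondegeneracy);
`B' = -B`. As `B` is skew with real eigenvalues, `V_t` is isotropic and orthogonal to `V_0`. So `V_0`
is anisotropic: if `v ∈ V_0`, `v ≠ 0`, `hf v v = 0` then `span (w 0, w 1, v)` is isotropic of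
dimension 3.
(1) `C1 = 0`: let `D ∈ A` commute with `B` and `D w 0 = D w 1 = 0`. Then `D = 0`. By `Q`-invariance
`D w 5 = D w 6 = 0` (`Q (D w 5) (w 0) = 0 = Q (D w 5) (w 1)` and `D w 5 ∈ V_(-t)`). On `V_0`, with
`D w b = ∑ a_{ab} w a` (`a, b ∈ {2, 3, 4}`), `Q`-invariance gives `a42 = a24 = a33 = 0`,
`a44 = -a22`, `a32 Q33 = -a43 Q24`, `a34 Q33 = -a23 Q24`; the same relations for `e`
(`a23 = x, a34 = y`) and `f` (`a32 = x', a43 = y'`) show `D = p e + q f + r h` on `V_0` with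
`h = e f - f e` (`h w 2 = 2 w 2`, `h w 3 = 0`, `h w 4 = -2 w 4`), `p = a23 / x`, `q = a32 / x'`,
`r = a22 / 2`. If `(p, q, r) ≠ 0`, one of `⁅e, ⁅e, D⁆⁆ = -2 q e`, `⁅e, D⁆ = q h - 2 r e`, `D` (on
`V_0`; all are zero on `V_t`, `V_(-t)`) gives an element `e0 ∈ A` equal to `e` on `V_0` and to `0`
on `V_t ⊕ V_(-t)`; then `⁅e0, f⁆` is `h` on `V_0` and `0` elsewhere: it is diagonal, kills `w 0`,
`w 1`, so it is `0` by `hdiag`, a contradiction.
(2) For `u ∈ V` let `τ u` be the vector with `Q (τ u) y = hf u y` for all `y` (`Q` is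
nondegenerate). `τ` is antilinear, injective, `τ (X u) = - X' (τ u)` for `X ∈ A` (by the invariance
of `Q` under `X'`), so `τ ∘ τ` is linear and commutes with `A`, so it is a scalar `c` (irreducible,
eigenspace); `c` is real (`τ (τ τ u) = conj c τ u = c τ u`), and `c > 0`: in coordinates
`τ u = M *ᵥ (star u)`, `M * conj M = c • 1`, so `|det M|² = c ^ 7`, `c ≠ 0`. `τ` maps `V_t` to
itself (`τ (B u) = B (τ u)` as `B' = -B`, `t` real). So there is `r ∈ V_t`, `r ≠ 0`, with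
`τ r = √c r`: take `u = w 0`, `r = √c u + τ u`, or `r = I • u` if `τ u = -√c u`.
(3) `r = a w 0 + b w 1`. Let `N = a² e - b² f - a b h ∈ A` (`h = e f - f e`, so
`h w 0 = w 0, h w 1 = - w 1`). Then `N w 0 = -b r`, `N w 1 = a r`, `N r = 0`, and `N³ = 0` on `V_0`.
`N'` commutes with `B`. For `u ∈ V_t`, `- N' (τ u) = τ (N u)` is a multiple of `τ r = √c r`, and
`N' r = 0`; so `N'` restricted to `V_t` kills `r` and has image in `ℂ r`, so it is a multiple
`l` of `N` on `V_t`. By (1), `N' = l N` on `V`. For `v ∈ V_0`: `hf (N² v) (N² v) =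
hf (N v) (N' N² v) = l hf (N v) (N³ v) = 0`, so `N² v = 0`, and similarly `N v = 0`. But
`N w 3 = a² x w 2 - b² y' w 4`, so `a = b = 0`, a contradiction.
-/

namespace Pool.Agent.Ball

open Module Matrix

namespace G2F

lemma swap {m : ℕ} {H : Matrix (Fin m) (Fin m) ℂ} (hH : H.IsHermitian) (u v : Fin m → ℂ) :
    hf H u v = (starRingEnd ℂ) (hf H v u) := by
  rw [hf, hf, starRingEnd_apply, ← Matrix.star_dotProduct_star, star_star, Matrix.star_mulVec,
    hH.eq, Matrix.dotProduct_mulVec]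

abbrev V7 : Type := Fin 7 → ℂ

abbrev M7 : Type := Matrix (Fin 7) (Fin 7) ℂ

lemma mat_ext (w : Basis (Fin 7) ℂ V7) (X : M7) (h : ∀ k, X *ᵥ w k = 0) : X = 0 := by
  have h1 : X.mulVecLin = 0 := w.ext fun k => by simpa using h k
  have h2 : Matrix.toLin' X = 0 := h1
  exact (LinearEquiv.map_eq_zero_iff _).1 h2

lemma expand (w : Basis (Fin 7) ℂ V7) (v : V7) :
    v = w.repr v 0 • w 0 + w.repr v 1 • w 1 + w.repr v 2 • w 2 + w.repr v 3 • w 3 +
      w.repr v 4 • w 4 + w.repr v 5 • w 5 + w.repr v 6 • w 6 := by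
  conv_lhs => rw [← w.sum_repr v]
  rw [Fin.sum_univ_seven]

/-- the eigenvalues of `B` -/
def ev (t : ℂ) : Fin 7 → ℂ := ![t, t, 0, 0, 0, -t, -t]

lemma repr_act (w : Basis (Fin 7) ℂ V7) (B : M7) (β : Fin 7 → ℂ) (hB : ∀ k, B *ᵥ w k = β k • w k)
    (v : V7) (k : Fin 7) : w.repr (B *ᵥ v) k = β k * w.repr v k := by
  have h : B *ᵥ v = ∑ j, (β j * w.repr v j) • w j := by
    conv_lhs => rw [← w.sum_repr v]
    rw [Matrix.mulVec_sum]
    refine Finset.sum_congr rfl fun j _ => ?_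
    rw [Matrix.mulVec_smul, hB, smul_smul, mul_comm]
  rw [h, w.repr_sum_self]

lemma coord_eig (w : Basis (Fin 7) ℂ V7) (B : M7) (β : Fin 7 → ℂ)
    (hB : ∀ k, B *ᵥ w k = β k • w k) (s : ℂ) (v : V7) (hv : B *ᵥ v = s • v) (k : Fin 7)
    (hk : β k ≠ s) : w.repr v k = 0 := by
  have h1 := repr_act w B β hB v k
  rw [hv, map_smul, Finsupp.smul_apply, smul_eq_mul] at h1
  have h2 : (β k - s) * w.repr v k = 0 := by rw [sub_mul, ← h1, sub_self]
  exact (mul_eq_zero.1 h2).resolve_left (sub_ne_zero.2 hk)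

lemma forall7 {p : Fin 7 → Prop} (h0 : p 0) (h1 : p 1) (h2 : p 2) (h3 : p 3) (h4 : p 4)
    (h5 : p 5) (h6 : p 6) : ∀ k, p k := by
  intro k
  fin_cases k
  exacts [h0, h1, h2, h3, h4, h5, h6]

lemma act_bracket (X Y : M7) (v : V7) : (X * Y - Y * X) *ᵥ v = X *ᵥ (Y *ᵥ v) - Y *ᵥ (X *ᵥ v) := by
  rw [Matrix.sub_mulVec, Matrix.mulVec_mulVec, Matrix.mulVec_mulVec]

section c1

variable (A : Submodule ℂ M7)
    (hbr : ∀ X ∈ A, ∀ Y ∈ A, X * Y - Y * X ∈ A)
    (w : Basis (Fin 7) ℂ V7)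
    (e f : M7) (he : e ∈ A) (hf' : f ∈ A) (x y z x' y' z' : ℂ)
    (hx : x * x' = 2) (hy : y * y' = 2)
    (he0 : e *ᵥ w 0 = 0) (he1 : e *ᵥ w 1 = w 0) (he2 : e *ᵥ w 2 = 0) (he3 : e *ᵥ w 3 = x • w 2)
    (he4 : e *ᵥ w 4 = y • w 3) (he5 : e *ᵥ w 5 = 0) (he6 : e *ᵥ w 6 = z • w 5)
    (hf0 : f *ᵥ w 0 = w 1) (hf1 : f *ᵥ w 1 = 0) (hf2 : f *ᵥ w 2 = x' • w 3)
    (hf3 : f *ᵥ w 3 = y' • w 4) (hf4 : f *ᵥ w 4 = 0) (hf5 : f *ᵥ w 5 = z' • w 6)
    (hf6 : f *ᵥ w 6 = 0)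
    (hdiag : ∀ X ∈ A, ∀ d : Fin 7 → ℂ, (∀ k, X *ᵥ w k = d k • w k) → d 0 = 0 → d 1 = 0 → X = 0)

include hbr hf' hx hy hf0 hf1 hf2 hf3 hf4 hf5 hf6 hdiag in
lemma L1 (D : M7) (hD : D ∈ A) (s : ℂ) (d0 : D *ᵥ w 0 = 0) (d1 : D *ᵥ w 1 = 0)
    (d5 : D *ᵥ w 5 = 0) (d6 : D *ᵥ w 6 = 0) (d2 : D *ᵥ w 2 = 0)
    (d3 : D *ᵥ w 3 = (s * x) • w 2) (d4 : D *ᵥ w 4 = (s * y) • w 3) : s = 0 := by
  have hX : D * f - f * D = 0 := by
    refine hdiag _ (hbr D hD f hf') ![0, 0, 2 * s, 0, -(2 * s), 0, 0] ?_ rfl rfl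
    refine forall7 ?_ ?_ ?_ ?_ ?_ ?_ ?_
    · rw [act_bracket, hf0, d0, d1, Matrix.mulVec_zero]; simp
    · rw [act_bracket, hf1, d1, Matrix.mulVec_zero, Matrix.mulVec_zero]; simp
    · rw [act_bracket, hf2, d2, Matrix.mulVec_smul, d3, Matrix.mulVec_zero, smul_smul]
      simp only [Matrix.cons_val, sub_zero]
      congr 1
      linear_combination s * hx
    · rw [act_bracket, hf3, d3, Matrix.mulVec_smul, Matrix.mulVec_smul, d4, hf2, smul_smul,
        smul_smul, ← sub_smul]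
      simp only [Matrix.cons_val]
      congr 1
      linear_combination s * hy - s * hx
    · rw [act_bracket, hf4, d4, Matrix.mulVec_smul, Matrix.mulVec_zero, hf3, smul_smul, zero_sub,
        ← neg_smul]
      simp only [Matrix.cons_val]
      congr 1
      linear_combination -s * hy
    · rw [act_bracket, hf5, d5, Matrix.mulVec_smul, d6, Matrix.mulVec_zero]; simp
    · rw [act_bracket, hf6, d6, Matrix.mulVec_zero, Matrix.mulVec_zero]; simp
  have h2 : (D * f - f * D) *ᵥ w 2 = (2 * s) • w 2 := by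
    rw [act_bracket, hf2, d2, Matrix.mulVec_smul, d3, Matrix.mulVec_zero, smul_smul, sub_zero]
    congr 1
    linear_combination s * hx
  rw [hX, Matrix.zero_mulVec] at h2
  have h3 := (smul_eq_zero.1 h2.symm).resolve_right (w.ne_zero 2)
  simpa using h3

include hbr he hf' hx hy he0 he1 he2 he3 he4 he5 he6 hf0 hf1 hf2 hf3 hf4 hf5 hf6 hdiag in
lemma L2 (D : M7) (hD : D ∈ A) (p q r : ℂ) (d0 : D *ᵥ w 0 = 0) (d1 : D *ᵥ w 1 = 0)
    (d5 : D *ᵥ w 5 = 0) (d6 : D *ᵥ w 6 = 0) (d2 : D *ᵥ w 2 = (2 * r) • w 2 + (q * x') • w 3)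
    (d3 : D *ᵥ w 3 = (p * x) • w 2 + (q * y') • w 4)
    (d4 : D *ᵥ w 4 = (p * y) • w 3 - (2 * r) • w 4) : D = 0 := by
  obtain ⟨D1, hD1⟩ : ∃ D1, D1 = e * D - D * e := ⟨_, rfl⟩
  obtain ⟨D2, hD2⟩ : ∃ D2, D2 = e * D1 - D1 * e := ⟨_, rfl⟩
  have m1 : D1 ∈ A := hD1 ▸ hbr e he D hD
  have m2 : D2 ∈ A := hD2 ▸ hbr e he D1 m1
  have a0 : D1 *ᵥ w 0 = 0 := by
    rw [hD1, act_bracket, d0, he0]; simp
  have a1 : D1 *ᵥ w 1 = 0 := by
    rw [hD1, act_bracket, d1, he1, d0]; simp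
  have a5 : D1 *ᵥ w 5 = 0 := by
    rw [hD1, act_bracket, d5, he5]; simp
  have a6 : D1 *ᵥ w 6 = 0 := by
    rw [hD1, act_bracket, d6, he6, Matrix.mulVec_smul, d5]; simp
  have a2 : D1 *ᵥ w 2 = (2 * q) • w 2 := by
    rw [hD1, act_bracket, d2, he2, Matrix.mulVec_add, Matrix.mulVec_smul, Matrix.mulVec_smul, he2,
      he3, Matrix.mulVec_zero]
    simp only [smul_zero, zero_add, sub_zero, smul_smul]
    congr 1
    linear_combination q * hx
  have a3 : D1 *ᵥ w 3 = (-(2 * r) * x) • w 2 := by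
    rw [hD1, act_bracket, d3, he3, Matrix.mulVec_add, Matrix.mulVec_smul, Matrix.mulVec_smul,
      Matrix.mulVec_smul, he2, he4, d2]
    simp only [smul_zero, zero_add, smul_smul, smul_add]
    have h : (q * y' * y : ℂ) = x * (q * x') := by linear_combination q * hy - q * hx
    rw [h, ← sub_sub, sub_right_comm, sub_self, zero_sub, ← neg_smul]
    congr 1
    ring
  have a4 : D1 *ᵥ w 4 = (-(2 * r) * y) • w 3 - (2 * q) • w 4 := by
    rw [hD1, act_bracket, d4, he4, Matrix.mulVec_sub, Matrix.mulVec_smul, Matrix.mulVec_smul,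
      Matrix.mulVec_smul, he3, he4, d3]
    simp only [smul_smul, smul_add]
    have h : (y * (q * y') : ℂ) = 2 * q := by linear_combination q * hy
    rw [h]
    module
  have b0 : D2 *ᵥ w 0 = 0 := by
    rw [hD2, act_bracket, a0, he0]; simp
  have b1 : D2 *ᵥ w 1 = 0 := by
    rw [hD2, act_bracket, a1, he1, a0]; simp
  have b5 : D2 *ᵥ w 5 = 0 := by
    rw [hD2, act_bracket, a5, he5]; simp
  have b6 : D2 *ᵥ w 6 = 0 := by
    rw [hD2, act_bracket, a6, he6, Matrix.mulVec_smul, a5]; simp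
  have b2 : D2 *ᵥ w 2 = 0 := by
    rw [hD2, act_bracket, a2, he2, Matrix.mulVec_smul, he2]; simp
  have b3 : D2 *ᵥ w 3 = (-(2 * q) * x) • w 2 := by
    rw [hD2, act_bracket, a3, he3, Matrix.mulVec_smul, Matrix.mulVec_smul, he2, a2]
    module
  have b4 : D2 *ᵥ w 4 = (-(2 * q) * y) • w 3 := by
    rw [hD2, act_bracket, a4, he4, Matrix.mulVec_sub, Matrix.mulVec_smul, Matrix.mulVec_smul,
      Matrix.mulVec_smul, he3, he4, a3]
    module
  have hL := L1 A hbr w f hf' x y x' y' z' hx hy hf0 hf1 hf2 hf3 hf4 hf5 hf6 hdiag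
  have hq : q = 0 := by
    have := hL D2 m2 _ b0 b1 b5 b6 b2 b3 b4
    simpa using this
  subst hq
  have hr : r = 0 := by
    have := hL D1 m1 _ a0 a1 a5 a6 (by rw [a2]; simp) a3 (by rw [a4]; simp)
    simpa using this
  subst hr
  have hp : p = 0 := hL D hD p d0 d1 d5 d6 (by rw [d2]; simp) (by rw [d3]; simp)
    (by rw [d4]; simp)
  subst hp
  refine mat_ext w D (forall7 d0 d1 ?_ ?_ ?_ d5 d6)
  · rw [d2]; simp
  · rw [d3]; simp
  · rw [d4]; simp

end c1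

end G2F

end Pool.Agent.Ball

namespace Pool.Agent.Ball

open Module Matrix

namespace G2F

section c2

variable (A : Submodule ℂ M7)
    (hbr : ∀ X ∈ A, ∀ Y ∈ A, X * Y - Y * X ∈ A)
    (w : Basis (Fin 7) ℂ V7)
    (Q : V7 →ₗ[ℂ] V7 →ₗ[ℂ] ℂ)
    (hQ0 : ∀ k l : Fin 7, (k : ℕ) + l ≠ 6 → Q (w k) (w l) = 0)
    (hQ1 : ∀ k l : Fin 7, (k : ℕ) + l = 6 → Q (w k) (w l) ≠ 0)
    (hQs : ∀ u v, Q u v = Q v u)
    (hQ : ∀ X ∈ A, ∀ u v, Q (X *ᵥ u) v + Q u (X *ᵥ v) = 0)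
    (B : M7) (t : ℂ) (ht : t ≠ 0)
    (hBw : ∀ k, B *ᵥ w k = ev t k • w k)
    (e f : M7) (he : e ∈ A) (hf' : f ∈ A) (x y z x' y' z' : ℂ)
    (hx : x * x' = 2) (hy : y * y' = 2)
    (he0 : e *ᵥ w 0 = 0) (he1 : e *ᵥ w 1 = w 0) (he2 : e *ᵥ w 2 = 0) (he3 : e *ᵥ w 3 = x • w 2)
    (he4 : e *ᵥ w 4 = y • w 3) (he5 : e *ᵥ w 5 = 0) (he6 : e *ᵥ w 6 = z • w 5)
    (hf0 : f *ᵥ w 0 = w 1) (hf1 : f *ᵥ w 1 = 0) (hf2 : f *ᵥ w 2 = x' • w 3)
    (hf3 : f *ᵥ w 3 = y' • w 4) (hf4 : f *ᵥ w 4 = 0) (hf5 : f *ᵥ w 5 = z' • w 6)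
    (hf6 : f *ᵥ w 6 = 0)
    (hdiag : ∀ X ∈ A, ∀ d : Fin 7 → ℂ, (∀ k, X *ᵥ w k = d k • w k) → d 0 = 0 → d 1 = 0 → X = 0)

include ht hBw in
lemma eig_zero (v : V7) (hv : B *ᵥ v = 0) :
    v = w.repr v 2 • w 2 + w.repr v 3 • w 3 + w.repr v 4 • w 4 := by
  have h := fun k => coord_eig w B (ev t) hBw 0 v (by rw [hv, zero_smul]) k
  have h0 := h 0 (by simpa [ev] using ht)
  have h1 := h 1 (by simpa [ev] using ht)
  have h5 := h 5 (by simpa [ev] using ht)
  have h6 := h 6 (by simpa [ev] using ht)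
  conv_lhs => rw [expand w v, h0, h1, h5, h6]
  simp

include ht hBw in
lemma eig_pos (v : V7) (hv : B *ᵥ v = t • v) :
    v = w.repr v 0 • w 0 + w.repr v 1 • w 1 := by
  have h := fun k => coord_eig w B (ev t) hBw t v hv k
  have h2 := h 2 (by simpa [ev] using ht.symm)
  have h3 := h 3 (by simpa [ev] using ht.symm)
  have h4 := h 4 (by simpa [ev] using ht.symm)
  have ht' : -t ≠ t := by
    intro h
    apply ht
    linear_combination -(1 / 2 : ℂ) * h
  have h5 := h 5 (by simpa [ev] using ht')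
  have h6 := h 6 (by simpa [ev] using ht')
  conv_lhs => rw [expand w v, h2, h3, h4, h5, h6]
  simp

include ht hBw in
lemma eig_neg (v : V7) (hv : B *ᵥ v = (-t) • v) :
    v = w.repr v 5 • w 5 + w.repr v 6 • w 6 := by
  have h := fun k => coord_eig w B (ev t) hBw (-t) v hv k
  have h2 := h 2 (by simpa [ev] using ht)
  have h3 := h 3 (by simpa [ev] using ht)
  have h4 := h 4 (by simpa [ev] using ht)
  have ht' : t ≠ -t := by
    intro h
    apply ht
    linear_combination (1 / 2 : ℂ) * h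
  have h5 := h 0 (by simpa [ev] using ht')
  have h6 := h 1 (by simpa [ev] using ht')
  conv_lhs => rw [expand w v, h2, h3, h4, h5, h6]
  simp

include hbr hQ0 hQ1 hQs hQ ht hBw he hf' hx hy he0 he1 he2 he3 he4 he5 he6 hf0 hf1 hf2 hf3 hf4
  hf5 hf6 hdiag in
lemma C1 (D : M7) (hD : D ∈ A) (hDB : ∀ v, B *ᵥ (D *ᵥ v) = D *ᵥ (B *ᵥ v))
    (d0 : D *ᵥ w 0 = 0) (d1 : D *ᵥ w 1 = 0) : D = 0 := by
  have q06 := hQ1 0 6 rfl
  have q15 := hQ1 1 5 rfl
  have q24 := hQ1 2 4 rfl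
  have q33 := hQ1 3 3 rfl
  have q60 := hQ1 6 0 rfl
  have q51 := hQ1 5 1 rfl
  have q42 := hQ1 4 2 rfl
  have zz := fun (k l : Fin 7) (h : (k : ℕ) + l ≠ 6) => hQ0 k l h
  -- `D` kills `w 5`, `w 6`
  have hneg : ∀ k, ev t k = -t → D *ᵥ w k = 0 := by
    intro k hk
    have h1 : B *ᵥ (D *ᵥ w k) = (-t) • (D *ᵥ w k) := by
      rw [hDB, hBw, hk, Matrix.mulVec_smul]
    have h2 := eig_neg w B t ht hBw _ h1
    have h3 := hQ D hD (w k) (w 0)
    have h4 := hQ D hD (w k) (w 1)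
    have hz : Q (w k) 0 = 0 := (Q (w k)).map_zero
    rw [d0, hz, add_zero, h2, map_add, map_smul, map_smul, LinearMap.add_apply,
      LinearMap.smul_apply, LinearMap.smul_apply, zz 5 0 (by decide), smul_zero, zero_add,
      smul_eq_mul] at h3
    rw [d1, hz, add_zero, h2, map_add, map_smul, map_smul, LinearMap.add_apply,
      LinearMap.smul_apply, LinearMap.smul_apply, zz 6 1 (by decide), smul_zero, add_zero,
      smul_eq_mul] at h4
    rw [h2, (mul_eq_zero.1 h3).resolve_right q60, (mul_eq_zero.1 h4).resolve_right q51]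
    simp
  have d5 := hneg 5 rfl
  have d6 := hneg 6 rfl
  have hzero : ∀ k, ev t k = 0 → D *ᵥ w k = w.repr (D *ᵥ w k) 2 • w 2 +
      w.repr (D *ᵥ w k) 3 • w 3 + w.repr (D *ᵥ w k) 4 • w 4 := by
    intro k hk
    apply eig_zero w B t ht hBw
    rw [hDB, hBw, hk, zero_smul, Matrix.mulVec_zero]
  have d2 := hzero 2 rfl
  have d3 := hzero 3 rfl
  have d4 := hzero 4 rfl
  obtain ⟨a22, ha22⟩ : ∃ a, a = w.repr (D *ᵥ w 2) 2 := ⟨_, rfl⟩
  obtain ⟨a32, ha32⟩ : ∃ a, a = w.repr (D *ᵥ w 2) 3 := ⟨_, rfl⟩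
  obtain ⟨a42, ha42⟩ : ∃ a, a = w.repr (D *ᵥ w 2) 4 := ⟨_, rfl⟩
  obtain ⟨a23, ha23⟩ : ∃ a, a = w.repr (D *ᵥ w 3) 2 := ⟨_, rfl⟩
  obtain ⟨a33, ha33⟩ : ∃ a, a = w.repr (D *ᵥ w 3) 3 := ⟨_, rfl⟩
  obtain ⟨a43, ha43⟩ : ∃ a, a = w.repr (D *ᵥ w 3) 4 := ⟨_, rfl⟩
  obtain ⟨a24, ha24⟩ : ∃ a, a = w.repr (D *ᵥ w 4) 2 := ⟨_, rfl⟩
  obtain ⟨a34, ha34⟩ : ∃ a, a = w.repr (D *ᵥ w 4) 3 := ⟨_, rfl⟩
  obtain ⟨a44, ha44⟩ : ∃ a, a = w.repr (D *ᵥ w 4) 4 := ⟨_, rfl⟩
  rw [← ha22, ← ha32, ← ha42] at d2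
  rw [← ha23, ← ha33, ← ha43] at d3
  rw [← ha24, ← ha34, ← ha44] at d4
  have z22 := zz 2 2 (by decide)
  have z23 := zz 2 3 (by decide)
  have z32 := zz 3 2 (by decide)
  have z34 := zz 3 4 (by decide)
  have z43 := zz 4 3 (by decide)
  have z44 := zz 4 4 (by decide)
  have s24 := hQs (w 4) (w 2)
  have r22 := hQ D hD (w 2) (w 2)
  have r44 := hQ D hD (w 4) (w 4)
  have r33 := hQ D hD (w 3) (w 3)
  have r24 := hQ D hD (w 2) (w 4)
  have r23 := hQ D hD (w 2) (w 3)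
  have r34 := hQ D hD (w 3) (w 4)
  rw [d2] at r22
  rw [d4] at r44
  rw [d3] at r33
  rw [d2, d4] at r24
  rw [d2, d3] at r23
  rw [d3, d4] at r34
  have e34 := hQ e he (w 3) (w 4)
  rw [he3, he4] at e34
  have f23 := hQ f hf' (w 2) (w 3)
  rw [hf2, hf3] at f23
  simp only [map_add, map_smul, LinearMap.add_apply, LinearMap.smul_apply, smul_eq_mul, z22, z23,
    z32, z34, z43, z44, mul_zero, add_zero, zero_add, s24] at r22 r44 r33 r24 r23 r34 e34 f23
  have x0 : x ≠ 0 := by rintro rfl; simp at hx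
  have x0' : x' ≠ 0 := by rintro rfl; simp at hx
  have g42 : a42 = 0 := by
    have : a42 * Q (w 2) (w 4) = 0 := by linear_combination (1 / 2 : ℂ) * r22
    exact (mul_eq_zero.1 this).resolve_right q24
  have g24 : a24 = 0 := by
    have : a24 * Q (w 2) (w 4) = 0 := by linear_combination (1 / 2 : ℂ) * r44
    exact (mul_eq_zero.1 this).resolve_right q24
  have g33 : a33 = 0 := by
    have : a33 * Q (w 3) (w 3) = 0 := by linear_combination (1 / 2 : ℂ) * r33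
    exact (mul_eq_zero.1 this).resolve_right q33
  have g44 : a44 = -a22 := by
    have : (a44 + a22) * Q (w 2) (w 4) = 0 := by linear_combination r24
    exact eq_neg_of_add_eq_zero_left ((mul_eq_zero.1 this).resolve_right q24)
  have g43 : a43 = (a32 / x') * y' := by
    have : (a43 * x' - a32 * y') * Q (w 2) (w 4) = 0 := by
      linear_combination x' * r23 - a32 * f23
    have h := (mul_eq_zero.1 this).resolve_right q24
    field_simp
    linear_combination h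
  have g34 : a34 = (a23 / x) * y := by
    have : (a34 * x - a23 * y) * Q (w 3) (w 3) = 0 := by
      linear_combination x * r34 - a23 * e34
    have h := (mul_eq_zero.1 this).resolve_right q33
    field_simp
    linear_combination h
  refine L2 A hbr w e f he hf' x y z x' y' z' hx hy he0 he1 he2 he3 he4 he5 he6 hf0 hf1 hf2 hf3
    hf4 hf5 hf6 hdiag D hD (a23 / x) (a32 / x') (a22 / 2) d0 d1 d5 d6 ?_ ?_ ?_
  · rw [d2, g42, zero_smul, add_zero]
    congr 2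
    · ring
    · field_simp
  · rw [d3, g33, g43, zero_smul, add_zero]
    congr 2
    field_simp
  · rw [d4, g24, g34, g44, zero_smul, zero_add, sub_eq_add_neg, ← neg_smul]
    congr 2
    ring

end c2

/-! ### The antilinear map -/

section tau

variable (H0 : M7) (w : Basis (Fin 7) ℂ V7) (Q : V7 →ₗ[ℂ] V7 →ₗ[ℂ] ℂ)

/-- the antilinear map with `Q (τ u) y = hf H0 u y` -/
noncomputable def tau (u : V7) : V7 := ∑ l, (hf H0 u (w l.rev) / Q (w l) (w l.rev)) • w l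

lemma tau_add (u v : V7) : tau H0 w Q (u + v) = tau H0 w Q u + tau H0 w Q v := by
  simp only [tau, hf_add_left, add_div, add_smul, Finset.sum_add_distrib]

lemma tau_smul (c : ℂ) (u : V7) : tau H0 w Q (c • u) = (starRingEnd ℂ c) • tau H0 w Q u := by
  simp only [tau, hf_smul_left, mul_div_assoc, mul_smul, Finset.smul_sum]

variable (hQ0 : ∀ k l : Fin 7, (k : ℕ) + l ≠ 6 → Q (w k) (w l) = 0)
    (hQ1 : ∀ k l : Fin 7, (k : ℕ) + l = 6 → Q (w k) (w l) ≠ 0)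

include hQ0 hQ1 in
lemma tau_spec (u y : V7) : Q (tau H0 w Q u) y = hf H0 u y := by
  have hk : ∀ k, Q (tau H0 w Q u) (w k) = hf H0 u (w k) := by
    intro k
    rw [tau, map_sum, LinearMap.sum_apply, Finset.sum_eq_single k.rev]
    · rw [map_smul, LinearMap.smul_apply, smul_eq_mul, Fin.rev_rev, div_mul_cancel₀]
      apply hQ1
      rw [Fin.val_rev]
      have := k.2
      omega
    · intro l _ hl
      rw [map_smul, LinearMap.smul_apply, hQ0 l k, smul_zero]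
      intro h
      apply hl
      rw [Fin.ext_iff, Fin.val_rev]
      omega
    · intro h; exact absurd (Finset.mem_univ _) h
  conv_lhs => rw [← w.sum_repr y]
  conv_rhs => rw [← w.sum_repr y]
  rw [map_sum, hf_sum_right]
  refine Finset.sum_congr rfl fun k _ => ?_
  rw [map_smul, hf_smul_right, hk, smul_eq_mul]

include hQ0 hQ1 in
lemma Q_nondeg (u : V7) (hu : ∀ y, Q u y = 0) : u = 0 := by
  have h1 : ∀ k, w.repr u k = 0 := by
    intro k
    have h2 := hu (w k.rev)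
    conv_lhs at h2 => rw [← w.sum_repr u]
    rw [map_sum, LinearMap.sum_apply, Finset.sum_eq_single k] at h2
    · rw [map_smul, LinearMap.smul_apply, smul_eq_mul] at h2
      refine (mul_eq_zero.1 h2).resolve_right (hQ1 _ _ ?_)
      rw [Fin.val_rev]
      have := k.2
      omega
    · intro l _ hl
      rw [map_smul, LinearMap.smul_apply, hQ0 l k.rev, smul_zero]
      intro h
      apply hl
      rw [Fin.ext_iff]
      rw [Fin.val_rev] at h
      have := k.2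
      omega
    · intro h; exact absurd (Finset.mem_univ _) h
  rw [← w.sum_repr u]
  exact Finset.sum_eq_zero fun k _ => by rw [h1, zero_smul]

end tau

end G2F

end Pool.Agent.Ball

namespace Pool.Agent.Ball

open Module Matrix

namespace G2F

section schur

lemma scalar_of_irr (A : Submodule ℂ M7)
    (hirr : ∀ W : Submodule ℂ V7, (∀ X ∈ A, ∀ w ∈ W, X *ᵥ w ∈ W) → W = ⊥ ∨ W = ⊤)
    (T : V7 →ₗ[ℂ] V7) (hT : ∀ X ∈ A, ∀ u, T (X *ᵥ u) = X *ᵥ T u) :
    ∃ c : ℂ, ∀ u, T u = c • u := by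
  obtain ⟨c, hc⟩ := Module.End.exists_eigenvalue T
  refine ⟨c, fun u => ?_⟩
  have h1 : Module.End.eigenspace T c = ⊤ := by
    refine (hirr _ ?_).resolve_left hc
    intro X hX v hv
    rw [Module.End.mem_eigenspace_iff] at hv ⊢
    rw [hT X hX, hv, Matrix.mulVec_smul]
  have h2 : u ∈ Module.End.eigenspace T c := h1 ▸ Submodule.mem_top
  exact Module.End.mem_eigenspace_iff.1 h2

/-- an antilinear map of an odd dimensional space whose square is a real scalar `c ≠ 0` has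
`c > 0` -/
lemma pos_of_antilinear (τ : V7 → V7) (hadd : ∀ u v, τ (u + v) = τ u + τ v)
    (hsmul : ∀ (a : ℂ) u, τ (a • u) = (starRingEnd ℂ a) • τ u) (c : ℝ)
    (hc : ∀ u, τ (τ u) = (c : ℂ) • u) (hc0 : c ≠ 0) : 0 < c := by
  obtain ⟨M, hM⟩ : ∃ M : M7, M = Matrix.of fun i j => τ (Pi.single j 1) i := ⟨_, rfl⟩
  have hsum : ∀ (s : Finset (Fin 7)) (g : Fin 7 → V7), τ (∑ i ∈ s, g i) = ∑ i ∈ s, τ (g i) := by
    intro s g
    classical
    induction s using Finset.induction_on with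
    | empty =>
      have := hsmul 0 0
      simpa using this
    | insert a s ha ih => rw [Finset.sum_insert ha, Finset.sum_insert ha, hadd, ih]
  have hτ : ∀ u, τ u = M *ᵥ star u := by
    intro u
    have h1 : u = ∑ j, u j • (Pi.single j 1 : V7) := by
      rw [← pi_eq_sum_univ']
    conv_lhs => rw [h1, hsum]
    funext i
    rw [Finset.sum_apply, Matrix.mulVec, dotProduct]
    refine Finset.sum_congr rfl fun j _ => ?_
    rw [hsmul, Pi.smul_apply, smul_eq_mul, hM, Matrix.of_apply, mul_comm]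
    rfl
  have hMM : M * M.map (starRingEnd ℂ) = (c : ℂ) • (1 : M7) := by
    refine Matrix.ext_of_mulVec_single fun j => ?_
    have h2 := hc (Pi.single j 1)
    rw [hτ (Pi.single j 1), hτ] at h2
    rw [Matrix.smul_mulVec, Matrix.one_mulVec, ← h2, ← Matrix.mulVec_mulVec]
    congr 1
    funext i
    rw [Pi.star_apply, Matrix.mulVec, Matrix.mulVec, dotProduct, dotProduct, star_sum]
    refine Finset.sum_congr rfl fun k _ => ?_
    rw [star_mul', Matrix.map_apply]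
    congr 1
    rw [Pi.star_apply]
    rcases eq_or_ne k j with rfl | h
    · simp
    · simp [h]
  have hdet := congrArg Matrix.det hMM
  rw [Matrix.det_mul, Matrix.det_smul, Matrix.det_one, mul_one, Fintype.card_fin] at hdet
  have h3 : (M.map (starRingEnd ℂ)).det = (starRingEnd ℂ) M.det :=
    (RingHom.map_det (starRingEnd ℂ) M).symm
  rw [h3, Complex.mul_conj] at hdet
  have h4 : Complex.normSq M.det = c ^ 7 := by exact_mod_cast hdet
  have h5 : 0 ≤ c ^ 7 := h4 ▸ Complex.normSq_nonneg _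
  have h6 : 0 ≤ c := by
    by_contra hneg
    push Not at hneg
    have : c ^ 7 < 0 := Odd.pow_neg (by decide) hneg
    linarith
  exact lt_of_le_of_ne h6 hc0.symm

end schur

end G2F

theorem g2_final
    (H0 : Matrix (Fin 7) (Fin 7) ℂ) (hH : H0.IsHermitian) (hnd : ∀ v, (∀ u, hf H0 u v = 0) → v = 0)
    (hiso : ∀ W : Submodule ℂ (Fin 7 → ℂ), (∀ u ∈ W, ∀ v ∈ W, hf H0 u v = 0) →
      finrank ℂ W ≤ 2)
    (A : Submodule ℂ (Matrix (Fin 7) (Fin 7) ℂ))
    (hbr : ∀ X ∈ A, ∀ Y ∈ A, X * Y - Y * X ∈ A)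
    (hirr : ∀ W : Submodule ℂ (Fin 7 → ℂ), (∀ X ∈ A, ∀ w ∈ W, X *ᵥ w ∈ W) → W = ⊥ ∨ W = ⊤)
    (hadj : ∀ X ∈ A, ∃ X' ∈ A, ∀ u v, hf H0 (X' *ᵥ u) v = hf H0 u (X *ᵥ v))
    (w : Basis (Fin 7) ℂ (Fin 7 → ℂ))
    (Q : (Fin 7 → ℂ) →ₗ[ℂ] (Fin 7 → ℂ) →ₗ[ℂ] ℂ)
    (hQ0 : ∀ k l : Fin 7, (k : ℕ) + l ≠ 6 → Q (w k) (w l) = 0)
    (hQ1 : ∀ k l : Fin 7, (k : ℕ) + l = 6 → Q (w k) (w l) ≠ 0)
    (hQs : ∀ u v, Q u v = Q v u)
    (hQ : ∀ X ∈ A, ∀ u v, Q (X *ᵥ u) v + Q u (X *ᵥ v) = 0)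
    (B : Matrix (Fin 7) (Fin 7) ℂ) (hB : B ∈ A)
    (hBs : ∀ u v, hf H0 (B *ᵥ u) v + hf H0 u (B *ᵥ v) = 0) (t : ℝ) (ht : t ≠ 0)
    (hB0 : B *ᵥ w 0 = (t : ℂ) • w 0) (hB1 : B *ᵥ w 1 = (t : ℂ) • w 1) (hB2 : B *ᵥ w 2 = 0)
    (hB3 : B *ᵥ w 3 = 0) (hB4 : B *ᵥ w 4 = 0) (hB5 : B *ᵥ w 5 = (-t : ℂ) • w 5)
    (hB6 : B *ᵥ w 6 = (-t : ℂ) • w 6)
    (e f : Matrix (Fin 7) (Fin 7) ℂ) (he : e ∈ A) (hf' : f ∈ A) (x y z x' y' z' : ℂ)
    (hx : x * x' = 2) (hy : y * y' = 2) (hz : z * z' = 1)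
    (he0 : e *ᵥ w 0 = 0) (he1 : e *ᵥ w 1 = w 0) (he2 : e *ᵥ w 2 = 0) (he3 : e *ᵥ w 3 = x • w 2)
    (he4 : e *ᵥ w 4 = y • w 3) (he5 : e *ᵥ w 5 = 0) (he6 : e *ᵥ w 6 = z • w 5)
    (hf0 : f *ᵥ w 0 = w 1) (hf1 : f *ᵥ w 1 = 0) (hf2 : f *ᵥ w 2 = x' • w 3)
    (hf3 : f *ᵥ w 3 = y' • w 4) (hf4 : f *ᵥ w 4 = 0) (hf5 : f *ᵥ w 5 = z' • w 6)
    (hf6 : f *ᵥ w 6 = 0)
    (hdiag : ∀ X ∈ A, ∀ d : Fin 7 → ℂ, (∀ k, X *ᵥ w k = d k • w k) → d 0 = 0 → d 1 = 0 → X = 0) :
    False := by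
  have htC : (t : ℂ) ≠ 0 := by exact_mod_cast ht
  have hBw : ∀ k, B *ᵥ w k = G2F.ev t k • w k := by
    refine G2F.forall7 ?_ ?_ ?_ ?_ ?_ ?_ ?_
    · exact hB0
    · exact hB1
    · rw [hB2]; exact (zero_smul ℂ _).symm
    · rw [hB3]; exact (zero_smul ℂ _).symm
    · rw [hB4]; exact (zero_smul ℂ _).symm
    · exact hB5
    · exact hB6
  have hC1 := G2F.C1 A hbr w Q hQ0 hQ1 hQs hQ B t htC hBw e f he hf' x y z x' y' z' hx hy he0 he1
    he2 he3 he4 he5 he6 hf0 hf1 hf2 hf3 hf4 hf5 hf6 hdiag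
  have hndl : ∀ u, (∀ v, hf H0 u v = 0) → u = 0 := by
    intro u hu
    apply hnd
    intro v
    rw [G2F.swap hH, hu, map_zero]
  -- orthogonality
  have hort : ∀ (α β : ℝ) (u v : Fin 7 → ℂ), B *ᵥ u = (α : ℂ) • u → B *ᵥ v = (β : ℂ) • v →
      α + β ≠ 0 → hf H0 u v = 0 := by
    intro α β u v hu hv hne
    have h1 := hBs u v
    rw [hu, hv, hf_smul_left, hf_smul_right, Complex.conj_ofReal, ← add_mul] at h1
    refine (mul_eq_zero.1 h1).resolve_left ?_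
    exact_mod_cast hne
  -- the kernel of `B` is anisotropic
  have haniso : ∀ v, B *ᵥ v = 0 → hf H0 v v = 0 → v = 0 := by
    intro v hv hvv
    by_contra hne
    have hv0 : B *ᵥ v = ((0 : ℝ) : ℂ) • v := by rw [hv]; simp
    have h00 := hort t t _ _ hB0 hB0 (by simpa using ht)
    have h01 := hort t t _ _ hB0 hB1 (by simpa using ht)
    have h10 := hort t t _ _ hB1 hB0 (by simpa using ht)
    have h11 := hort t t _ _ hB1 hB1 (by simpa using ht)
    have h0v := hort t 0 _ _ hB0 hv0 (by simpa using ht)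
    have h1v := hort t 0 _ _ hB1 hv0 (by simpa using ht)
    have hv0' := hort 0 t _ _ hv0 hB0 (by simpa using ht)
    have hv1' := hort 0 t _ _ hv0 hB1 (by simpa using ht)
    have hli : LinearIndependent ℂ ![w 0, w 1, v] := by
      rw [Fintype.linearIndependent_iff]
      intro g hg
      rw [Fin.sum_univ_three] at hg
      simp only [Matrix.cons_val_zero, Matrix.cons_val_one, Matrix.cons_val] at hg
      have h2 := congrArg (fun y => B *ᵥ y) hg
      simp only [Matrix.mulVec_add, Matrix.mulVec_smul, hB0, hB1, hv, Matrix.mulVec_zero,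
        smul_zero, add_zero] at h2
      have h3 := congrArg (fun y => w.repr y 0) h2
      have h4 := congrArg (fun y => w.repr y 1) h2
      simp only [map_add, map_smul, Finsupp.add_apply, Finsupp.smul_apply, w.repr_self,
        smul_eq_mul, map_zero, Finsupp.zero_apply] at h3 h4
      rw [Finsupp.single_eq_same, Finsupp.single_eq_of_ne (by decide), mul_one, mul_zero, mul_zero,
        add_zero] at h3
      rw [Finsupp.single_eq_same, Finsupp.single_eq_of_ne (by decide), mul_one, mul_zero, mul_zero,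
        zero_add] at h4
      have g0 := (mul_eq_zero.1 h3).resolve_right htC
      have g1 := (mul_eq_zero.1 h4).resolve_right htC
      rw [g0, g1, zero_smul, zero_smul, zero_add, zero_add] at hg
      have g2 := (smul_eq_zero.1 hg).resolve_right hne
      intro i
      fin_cases i
      exacts [g0, g1, g2]
    have hfr := finrank_span_eq_card hli
    have hle := hiso (Submodule.span ℂ (Set.range ![w 0, w 1, v])) (by
      have hpair : ∀ i j : Fin 3, hf H0 (![w 0, w 1, v] i) (![w 0, w 1, v] j) = 0 := by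
        intro i j
        fin_cases i <;> fin_cases j
        exacts [h00, h01, h0v, h10, h11, h1v, hv0', hv1', hvv]
      intro a ha b hb
      induction ha using Submodule.span_induction with
      | mem a ha =>
        obtain ⟨i, rfl⟩ := ha
        induction hb using Submodule.span_induction with
        | mem b hb =>
          obtain ⟨j, rfl⟩ := hb
          exact hpair i j
        | zero => exact hf_zero_right H0 _
        | add x y _ _ hx hy => rw [hf_add_right, hx, hy, add_zero]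
        | smul c x _ hx => rw [hf_smul_right, hx, mul_zero]
      | zero => simp [hf]
      | add x y _ _ hx hy => rw [hf_add_left, hx, hy, add_zero]
      | smul c x _ hx => rw [hf_smul_left, hx, mul_zero])
    rw [hfr, Fintype.card_fin] at hle
    omega
  -- the antilinear map
  obtain ⟨τ, hτ⟩ : ∃ τ, τ = G2F.tau H0 w Q := ⟨_, rfl⟩
  have τadd : ∀ u v, τ (u + v) = τ u + τ v := by
    intro u v; rw [hτ]; exact G2F.tau_add H0 w Q u v
  have τsmul : ∀ (c : ℂ) u, τ (c • u) = (starRingEnd ℂ c) • τ u := by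
    intro c u; rw [hτ]; exact G2F.tau_smul H0 w Q c u
  have τspec : ∀ u v, Q (τ u) v = hf H0 u v := by
    intro u v; rw [hτ]; exact G2F.tau_spec H0 w Q hQ0 hQ1 u v
  have Qext : ∀ a b, (∀ y, Q a y = Q b y) → a = b := by
    intro a b h
    rw [← sub_eq_zero]
    apply G2F.Q_nondeg w Q hQ0 hQ1
    intro y
    rw [map_sub, LinearMap.sub_apply, h, sub_self]
  have hswap : ∀ X X' : Matrix (Fin 7) (Fin 7) ℂ,
      (∀ u v, hf H0 (X' *ᵥ u) v = hf H0 u (X *ᵥ v)) →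
      ∀ u v, hf H0 (X *ᵥ u) v = hf H0 u (X' *ᵥ v) := by
    intro X X' h u v
    rw [G2F.swap hH, ← h, ← G2F.swap hH]
  have τX : ∀ X X' : Matrix (Fin 7) (Fin 7) ℂ, X' ∈ A →
      (∀ u v, hf H0 (X' *ᵥ u) v = hf H0 u (X *ᵥ v)) → ∀ u, τ (X *ᵥ u) = -(X' *ᵥ τ u) := by
    intro X X' hX' h u
    apply Qext
    intro v
    rw [τspec, hswap X X' h, ← τspec, map_neg, LinearMap.neg_apply]
    linear_combination hQ X' hX' (τ u) v
  have τinj : ∀ u, τ u = 0 → u = 0 := by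
    intro u hu
    apply hndl
    intro v
    rw [← τspec, hu, map_zero, LinearMap.zero_apply]
  have τneg : ∀ u, τ (-u) = -τ u := by
    intro u
    have := τsmul (-1) u
    simpa using this
  obtain ⟨c, hc⟩ := G2F.scalar_of_irr A hirr
    { toFun := fun u => τ (τ u)
      map_add' := fun u v => by rw [τadd, τadd]
      map_smul' := fun a u => by rw [τsmul, τsmul, RingHom.id_apply, Complex.conj_conj] }
    (by
      intro X hX u
      obtain ⟨X', hX', h⟩ := hadj X hX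
      show τ (τ (X *ᵥ u)) = X *ᵥ τ (τ u)
      rw [τX X X' hX' h, τneg, τX X' X hX (fun u v => (hswap X X' h u v)), neg_neg])
  have hcc : ∀ u, τ (τ u) = c • u := hc
  have hw0 : w 0 ≠ 0 := w.ne_zero 0
  have hreal : (starRingEnd ℂ) c = c := by
    have h1 : τ (τ (τ (w 0))) = (starRingEnd ℂ c) • τ (w 0) := by
      rw [hcc (w 0), τsmul]
    have h2 : τ (τ (τ (w 0))) = c • τ (w 0) := hcc _
    rw [h1, ← sub_eq_zero, ← sub_smul] at h2
    exact sub_eq_zero.1 ((smul_eq_zero.1 h2).resolve_right fun h => hw0 (τinj _ h))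
  obtain ⟨γ, rfl⟩ : ∃ γ : ℝ, c = (γ : ℂ) := ⟨c.re, (Complex.conj_eq_iff_real.1 hreal).elim
    fun r hr => by rw [hr, Complex.ofReal_re]⟩
  have hγ0 : γ ≠ 0 := by
    rintro rfl
    have h1 := hcc (w 0)
    rw [Complex.ofReal_zero, zero_smul] at h1
    exact hw0 (τinj _ (τinj _ h1))
  have hγ : 0 < γ := G2F.pos_of_antilinear τ τadd τsmul γ hcc hγ0
  obtain ⟨s, hs0, hs⟩ : ∃ s : ℝ, 0 < s ∧ s * s = γ :=
    ⟨Real.sqrt γ, Real.sqrt_pos.2 hγ, Real.mul_self_sqrt hγ.le⟩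
  have hsC : (s : ℂ) * s = γ := by exact_mod_cast hs
  have hs0C : (s : ℂ) ≠ 0 := by exact_mod_cast hs0.ne'
  -- `τ` preserves the eigenspace
  have τB : ∀ u, τ (B *ᵥ u) = B *ᵥ τ u := by
    intro u
    apply Qext
    intro v
    rw [τspec]
    have h1 := hBs u v
    have h2 := hQ B hB (τ u) v
    rw [τspec] at h2
    linear_combination h1 - h2
  have τt : ∀ u, B *ᵥ u = (t : ℂ) • u → B *ᵥ τ u = (t : ℂ) • τ u := by
    intro u hu
    rw [← τB, hu, τsmul, Complex.conj_ofReal]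
  obtain ⟨r, hr0, hrt, hτr⟩ : ∃ r, r ≠ 0 ∧ B *ᵥ r = (t : ℂ) • r ∧ τ r = (s : ℂ) • r := by
    by_cases h : (s : ℂ) • w 0 + τ (w 0) = 0
    · have h1 : τ (w 0) = -((s : ℂ) • w 0) := (eq_neg_of_add_eq_zero_right h)
      refine ⟨Complex.I • w 0, smul_ne_zero Complex.I_ne_zero hw0, ?_, ?_⟩
      · rw [Matrix.mulVec_smul, hB0, smul_comm]
      · rw [τsmul, h1, Complex.conj_I, neg_smul, smul_neg, neg_neg, smul_comm]
    · refine ⟨(s : ℂ) • w 0 + τ (w 0), h, ?_, ?_⟩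
      · rw [Matrix.mulVec_add, Matrix.mulVec_smul, hB0, τt _ hB0, smul_add, smul_comm]
      · rw [τadd, τsmul, Complex.conj_ofReal, hcc, smul_add, smul_smul, hsC, add_comm]
  obtain ⟨a, b, hr⟩ : ∃ a b : ℂ, r = a • w 0 + b • w 1 :=
    ⟨_, _, G2F.eig_pos w B t htC hBw r hrt⟩
  -- the nilpotent element
  obtain ⟨N, hN⟩ : ∃ N, N = a ^ 2 • e - b ^ 2 • f - (a * b) • (e * f - f * e) := ⟨_, rfl⟩
  have hNA : N ∈ A := by
    rw [hN]
    exact A.sub_mem (A.sub_mem (A.smul_mem _ he) (A.smul_mem _ hf'))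
      (A.smul_mem _ (hbr e he f hf'))
  have hNact : ∀ v, N *ᵥ v = a ^ 2 • (e *ᵥ v) - b ^ 2 • (f *ᵥ v) -
      (a * b) • (e *ᵥ (f *ᵥ v) - f *ᵥ (e *ᵥ v)) := by
    intro v
    rw [hN, Matrix.sub_mulVec, Matrix.sub_mulVec, Matrix.smul_mulVec, Matrix.smul_mulVec,
      Matrix.smul_mulVec, G2F.act_bracket]
  have n0 : N *ᵥ w 0 = (-b) • r := by
    rw [hNact, he0, hf0, he1, Matrix.mulVec_zero, hr]
    module
  have n1 : N *ᵥ w 1 = a • r := by
    rw [hNact, he1, hf1, hf0, Matrix.mulVec_zero, hr]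
    module
  have sx : ∀ v : Fin 7 → ℂ, x • x' • v = (2 : ℂ) • v := fun v => by rw [smul_smul, hx]
  have sx' : ∀ v : Fin 7 → ℂ, x' • x • v = (2 : ℂ) • v := fun v => by
    rw [smul_smul, mul_comm, hx]
  have sy : ∀ v : Fin 7 → ℂ, y • y' • v = (2 : ℂ) • v := fun v => by rw [smul_smul, hy]
  have sy' : ∀ v : Fin 7 → ℂ, y' • y • v = (2 : ℂ) • v := fun v => by
    rw [smul_smul, mul_comm, hy]
  have sz : ∀ v : Fin 7 → ℂ, z • z' • v = v := fun v => by rw [smul_smul, hz, one_smul]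
  have sz' : ∀ v : Fin 7 → ℂ, z' • z • v = v := fun v => by
    rw [smul_smul, mul_comm, hz, one_smul]
  have n2 : N *ᵥ w 2 = (-(b ^ 2 * x')) • w 3 + (-(2 * (a * b))) • w 2 := by
    rw [hNact, he2, hf2, Matrix.mulVec_smul, he3, Matrix.mulVec_zero, sx']
    module
  have n3 : N *ᵥ w 3 = (a ^ 2 * x) • w 2 + (-(b ^ 2 * y')) • w 4 := by
    rw [hNact, he3, hf3, Matrix.mulVec_smul, Matrix.mulVec_smul, he4, hf2, sx, sy']
    module
  have n4 : N *ᵥ w 4 = (a ^ 2 * y) • w 3 + (2 * (a * b)) • w 4 := by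
    rw [hNact, he4, hf4, Matrix.mulVec_smul, hf3, Matrix.mulVec_zero, sy]
    module
  have n5 : N *ᵥ w 5 = (-(b ^ 2 * z')) • w 6 - (a * b) • w 5 := by
    rw [hNact, he5, hf5, Matrix.mulVec_smul, he6, Matrix.mulVec_zero, sz']
    module
  have n6 : N *ᵥ w 6 = (a ^ 2 * z) • w 5 + (a * b) • w 6 := by
    rw [hNact, he6, hf6, Matrix.mulVec_smul, hf5, Matrix.mulVec_zero, sz]
    module
  have nr : N *ᵥ r = 0 := by
    conv_lhs => rw [hr]
    rw [Matrix.mulVec_add, Matrix.mulVec_smul, Matrix.mulVec_smul, n0, n1]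
    module
  have hBN : ∀ v, B *ᵥ (N *ᵥ v) = N *ᵥ (B *ᵥ v) := by
    have h1 : B * N - N * B = 0 := by
      apply G2F.mat_ext w
      refine G2F.forall7 ?_ ?_ ?_ ?_ ?_ ?_ ?_
      · rw [G2F.act_bracket, n0, hB0, Matrix.mulVec_smul, Matrix.mulVec_smul, hrt, n0]
        module
      · rw [G2F.act_bracket, n1, hB1, Matrix.mulVec_smul, Matrix.mulVec_smul, hrt, n1]
        module
      · rw [G2F.act_bracket, n2, hB2, Matrix.mulVec_add, Matrix.mulVec_smul, Matrix.mulVec_smul,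
          hB2, hB3]
        simp
      · rw [G2F.act_bracket, n3, hB3, Matrix.mulVec_add, Matrix.mulVec_smul, Matrix.mulVec_smul,
          hB2, hB4]
        simp
      · rw [G2F.act_bracket, n4, hB4, Matrix.mulVec_add, Matrix.mulVec_smul, Matrix.mulVec_smul,
          hB4, hB3]
        simp
      · rw [G2F.act_bracket, n5, hB5, Matrix.mulVec_sub, Matrix.mulVec_smul, Matrix.mulVec_smul,
          Matrix.mulVec_smul, hB5, hB6, n5]
        module
      · rw [G2F.act_bracket, n6, hB6, Matrix.mulVec_add, Matrix.mulVec_smul, Matrix.mulVec_smul,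
          Matrix.mulVec_smul, hB5, hB6, n6]
        module
    intro v
    have h2 := G2F.act_bracket B N v
    rw [h1, Matrix.zero_mulVec] at h2
    exact (sub_eq_zero.1 h2.symm)
  obtain ⟨N', hN'A, hN'⟩ := hadj N hNA
  have hBN' : ∀ v, B *ᵥ (N' *ᵥ v) = N' *ᵥ (B *ᵥ v) := by
    intro u
    rw [← sub_eq_zero]
    apply hndl
    intro v
    rw [sub_eq_add_neg, hf_add_left, ← neg_one_smul ℂ (N' *ᵥ _), hf_smul_left, hN', map_neg,
      map_one]
    have h1 := hBs (N' *ᵥ u) v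
    have h2 := hBs u (N *ᵥ v)
    rw [hN', ← hBN] at h1
    linear_combination h1 - h2
  -- `N'` on the eigenspace
  have hN't : ∀ v, B *ᵥ v = (t : ℂ) • v → ∃ μ : ℂ, N' *ᵥ v = μ • r := by
    intro v hv
    obtain ⟨a1, b1, h1⟩ : ∃ a1 b1 : ℂ, τ v = a1 • w 0 + b1 • w 1 :=
      ⟨_, _, G2F.eig_pos w B t htC hBw _ (τt v hv)⟩
    have h2 := τX N N' hN'A hN' (τ v)
    rw [hcc, Matrix.mulVec_smul, h1, Matrix.mulVec_add, Matrix.mulVec_smul, Matrix.mulVec_smul, n0,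
      n1, smul_smul, smul_smul, ← add_smul, τsmul, hτr, smul_smul] at h2
    refine ⟨-((γ : ℂ)⁻¹ * ((starRingEnd ℂ) (a1 * -b + b1 * a) * s)), ?_⟩
    have hγC : (γ : ℂ) ≠ 0 := by exact_mod_cast hγ0
    rw [neg_smul, mul_smul, h2, smul_neg, neg_neg, smul_smul, inv_mul_cancel₀ hγC, one_smul]
  have hN'r : N' *ᵥ r = 0 := by
    have h2 := τX N N' hN'A hN' r
    have h0 : τ 0 = 0 := by
      have := τsmul 0 0
      simpa using this
    rw [nr, h0, hτr, Matrix.mulVec_smul] at h2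
    exact (smul_eq_zero.1 (neg_eq_zero.1 h2.symm)).resolve_left hs0C
  obtain ⟨μ0, hμ0⟩ := hN't _ hB0
  obtain ⟨μ1, hμ1⟩ := hN't _ hB1
  have hμ : a * μ0 + b * μ1 = 0 := by
    have h1 := hN'r
    conv_lhs at h1 => rw [hr]
    rw [Matrix.mulVec_add, Matrix.mulVec_smul, Matrix.mulVec_smul, hμ0, hμ1, smul_smul, smul_smul,
      ← add_smul] at h1
    exact (smul_eq_zero.1 h1).resolve_right hr0
  have hab : a ≠ 0 ∨ b ≠ 0 := by
    by_contra h
    push Not at h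
    apply hr0
    rw [hr, h.1, h.2, zero_smul, zero_smul, add_zero]
  obtain ⟨l, hl0, hl1⟩ : ∃ l : ℂ, μ0 = l * -b ∧ μ1 = l * a := by
    rcases hab with h | h
    · refine ⟨μ1 / a, ?_, ?_⟩
      · field_simp
        linear_combination hμ
      · field_simp
    · refine ⟨-μ0 / b, ?_, ?_⟩
      · field_simp
      · field_simp
        linear_combination hμ
  have hNN : N' = l • N := by
    have h1 : N' - l • N = 0 := by
      refine hC1 _ (A.sub_mem hN'A (A.smul_mem _ hNA)) ?_ ?_ ?_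
      · intro v
        rw [Matrix.sub_mulVec, Matrix.sub_mulVec, Matrix.smul_mulVec, Matrix.smul_mulVec,
          Matrix.mulVec_sub, Matrix.mulVec_smul, hBN, hBN']
      · rw [Matrix.sub_mulVec, Matrix.smul_mulVec, hμ0, n0, hl0, smul_smul, sub_self]
      · rw [Matrix.sub_mulVec, Matrix.smul_mulVec, hμ1, n1, hl1, smul_smul, sub_self]
    exact sub_eq_zero.1 h1
  have hNN' : ∀ u v, hf H0 (N *ᵥ u) v = l * hf H0 u (N *ᵥ v) := by
    intro u v
    rw [hswap N N' hN', hNN, Matrix.smul_mulVec, hf_smul_right]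
  -- the orbit of `w 3`
  have m2 : N *ᵥ (N *ᵥ w 3) = (-(2 * (a ^ 2 * (a * b) * x))) • w 2 + (-(4 * (a * b) ^ 2)) • w 3 +
      (-(2 * (b ^ 2 * (a * b) * y'))) • w 4 := by
    rw [n3, Matrix.mulVec_add, Matrix.mulVec_smul, Matrix.mulVec_smul, n2, n4]
    have e1 : a ^ 2 * x * -(b ^ 2 * x') + -(b ^ 2 * y') * (a ^ 2 * y) = -(4 * (a * b) ^ 2) := by
      linear_combination (-(a * b) ^ 2) * hx - (a * b) ^ 2 * hy
    rw [← e1]
    module
  have m3 : N *ᵥ (N *ᵥ (N *ᵥ w 3)) = 0 := by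
    rw [m2, Matrix.mulVec_add, Matrix.mulVec_add, Matrix.mulVec_smul, Matrix.mulVec_smul,
      Matrix.mulVec_smul, n2, n3, n4]
    have e1 : -(2 * (a ^ 2 * (a * b) * x)) * -(b ^ 2 * x') +
        -(2 * (b ^ 2 * (a * b) * y')) * (a ^ 2 * y) = 0 := by
      linear_combination (2 * (a * b) ^ 3) * hx - 2 * (a * b) ^ 3 * hy
    have e2 : (-(2 * (a ^ 2 * (a * b) * x)) * -(b ^ 2 * x') +
        -(2 * (b ^ 2 * (a * b) * y')) * (a ^ 2 * y)) • w 3 = 0 := by rw [e1, zero_smul]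
    rw [← e2]
    module
  have k3 : B *ᵥ (N *ᵥ w 3) = 0 := by rw [hBN, hB3, Matrix.mulVec_zero]
  have k33 : B *ᵥ (N *ᵥ (N *ᵥ w 3)) = 0 := by rw [hBN, k3, Matrix.mulVec_zero]
  have q2 : N *ᵥ (N *ᵥ w 3) = 0 := by
    apply haniso _ k33
    rw [hNN', m3, hf_zero_right, mul_zero]
  have q1 : N *ᵥ w 3 = 0 := by
    apply haniso _ k3
    rw [hNN', q2, hf_zero_right, mul_zero]
  rw [n3] at q1
  have x0 : x ≠ 0 := by rintro rfl; simp at hx
  have y0 : y' ≠ 0 := by rintro rfl; simp at hy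
  have h3 := congrArg (fun y => w.repr y 2) q1
  have h4 := congrArg (fun y => w.repr y 4) q1
  simp only [map_add, map_smul, Finsupp.add_apply, Finsupp.smul_apply, w.repr_self,
    smul_eq_mul, map_zero, Finsupp.zero_apply] at h3 h4
  rw [Finsupp.single_eq_same, Finsupp.single_eq_of_ne (by decide), mul_one, mul_zero,
    add_zero] at h3
  rw [Finsupp.single_eq_same, Finsupp.single_eq_of_ne (by decide), mul_one, mul_zero,
    zero_add] at h4
  have ha : a = 0 := by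
    have := (mul_eq_zero.1 h3).resolve_right x0
    exact pow_eq_zero_iff (two_ne_zero) |>.1 this
  have hb : b = 0 := by
    have := (mul_eq_zero.1 (neg_eq_zero.1 h4)).resolve_right y0
    exact pow_eq_zero_iff (two_ne_zero) |>.1 this
  rcases hab with h | h
  · exact h ha
  · exact h hb

end Pool.Agent.Ball
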