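import Pool.Agent.GP.B1
import Pool.Agent.GP.B3

/-!
Module Gen: the Lie algebra is generated by the simple root vectors.

Proof. Let `S` be a subspace closed under brackets containing all `T.e j`, `T.f j`, `j` simple. For
a positive root `k`, `T.e k ∈ S` by `IsPos.induction_on_add`: let `root k = root i + root j` with
`T.e i ∈ S` and `j` simple; the root spaces are one-dimensional (`finrank_rootSpace_eq_one`), so
`⁅T.e j, T.e i⁆` is a multiple of `T.e k` and it is enough that `⁅T.e j, T.e i⁆ ≠ 0`. Suppose it is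
`0`. Then `T.e i` is primitive for the triple of `j` (adjoint representation), so
`i(coroot j) = n : ℕ`. `⁅T.f j, T.e k⁆` is a multiple of `T.e i`; if it is not `0`, then
`⁅T.e j, ⁅T.f j, T.e k⁆⁆ ≠ 0` (`sl2_ef`), a contradiction; so `⁅T.f j, T.e k⁆ = 0`, `T.e k` is
primitive for the symmetric triple, so `-(k(coroot j)) = -(n + 2)` is a natural number, a
contradiction. The same for `T.f` (negative roots; exchange the roles). The coroots
`⁅T.e i, T.f i⁆` are in `S` and span `H`. Conclude with `Trip.mem_span`.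
-/

namespace Pool.Agent.GP

open Module

section lie

open LieAlgebra LieAlgebra.IsKilling LieModule

variable {L : Type*} [LieRing L] [LieAlgebra ℂ L] [FiniteDimensional ℂ L] [IsKilling ℂ L]
  {H : LieSubalgebra ℂ L} [H.IsCartanSubalgebra]

omit [IsKilling ℂ L] in
lemma Gen_aux {h e f : L} (t : IsSl2Triple h e f) {μ : ℂ} {u v : L} (hu0 : u ≠ 0) (hv0 : v ≠ 0)
    (hu : ⁅h, u⁆ = μ • u) (hv : ⁅h, v⁆ = (μ + 2) • v) (hfv : ∃ c : ℂ, ⁅f, v⁆ = c • u) :
    ⁅e, u⁆ ≠ 0 := by
  intro h0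
  have P : t.HasPrimitiveVectorWith u μ := { ne_zero := hu0, lie_h := hu, lie_e := h0 }
  obtain ⟨n, hn⟩ := P.exists_nat
  obtain ⟨c, hc⟩ := hfv
  have h1 : ⁅e, ⁅f, v⁆⁆ = 0 := by rw [hc, lie_smul, h0, smul_zero]
  have h2 : ⁅f, v⁆ = 0 := by
    by_contra h3
    exact sl2_ef t (μ + 2) v hv h3 h1
  have P2 : t.symm.HasPrimitiveVectorWith v (-(μ + 2)) :=
    { ne_zero := hv0
      lie_h := by rw [neg_lie, hv, neg_smul]
      lie_e := h2 }
  obtain ⟨m, hm⟩ := P2.exists_nat
  rw [hn] at hm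
  have h4 : ((m + n + 2 : ℕ) : ℂ) = 0 := by
    push_cast
    linear_combination -hm
  rw [Nat.cast_eq_zero] at h4
  omega

lemma Gen_span_f (i : H.root) {f : L} (hf : f ∈ rootSpace H (-(i.1 : H → ℂ))) (hf0 : f ≠ 0)
    {x : L} (hx : x ∈ rootSpace H (-(i.1 : H → ℂ))) : ∃ c : ℂ, x = c • f := by
  have hnz : i.1.IsNonZero := LieSubalgebra.isNonZero_coe_root i
  have hnz' : (-i.1).IsNonZero := hnz.neg
  rw [← Weight.coe_neg] at hf hx
  obtain ⟨c, hc⟩ := (finrank_eq_one_iff_of_nonzero' ⟨f, hf⟩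
    (by rwa [ne_eq, LieSubmodule.mk_eq_zero])).mp (finrank_rootSpace_eq_one (-i.1) hnz') ⟨x, hx⟩
  exact ⟨c, by simpa using hc.symm⟩

theorem Trip.gen (T : Trip H) (b : (rootSystem H).Base) (S : Submodule ℂ L)
    (hS : ∀ x ∈ S, ∀ y ∈ S, ⁅x, y⁆ ∈ S) (he : ∀ j ∈ b.support, T.e j ∈ S)
    (hf : ∀ j ∈ b.support, T.f j ∈ S) : S = ⊤ := by
  -- values of the roots
  have hval : ∀ i j k : H.root, (rootSystem H).root k = (rootSystem H).root i +
      (rootSystem H).root j → ∀ h : H, k.1 h = i.1 h + j.1 h := by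
    intro i j k hk h
    exact congrArg (fun (l : Dual ℂ H) => l h) hk
  have hstepE : ∀ i j k : H.root, (rootSystem H).root k = (rootSystem H).root i +
      (rootSystem H).root j → T.e i ∈ S → j ∈ b.support → T.e k ∈ S := by
    intro i j k hk hi hj
    have hv := hval i j k hk
    have hnz : j.1.IsNonZero := LieSubalgebra.isNonZero_coe_root j
    have hmem : ⁅T.e j, T.e i⁆ ∈ rootSpace H (k.1 : H → ℂ) := by
      have h1 := lie_mem_genWeightSpace_of_mem_genWeightSpace (T.he j) (T.he i)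
      have h2 : (j.1 : H → ℂ) + (i.1 : H → ℂ) = (k.1 : H → ℂ) := by
        funext h
        rw [Pi.add_apply, hv h, add_comm]
      rwa [h2] at h1
    have hfmem : ⁅T.f j, T.e k⁆ ∈ rootSpace H (i.1 : H → ℂ) := by
      have h1 := lie_mem_genWeightSpace_of_mem_genWeightSpace (T.hf j) (T.he k)
      have h2 : -(j.1 : H → ℂ) + (k.1 : H → ℂ) = (i.1 : H → ℂ) := by
        funext h
        rw [Pi.add_apply, Pi.neg_apply, hv h]
        ring
      rwa [h2] at h1
    have hne : ⁅T.e j, T.e i⁆ ≠ 0 := by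
      refine Gen_aux (T.isSl2 j) (μ := i.1 (coroot j.1)) (T.isSl2 i).e_ne_zero
        (T.isSl2 k).e_ne_zero (B3_lie_e T i _) ?_
        (B3_root_span i (T.he i) (T.isSl2 i).e_ne_zero hfmem)
      rw [B3_lie_e, hv, root_apply_coroot hnz]
    obtain ⟨c, hc⟩ := B3_root_span k hmem hne (T.he k)
    rw [hc]
    exact S.smul_mem c (hS _ (he j hj) _ hi)
  have hstepF : ∀ i j k : H.root, (rootSystem H).root k = (rootSystem H).root i +
      (rootSystem H).root j → T.f i ∈ S → j ∈ b.support → T.f k ∈ S := by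
    intro i j k hk hi hj
    have hv := hval i j k hk
    have hnz : j.1.IsNonZero := LieSubalgebra.isNonZero_coe_root j
    have hmem : ⁅T.f j, T.f i⁆ ∈ rootSpace H (-(k.1 : H → ℂ)) := by
      have h1 := lie_mem_genWeightSpace_of_mem_genWeightSpace (T.hf j) (T.hf i)
      have h2 : -(j.1 : H → ℂ) + -(i.1 : H → ℂ) = -(k.1 : H → ℂ) := by
        funext h
        rw [Pi.add_apply, Pi.neg_apply, Pi.neg_apply, Pi.neg_apply, hv h]
        ring
      rwa [h2] at h1
    have hfmem : ⁅T.e j, T.f k⁆ ∈ rootSpace H (-(i.1 : H → ℂ)) := by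
      have h1 := lie_mem_genWeightSpace_of_mem_genWeightSpace (T.he j) (T.hf k)
      have h2 : (j.1 : H → ℂ) + -(k.1 : H → ℂ) = -(i.1 : H → ℂ) := by
        funext h
        rw [Pi.add_apply, Pi.neg_apply, Pi.neg_apply, hv h]
        ring
      rwa [h2] at h1
    have hne : ⁅T.f j, T.f i⁆ ≠ 0 := by
      refine Gen_aux (T.isSl2 j).symm (μ := i.1 (coroot j.1)) (T.isSl2 i).f_ne_zero
        (T.isSl2 k).f_ne_zero ?_ ?_ (Gen_span_f i (T.hf i) (T.isSl2 i).f_ne_zero hfmem)
      · rw [neg_lie, B3_lie_f, neg_smul, neg_neg]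
      · rw [neg_lie, B3_lie_f, neg_smul, neg_neg, hv, root_apply_coroot hnz]
    obtain ⟨c, hc⟩ := Gen_span_f k hmem hne (T.hf k)
    rw [hc]
    exact S.smul_mem c (hS _ (hf j hj) _ hi)
  have hE : ∀ k, b.IsPos k → T.e k ∈ S := fun k hk =>
    hk.induction_on_add (p := fun k => T.e k ∈ S) he hstepE
  have hF : ∀ k, b.IsPos k → T.f k ∈ S := fun k hk =>
    hk.induction_on_add (p := fun k => T.f k ∈ S) hf hstepF
  have hHS : ∀ h : H, (h : L) ∈ S := by
    intro h
    have h1 : h ∈ Submodule.span ℂ ((rootSystem H).coroot '' b.support) := by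
      rw [b.span_coroot_support]
      have h2 : (rootSystem H).corootSpan ℂ = ⊤ := RootPairing.IsRootSystem.span_coroot_eq_top
      rw [h2]
      exact Submodule.mem_top
    refine Submodule.span_induction (p := fun (x : H) _ => (x : L) ∈ S) ?_ ?_ ?_ ?_ h1
    · rintro x ⟨j, hj, rfl⟩
      have h3 := hS _ (he j hj) _ (hf j hj)
      rw [T.hef j] at h3
      exact h3
    · exact S.zero_mem
    · intro x y _ _ hx hy
      exact S.add_mem hx hy
    · intro c x _ hx
      exact S.smul_mem c hx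
  rw [eq_top_iff]
  intro x _
  refine (Submodule.span_le.mpr ?_) (T.mem_span b x)
  rintro y ((hy | ⟨k, hk, rfl⟩) | ⟨k, hk, rfl⟩)
  · exact hHS ⟨y, hy⟩
  · exact hE k ((mem_posF b k).mp hk)
  · exact hF k ((mem_posF b k).mp hk)

end lie

end Pool.Agent.GP
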