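import Pool.Agent.GP.W1

/-!
Module W2: the Weyl denominator.
-/

namespace Pool.Agent.GP

open Module

section rootsystem

variable {ι M N : Type*} [Fintype ι] [AddCommGroup M] [Module ℂ M] [AddCommGroup N] [Module ℂ N]
  {P : RootPairing ι ℂ M N} [P.IsRootSystem] [P.IsCrystallographic] [P.IsReduced] (b : P.Base)

omit [Fintype ι] [P.IsRootSystem] [P.IsCrystallographic] [P.IsReduced] in
lemma w2_pos_sum (i : ι) (hi : b.IsPos i) :
    ∃ m : ι → ℕ, P.root i = ∑ j ∈ b.support, m j • P.root j := by
  obtain ⟨f, -, hf | hf⟩ := b.exists_root_eq_sum_nat_or_neg i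
  · exact ⟨f, hf⟩
  · exfalso
    have h1 : P.root i = ∑ j ∈ b.support, (fun k => -(f k : ℤ)) j • P.root j := by
      rw [hf, ← Finset.sum_neg_distrib]
      apply Finset.sum_congr rfl
      intro j _
      simp
    have h2 := RootPairing.Base.height_eq_sum h1
    rw [RootPairing.Base.isPos_iff, h2] at hi
    have h3 : ∑ j ∈ b.support, (-(f j : ℤ)) ≤ 0 := Finset.sum_nonpos fun j _ => by simp
    exact absurd hi (not_lt.mpr h3)

omit [Fintype ι] [P.IsRootSystem] [P.IsCrystallographic] [P.IsReduced] in
lemma w2_prod (S : Finset ι) (hS : ∀ i ∈ S, b.IsPos i) :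
    (∀ x, (∏ i ∈ S, (1 - AddMonoidAlgebra.single (-P.root i) (1 : ℂ))).coeff x ≠ 0 →
      ∃ n : ι → ℕ, -x = ∑ j ∈ b.support, n j • P.root j) ∧
    (∏ i ∈ S, (1 - AddMonoidAlgebra.single (-P.root i) (1 : ℂ))).coeff 0 = 1 := by
  classical
  induction S using Finset.induction_on with
  | empty =>
    rw [Finset.prod_empty, AddMonoidAlgebra.one_def, AddMonoidAlgebra.coeff_single]
    refine ⟨?_, by simp⟩
    intro x hx
    by_cases h : x = 0
    · exact ⟨fun _ => 0, by simp [h]⟩
    · exact absurd (Finsupp.single_eq_of_ne h) hx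
  | insert i S hi ih =>
    obtain ⟨ih1, ih2⟩ := ih fun i hi => hS i (Finset.mem_insert_of_mem hi)
    set F := ∏ i ∈ S, (1 - AddMonoidAlgebra.single (-P.root i) (1 : ℂ)) with hF
    obtain ⟨m, hm⟩ := w2_pos_sum b i (hS i (Finset.mem_insert_self _ _))
    have hc : ∀ x, (∏ i ∈ insert i S, (1 - AddMonoidAlgebra.single (-P.root i) (1 : ℂ))).coeff x =
        F.coeff x - F.coeff (P.root i + x) := by
      intro x
      rw [Finset.prod_insert hi, ← hF, sub_mul, one_mul]
      have : (F - AddMonoidAlgebra.single (-P.root i) (1 : ℂ) * F).coeff x =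
        F.coeff x - (AddMonoidAlgebra.single (-P.root i) (1 : ℂ) * F).coeff x := rfl
      rw [this, AddMonoidAlgebra.coeff_single_mul_apply, one_mul, neg_neg]
    refine ⟨?_, ?_⟩
    · intro x hx
      rw [hc] at hx
      by_cases h1 : F.coeff x = 0
      · have h2 : F.coeff (P.root i + x) ≠ 0 := by
          intro h2
          rw [h1, h2, sub_zero] at hx
          exact hx rfl
        obtain ⟨n, hn⟩ := ih1 _ h2
        refine ⟨fun j => m j + n j, ?_⟩
        simp only [add_smul, Finset.sum_add_distrib]
        rw [← hm, ← hn]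
        abel
      · exact ih1 x h1
    · rw [hc, ih2, add_zero]
      have h2 : F.coeff (P.root i) = 0 := by
        by_contra h2
        obtain ⟨n, hn⟩ := ih1 _ h2
        have h3 : ∑ j ∈ b.support, ((m j + n j : ℕ) : ℂ) • P.root j = 0 := by
          simp only [Nat.cast_smul_eq_nsmul, add_smul, Finset.sum_add_distrib]
          rw [← hm, ← hn]
          abel
        have h4 := linearIndepOn_iff'.mp b.linearIndepOn_root b.support
          (fun j => ((m j + n j : ℕ) : ℂ)) (by simp) h3
        apply P.ne_zero i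
        rw [hm]
        apply Finset.sum_eq_zero
        intro j hj
        have h5 := h4 j hj
        have h6 : m j + n j = 0 := by exact_mod_cast h5
        have h7 : m j = 0 := by omega
        rw [h7, zero_smul]
      rw [h2, sub_zero]

omit [P.IsRootSystem] in
/-- the reflection in a simple root, as a permutation of the other positive roots -/
lemma w2_mem (j : ι) (hj : j ∈ b.support) (i : ι) [DecidableEq ι] (hi : i ∈ (posF b).erase j) :
    P.reflectionPerm j i ∈ (posF b).erase j := by
  have hpos : b.IsPos j := RootPairing.Base.isPos_of_mem_support hj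
  rw [Finset.mem_erase, mem_posF] at hi ⊢
  refine ⟨?_, hi.2.reflectionPerm hj hi.1⟩
  intro h2
  have h3 : P.reflectionPerm j j = i := by
    have h5 := congrArg (P.reflectionPerm j) h2
    rw [P.reflectionPerm_self] at h5
    exact h5.symm
  have h4 : ¬ b.IsPos i := by
    rw [← h3, W1_neg_iff]
    exact fun h => h hpos
  exact h4 hi.2

/-- the action of a reflection on the group ring -/
noncomputable def w2Hom (P : RootPairing ι ℂ M N) (j : ι) :
    AddMonoidAlgebra ℂ M →+* AddMonoidAlgebra ℂ M :=
  AddMonoidAlgebra.mapDomainRingHom ℂ ((P.reflection j : M →ₗ[ℂ] M).toAddMonoidHom)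

omit [Fintype ι] in
lemma w2Hom_single (P : RootPairing ι ℂ M N) (j : ι) (x : M) (r : ℂ) :
    w2Hom P j (AddMonoidAlgebra.single x r) = AddMonoidAlgebra.single (P.reflection j x) r := by
  rw [w2Hom, AddMonoidAlgebra.mapDomainRingHom_apply, AddMonoidAlgebra.mapDomain_single]
  rfl

omit [Fintype ι] in
lemma w2Hom_coeff (P : RootPairing ι ℂ M N) (j : ι) (f : AddMonoidAlgebra ℂ M) (x : M) :
    (w2Hom P j f).coeff (P.reflection j x) = f.coeff x :=
  Finsupp.mapDomain_apply (f := fun x => P.reflection j x) (P.reflection j).injective f.coeff x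

lemma w2_wden (j : ι) (hj : j ∈ b.support) : w2Hom P j (wden b) = - wden b := by
  classical
  have hpos : j ∈ posF b := (mem_posF b j).mpr (RootPairing.Base.isPos_of_mem_support hj)
  have hfac : ∀ i, w2Hom P j (1 - AddMonoidAlgebra.single (-P.root i) 1) =
      1 - AddMonoidAlgebra.single (-P.root (P.reflectionPerm j i)) 1 := by
    intro i
    rw [map_sub, map_one, w2Hom_single, map_neg, P.root_reflectionPerm]
  have hprod : ∏ i ∈ (posF b).erase j,
      (1 - AddMonoidAlgebra.single (-P.root (P.reflectionPerm j i)) (1 : ℂ)) =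
      ∏ i ∈ (posF b).erase j, (1 - AddMonoidAlgebra.single (-P.root i) (1 : ℂ)) := by
    apply Finset.prod_bij' (fun i _ => P.reflectionPerm j i) (fun i _ => P.reflectionPerm j i)
    · intro i hi
      exact w2_mem b j hj i hi
    · intro i hi
      exact w2_mem b j hj i hi
    · intro i _
      exact P.reflectionPerm_self j i
    · intro i _
      exact P.reflectionPerm_self j i
    · intro i _
      rfl
  have hjj : -P.root (P.reflectionPerm j j) = P.root j := by
    rw [P.root_reflectionPerm, P.reflection_apply_self, neg_neg]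
  rw [wden, map_mul, map_prod, w2Hom_single, rho_reflection b j hj]
  simp only [hfac]
  rw [← Finset.mul_prod_erase _ _ hpos, ← Finset.mul_prod_erase (posF b) (fun i =>
    1 - AddMonoidAlgebra.single (-P.root i) (1 : ℂ)) hpos, hprod, hjj, ← mul_assoc, ← mul_assoc,
    ← neg_mul]
  congr 1
  rw [mul_sub, mul_sub, mul_one, mul_one, AddMonoidAlgebra.single_mul_single,
    AddMonoidAlgebra.single_mul_single, mul_one, neg_sub]
  congr 2
  · abel
  · abel

theorem wden_anti : Anti b (wden b) := by
  intro j hj x
  have h1 := w2Hom_coeff P j (wden b) x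
  rw [w2_wden b j hj] at h1
  have h2 : (-wden b).coeff (P.reflection j x) = -((wden b).coeff (P.reflection j x)) := rfl
  rw [h2] at h1
  rw [← h1, neg_neg]

theorem wden_below (x : M) (hx : (wden b).coeff x ≠ 0) : Below b (rho b) x := by
  rw [wden, AddMonoidAlgebra.coeff_single_mul_apply, one_mul] at hx
  obtain ⟨n, hn⟩ := (w2_prod b (posF b) fun i hi => (mem_posF b i).mp hi).1 _ hx
  refine ⟨n, ?_⟩
  rw [← hn]
  abel

theorem wden_top : (wden b).coeff (rho b) = 1 := by
  rw [wden, AddMonoidAlgebra.coeff_single_mul_apply, one_mul, neg_add_cancel]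
  exact (w2_prod b (posF b) fun i hi => (mem_posF b i).mp hi).2

end rootsystem

end Pool.Agent.GP
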