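import Pool.Agent.GP.Defs

/-!
Module W3: antisymmetric elements are supported on one orbit.
-/

namespace Pool.Agent.GP

open Module

section rootsystem

variable {ι M N : Type*} [Fintype ι] [AddCommGroup M] [Module ℂ M] [AddCommGroup N] [Module ℂ N]
  {P : RootPairing ι ℂ M N} [P.IsRootSystem] [P.IsCrystallographic] [P.IsReduced] (b : P.Base)

omit [Fintype ι] [P.IsRootSystem] [P.IsReduced] in
/-- the pairings are integers -/
lemma w3_int (y x : M) (n : ι → ℕ) (j : ι)
    (hy : ∃ z : ℤ, P.toLinearMap y (P.coroot j) = z)
    (hn : y - x = ∑ j ∈ b.support, n j • P.root j) :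
    ∃ z : ℤ, P.toLinearMap x (P.coroot j) = z := by
  obtain ⟨z, hz⟩ := hy
  have hx : x = y - ∑ l ∈ b.support, n l • P.root l := by
    rw [← hn]; abel
  refine ⟨z - ∑ l ∈ b.support, n l * P.pairingIn ℤ l j, ?_⟩
  rw [hx, map_sub, LinearMap.sub_apply, hz, map_sum, LinearMap.sum_apply]
  push_cast
  congr 1
  apply Finset.sum_congr rfl
  intro l _
  rw [map_nsmul, LinearMap.smul_apply, P.root_coroot_eq_pairing, nsmul_eq_mul]
  congr 1
  have := P.algebraMap_pairingIn ℤ l j
  rw [← this]
  simp

omit [Fintype ι] [P.IsRootSystem] [P.IsReduced] [P.IsCrystallographic] in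
/-- coefficients are unique -/
lemma w3_unique (n n' : ι → ℂ)
    (h : ∑ j ∈ b.support, n j • P.root j = ∑ j ∈ b.support, n' j • P.root j) :
    ∀ j ∈ b.support, n j = n' j := by
  intro j hj
  have h1 := linearIndepOn_iff'.mp b.linearIndepOn_root b.support (fun j => n j - n' j)
    (by simp) (by
      simp only [sub_smul, Finset.sum_sub_distrib]
      rw [h, sub_self])
  have := h1 j hj
  exact sub_eq_zero.mp this

theorem reach_of_anti (f : AddMonoidAlgebra ℂ M) (hf : Anti b f) (y : M)
    (hy : ∀ j ∈ b.support, ∃ z : ℤ, P.toLinearMap y (P.coroot j) = z)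
    (hbel : ∀ x, f.coeff x ≠ 0 → Below b y x)
    (hdom : ∀ x, f.coeff x ≠ 0 →
      (∀ j ∈ b.support, ∃ k : ℕ, P.toLinearMap x (P.coroot j) = k + 1) → x = y)
    (x : M) (hx : f.coeff x ≠ 0) : Reach b y x := by
  classical
  have key : ∀ K : ℕ, ∀ x, f.coeff x ≠ 0 → ∀ n : ι → ℕ,
      y - x = ∑ j ∈ b.support, n j • P.root j → ∑ j ∈ b.support, n j = K → Reach b y x := by
    intro K
    induction K using Nat.strong_induction_on with
    | _ K IH =>
      intro x hx n hn hK
      by_cases hd : ∀ j ∈ b.support, ∃ k : ℕ, P.toLinearMap x (P.coroot j) = k + 1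
      · rw [hdom x hx hd]
        exact Reach.refl
      · push Not at hd
        obtain ⟨j, hj, hjk⟩ := hd
        obtain ⟨z, hz⟩ := w3_int b y x n j (hy j hj) hn
        have hz0 : z ≤ 0 := by
          by_contra hcon
          push Not at hcon
          refine hjk (z - 1).toNat ?_
          rw [hz]
          have : ((z - 1).toNat : ℤ) = z - 1 := Int.toNat_of_nonneg (by omega)
          have h2 : (((z - 1).toNat : ℤ) : ℂ) = ((z - 1 : ℤ) : ℂ) := by rw [this]
          push_cast at h2
          rw [h2]; ring
        have hrx : P.reflection j x = x - (z : ℂ) • P.root j := by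
          rw [P.reflection_apply]
          congr 2
        have hcx : f.coeff (P.reflection j x) = - f.coeff x := hf j hj x
        have hx' : f.coeff (P.reflection j x) ≠ 0 := by
          rw [hcx]; exact neg_ne_zero.mpr hx
        have hzn : z ≠ 0 := by
          intro h0
          rw [h0] at hrx
          simp only [Int.cast_zero, zero_smul, sub_zero] at hrx
          rw [hrx] at hcx
          apply hx
          have : (2 : ℂ) * f.coeff x = 0 := by
            rw [two_mul]
            nth_rewrite 1 [hcx]
            ring
          simpa using this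
        obtain ⟨n', hn'⟩ := hbel _ hx'
        have hsum : ∑ l ∈ b.support, ((n' l : ℕ) : ℂ) • P.root l =
            ∑ l ∈ b.support, ((n l : ℂ) + if l = j then (z : ℂ) else 0) • P.root l := by
          have e1 : ∑ l ∈ b.support, ((n' l : ℕ) : ℂ) • P.root l = y - P.reflection j x := by
            rw [hn']
            apply Finset.sum_congr rfl
            intro l _
            rw [Nat.cast_smul_eq_nsmul]
          have e2 : ∑ l ∈ b.support, ((n l : ℕ) : ℂ) • P.root l = y - x := by
            rw [hn]
            apply Finset.sum_congr rfl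
            intro l _
            rw [Nat.cast_smul_eq_nsmul]
          simp only [add_smul, Finset.sum_add_distrib, ite_smul, zero_smul]
          rw [e1, e2, hrx, Finset.sum_ite_eq', if_pos hj]
          abel
        have hcoef := w3_unique b (fun l => ((n' l : ℕ) : ℂ))
          (fun l => (n l : ℂ) + if l = j then (z : ℂ) else 0) hsum
        have hcoefZ : ∀ l ∈ b.support, (n' l : ℤ) = (n l : ℤ) + if l = j then z else 0 := by
          intro l hl
          have := hcoef l hl
          split_ifs at this ⊢ with h
          · exact_mod_cast this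
          · exact_mod_cast this
        have hsumZ : ((∑ l ∈ b.support, n' l : ℕ) : ℤ) = (∑ l ∈ b.support, n l : ℕ) + z := by
          push_cast
          rw [Finset.sum_congr rfl hcoefZ, Finset.sum_add_distrib, Finset.sum_ite_eq', if_pos hj]
        have hlt : ∑ l ∈ b.support, n' l < K := by
          rw [← hK]
          have : z < 0 := lt_of_le_of_ne hz0 hzn
          zify
          push_cast at hsumZ ⊢
          rw [hsumZ]
          omega
        have hr := IH _ hlt (P.reflection j x) hx' n' hn' rfl
        have := Reach.step hj hr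
        rwa [P.reflection_same] at this
  obtain ⟨n, hn⟩ := hbel x hx
  exact key _ x hx n hn rfl

end rootsystem

end Pool.Agent.GP
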