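import Pool.Agent.GP.W2
import Pool.Agent.GP.W3

/-!
Module W3b: the support of the Weyl denominator is one orbit.
-/

namespace Pool.Agent.GP

open Module

section rootsystem

variable {ι M N : Type*} [Fintype ι] [AddCommGroup M] [Module ℂ M] [AddCommGroup N] [Module ℂ N]
  {P : RootPairing ι ℂ M N} [P.IsRootSystem] [P.IsCrystallographic] [P.IsReduced] (b : P.Base)

omit [Fintype ι] [P.IsCrystallographic] [P.IsReduced] in
lemma w3b_zero (β : M) (h : ∀ i, P.toLinearMap β (P.coroot i) = 0) : β = 0 := by
  have h1 : P.toLinearMap β = 0 := by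
    have h2 : (⊤ : Submodule ℂ N) ≤ LinearMap.ker (P.toLinearMap β) := by
      rw [← RootPairing.IsRootSystem.span_coroot_eq_top (P := P), Submodule.span_le]
      rintro - ⟨i, rfl⟩
      exact h i
    ext y
    exact h2 (Submodule.mem_top (x := y))
  have h3 : P.toPerfPair β = 0 := h1
  simpa only [EmbeddingLike.map_eq_zero_iff] using h3

omit [P.IsRootSystem] [P.IsReduced] in
/-- an antidominant nonnegative combination of simple roots vanishes -/
lemma w3b_pair (n : ι → ℕ) (h : ∀ j ∈ b.support,
    ∃ k : ℕ, P.toLinearMap (∑ j ∈ b.support, n j • P.root j) (P.coroot j) = -(k : ℂ)) (i : ι) :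
    P.toLinearMap (∑ j ∈ b.support, n j • P.root j) (P.coroot i) = 0 := by
  have haux : ∀ γ, P.RootForm (∑ j ∈ b.support, n j • P.root j) γ =
      ∑ j ∈ b.support, n j * P.RootForm (P.root j) γ := by
    intro γ
    rw [map_sum, LinearMap.sum_apply]
    apply Finset.sum_congr rfl
    intro j _
    rw [map_nsmul, LinearMap.smul_apply, nsmul_eq_mul]
  set β := ∑ j ∈ b.support, n j • P.root j with hβ
  set z : ι → ℤ := fun i => ∑ j ∈ b.support, n j * P.pairingIn ℤ j i with hz
  have hzp : ∀ i, P.toLinearMap β (P.coroot i) = (z i : ℂ) := by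
    intro i
    rw [hβ, map_sum, LinearMap.sum_apply, hz]
    push_cast
    apply Finset.sum_congr rfl
    intro l _
    rw [map_nsmul, LinearMap.smul_apply, P.root_coroot_eq_pairing, nsmul_eq_mul]
    congr 1
    rw [← P.algebraMap_pairingIn ℤ l i]
    simp
  have hz0 : ∀ j ∈ b.support, z j ≤ 0 := by
    intro j hj
    obtain ⟨k, hk⟩ := h j hj
    rw [hzp j] at hk
    have : z j = -(k : ℤ) := by exact_mod_cast hk
    omega
  have hform : ∀ j, 2 * P.RootForm (P.root j) β =
      ((∑ i, P.pairingIn ℤ j i * P.pairingIn ℤ j i : ℤ) : ℂ) * (z j : ℂ) := by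
    intro j
    have h1 : (2 : ℂ) * P.RootForm (P.root j) β =
        P.toLinearMap β (2 • P.Polarization (P.root j)) := by
      rw [map_nsmul, P.toLinearMap_apply_apply_Polarization, nsmul_eq_mul]
      norm_num
    rw [h1, ← P.rootForm_self_smul_coroot, map_smul, smul_eq_mul, hzp j, P.rootForm_root_self]
    congr 1
    push_cast
    apply Finset.sum_congr rfl
    intro i _
    rw [← P.algebraMap_pairingIn ℤ j i]
    simp
  have hsq : P.RootForm β β = ((∑ i, z i * z i : ℤ) : ℂ) := by
    rw [P.rootForm_apply_apply]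
    push_cast
    apply Finset.sum_congr rfl
    intro i _
    have : P.coroot' i β = (z i : ℂ) := hzp i
    rw [this]
  have hexp : 2 * P.RootForm β β =
      ((∑ j ∈ b.support, n j * ((∑ i, P.pairingIn ℤ j i * P.pairingIn ℤ j i) * z j) : ℤ) : ℂ) := by
    have h1 : P.RootForm β β = ∑ j ∈ b.support, n j * P.RootForm (P.root j) β := haux β
    rw [h1, Finset.mul_sum]
    rw [Int.cast_sum]
    apply Finset.sum_congr rfl
    intro j _
    have h2 := hform j
    rw [Int.cast_mul, Int.cast_mul, ← h2]
    push_cast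
    ring
  have hint : 2 * ∑ i, z i * z i =
      ∑ j ∈ b.support, n j * ((∑ i, P.pairingIn ℤ j i * P.pairingIn ℤ j i) * z j) := by
    rw [hsq] at hexp
    exact_mod_cast hexp
  have hle : ∑ j ∈ b.support, n j * ((∑ i, P.pairingIn ℤ j i * P.pairingIn ℤ j i) * z j) ≤ 0 := by
    apply Finset.sum_nonpos
    intro j hj
    apply mul_nonpos_of_nonneg_of_nonpos (by positivity)
    exact mul_nonpos_of_nonneg_of_nonpos (Finset.sum_nonneg fun i _ => mul_self_nonneg _)
      (hz0 j hj)
  have hsum : ∑ i, z i * z i = 0 := by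
    apply le_antisymm
    · omega
    · exact Finset.sum_nonneg fun i _ => mul_self_nonneg _
  have hzi : z i * z i = 0 :=
    (Finset.sum_eq_zero_iff_of_nonneg fun i _ => mul_self_nonneg _).mp hsum i (Finset.mem_univ i)
  rw [hzp i, mul_self_eq_zero.mp hzi]
  simp

theorem wden_reach (x : M) (hx : (wden b).coeff x ≠ 0) : Reach b (rho b) x := by
  apply reach_of_anti b (wden b) (wden_anti b) (rho b) ?_ (wden_below b) ?_ x hx
  · intro j hj
    exact ⟨1, by rw [rho_coroot b j hj]; norm_num⟩
  · intro x hx hk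
    obtain ⟨n, hn⟩ := wden_below b x hx
    have h1 : rho b - x = 0 := by
      apply w3b_zero (P := P)
      intro i
      rw [hn]
      apply w3b_pair b n _ i
      intro j hj
      obtain ⟨k, hk⟩ := hk j hj
      refine ⟨k, ?_⟩
      rw [← hn, map_sub, LinearMap.sub_apply, rho_coroot b j hj, hk]
      ring
    exact (sub_eq_zero.mp h1).symm

end rootsystem

end Pool.Agent.GP
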