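import Pool.Agent.GP.Defs

/-!
Module W4: the Laplacian of the numerator of the character formula.
-/

namespace Pool.Agent.GP

open Module

section W4

variable {M : Type*} [AddCommGroup M] [Module ℂ M]

/-- the exponential of a weight -/
noncomputable def W4_ex (x : M) : AddMonoidAlgebra ℂ M := AddMonoidAlgebra.single x 1

theorem W4_ex_mul (x y : M) : W4_ex x * W4_ex y = W4_ex (x + y) := by
  unfold W4_ex
  rw [AddMonoidAlgebra.single_mul_single, one_mul]

/-- multiplication of the coefficients by a function of the weight -/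
noncomputable def W4_mw (g : M → ℂ) : AddMonoidAlgebra ℂ M →ₗ[ℂ] AddMonoidAlgebra ℂ M where
  toFun f := AddMonoidAlgebra.ofCoeff (g • f.coeff)
  map_add' f h := by
    apply AddMonoidAlgebra.ext
    rw [AddMonoidAlgebra.coeff_add, AddMonoidAlgebra.coeff_ofCoeff, AddMonoidAlgebra.coeff_ofCoeff,
      AddMonoidAlgebra.coeff_ofCoeff, AddMonoidAlgebra.coeff_add, smul_add]
  map_smul' c f := by
    apply AddMonoidAlgebra.ext
    ext x
    show g x * (c * f.coeff x) = c * (g x * f.coeff x)
    ring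

theorem W4_mw_coeff (g : M → ℂ) (f : AddMonoidAlgebra ℂ M) (x : M) :
    (W4_mw g f).coeff x = g x * f.coeff x := rfl

theorem W4_mw_single (g : M → ℂ) (x : M) (c : ℂ) :
    W4_mw g (AddMonoidAlgebra.single x c) = AddMonoidAlgebra.single x (g x * c) := by
  classical
  apply AddMonoidAlgebra.ext
  ext y
  rw [W4_mw_coeff, AddMonoidAlgebra.coeff_single, AddMonoidAlgebra.coeff_single,
    Finsupp.single_apply, Finsupp.single_apply]
  split_ifs with h
  · rw [h]
  · rw [mul_zero]

theorem W4_mw_ex (g : M → ℂ) (x : M) : W4_mw g (W4_ex x) = g x • W4_ex x := by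
  unfold W4_ex
  rw [W4_mw_single, AddMonoidAlgebra.smul_single, smul_eq_mul]

theorem W4_add (g : M → ℂ) (hg : ∀ x y, g (x + y) = g x + g y) (f h : AddMonoidAlgebra ℂ M) :
    W4_mw g (f * h) = W4_mw g f * h + f * W4_mw g h := by
  induction f using AddMonoidAlgebra.induction_linear with
  | zero => simp
  | add f f' hf hf' =>
    rw [add_mul, map_add, hf, hf', map_add]
    ring
  | single x c =>
    induction h using AddMonoidAlgebra.induction_linear with
    | zero => simp
    | add f f' hf hf' =>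
      rw [mul_add, map_add, hf, hf', map_add]
      ring
    | single y d =>
      rw [AddMonoidAlgebra.single_mul_single, W4_mw_single, W4_mw_single, W4_mw_single,
        AddMonoidAlgebra.single_mul_single, AddMonoidAlgebra.single_mul_single,
        ← AddMonoidAlgebra.single_add, hg]
      congr 1
      ring

/-- the Laplacian of a product with an exponential -/
theorem W4_lap (B : M →ₗ[ℂ] M →ₗ[ℂ] ℂ) (hB : ∀ x y, B x y = B y x) (y : M)
    (f : AddMonoidAlgebra ℂ M) :
    W4_mw (fun x => B x x) (f * W4_ex y) = W4_mw (fun x => B x x) f * W4_ex y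
      + f * W4_mw (fun x => B x x) (W4_ex y) + (2 : ℂ) • (W4_mw (fun x => B y x) f * W4_ex y) := by
  induction f using AddMonoidAlgebra.induction_linear with
  | zero => simp
  | add f f' hf hf' =>
    rw [add_mul, map_add, hf, hf', map_add, map_add, add_mul, add_mul, add_mul, smul_add]
    ring
  | single x c =>
    rw [W4_mw_ex]
    unfold W4_ex
    rw [AddMonoidAlgebra.smul_single, smul_eq_mul, mul_one,
      AddMonoidAlgebra.single_mul_single, W4_mw_single, W4_mw_single, W4_mw_single,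
      AddMonoidAlgebra.single_mul_single, AddMonoidAlgebra.single_mul_single,
      AddMonoidAlgebra.single_mul_single, AddMonoidAlgebra.smul_single,
      ← AddMonoidAlgebra.single_add, ← AddMonoidAlgebra.single_add]
    congr 1
    simp only [map_add, LinearMap.add_apply, smul_eq_mul]
    rw [hB x y]
    ring

theorem W4_prod {κ : Type*} [DecidableEq κ] (g : M → ℂ) (hg : ∀ x y, g (x + y) = g x + g y)
    (ρ : M) (α : κ → M) (s : Finset κ) :
    W4_mw g (W4_ex ρ * ∏ i ∈ s, (1 - W4_ex (-α i))) =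
      g ρ • (W4_ex ρ * ∏ i ∈ s, (1 - W4_ex (-α i))) +
      ∑ i ∈ s, g (α i) • (W4_ex (-α i) * (W4_ex ρ * ∏ k ∈ s.erase i, (1 - W4_ex (-α k)))) := by
  have g0 : g 0 = 0 := by
    have := hg 0 0
    rw [add_zero] at this
    linear_combination -this
  have gneg : ∀ x, g (-x) = - g x := by
    intro x
    have := hg x (-x)
    rw [add_neg_cancel, g0] at this
    linear_combination -this
  induction s using Finset.induction_on with
  | empty => simp [W4_mw_ex]
  | insert j s hj ih =>
    have h1 : W4_mw g (1 - W4_ex (-α j)) = g (α j) • W4_ex (-α j) := by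
      rw [map_sub, W4_mw_ex, AddMonoidAlgebra.one_def, W4_mw_single, g0, zero_mul,
        AddMonoidAlgebra.single_zero, gneg, zero_sub, neg_smul, neg_neg]
    have h2 : ∀ i ∈ s, g (α i) • (W4_ex (-α i) *
        (W4_ex ρ * ∏ k ∈ (insert j s).erase i, (1 - W4_ex (-α k)))) =
        (1 - W4_ex (-α j)) * (g (α i) • (W4_ex (-α i) *
        (W4_ex ρ * ∏ k ∈ s.erase i, (1 - W4_ex (-α k))))) := by
      intro i hi
      have hij : j ≠ i := fun h => hj (h ▸ hi)
      rw [Finset.erase_insert_of_ne hij, Finset.prod_insert (fun h => hj (Finset.mem_of_mem_erase h)),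
        mul_smul_comm]
      congr 1
      ring
    rw [Finset.prod_insert hj, Finset.sum_insert hj, Finset.erase_insert hj,
      Finset.sum_congr rfl h2, ← Finset.mul_sum,
      show W4_ex ρ * ((1 - W4_ex (-α j)) * ∏ i ∈ s, (1 - W4_ex (-α i))) =
        (W4_ex ρ * ∏ i ∈ s, (1 - W4_ex (-α i))) * (1 - W4_ex (-α j)) by ring,
      W4_add g hg, ih, h1, mul_smul_comm, add_mul, smul_mul_assoc]
    rw [show (W4_ex ρ * ∏ i ∈ s, (1 - W4_ex (-α i))) * W4_ex (-α j) =
      W4_ex (-α j) * (W4_ex ρ * ∏ i ∈ s, (1 - W4_ex (-α i))) by ring]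
    ring

end W4

section rootsystem

variable {ι M N : Type*} [Fintype ι] [AddCommGroup M] [Module ℂ M] [AddCommGroup N] [Module ℂ N]
  {P : RootPairing ι ℂ M N} [P.IsRootSystem] [P.IsCrystallographic] [P.IsReduced] (b : P.Base)

theorem char_eigen {n : ℕ} (D : ChData P b n)
    (hQ : ∀ x, (wden b).coeff x ≠ 0 → D.B x x = D.B (rho b) (rho b))
    (x : M) (hx : (wden b * D.ch).coeff x ≠ 0) :
    D.B x x = D.cas + D.B (rho b) (rho b) := by
  classical
  obtain ⟨Q, hQdef⟩ : ∃ Q, Q = wden b := ⟨_, rfl⟩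
  obtain ⟨ch, hch⟩ : ∃ ch, ch = D.ch := ⟨_, rfl⟩
  have hch' : ch = ∑ a, W4_ex (D.wt a) := hch
  have hQ' : Q = W4_ex (rho b) * ∏ i ∈ posF b, (1 - W4_ex (-P.root i)) := hQdef
  let Qi : ι → AddMonoidAlgebra ℂ M := fun i =>
    W4_ex (rho b) * ∏ k ∈ (posF b).erase i, (1 - W4_ex (-P.root k))
  have hQi : ∀ i ∈ posF b, Q = (1 - W4_ex (-P.root i)) * Qi i := by
    intro i hi
    rw [hQ', ← Finset.mul_prod_erase _ _ hi]
    show _ = (1 - W4_ex (-P.root i)) * (W4_ex (rho b) * _)
    ring
  let Fi : ι → AddMonoidAlgebra ℂ M := fun i =>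
    ∑ a, ((D.con i : ℂ) * (D.E i * D.F i) a a) • W4_ex (D.wt a)
  let Fi' : ι → AddMonoidAlgebra ℂ M := fun i =>
    ∑ a, ((D.con i : ℂ) * (D.F i * D.E i) a a) • W4_ex (D.wt a)
  let Dη : M → AddMonoidAlgebra ℂ M →ₗ[ℂ] AddMonoidAlgebra ℂ M :=
    fun η => W4_mw (fun x => D.B η x)
  let Lap : AddMonoidAlgebra ℂ M →ₗ[ℂ] AddMonoidAlgebra ℂ M := W4_mw (fun x => D.B x x)
  have h1 : ∀ i ∈ posF b, Fi' i = W4_ex (-P.root i) * Fi i := by
    intro i hi
    have hpos := (mem_posF b i).1 hi
    show ∑ a, ((D.con i : ℂ) * (D.F i * D.E i) a a) • W4_ex (D.wt a) =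
      W4_ex (-P.root i) * ∑ a, ((D.con i : ℂ) * (D.E i * D.F i) a a) • W4_ex (D.wt a)
    simp only [Matrix.mul_apply, Finset.mul_sum, Finset.sum_smul]
    rw [Finset.sum_comm]
    refine Finset.sum_congr rfl fun a _ => Finset.sum_congr rfl fun c _ => ?_
    rw [mul_smul_comm, W4_ex_mul]
    by_cases hE : D.E i a c = 0
    · rw [hE]
      simp
    · have := D.E_wt i hpos a c hE
      rw [show -P.root i + D.wt a = D.wt c by rw [this]; abel]
      congr 1
      ring
  have h2 : ∀ i ∈ posF b, Fi i - Fi' i = Dη (P.root i) ch := by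
    intro i hi
    have hpos := (mem_posF b i).1 hi
    show ∑ a, ((D.con i : ℂ) * (D.E i * D.F i) a a) • W4_ex (D.wt a) -
      ∑ a, ((D.con i : ℂ) * (D.F i * D.E i) a a) • W4_ex (D.wt a) =
      W4_mw (fun x => D.B (P.root i) x) ch
    rw [hch', map_sum, ← Finset.sum_sub_distrib]
    refine Finset.sum_congr rfl fun a _ => ?_
    rw [W4_mw_ex, ← sub_smul, D.B_root, ← mul_sub]
    have := congrFun (congrFun (D.EF i hpos) a) a
    rw [Matrix.sub_apply, Matrix.diagonal_apply_eq] at this
    rw [this]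
  have h3 : D.cas • ch = Lap ch + ∑ i ∈ posF b, (Fi i + Fi' i) := by
    show D.cas • ch = W4_mw (fun x => D.B x x) ch + ∑ i ∈ posF b,
      (∑ a, ((D.con i : ℂ) * (D.E i * D.F i) a a) • W4_ex (D.wt a) +
      ∑ a, ((D.con i : ℂ) * (D.F i * D.E i) a a) • W4_ex (D.wt a))
    simp only [← Finset.sum_add_distrib]
    rw [Finset.sum_comm, hch', map_sum, Finset.smul_sum, ← Finset.sum_add_distrib]
    refine Finset.sum_congr rfl fun a _ => ?_
    rw [W4_mw_ex]
    have := congrFun (congrFun D.casimir a) a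
    rw [Matrix.add_apply, Matrix.diagonal_apply_eq, Matrix.sum_apply, Matrix.smul_apply,
      Matrix.one_apply_eq, smul_eq_mul, mul_one] at this
    rw [← this, add_smul, Finset.sum_smul]
    congr 1
    refine Finset.sum_congr rfl fun i _ => ?_
    rw [Matrix.smul_apply, Matrix.add_apply, smul_eq_mul, mul_add, add_smul]
  have h4 : ∀ η, Dη η Q = D.B η (rho b) • Q +
      ∑ i ∈ posF b, D.B η (P.root i) • (W4_ex (-P.root i) * Qi i) := by
    intro η
    rw [hQ']
    exact W4_prod (fun x => D.B η x) (fun x y => map_add _ x y) (rho b) P.root (posF b)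
  have h5 : Lap (Q * ch) = Lap Q * ch + Q * Lap ch +
      (2 : ℂ) • ∑ a, (Dη (D.wt a) Q * W4_ex (D.wt a)) := by
    rw [hch', Finset.mul_sum, map_sum, Finset.mul_sum, map_sum, Finset.mul_sum, Finset.smul_sum,
      ← Finset.sum_add_distrib, ← Finset.sum_add_distrib]
    refine Finset.sum_congr rfl fun a _ => ?_
    exact W4_lap D.B D.B_symm (D.wt a) Q
  have h6 : ∀ η, ∑ a, D.B (D.wt a) η • W4_ex (D.wt a) = Dη η ch := by
    intro η
    rw [hch', map_sum]
    refine Finset.sum_congr rfl fun a _ => ?_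
    show _ = W4_mw _ _
    rw [W4_mw_ex, D.B_symm]
  have hrho : (2 : ℂ) • Dη (rho b) ch = ∑ i ∈ posF b, Dη (P.root i) ch := by
    apply AddMonoidAlgebra.ext
    ext y
    rw [AddMonoidAlgebra.coeff_sum, Finsupp.finsetSum_apply]
    show (2 : ℂ) * (D.B (rho b) y * ch.coeff y) = ∑ i ∈ posF b, D.B (P.root i) y * ch.coeff y
    unfold rho
    rw [map_smul, map_sum, LinearMap.smul_apply, LinearMap.sum_apply, smul_eq_mul,
      ← Finset.sum_mul]
    ring
  have h7 : (2 : ℂ) • ∑ a, (Dη (D.wt a) Q * W4_ex (D.wt a)) =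
      Q * ∑ i ∈ posF b, (Fi i + Fi' i) := by
    have e1 : ∑ a, (Dη (D.wt a) Q * W4_ex (D.wt a)) = Q * Dη (rho b) ch +
        ∑ i ∈ posF b, W4_ex (-P.root i) * Qi i * Dη (P.root i) ch := by
      have e2 : ∀ a, Dη (D.wt a) Q * W4_ex (D.wt a) = Q * (D.B (D.wt a) (rho b) • W4_ex (D.wt a)) +
          ∑ i ∈ posF b, W4_ex (-P.root i) * Qi i *
            (D.B (D.wt a) (P.root i) • W4_ex (D.wt a)) := by
        intro a
        rw [h4, add_mul, smul_mul_assoc, mul_smul_comm, Finset.sum_mul]
        congr 1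
        refine Finset.sum_congr rfl fun i _ => ?_
        rw [smul_mul_assoc, mul_smul_comm]
      rw [Finset.sum_congr rfl fun a _ => e2 a, Finset.sum_add_distrib, ← Finset.mul_sum, h6,
        Finset.sum_comm]
      congr 1
      refine Finset.sum_congr rfl fun i _ => ?_
      rw [← Finset.mul_sum, h6]
    rw [e1, smul_add, ← mul_smul_comm, hrho, Finset.mul_sum, Finset.smul_sum,
      ← Finset.sum_add_distrib, Finset.mul_sum]
    refine Finset.sum_congr rfl fun i hi => ?_
    have hD : Dη (P.root i) ch = (1 - W4_ex (-P.root i)) * Fi i := by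
      rw [← h2 i hi, h1 i hi]
      ring
    rw [hD, h1 i hi, hQi i hi, two_smul]
    ring
  have h8 : Lap Q = D.B (rho b) (rho b) • Q := by
    apply AddMonoidAlgebra.ext
    ext y
    show D.B y y * Q.coeff y = D.B (rho b) (rho b) * Q.coeff y
    by_cases hy : Q.coeff y = 0
    · rw [hy, mul_zero, mul_zero]
    · rw [hQdef] at hy
      rw [hQ y hy]
  have h9 : Lap (Q * ch) = (D.cas + D.B (rho b) (rho b)) • (Q * ch) := by
    rw [h5, h7, h8]
    have : ∑ i ∈ posF b, (Fi i + Fi' i) = D.cas • ch - Lap ch := by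
      rw [h3]
      ring
    rw [this, add_smul, smul_mul_assoc, mul_sub, mul_smul_comm]
    ring
  have h10 := congrArg (fun f : AddMonoidAlgebra ℂ M => f.coeff x) h9
  have h11 : D.B x x * (Q * ch).coeff x = (D.cas + D.B (rho b) (rho b)) * (Q * ch).coeff x := h10
  rw [← hQdef, ← hch] at hx
  exact mul_right_cancel₀ hx h11

end rootsystem

end Pool.Agent.GP
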