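import Pool.Agent.GP.W3b
import Pool.Agent.GP.W4

/-!
Module W5: the numerator of the character formula is supported on one orbit.

Hints. `form_reach`: induction on `Reach`; `B (s x) (s x) = B x x` by `B_root`, `B_symm` and
`B (root j) (root j) = 2 con j`. `char_anti`: `D.ch` is invariant (`D.inv`: the coefficient of
`D.ch` at `μ` is the number of `a` with `wt a = μ`), `wden b` is antisymmetric; use the ring
endomorphism induced by the reflection. `char_below`, `char_top`: from `wden_below`, `wden_top`,
`D.below`, `D.top_mult`. `char_reach`: `reach_of_anti` with `y = wt top + rho`. For `hdom`: with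
`hQ` from `wden_reach` and `form_reach`, `char_eigen` gives `B x x = B y y`; write
`y - x = ∑ n j • root j`; then `0 = B y y - B x x = ∑ n j * B (root j) (x + y) =
∑ n j * con j * (⟨x, coroot j⟩ + ⟨y, coroot j⟩)` with all terms `≥ 0` and `> 0` if `n j > 0`.
-/

namespace Pool.Agent.GP

open Module

section rootsystem

variable {ι M N : Type*} [Fintype ι] [AddCommGroup M] [Module ℂ M] [AddCommGroup N] [Module ℂ N]
  {P : RootPairing ι ℂ M N} [P.IsRootSystem] [P.IsCrystallographic] [P.IsReduced] (b : P.Base)

omit [Fintype ι] [P.IsRootSystem] [P.IsCrystallographic] [P.IsReduced] in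
lemma w5_reflection (j : ι) (x : M) :
    P.reflection j x = x - P.toLinearMap x (P.coroot j) • P.root j := by
  rw [P.reflection_apply]
  rfl

omit [Fintype ι] [P.IsRootSystem] [P.IsCrystallographic] [P.IsReduced] in
lemma w5_invol (j : ι) (x : M) : P.reflection j (P.reflection j x) = x := by
  simp

omit [P.IsRootSystem] [P.IsReduced] in
theorem form_reach {n : ℕ} (D : ChData P b n) (y x : M) (h : Reach b y x) :
    D.B x x = D.B y y := by
  induction h with
  | refl => rfl
  | @step x j hj _ ih =>
    rw [← ih, w5_reflection]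
    set c := P.toLinearMap x (P.coroot j) with hc
    have h1 : D.B (P.root j) x = D.con j * c := D.B_root j x
    have h2 : D.B (P.root j) (P.root j) = D.con j * 2 := by
      rw [D.B_root]
      congr 1
      exact P.root_coroot_two j
    have h3 : D.B x (P.root j) = D.con j * c := by rw [D.B_symm, h1]
    simp only [map_sub, map_smul, LinearMap.sub_apply, LinearMap.smul_apply, smul_eq_mul,
      h1, h2, h3]
    ring

omit [P.IsRootSystem] [P.IsCrystallographic] [P.IsReduced] in
lemma w5_coeff {n : ℕ} (D : ChData P b n) (f : AddMonoidAlgebra ℂ M) (x : M) :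
    (f * D.ch).coeff x = ∑ a, f.coeff (x - D.wt a) := by
  rw [ChData.ch, Finset.mul_sum, AddMonoidAlgebra.coeff_sum, Finset.sum_apply']
  refine Finset.sum_congr rfl fun a _ => ?_
  rw [AddMonoidAlgebra.coeff_mul_single_apply, mul_one, sub_eq_add_neg]

lemma w5_sum_comp {n : ℕ} {T : Type*} (g1 g2 : Fin n → T)
    (h : ∀ μ, Nat.card {a // g1 a = μ} = Nat.card {a // g2 a = μ}) (F : T → ℂ) :
    ∑ a, F (g1 a) = ∑ a, F (g2 a) := by
  classical
  have hm : Multiset.map g1 (Finset.univ : Finset (Fin n)).val =
      Multiset.map g2 (Finset.univ : Finset (Fin n)).val := by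
    ext μ
    have h1 : ∀ g : Fin n → T, Multiset.count μ (Multiset.map g (Finset.univ : Finset (Fin n)).val)
        = Nat.card {a // g a = μ} := by
      intro g
      rw [Multiset.count_map, Nat.card_eq_fintype_card, Fintype.card_subtype]
      show (Finset.univ.filter fun a => μ = g a).card = _
      congr 1
      ext a
      simp [eq_comm]
    rw [h1, h1, h]
  have h2 : ∀ g : Fin n → T, ∑ a, F (g a) =
      (Multiset.map F (Multiset.map g (Finset.univ : Finset (Fin n)).val)).sum := by
    intro g
    rw [Multiset.map_map]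
    rfl
  rw [h2, h2, hm]

theorem char_anti {n : ℕ} (D : ChData P b n) : Anti b (wden b * D.ch) := by
  intro j hj x
  rw [w5_coeff, w5_coeff, ← Finset.sum_neg_distrib]
  have h1 : ∀ a, (wden b).coeff (P.reflection j x - D.wt a) =
      -(wden b).coeff (x - P.reflection j (D.wt a)) := by
    intro a
    have h2 := map_sub (P.reflection j) x (P.reflection j (D.wt a))
    rw [← wden_anti b j hj, h2, w5_invol]
  simp only [h1]
  refine w5_sum_comp (fun a => P.reflection j (D.wt a)) D.wt ?_
    (fun μ => -(wden b).coeff (x - μ))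
  intro μ
  rw [← D.inv j hj μ]
  refine Nat.card_congr (_root_.Equiv.subtypeEquivRight fun a => ?_)
  constructor
  · intro h
    rw [← h, w5_invol]
  · intro h
    rw [h, w5_invol]

theorem char_below {n : ℕ} (D : ChData P b n) (x : M) (hx : (wden b * D.ch).coeff x ≠ 0) :
    Below b (D.wt D.top + rho b) x := by
  rw [w5_coeff] at hx
  obtain ⟨a, -, ha⟩ := Finset.exists_ne_zero_of_sum_ne_zero hx
  obtain ⟨n1, h1⟩ := wden_below b _ ha
  obtain ⟨n2, h2⟩ := D.below a
  refine ⟨n1 + n2, ?_⟩
  simp only [Pi.add_apply, add_smul, Finset.sum_add_distrib, ← h1, ← h2]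
  abel

omit [P.IsRootSystem] [P.IsCrystallographic] [P.IsReduced] [Fintype ι] in
/-- a combination of simple roots with natural coefficients is zero only if all are -/
lemma w5_zero (m : ι → ℕ) (h : ∑ j ∈ b.support, m j • P.root j = 0) :
    ∀ j ∈ b.support, m j = 0 := by
  intro j hj
  have h1 := linearIndepOn_finset_iff.mp b.linearIndepOn_root (fun j => (m j : ℂ)) (by
    simpa [Nat.cast_smul_eq_nsmul] using h) j hj
  exact_mod_cast h1

theorem char_top {n : ℕ} (D : ChData P b n) :
    (wden b * D.ch).coeff (D.wt D.top + rho b) = 1 := by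
  rw [w5_coeff, Finset.sum_eq_single D.top]
  · rw [add_sub_cancel_left, wden_top]
  · intro a _ ha
    by_contra hne
    obtain ⟨n1, h1⟩ := wden_below b _ hne
    obtain ⟨n2, h2⟩ := D.below a
    have h3 : ∑ j ∈ b.support, (n1 + n2) j • P.root j = 0 := by
      simp only [Pi.add_apply, add_smul, Finset.sum_add_distrib, ← h1, ← h2]
      abel
    have h4 := w5_zero b _ h3
    apply ha
    apply D.top_mult
    have h5 : D.wt D.top - D.wt a = 0 := by
      rw [h2]
      refine Finset.sum_eq_zero fun j hj => ?_
      have h6 := h4 j hj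
      have h7 : n2 j = 0 := by
        simp only [Pi.add_apply] at h6
        omega
      rw [h7, zero_smul]
    exact (sub_eq_zero.1 h5).symm
  · intro h
    exact absurd (Finset.mem_univ _) h

theorem char_reach {n : ℕ} (D : ChData P b n) (x : M) (hx : (wden b * D.ch).coeff x ≠ 0) :
    Reach b (D.wt D.top + rho b) x := by
  have hy : ∀ j ∈ b.support, ∃ k : ℕ,
      P.toLinearMap (D.wt D.top + rho b) (P.coroot j) = k + 1 := by
    intro j hj
    obtain ⟨k, hk⟩ := D.dom j hj
    refine ⟨k, ?_⟩
    rw [map_add, LinearMap.add_apply, hk, rho_coroot b j hj]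
  have hQ : ∀ x, (wden b).coeff x ≠ 0 → D.B x x = D.B (rho b) (rho b) := fun x hx =>
    form_reach b D _ _ (wden_reach b x hx)
  refine reach_of_anti b (wden b * D.ch) (char_anti b D) _ ?_ (char_below b D) ?_ x hx
  · intro j hj
    obtain ⟨k, hk⟩ := hy j hj
    exact ⟨k + 1, by rw [hk]; push_cast; ring⟩
  · clear hx x
    intro x hx hxd
    obtain ⟨m, hm⟩ := char_below b D x hx
    obtain ⟨y, hydef⟩ : ∃ y, y = D.wt D.top + rho b := ⟨_, rfl⟩
    rw [← hydef] at hm hy ⊢
    have hyy : D.B y y = D.cas + D.B (rho b) (rho b) :=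
      char_eigen b D hQ y (by rw [hydef, char_top]; exact one_ne_zero)
    have hxx := char_eigen b D hQ x hx
    have h1 : D.B (y - x) (x + y) = 0 := by
      have h2 : D.B (y - x) (x + y) = D.B y y - D.B x x := by
        simp only [map_sub, LinearMap.sub_apply, map_add, D.B_symm x y]
        ring
      rw [h2, hyy, hxx, sub_self]
    rw [hm, map_sum, LinearMap.sum_apply] at h1
    choose! kx hkx using hxd
    choose! ky hky using hy
    have h2 : ∑ j ∈ b.support, ((m j : ℝ) * (D.con j * ((kx j + 1) + (ky j + 1)))) = 0 := by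
      have h3 : ((∑ j ∈ b.support, ((m j : ℝ) * (D.con j * ((kx j + 1) + (ky j + 1)))) : ℝ) : ℂ)
          = 0 := by
        rw [← h1]
        push_cast
        refine Finset.sum_congr rfl fun j hj => ?_
        rw [map_nsmul, LinearMap.smul_apply, D.B_root, map_add, LinearMap.add_apply, hkx j hj,
          hky j hj, nsmul_eq_mul]
      exact_mod_cast h3
    have h4 : ∀ j ∈ b.support, (m j : ℝ) * (D.con j * ((kx j + 1) + (ky j + 1))) = 0 := by
      refine (Finset.sum_eq_zero_iff_of_nonneg fun j _ => ?_).1 h2
      have := D.con_pos j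
      positivity
    have h5 : y - x = 0 := by
      rw [hm]
      refine Finset.sum_eq_zero fun j hj => ?_
      have h6 := h4 j hj
      have h7 : (D.con j * (((kx j : ℝ) + 1) + (ky j + 1))) ≠ 0 := by
        have := D.con_pos j
        positivity
      have h8 : (m j : ℝ) = 0 := by
        rcases mul_eq_zero.1 h6 with h | h
        · exact h
        · exact absurd h h7
      have h9 : m j = 0 := by exact_mod_cast h8
      rw [h9, zero_smul]
    exact (sub_eq_zero.1 h5).symm

end rootsystem

end Pool.Agent.GP
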