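import Pool.Agent.GP.Defs

/-!
Module W6: duality between alternating sums.

Hints. `ev P z g = ∑ x ∈ supp g, g(x) • single ⟨x, z⟩ 1`. Let
`S = ∑ x ∈ supp g, ∑ w ∈ supp q, g(x) q(w) • single ⟨x, w⟩ 1`. For a simple `j`,
`ev P (P.flip.reflection j w) g = - ev P w g` (since `⟨s x, w⟩ = ⟨x, s w⟩` and `g` is
antisymmetric, reindexing by the involution `s`), so `q(w) • ev P w g` does not change when `w` is
replaced by `P.flip.reflection j w`; by induction on `Reach b.flip z w` it equals
`q(z) • ev P z g = ev P z g` for all `w` in the support. Hence `S = |supp q| • ev P z g`, and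
symmetrically `S = |supp g| • ev P.flip y q`.
-/

namespace Pool.Agent.GP

open Module

section rootsystem

variable {ι M N : Type*} [Fintype ι] [AddCommGroup M] [Module ℂ M] [AddCommGroup N] [Module ℂ N]
  {P : RootPairing ι ℂ M N} [P.IsRootSystem] [P.IsCrystallographic] [P.IsReduced] (b : P.Base)

omit [P.IsRootSystem] [P.IsCrystallographic] [P.IsReduced] [Fintype ι] in
theorem w6_ev (g : AddMonoidAlgebra ℂ M) (z : N) :
    ev P z g = ∑ x ∈ g.coeff.support,
      AddMonoidAlgebra.single (P.toLinearMap x z) (g.coeff x) := by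
  conv_lhs => rw [← AddMonoidAlgebra.sum_coeff_single g]
  unfold Finsupp.sum
  rw [map_sum]
  refine Finset.sum_congr rfl fun x _ => ?_
  unfold ev
  rw [AddMonoidAlgebra.mapDomainRingHom_apply, AddMonoidAlgebra.mapDomain_single]
  rfl

omit [P.IsRootSystem] [P.IsCrystallographic] [P.IsReduced] [Fintype ι] in
theorem w6_refl (j : ι) (x : M) (w : N) :
    P.toLinearMap x (P.flip.reflection j w) = P.toLinearMap (P.reflection j x) w := by
  rw [RootPairing.reflection_apply, RootPairing.reflection_apply]
  simp only [map_sub, map_smul, LinearMap.sub_apply, LinearMap.smul_apply, smul_eq_mul]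
  have h1 : P.flip.root j = P.coroot j := rfl
  have h2 : (P.flip.coroot' j) w = P.toLinearMap (P.root j) w := rfl
  have h3 : (P.coroot' j) x = P.toLinearMap x (P.coroot j) := rfl
  rw [h1, h2, h3]
  ring

omit [P.IsRootSystem] [P.IsCrystallographic] [P.IsReduced] [Fintype ι] in
theorem w6_ev_refl (g : AddMonoidAlgebra ℂ M) (hg : Anti b g) (j : ι) (hj : j ∈ b.support)
    (w : N) : ev P (P.flip.reflection j w) g = - ev P w g := by
  rw [w6_ev, w6_ev, ← Finset.sum_neg_distrib]
  have hinv : ∀ x : M, P.reflection j (P.reflection j x) = x := fun x => by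
    rw [RootPairing.reflection_same]
  have hsupp : ∀ x : M, x ∈ g.coeff.support → P.reflection j x ∈ g.coeff.support := by
    intro x hx
    rw [Finsupp.mem_support_iff] at hx ⊢
    rw [hg j hj x]
    exact neg_ne_zero.2 hx
  refine Finset.sum_nbij' (fun x => P.reflection j x) (fun x => P.reflection j x) hsupp hsupp
    (fun x _ => hinv x) (fun x _ => hinv x) ?_
  intro x _
  show AddMonoidAlgebra.single (P.toLinearMap x (P.flip.reflection j w)) (g.coeff x) =
    -AddMonoidAlgebra.single (P.toLinearMap (P.reflection j x) w) (g.coeff (P.reflection j x))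
  rw [w6_refl, hg j hj x, AddMonoidAlgebra.single_neg, neg_neg]

omit [P.IsRootSystem] [P.IsCrystallographic] [P.IsReduced] [Fintype ι] in
theorem w6_reach (g : AddMonoidAlgebra ℂ M) (q : AddMonoidAlgebra ℂ N) (hg : Anti b g)
    (hq : Anti b.flip q) (z w : N) (h : Reach b.flip z w) :
    q.coeff w • ev P w g = q.coeff z • ev P z g := by
  induction h with
  | refl => rfl
  | @step x j hj h ih =>
    have hj' : j ∈ b.support := hj
    rw [hq j hj x, w6_ev_refl b g hg j hj' x, neg_smul, smul_neg, neg_neg]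
    exact ih

omit [P.IsRootSystem] [P.IsCrystallographic] [P.IsReduced] [Fintype ι] in
theorem w6_sum (g : AddMonoidAlgebra ℂ M) (q : AddMonoidAlgebra ℂ N) (hg : Anti b g)
    (hq : Anti b.flip q) (z : N) (hz : q.coeff z = 1)
    (hqr : ∀ w, q.coeff w ≠ 0 → Reach b.flip z w) :
    ∑ w ∈ q.coeff.support, q.coeff w • ev P w g = (q.coeff.support.card : ℂ) • ev P z g := by
  rw [Finset.sum_congr rfl (g := fun _ => ev P z g), Finset.sum_const, Nat.cast_smul_eq_nsmul]
  intro w hw
  rw [w6_reach b g q hg hq z w (hqr w (Finsupp.mem_support_iff.1 hw)), hz, one_smul]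

omit [P.IsRootSystem] [P.IsCrystallographic] [P.IsReduced] [Fintype ι] in
theorem duality (g : AddMonoidAlgebra ℂ M) (q : AddMonoidAlgebra ℂ N) (hg : Anti b g)
    (hq : Anti b.flip q) (y : M) (z : N) (hy : g.coeff y = 1) (hz : q.coeff z = 1)
    (hgr : ∀ x, g.coeff x ≠ 0 → Reach b y x) (hqr : ∀ w, q.coeff w ≠ 0 → Reach b.flip z w) :
    (q.coeff.support.card : ℂ) • ev P z g = (g.coeff.support.card : ℂ) • ev P.flip y q := by
  rw [← w6_sum b g q hg hq z hz hqr]
  have h2 : ∑ x ∈ g.coeff.support, g.coeff x • ev P.flip x q =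
      (g.coeff.support.card : ℂ) • ev P.flip y q := by
    refine w6_sum (P := P.flip) b.flip q g hq ?_ y hy ?_
    · exact hg
    · exact hgr
  rw [← h2]
  simp only [w6_ev, Finset.smul_sum]
  rw [Finset.sum_comm]
  refine Finset.sum_congr rfl fun x _ => Finset.sum_congr rfl fun w _ => ?_
  rw [AddMonoidAlgebra.smul_single, AddMonoidAlgebra.smul_single, smul_eq_mul, smul_eq_mul,
    mul_comm]
  rfl

end rootsystem

end Pool.Agent.GP
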