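import Pool.Agent.GP.W5
import Pool.Agent.GP.W6

/-!
Module W7: the principal specialisation of the character.
-/

namespace Pool.Agent.GP

open Module

section algebra

/-- the ring homomorphism sending the variable to `e ^ (-1)` -/
noncomputable def w7_phi : Polynomial ℤ →+* AddMonoidAlgebra ℂ ℂ :=
  Polynomial.eval₂RingHom (Int.castRingHom _) (AddMonoidAlgebra.single (-1) 1)

lemma w7_phi_X_pow (k : ℕ) :
    w7_phi (Polynomial.X ^ k) = AddMonoidAlgebra.single (-(k : ℂ)) 1 := by
  rw [map_pow]
  simp [w7_phi, AddMonoidAlgebra.single_pow]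

lemma w7_phi_eq (p : Polynomial ℤ) :
    w7_phi p = ∑ k ∈ p.support, (p.coeff k : ℂ) • AddMonoidAlgebra.single (-(k : ℂ)) 1 := by
  conv_lhs => rw [p.as_sum_support_C_mul_X_pow]
  rw [map_sum]
  refine Finset.sum_congr rfl fun k _ => ?_
  rw [map_mul, w7_phi_X_pow]
  have h1 : w7_phi (Polynomial.C (p.coeff k)) = ((p.coeff k : ℤ) : AddMonoidAlgebra ℂ ℂ) := by
    simp [w7_phi]
  rw [h1, ← zsmul_eq_mul]
  ext x
  simp [AddMonoidAlgebra.coeff_single]

lemma w7_phi_coeff (p : Polynomial ℤ) (k : ℕ) : (w7_phi p).coeff (-(k : ℂ)) = p.coeff k := by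
  classical
  rw [w7_phi_eq, AddMonoidAlgebra.coeff_sum, Finsupp.finsetSum_apply]
  rw [Finset.sum_eq_single k]
  · simp
  · intro l _ hl
    have : (-(l : ℂ)) ≠ -(k : ℂ) := by
      intro h
      exact hl (by exact_mod_cast neg_injective h)
    simp [this]
  · intro hk
    simp [Polynomial.notMem_support_iff.1 hk]

lemma w7_phi_injective : Function.Injective w7_phi := by
  intro p q h
  ext k
  have h1 := w7_phi_coeff p k
  have h2 := w7_phi_coeff q k
  rw [h] at h1
  exact_mod_cast h1.symm.trans h2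

end algebra

section rootsystem

variable {ι M N : Type*} [AddCommGroup M] [Module ℂ M] [AddCommGroup N] [Module ℂ N]

lemma w7_ev_single (P : RootPairing ι ℂ M N) (z : N) (x : M) (c : ℂ) :
    ev P z (AddMonoidAlgebra.single x c) = AddMonoidAlgebra.single (P.toLinearMap x z) c := by
  simp [ev, AddMonoidAlgebra.mapDomainRingHom]

lemma w7_coeff (P : RootPairing ι ℂ M N) (z : N) (g : AddMonoidAlgebra ℂ M) (y : M)
    (h : ∀ x, g.coeff x ≠ 0 → P.toLinearMap x z = P.toLinearMap y z → x = y) :
    (ev P z g).coeff (P.toLinearMap y z) = g.coeff y := by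
  classical
  have h1 : (ev P z g).coeff = Finsupp.mapDomain (fun x => P.toLinearMap x z) g.coeff := rfl
  rw [h1, Finsupp.mapDomain, Finsupp.sum_apply, Finsupp.sum]
  rw [Finset.sum_eq_single y]
  · simp
  · intro x hx hxy
    rw [Finsupp.single_apply, if_neg]
    intro e
    exact hxy (h x (Finsupp.mem_support_iff.1 hx) e)
  · intro hy
    rw [Finsupp.notMem_support_iff.1 hy]
    simp

variable [Fintype ι]
  {P : RootPairing ι ℂ M N} [P.IsRootSystem] [P.IsCrystallographic] [P.IsReduced] (b : P.Base)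

omit [Fintype ι] [P.IsRootSystem] [P.IsCrystallographic] [P.IsReduced] in
/-- the value of a nonnegative combination of simple roots vanishes only if it is zero -/
lemma w7_below {y x : M} {z : N} (hz : ∀ j ∈ b.support, ∃ k : ℕ, P.toLinearMap (P.root j) z = k + 1)
    (h : Below b y x) (e : P.toLinearMap x z = P.toLinearMap y z) : x = y := by
  obtain ⟨n, hn⟩ := h
  have h1 : P.toLinearMap (y - x) z = 0 := by
    rw [map_sub, LinearMap.sub_apply, e, sub_self]
  choose! k hk using hz
  have h2 : P.toLinearMap (y - x) z = ((∑ j ∈ b.support, n j * (k j + 1) : ℕ) : ℂ) := by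
    rw [hn, map_sum, LinearMap.sum_apply]
    push_cast
    refine Finset.sum_congr rfl fun j hj => ?_
    rw [map_nsmul, LinearMap.smul_apply, hk j hj, nsmul_eq_mul]
  rw [h2] at h1
  have h3 : ∑ j ∈ b.support, n j * (k j + 1) = 0 := by exact_mod_cast h1
  have h4 : ∀ j ∈ b.support, n j = 0 := by
    intro j hj
    have := (Finset.sum_eq_zero_iff.1 h3) j hj
    rcases Nat.mul_eq_zero.1 this with h5 | h5
    · exact h5
    · omega
  have h5 : y - x = 0 := by
    rw [hn]
    refine Finset.sum_eq_zero fun j hj => ?_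
    rw [h4 j hj, zero_smul]
  exact (sub_eq_zero.1 h5).symm

lemma w7_height (j : ι) (hj : j ∈ b.support) :
    P.toLinearMap (P.root j) (rho b.flip) = ((0 : ℕ) : ℂ) + 1 := by
  rw [root_rho, b.height_one_of_mem_support hj]
  simp

theorem product_identity {n : ℕ} (D : ChData P b n) :
    ∃ (lev : Fin n → ℕ) (ht d : ι → ℕ),
      (∀ a, P.toLinearMap (D.wt D.top - D.wt a) (rho b.flip) = lev a) ∧
      (∀ i ∈ posF b, 0 < ht i ∧ 0 < d i) ∧
      (∑ a, (Polynomial.X : Polynomial ℤ) ^ lev a) * ∏ i ∈ posF b, (1 - Polynomial.X ^ ht i) =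
        ∏ i ∈ posF b, (1 - Polynomial.X ^ d i) := by
  classical
  -- the level
  have hlev : ∀ a, ∃ l : ℕ, P.toLinearMap (D.wt D.top - D.wt a) (rho b.flip) = l := by
    intro a
    obtain ⟨m, hm⟩ := D.below a
    refine ⟨∑ j ∈ b.support, m j, ?_⟩
    rw [hm, map_sum, LinearMap.sum_apply]
    push_cast
    refine Finset.sum_congr rfl fun j hj => ?_
    rw [map_nsmul, LinearMap.smul_apply, w7_height b j hj, nsmul_eq_mul]
    simp
  choose lev hlev using hlev
  set y : M := D.wt D.top + rho b with hy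
  set z : N := rho b.flip with hz
  -- pairings of `y`
  have hyk : ∀ j ∈ b.support, ∃ k : ℕ, P.toLinearMap y (P.coroot j) = k + 1 := by
    intro j hj
    obtain ⟨k, hk⟩ := D.dom j hj
    refine ⟨k, ?_⟩
    rw [hy, map_add, LinearMap.add_apply, hk, rho_coroot b j hj]
  have hd : ∀ i, b.IsPos i → ∃ k : ℕ, P.toLinearMap y (P.coroot i) = k + 1 :=
    fun i hi => isPos_pairing b i hi y hyk
  choose! k hk using hd
  refine ⟨lev, fun i => (b.height i).toNat, fun i => k i + 1, hlev, ?_, ?_⟩
  · intro i hi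
    have h1 : 0 < b.height i := (mem_posF b i).1 hi
    refine ⟨?_, Nat.succ_pos _⟩
    change 0 < (b.height i).toNat
    omega
  -- duality
  set g : AddMonoidAlgebra ℂ M := wden b * D.ch with hg
  set q : AddMonoidAlgebra ℂ N := wden b.flip with hq
  have hgy : g.coeff y = 1 := char_top b D
  have hqz : q.coeff z = 1 := wden_top b.flip
  have hdual := duality b g q (char_anti b D) (wden_anti b.flip) y z hgy hqz
    (fun x hx => char_reach b D x hx) (fun w hw => wden_reach b.flip w hw)
  have c1 : (ev P z g).coeff (P.toLinearMap y z) = 1 := by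
    rw [w7_coeff P z g y, hgy]
    intro x hx e
    exact w7_below b (fun j hj => ⟨0, w7_height b j hj⟩) (char_below b D x hx) e
  have c2 : (ev P.flip y q).coeff (P.toLinearMap y z) = 1 := by
    have := w7_coeff P.flip y q z (fun w hw e => w7_below b.flip (y := z) (x := w) (z := y)
      (fun j hj => hyk j hj) (wden_below b.flip w hw) e)
    exact this.trans hqz
  have c3 : (q.coeff.support.card : ℂ) = (g.coeff.support.card : ℂ) := by
    have := congrArg (fun f : AddMonoidAlgebra ℂ ℂ => f.coeff (P.toLinearMap y z)) hdual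
    simp only [AddMonoidAlgebra.coeff_smul, Finsupp.smul_apply, c1, c2, smul_eq_mul, mul_one] at this
    exact this
  have c4 : (q.coeff.support.card : ℂ) ≠ 0 := by
    have h1 : z ∈ q.coeff.support := by
      rw [Finsupp.mem_support_iff, hqz]
      exact one_ne_zero
    have h2 : 0 < q.coeff.support.card := Finset.card_pos.2 ⟨z, h1⟩
    exact_mod_cast h2.ne'
  have c5 : ev P z g = ev P.flip y q := by
    rw [← c3] at hdual
    exact smul_right_injective _ c4 hdual
  -- evaluation
  have e1 : ev P z g = (AddMonoidAlgebra.single (P.toLinearMap (rho b) z) 1 *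
      ∏ i ∈ posF b, (1 - AddMonoidAlgebra.single (-(b.height i : ℂ)) 1)) *
      ∑ a, AddMonoidAlgebra.single (P.toLinearMap (D.wt a) z) 1 := by
    rw [hg, map_mul, wden, ChData.ch, map_mul, map_prod, map_sum, w7_ev_single]
    congr 1
    · congr 1
      refine Finset.prod_congr rfl fun i _ => ?_
      rw [map_sub, map_one, w7_ev_single, map_neg, LinearMap.neg_apply, hz, root_rho]
    · refine Finset.sum_congr rfl fun a _ => ?_
      rw [w7_ev_single]
  have e2 : ev P.flip y q = AddMonoidAlgebra.single (P.toLinearMap y z) 1 *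
      ∏ i ∈ posF b, (1 - AddMonoidAlgebra.single (-((k i : ℂ) + 1)) 1) := by
    rw [hq, wden, map_mul, map_prod, w7_ev_single, posF_flip]
    congr 1
    refine Finset.prod_congr rfl fun i hi => ?_
    rw [map_sub, map_one, w7_ev_single, map_neg, LinearMap.neg_apply]
    congr 3
    exact hk i ((mem_posF b i).1 hi)
  rw [e1, e2] at c5
  have c6 := congrArg (fun f => AddMonoidAlgebra.single (-(P.toLinearMap y z)) (1 : ℂ) * f) c5
  beta_reduce at c6
  have c7 : AddMonoidAlgebra.single (-(P.toLinearMap y z)) (1 : ℂ) *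
      (AddMonoidAlgebra.single (P.toLinearMap y z) 1 *
        ∏ i ∈ posF b, (1 - AddMonoidAlgebra.single (-((k i : ℂ) + 1)) 1)) =
      ∏ i ∈ posF b, (1 - AddMonoidAlgebra.single (-((k i : ℂ) + 1)) 1) := by
    rw [← mul_assoc, AddMonoidAlgebra.single_mul_single, neg_add_cancel, one_mul,
      ← AddMonoidAlgebra.one_def, one_mul]
  have c8 : AddMonoidAlgebra.single (-(P.toLinearMap y z)) (1 : ℂ) *
      ((AddMonoidAlgebra.single (P.toLinearMap (rho b) z) 1 *
      ∏ i ∈ posF b, (1 - AddMonoidAlgebra.single (-(b.height i : ℂ)) 1)) *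
      ∑ a, AddMonoidAlgebra.single (P.toLinearMap (D.wt a) z) 1) =
      (∑ a, AddMonoidAlgebra.single (-(lev a : ℂ)) 1) *
        ∏ i ∈ posF b, (1 - AddMonoidAlgebra.single (-(b.height i : ℂ)) 1) := by
    have h1 : ∀ a, AddMonoidAlgebra.single (-(lev a : ℂ)) (1 : ℂ) =
        AddMonoidAlgebra.single (-(P.toLinearMap y z)) (1 : ℂ) *
          AddMonoidAlgebra.single (P.toLinearMap (rho b) z) 1 *
          AddMonoidAlgebra.single (P.toLinearMap (D.wt a) z) 1 := by
      intro a
      rw [AddMonoidAlgebra.single_mul_single, AddMonoidAlgebra.single_mul_single, one_mul, one_mul,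
        ← hlev a, hy]
      congr 1
      simp only [map_sub, map_add, LinearMap.sub_apply, LinearMap.add_apply]
      ring
    rw [Finset.sum_congr rfl fun a _ => h1 a, ← Finset.mul_sum]
    ring
  rw [c7, c8] at c6
  apply w7_phi_injective
  rw [map_mul, map_sum, map_prod, map_prod]
  simp only [map_sub, map_one, w7_phi_X_pow]
  have h2 : ∀ i ∈ posF b, (1 - AddMonoidAlgebra.single (-(((b.height i).toNat : ℕ) : ℂ)) (1 : ℂ)) =
      1 - AddMonoidAlgebra.single (-(b.height i : ℂ)) 1 := by
    intro i hi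
    have h3 : 0 < b.height i := (mem_posF b i).1 hi
    have h4 : (((b.height i).toNat : ℕ) : ℂ) = (b.height i : ℂ) := by
      rw [← Int.cast_natCast, Int.toNat_of_nonneg h3.le]
    rw [h4]
  rw [Finset.prod_congr rfl h2]
  push_cast
  exact c6

end rootsystem

end Pool.Agent.GP
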